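import Pool.Agent.J6H95.FJ.Mix

/-!
# Cylinders of an equivariant relation with local bounds
-/

set_option autoImplicit false

namespace Pool.Agent.J6H95.FJ

open SimpleGraph
open Subgroup
open Subgroup.Commensurable (commensurator)
open Pool.Agent.Y110.FJ
open Pool.Agent.N509.TK
open Pool.Agent.N509.TX (AcylF C_edge)
open Pool.Agent.R941.FJ (C_equiv C_le C_cyc mem_sup_normal)
open Pool.Agent.N431.CE (Es Es_comm Es_smul mem_Es)

variable {C : ∀ (G : Type) [Group G], Prop}
variable {G V : Type} [Group G] [MulAction G V] {T : SimpleGraph V}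

/-- the relation `r` for the edges with infinite stabilizers -/
def rq (G : Type) {V : Type} [Group G] [MulAction G V] (r : V → V → V → Prop) (v a b : V) : Prop :=
  a = b ∨ (Infinite (Es G v a) ∧ Infinite (Es G v b) ∧ r v a b)

theorem rq_LR {r : V → V → V → Prop} (hr : LR G T r) : LR G T (rq G r) where
  refl _ _ _ := Or.inl rfl
  symm v a b ha hb h := by
    rcases h with rfl | ⟨h1, h2, h3⟩
    · exact Or.inl rfl
    · exact Or.inr ⟨h2, h1, hr.symm v a b ha hb h3⟩
  trans v a b c ha hb hc h h' := by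
    rcases h with rfl | ⟨h1, h2, h3⟩
    · exact h'
    · rcases h' with rfl | ⟨h4, h5, h6⟩
      · exact Or.inr ⟨h1, h2, h3⟩
      · exact Or.inr ⟨h1, h5, hr.trans v a b c ha hb hc h3 h6⟩
  eqv g v a b h := by
    rcases h with rfl | ⟨h1, h2, h3⟩
    · exact Or.inl rfl
    · exact Or.inr ⟨Pool.Agent.N431.CE.inf_smul h1, Pool.Agent.N431.CE.inf_smul h2,
        hr.eqv g v a b h3⟩

/-- edges of one cylinder are equal or have infinite stabilizers -/
theorem rq_gen {r : V → V → V → Prop} {p q : Dt T} (h : Relation.EqvGen (lk T (rq G r)) p q) :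
    (q.1 = p.1 ∨ q.1 = p.1.swap) ∨ (Infinite (Es G p.1.1 p.1.2) ∧ Infinite (Es G q.1.1 q.1.2)) := by
  have hsw : ∀ p : V × V, Es G p.swap.1 p.swap.2 = Es G p.1 p.2 := fun p => Es_comm _ _
  induction h with
  | rel x y h =>
    rcases h with h | ⟨h1, h2⟩
    · exact Or.inl (Or.inr h)
    · rcases h2 with h2 | ⟨h2, h3, h4⟩
      · exact Or.inl (Or.inl (Prod.ext h1.symm h2.symm))
      · right
        rw [← h1]
        exact ⟨h2, h3⟩
  | refl x => exact Or.inl (Or.inl rfl)
  | symm x y _ ih =>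
    rcases ih with (h | h) | ⟨h1, h2⟩
    · exact Or.inl (Or.inl h.symm)
    · left
      right
      rw [h, Prod.swap_swap]
    · exact Or.inr ⟨h2, h1⟩
  | trans x y z _ _ ih1 ih2 =>
    rcases ih1 with (h | h) | ⟨h1, h2⟩ <;> rcases ih2 with (h' | h') | ⟨h1', h2'⟩
    · exact Or.inl (Or.inl (h'.trans h))
    · left
      right
      rw [h', h]
    · right
      rw [← h]
      exact ⟨h1', h2'⟩
    · left
      right
      rw [h', h]
    · left
      left
      rw [h', h, Prod.swap_swap]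
    · right
      rw [h, hsw] at h1'
      exact ⟨h1', h2'⟩
    · right
      rw [h']
      exact ⟨h1, h2⟩
    · right
      rw [h', hsw]
      exact ⟨h1, h2⟩
    · exact Or.inr ⟨h1, h2'⟩

/-- all edges of a cylinder of an edge with an infinite stabilizer have infinite stabilizers -/
theorem rq_inf {r : V → V → V → Prop} {v u v' u' : V} (h : T.Adj v u) (h' : T.Adj v' u')
    (hy : cy (rq G r) h = cy (rq G r) h') (hinf : Infinite (Es G v u)) : Infinite (Es G v' u') := by
  rcases rq_gen (p := dt h) (q := dt h') (Quotient.exact hy) with (h1 | h1) | ⟨_, h1⟩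
  · have h2 : v' = v := congrArg Prod.fst h1
    have h3 : u' = u := congrArg Prod.snd h1
    rw [h2, h3]
    exact hinf
  · have h2 : v' = u := congrArg Prod.fst h1
    have h3 : u' = v := congrArg Prod.snd h1
    rw [h2, h3, Es_comm]
    exact hinf
  · exact h1

/-- the stabilizer of a cylinder consisting of one edge with a finite stabilizer -/
theorem cyl_finq (hC : ClosedE C) {r : V → V → V → Prop}
    (hact : ∀ (g : G) (u v : V), T.Adj u v → T.Adj (g • u) (g • v))
    (hV : ∀ v : V, C ↥(MulAction.stabilizer G v)) {v0 a0 : V} (h0 : T.Adj v0 a0)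
    (hinf : ¬ Infinite (Es G v0 a0)) (K : Subgroup G)
    (hK : ∀ g ∈ K, Pres hact (cy (rq G r) h0) g) : C K := by
  refine C_edge hC v0 a0 (hV v0) K fun g hg => ?_
  have h1 := hK g hg v0 a0 h0 rfl
  rcases rq_gen (p := dt (hact g v0 a0 h0)) (q := dt h0) (Quotient.exact h1) with
    (h | h) | ⟨_, h⟩
  · exact Or.inl ⟨(congrArg Prod.fst h).symm, (congrArg Prod.snd h).symm⟩
  · exact Or.inr ⟨(congrArg Prod.snd h).symm, (congrArg Prod.fst h).symm⟩
  · exact absurd h hinf

/-- **cylinders with local bounds** -/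
theorem main_locr (hC : ClosedE C) (hA : AcylF C) (hT : T.IsTree)
    (hact : ∀ (g : G) (u v : V), T.Adj u v → T.Adj (g • u) (g • v))
    {r : V → V → V → Prop} (hr : LR G T r)
    (hV : ∀ v : V, C ↥(MulAction.stabilizer G v))
    (hint : ∀ v a : V, T.Adj v a → Infinite (Es G v a) → ∃ n : ℕ, ∀ b, T.Adj v b →
      Infinite (Es G v b) → ¬ r v a b →
        ∀ F : Finset G, (∀ g ∈ F, g ∈ Es G v a ∧ g ∈ Es G v b) → F.card ≤ n)
    (hY : ∀ (v u : V) (h : T.Adj v u), Infinite (Es G v u) → ∀ K : Subgroup G,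
      (∀ g ∈ K, Pres hact (cy (rq G r) h) g) → C K) : C G := by
  classical
  obtain ⟨o⟩ := hT.connected.nonempty
  refine Pool.Agent.Y430.SS.of_directed hC.base G (Finset G) (fun i j => ?_)
    (fun s => Subgroup.closure (s : Set G))
    (fun s t h => Subgroup.closure_mono (by exact_mod_cast h))
    (fun g => ⟨{g}, Subgroup.subset_closure (by simp)⟩) (fun S => ?_)
  · exact ⟨i ∪ j, Finset.subset_union_left, Finset.subset_union_right⟩
  obtain ⟨H, hH⟩ : ∃ H : Subgroup G, H = Subgroup.closure (S : Set G) := ⟨_, rfl⟩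
  show C (Subgroup.closure (S : Set G))
  rw [← hH]
  let w : ∀ g : G, T.Walk o (g • o) := fun g => (hT.connected.preconnected o (g • o)).some
  obtain ⟨Φ, hΦ⟩ : ∃ Φ : Finset (V × V),
      Φ = S.biUnion fun s => ((w s).darts.map fun d => d.toProd).toFinset := ⟨_, rfl⟩
  have hΦT : ∀ e ∈ Φ, T.Adj e.1 e.2 := by
    intro e he
    rw [hΦ, Finset.mem_biUnion] at he
    obtain ⟨s, -, he⟩ := he
    rw [List.mem_toFinset, List.mem_map] at he
    obtain ⟨d, -, rfl⟩ := he
    exact d.adj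
  -- a bound
  have hint' : ∀ v a : V, T.Adj v a → ∃ n : ℕ, Infinite (Es G v a) → ∀ b, T.Adj v b →
      Infinite (Es G v b) → ¬ r v a b →
        ∀ F : Finset G, (∀ g ∈ F, g ∈ Es G v a ∧ g ∈ Es G v b) → F.card ≤ n := by
    intro v a hva
    by_cases h : Infinite (Es G v a)
    · obtain ⟨n, hn⟩ := hint v a hva h
      exact ⟨n, fun _ => hn⟩
    · exact ⟨0, fun h' => absurd h' h⟩
  obtain ⟨n, hn⟩ : ∃ n : ℕ, ∀ e ∈ Φ, ∀ b, (T.Adj e.1 b → Infinite (Es G e.1 e.2) →
      Infinite (Es G e.1 b) → ¬ r e.1 e.2 b →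
      ∀ F : Finset G, (∀ g ∈ F, g ∈ Es G e.1 e.2 ∧ g ∈ Es G e.1 b) → F.card ≤ n) ∧
      (T.Adj e.2 b → Infinite (Es G e.2 e.1) → Infinite (Es G e.2 b) → ¬ r e.2 e.1 b →
      ∀ F : Finset G, (∀ g ∈ F, g ∈ Es G e.2 e.1 ∧ g ∈ Es G e.2 b) → F.card ≤ n) := by
    choose f hf using hint'
    refine ⟨Φ.sup fun e => if h : T.Adj e.1 e.2 then max (f e.1 e.2 h) (f e.2 e.1 h.symm) else 0,
      fun e he b => ?_⟩
    have h1 := hΦT e he
    have h2 : max (f e.1 e.2 h1) (f e.2 e.1 h1.symm) ≤ Φ.sup fun e =>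
        if h : T.Adj e.1 e.2 then max (f e.1 e.2 h) (f e.2 e.1 h.symm) else 0 := by
      have h3 := Finset.le_sup (f := fun e : V × V =>
        if h : T.Adj e.1 e.2 then max (f e.1 e.2 h) (f e.2 e.1 h.symm) else 0) he
      simp only [h1, dite_true] at h3
      exact h3
    constructor
    · intro hb hi1 hi2 hab F hF
      exact (hf e.1 e.2 h1 hi1 b hb hi2 hab F hF).trans ((le_max_left _ _).trans h2)
    · intro hb hi1 hi2 hab F hF
      exact (hf e.2 e.1 h1.symm hi1 b hb hi2 hab F hF).trans ((le_max_right _ _).trans h2)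
  obtain ⟨n', hn'⟩ : ∃ n' : ℕ, ∀ e ∈ Φ, Infinite (Es G e.1 e.2) ∨
      ∀ F : Finset G, (∀ g ∈ F, g ∈ Es G e.1 e.2) → F.card ≤ n' := by
    refine ⟨Φ.sup fun e => Nat.card (Es G e.1 e.2), fun e he => ?_⟩
    by_cases hfin : Infinite (Es G e.1 e.2)
    · exact Or.inl hfin
    · right
      intro F hF
      have hfin := not_infinite_iff_finite.1 hfin
      have h1 : F.card ≤ Nat.card (Es G e.1 e.2) := by
        have h2 := Nat.card_le_card_of_injective
          (fun x : F => (⟨x.1, hF x x.2⟩ : Es G e.1 e.2))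
          (fun a b hab => Subtype.ext (congrArg (fun z : Es G e.1 e.2 => (z : G)) hab))
        simpa using h2
      exact h1.trans (Finset.le_sup (f := fun e : V × V => Nat.card (Es G e.1 e.2)) he)
  obtain ⟨T', hT'⟩ : ∃ T' : SimpleGraph V, T' = tg T H (Φ : Set (V × V)) := ⟨_, rfl⟩
  have hle : T' ≤ T := by
    rw [hT']
    intro u v h
    exact h.1
  have hreach : ∀ g ∈ H, T'.Reachable o (g • o) := by
    intro g hg
    rw [hH] at hg
    induction hg using Subgroup.closure_induction with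
    | mem s hs =>
      rw [hT']
      refine tg_walk H _ (w s) fun d hd => ?_
      rw [hΦ]
      simp only [Finset.coe_biUnion, Set.mem_iUnion, Finset.mem_coe, List.mem_toFinset, List.mem_map]
      exact ⟨s, hs, d, hd, rfl⟩
    | one =>
      rw [one_smul]
    | mul a b ha hb iha ihb =>
      rw [mul_smul]
      refine iha.trans ?_
      rw [hT'] at ihb ⊢
      exact tg_reach hact H _ (hH ▸ ha) ihb
    | inv a ha iha =>
      have h1 : T'.Reachable (a⁻¹ • o) (a⁻¹ • a • o) := by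
        rw [hT'] at iha ⊢
        exact tg_reach hact H _ (H.inv_mem (hH ▸ ha)) iha
      rw [inv_smul_smul] at h1
      exact h1.symm
  have hTs : ∀ a ∈ H, ∀ x y : V, T'.Adj x y → T'.Adj (a • x) (a • y) := by
    intro a ha x y h
    rw [hT'] at h ⊢
    exact tg_smul hact H _ ha h
  have hTa : ∀ x y : V, T'.Adj x y → ∃ h ∈ H, (h • x, h • y) ∈ Φ ∨ (h • y, h • x) ∈ Φ := by
    intro x y h
    rw [hT'] at h
    exact h.2
  obtain ⟨c, hc⟩ : ∃ c : T'.ConnectedComponent, c = T'.connectedComponentMk o := ⟨_, rfl⟩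
  have hcm : ∀ x, x ∈ c.supp ↔ T'.Reachable o x := by
    intro x
    rw [hc, ConnectedComponent.mem_supp_iff, ConnectedComponent.eq]
    exact ⟨fun h => h.symm, fun h => h.symm⟩
  have hcs : ∀ (h : H) (x : V), x ∈ c.supp → (h : G) • x ∈ c.supp := by
    intro h x hx
    rw [hcm] at hx ⊢
    refine (hreach h h.2).trans ?_
    rw [hT'] at hx ⊢
    exact tg_reach hact H _ h.2 hx
  let _ : MulAction H c.supp :=
    { smul := fun h x => ⟨(h : G) • (x : V), hcs h x x.2⟩
      one_smul := fun x => Subtype.ext (one_smul G (x : V))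
      mul_smul := fun h k x => Subtype.ext (mul_smul (h : G) (k : G) (x : V)) }
  have hsm : ∀ (h : H) (x : c.supp), ((h • x : c.supp) : V) = (h : G) • (x : V) := fun _ _ => rfl
  have hadj : ∀ x y : c.supp, c.toSimpleGraph.Adj x y → T.Adj (x : V) (y : V) := fun x y h => hle h
  have hEs : ∀ (x y : c.supp) (g : H), g ∈ Es H x y ↔ (g : G) ∈ Es G (x : V) (y : V) := by
    intro x y g
    constructor
    · rintro ⟨h1, h2⟩
      exact ⟨congrArg Subtype.val h1, congrArg Subtype.val h2⟩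
    · rintro ⟨h1, h2⟩
      exact ⟨Subtype.ext h1, Subtype.ext h2⟩
  have hactH : ∀ (h : H) (x y : c.supp), c.toSimpleGraph.Adj x y →
      c.toSimpleGraph.Adj (h • x) (h • y) := by
    intro h x y hxy
    have h1 : T'.Adj (x : V) (y : V) := hxy
    exact hTs h h.2 _ _ h1
  have hmap : ∀ (k : G) (F : Finset H), (F.map ⟨fun g : H => k * (g : G) * k⁻¹, fun a b hab => by
      apply Subtype.ext
      exact mul_left_cancel (mul_right_cancel hab)⟩).card = F.card := fun k F => Finset.card_map _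
  have hcj : ∀ (k g : G) (z : V), g • z = z → (k * g * k⁻¹) • k • z = k • z := by
    intro k g z hz
    rw [mul_smul, mul_smul, inv_smul_smul, hz]
  -- the bounds for the subtree
  have hfinb : ∀ x a : c.supp, c.toSimpleGraph.Adj x a → Infinite (Es G (x : V) (a : V)) ∨
      ∀ F : Finset H, (∀ g ∈ F, g ∈ Es H x a) → F.card ≤ n' := by
    intro x a hxa
    obtain ⟨k, hk, h2⟩ := hTa _ _ (show T'.Adj (x : V) (a : V) from hxa)
    have h3 : Infinite (Es G (k • (x : V)) (k • (a : V))) ∨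
      ∀ F : Finset G, (∀ g ∈ F, g ∈ Es G (k • (x : V)) (k • (a : V))) → F.card ≤ n' := by
      rcases h2 with h2 | h2
      · exact hn' _ h2
      · have h3 := hn' _ h2
        rw [Es_comm]
        exact h3
    rcases h3 with h3 | h3
    · left
      have h9 := Pool.Agent.N431.CE.inf_smul (g := k⁻¹) h3
      rwa [inv_smul_smul, inv_smul_smul] at h9
    · right
      intro F hF
      rw [← hmap k F]
      refine h3 _ fun g hg => ?_
      obtain ⟨g0, hg0, rfl⟩ := Finset.mem_map.1 hg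
      have h9 := (hEs x a g0).1 (hF g0 hg0)
      exact ⟨hcj k g0 x h9.1, hcj k g0 a h9.2⟩
  have hbd : ∀ x a b : c.supp, c.toSimpleGraph.Adj x a → c.toSimpleGraph.Adj x b →
      ¬ rq G r (x : V) (a : V) (b : V) →
      ∀ F : Finset H, (∀ g ∈ F, g ∈ Es H x a ∧ g ∈ Es H x b) → F.card ≤ max n n' := by
    intro x a b hxa hxb hab F hF
    rcases hfinb x a hxa with hi1 | h1
    swap
    · exact (h1 F fun g hg => (hF g hg).1).trans (le_max_right _ _)
    rcases hfinb x b hxb with hi2 | h1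
    swap
    · exact (h1 F fun g hg => (hF g hg).2).trans (le_max_right _ _)
    have hnr : ¬ r (x : V) (a : V) (b : V) := fun h => hab (Or.inr ⟨hi1, hi2, h⟩)
    obtain ⟨k, hk, h2⟩ := hTa _ _ (show T'.Adj (x : V) (a : V) from hxa)
    have h3 : T.Adj (k • (x : V)) (k • (b : V)) := hact k _ _ (hadj x b hxb)
    have h4 : ¬ r (k • (x : V)) (k • (a : V)) (k • (b : V)) := by
      intro h
      have h5 := hr.eqv k⁻¹ _ _ _ h
      rw [inv_smul_smul, inv_smul_smul, inv_smul_smul] at h5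
      exact hnr h5
    have h5 : ∀ F : Finset G, (∀ g ∈ F, g ∈ Es G (k • (x : V)) (k • (a : V)) ∧
        g ∈ Es G (k • (x : V)) (k • (b : V))) → F.card ≤ n := by
      have h6 := Pool.Agent.N431.CE.inf_smul (g := k) hi1
      have h7 := Pool.Agent.N431.CE.inf_smul (g := k) hi2
      rcases h2 with h2 | h2
      · exact (hn _ h2 (k • (b : V))).1 h3 h6 h7 h4
      · exact (hn _ h2 (k • (b : V))).2 h3 h6 h7 h4
    rw [← hmap k F]
    refine (h5 _ fun g hg => ?_).trans (le_max_left _ _)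
    obtain ⟨g0, hg0, rfl⟩ := Finset.mem_map.1 hg
    obtain ⟨h7, h8⟩ := hF g0 hg0
    have h9 := (hEs x a g0).1 h7
    have h10 := (hEs x b g0).1 h8
    exact ⟨⟨hcj k g0 x h9.1, hcj k g0 a h9.2⟩, ⟨hcj k g0 x h9.1, hcj k g0 b h10.2⟩⟩
  have hrq := rq_LR hr
  obtain ⟨r', hr'd⟩ : ∃ r' : c.supp → c.supp → c.supp → Prop,
      ∀ x a b, r' x a b ↔ rq G r (x : V) (a : V) (b : V) := ⟨_, fun _ _ _ => Iff.rfl⟩
  have hr' : LR H c.toSimpleGraph r' :=
    { refl := fun x a hxa => (hr'd _ _ _).2 (hrq.refl _ _ (hadj _ _ hxa))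
      symm := fun x a b hxa hxb h => (hr'd _ _ _).2
        (hrq.symm _ _ _ (hadj _ _ hxa) (hadj _ _ hxb) ((hr'd _ _ _).1 h))
      trans := fun x a b d hxa hxb hxd h h' => (hr'd _ _ _).2
        (hrq.trans _ _ _ _ (hadj _ _ hxa) (hadj _ _ hxb) (hadj _ _ hxd) ((hr'd _ _ _).1 h)
          ((hr'd _ _ _).1 h'))
      eqv := fun g x a b h => (hr'd _ _ _).2 (hrq.eqv (g : G) _ _ _ ((hr'd _ _ _).1 h)) }
  have hgen : ∀ p q : Dt c.toSimpleGraph, Relation.EqvGen (lk c.toSimpleGraph r') p q →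
      cy (rq G r) (hadj _ _ p.2) = cy (rq G r) (hadj _ _ q.2) := by
    intro p q hpq
    induction hpq with
    | rel p q h =>
      obtain ⟨⟨x, a⟩, hxa⟩ := p
      obtain ⟨⟨x', b⟩, hxb⟩ := q
      rcases h with h | ⟨h1, h2⟩
      · have h3 : x' = a := congrArg Prod.fst h
        have h4 : b = x := congrArg Prod.snd h
        subst h3
        subst h4
        exact (cy_symm _).symm
      · change x = x' at h1
        subst h1
        change r' x a b at h2
        exact cy_rel _ _ ((hr'd _ _ _).1 h2)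
    | refl p => rfl
    | symm p q _ ih => exact ih.symm
    | trans p q s _ _ ih1 ih2 => exact ih1.trans ih2
  refine Pool.Agent.N431.CE.cylF (G := H) (V := c.supp) (T := c.toSimpleGraph) hC hA
    ((hT.isAcyclic.anti hle).isTree_connectedComponent c) hactH hr' (max n n') ?_ ?_ ?_
  · intro x a b hxa hxb hab F hF
    exact hbd x a b hxa hxb (fun h => hab ((hr'd _ _ _).2 h)) F fun g hg =>
      ⟨⟨(hF g hg).1, (hF g hg).2.1⟩, ⟨(hF g hg).1, (hF g hg).2.2⟩⟩
  · intro x
    refine hC.base.of_injective _ _ ((H.subtype.comp (Subgroup.subtype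
      (MulAction.stabilizer H x))).codRestrict (MulAction.stabilizer G (x : V)) ?_) ?_ (hV x)
    · rintro ⟨z, hz⟩
      exact congrArg Subtype.val hz
    · intro a b hab
      have h1 := congrArg Subtype.val hab
      exact Subtype.ext (Subtype.ext h1)
  · intro y K hK
    obtain ⟨⟨⟨x0, y0⟩, h0⟩, hy⟩ := Quotient.exists_rep y
    have h0 : c.toSimpleGraph.Adj x0 y0 := h0
    have hy : cy r' h0 = y := hy
    subst hy
    refine C_equiv hC.base (K.equivMapOfInjective H.subtype H.subtype_injective) ?_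
    have hP : ∀ g ∈ K.map H.subtype, Pres hact (cy (rq G r) (hadj _ _ h0)) g := by
      rintro _ ⟨g, hg, rfl⟩
      refine Pres_of hact hrq _ ?_
      have h1 := hK g hg x0 y0 h0 rfl
      exact hgen (dt (hactH g x0 y0 h0)) (dt h0) (Quotient.exact h1)
    by_cases hinf : Infinite (Es G (x0 : V) (y0 : V))
    · exact hY x0 y0 (hadj _ _ h0) hinf _ hP
    · exact cyl_finq hC hact hV (hadj _ _ h0) hinf _ hP

/-- the condition at the edge `(v, u)` for the relation `r` -/
def EL (C : ∀ (G : Type) [Group G], Prop) (G : Type) {V : Type} [Group G] [MulAction G V]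
    (T : SimpleGraph V) (r : V → V → V → Prop) (v u : V) : Prop :=
  ∃ (S : Subgroup G) (Q : Type) (_ : Group Q) (π : S →* Q) (P : Type) (_ : Group P) (f : G →* P),
    C Q ∧ C P ∧ (∀ g : G, g • v = v → r v u (g • u) → g ∈ S) ∧
    (∀ w, T.Adj v w → Infinite (Es G v w) → r v u w → ∀ x : S, (x : G) ∈ Es G v w → π x = 1) ∧
    ∀ x ∈ Es G v u, x ∈ ⁅π.ker.map S.subtype ⊓ f.ker, π.ker.map S.subtype ⊓ f.ker⁆ → x = 1

/-- **the local criterion** -/
theorem crit (hC : ClosedE C) (hM : ∀ (G : Type) [Group G], derivedSeries G 2 = ⊥ → C G)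
    (hA : AcylF C) (hT : T.IsTree)
    (hact : ∀ (g : G) (u v : V), T.Adj u v → T.Adj (g • u) (g • v))
    {r : V → V → V → Prop} (hr : LR G T r)
    (hV : ∀ v : V, C ↥(MulAction.stabilizer G v))
    (hint : ∀ v a : V, T.Adj v a → Infinite (Es G v a) → ∃ n : ℕ, ∀ b, T.Adj v b →
      Infinite (Es G v b) → ¬ r v a b →
        ∀ F : Finset G, (∀ g ∈ F, g ∈ Es G v a ∧ g ∈ Es G v b) → F.card ≤ n)
    (hE : ∀ v u : V, T.Adj v u → Infinite (Es G v u) → EL C G T r v u) : C G := by
  refine main_locr hC hA hT hact hr hV hint fun v0 u0 h0 hinf K hK => ?_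
  have hrq := rq_LR hr
  refine cyl_sub_R hC hM hT hact hrq _ K hK hV ?_
  intro v u hvu hy
  have hinf' : Infinite (Es G v u) := rq_inf h0 hvu hy.symm hinf
  obtain ⟨S, Q, _, π, P, _, f, hQ, hP, h1, h2, h3⟩ := hE v u hvu hinf'
  have h1' : ∀ g : G, g • v = v → rq G r v u (g • u) → g ∈ S := by
    intro g hg h
    refine h1 g hg ?_
    rcases h with h | ⟨_, _, h⟩
    · rw [← h]
      exact hr.refl v u hvu
    · exact h
  have hker : (f.comp (Subgroup.subtype (⊤ : Subgroup G))).ker.map (Subgroup.subtype ⊤) = f.ker := by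
    ext x
    constructor
    · rintro ⟨y, hy, rfl⟩
      exact hy
    · intro hx
      exact ⟨⟨x, Subgroup.mem_top x⟩, hx, rfl⟩
  refine ⟨S, ⊤, Q, _, π, P, _, f.comp (Subgroup.subtype ⊤), hQ, hP, ?_, le_top, ?_, ?_⟩
  · rintro g ⟨hgK, hgv⟩
    have hgv : g • v = v := hgv
    refine h1' g hgv ?_
    have h4 := hK g hgK v u hvu hy
    have h5 : T.Adj v (g • u) := by
      have := hact g _ _ hvu
      rwa [hgv] at this
    refine gl hT hrq hvu h5 ?_
    rw [hy, ← h4]
    exact cy_congr _ _ hgv rfl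
  · intro w hw hyw x _ hxv hxw
    have h4 : rq G r v u w := gl hT hrq hvu hw (hy.trans hyw.symm)
    have h5 : Infinite (Es G v w) := rq_inf hvu hw (hy.trans hyw.symm) hinf'
    refine h2 w hw h5 ?_ x ⟨hxv, hxw⟩
    rcases h4 with h4 | ⟨_, _, h4⟩
    · rw [← h4]
      exact hr.refl v u hvu
    · exact h4
  · intro x hxv hxu hx
    unfold Lk at hx
    rw [hker] at hx
    exact h3 x ⟨hxv, hxu⟩ hx

end Pool.Agent.J6H95.FJ
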