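import Pool.Agent.J6H95.FJ.Fe

/-!
# Extensions with abelian kernels
-/

set_option autoImplicit false

namespace Pool.Agent.J6H95.FJ

open SimpleGraph
open scoped commutatorElement
open Subgroup
open Pool.Agent.Y110.FJ
open Pool.Agent.N509.TK
open Pool.Agent.R941.FJ (C_equiv C_le C_cyc mem_sup_normal)

variable {C : ∀ (G : Type) [Group G], Prop}

/-- extensions with abelian kernels -/
theorem ab_ext (hC : ClosedE C) (hM : ∀ (G : Type) [Group G], derivedSeries G 2 = ⊥ → C G)
    {G : Type} [Group G] (N : Subgroup G) [N.Normal] (hab : ∀ x ∈ N, ∀ y ∈ N, x * y = y * x)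
    (hQ : C (G ⧸ N)) : C G := by
  have key : ∀ g : G, C ↥(N ⊔ Subgroup.zpowers g) := by
    intro g
    refine hM _ (metab (N.subgroupOf (N ⊔ Subgroup.zpowers g)) ?_ ?_)
    · intro x hx y hy
      exact Subtype.ext (hab x hx y hy)
    · rintro ⟨x, hx⟩ ⟨y, hy⟩
      obtain ⟨a, ha, _, ⟨i, rfl⟩, rfl⟩ := mem_sup_normal.1 hx
      obtain ⟨b, hb, _, ⟨j, rfl⟩, rfl⟩ := mem_sup_normal.1 hy
      rw [Subgroup.mem_subgroupOf]
      show ⁅a * g ^ i, b * g ^ j⁆ ∈ N
      rw [← QuotientGroup.eq_one_iff]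
      have h1 : ((⁅a * g ^ i, b * g ^ j⁆ : G) : G ⧸ N) =
          ⁅((a * g ^ i : G) : G ⧸ N), ((b * g ^ j : G) : G ⧸ N)⁆ := rfl
      rw [h1, QuotientGroup.mk_mul, QuotientGroup.mk_mul, (QuotientGroup.eq_one_iff a).2 ha,
        (QuotientGroup.eq_one_iff b).2 hb, one_mul, one_mul, commutatorElement_eq_one_iff_mul_comm]
      show ((g : G ⧸ N)) ^ i * ((g : G ⧸ N)) ^ j = _
      rw [← zpow_add, add_comm, zpow_add]
      rfl
  refine Pool.Agent.Y529.FJ.t_ext C hC _ N ?_ hQ fun g _ => key g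
  exact C_le hC.base le_sup_left (key 1)

/-- quotients and homomorphisms with the same kernel -/
theorem C_ker (hC : ClosedE C) {A B Q : Type} [Group A] [Group B] [Group Q] (φ : A →* B)
    (hφ : Function.Surjective φ) (π : A →* Q) (h : ∀ a, π a = 1 → φ a = 1)
    (h' : ∀ a, φ a = 1 → π a = 1) (hQ : C Q) : C B := by
  have h1 : C π.range := hC.base.of_injective _ _ π.range.subtype π.range.subtype_injective hQ
  have h2 : C (A ⧸ π.ker) := C_equiv hC.base (QuotientGroup.quotientKerEquivRange π) h1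
  have h3 : π.ker = φ.ker := by
    ext a
    exact ⟨h a, h' a⟩
  have h4 : C (A ⧸ φ.ker) := C_equiv hC.base (QuotientGroup.quotientMulEquivOfEq h3.symm) h2
  exact C_equiv hC.base (QuotientGroup.quotientKerEquivOfSurjective φ hφ).symm h4

/-- extensions with abelian kernels, with a homomorphism -/
theorem ab_hom (hC : ClosedE C) (hM : ∀ (G : Type) [Group G], derivedSeries G 2 = ⊥ → C G)
    {G Q : Type} [Group G] [Group Q] (π : G →* Q)
    (hab : ∀ x y, π x = 1 → π y = 1 → x * y = y * x) (hQ : C Q) : C G := by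
  refine ab_ext hC hM π.ker (fun x hx y hy => hab x y hx hy) ?_
  exact C_equiv hC.base (QuotientGroup.quotientKerEquivRange π)
    (hC.base.of_injective _ _ π.range.subtype π.range.subtype_injective hQ)

end Pool.Agent.J6H95.FJ
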