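import Pool.Agent.J6H95.FJ.Bal2

/-!
# The modular homomorphism of the commensurator of an infinite cyclic group
-/

set_option autoImplicit false

namespace Pool.Agent.J6H95.FJ

open Subgroup
open Subgroup.Commensurable (commensurator)
open Pool.Agent.Y110.FJ

variable {G : Type} [Group G]

/-- the conjugations of powers of `e` by elements of the commensurator -/
theorem comm_pow {e : G} (hinf : ∀ i : ℤ, e ^ i = 1 → i = 0) {g : G}
    (hg : g ∈ commensurator (zpowers e)) : ∃ a b : ℤ, a ≠ 0 ∧ b ≠ 0 ∧ g * e ^ a * g⁻¹ = e ^ b := by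
  rw [Pool.Agent.N431.CE.mem_comm_iff] at hg
  obtain ⟨m, hm, -, h2⟩ := Subgroup.exists_pow_mem_of_relIndex_ne_zero hg.1 (mem_zpowers e)
  obtain ⟨_, ⟨i, rfl⟩, hi⟩ := h2.1
  have hi : g * e ^ i * g⁻¹ = e ^ m := hi
  refine ⟨i, m, ?_, by exact_mod_cast hm.ne', by rw [zpow_natCast]; exact hi⟩
  rintro rfl
  rw [zpow_zero, mul_one, mul_inv_cancel] at hi
  have h2 := hinf m (by rw [zpow_natCast]; exact hi.symm)
  omega

theorem mod_uniq {e : G} (hinf : ∀ i : ℤ, e ^ i = 1 → i = 0) {g : G} {a b a' b' : ℤ}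
    (h : g * e ^ a * g⁻¹ = e ^ b) (h' : g * e ^ a' * g⁻¹ = e ^ b') : b * a' = b' * a := by
  have h1 : g * e ^ (a * a') * g⁻¹ = e ^ (b * a') := by
    rw [zpow_mul, zpow_mul, ← h, conj_zpow]
  have h2 : g * e ^ (a * a') * g⁻¹ = e ^ (b' * a) := by
    rw [mul_comm a a', zpow_mul, zpow_mul, ← h', conj_zpow]
  have h3 : e ^ (b * a' - b' * a) = 1 := by
    rw [zpow_sub, ← h1, h2, mul_inv_cancel]
  have h4 := hinf _ h3
  omega

/-- the modular homomorphism -/
theorem exists_mod {e : G} (hinf : ∀ i : ℤ, e ^ i = 1 → i = 0) :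
    ∃ f : commensurator (zpowers e) →* ℚˣ, ∀ g, f g = 1 → ∃ a : ℤ, a ≠ 0 ∧
      (g : G) * e ^ a * (g : G)⁻¹ = e ^ a := by
  have h1 : ∀ g : commensurator (zpowers e), ∃ a b : ℤ, a ≠ 0 ∧ b ≠ 0 ∧
      (g : G) * e ^ a * (g : G)⁻¹ = e ^ b := fun g => comm_pow hinf g.2
  choose a b ha hb hab using h1
  have ha' : ∀ g, ((a g : ℤ) : ℚ) ≠ 0 := fun g => by exact_mod_cast ha g
  have hb' : ∀ g, ((b g : ℤ) : ℚ) ≠ 0 := fun g => by exact_mod_cast hb g
  refine ⟨MonoidHom.mk' (fun g => Units.mk0 ((b g : ℚ) / (a g : ℚ)) (div_ne_zero (hb' g) (ha' g)))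
    ?_, ?_⟩
  · intro g h
    apply Units.ext
    show ((b (g * h) : ℤ) : ℚ) / (a (g * h) : ℤ) = (b g : ℚ) / (a g : ℚ) * ((b h : ℚ) / (a h : ℚ))
    have h2 : ((g * h : commensurator (zpowers e)) : G) * e ^ (a h * a g) *
        ((g * h : commensurator (zpowers e)) : G)⁻¹ = e ^ (b g * b h) := by
      have h3 : (h : G) * e ^ (a h * a g) * (h : G)⁻¹ = e ^ (a g * b h) := by
        rw [zpow_mul, mul_comm (a g), zpow_mul, ← hab h, conj_zpow]
      have h4 : (g : G) * e ^ (a g * b h) * (g : G)⁻¹ = e ^ (b g * b h) := by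
        rw [zpow_mul, zpow_mul, ← hab g, conj_zpow]
      rw [← h4, ← h3]
      show (g : G) * (h : G) * e ^ (a h * a g) * ((g : G) * (h : G))⁻¹ = _
      group
    have h3 := mod_uniq hinf (hab (g * h)) h2
    have h4 : ((b (g * h) : ℤ) : ℚ) * ((a h : ℚ) * (a g : ℚ)) = (b g : ℚ) * (b h : ℚ) *
        ((a (g * h) : ℤ) : ℚ) := by exact_mod_cast h3
    rw [div_mul_div_comm, div_eq_div_iff (ha' _) (mul_ne_zero (ha' g) (ha' h))]
    linarith
  · intro g hg
    refine ⟨a g, ha g, ?_⟩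
    have h2 : (b g : ℚ) / (a g : ℚ) = 1 := congrArg Units.val hg
    rw [div_eq_one_iff_eq (ha' g)] at h2
    have h3 : b g = a g := by exact_mod_cast h2
    have h4 := hab g
    rw [h3] at h4
    exact h4

end Pool.Agent.J6H95.FJ
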