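import Pool.Agent.J6H95.FJ.Lb
import Pool.Agent.J6H95.FJ.Mod

/-!
# Balanced cylinders with virtually cyclic edge groups
-/

set_option autoImplicit false

namespace Pool.Agent.J6H95.FJ

open SimpleGraph
open Subgroup
open Subgroup.Commensurable (commensurator)
open Pool.Agent.Y110.FJ
open Pool.Agent.N509.TK
open Pool.Agent.N509.TX (AcylF)
open Pool.Agent.R941.FJ (C_equiv C_le C_cyc mem_sup_normal)
open Pool.Agent.N431.CE (Es Es_comm Es_smul mem_Es rf rf_LR Rf Rf_gen)

variable {C : ∀ (G : Type) [Group G], Prop}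
variable {G V : Type} [Group G] [MulAction G V] {T : SimpleGraph V}

/-- `z` has infinite order -/
def InfOrd {G : Type} [Group G] (z : G) : Prop := ∀ i : ℤ, z ^ i = 1 → i = 0

theorem InfOrd.zpow {z : G} (hz : InfOrd z) {i : ℤ} (hi : i ≠ 0) : InfOrd (z ^ i) := by
  intro j hj
  rw [← zpow_mul] at hj
  rcases mul_eq_zero.1 (hz _ hj) with h | h
  · exact absurd h hi
  · exact h

theorem InfOrd.pow {z : G} (hz : InfOrd z) {i : ℕ} (hi : i ≠ 0) : InfOrd (z ^ i) := by
  rw [← zpow_natCast]
  exact hz.zpow (by exact_mod_cast hi)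

theorem InfOrd.infinite {z : G} (hz : InfOrd z) : Infinite (zpowers z) := by
  refine Infinite.of_injective (fun i : ℤ => (⟨z ^ i, i, rfl⟩ : zpowers z)) fun i j hij => ?_
  have h1 : z ^ i = z ^ j := congrArg Subtype.val hij
  have h2 := hz (i - j) (by rw [zpow_sub, h1, mul_inv_cancel])
  omega

theorem comm_fin {z : G} {E : Subgroup G} (hz : z ∈ E) (hi : (zpowers z).relIndex E ≠ 0) :
    Commensurable (zpowers z) E := by
  refine ⟨hi, ?_⟩
  rw [Subgroup.relIndex_eq_one.2 (zpowers_le.2 hz)]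
  exact one_ne_zero

/-- **balanced cylinders**: the edge groups are virtually infinite cyclic -/
theorem bal_cyl' (hC : ClosedE C) (hM : ∀ (G : Type) [Group G], derivedSeries G 2 = ⊥ → C G)
    (hA : AcylF C) (hT : T.IsTree) (hact : ∀ (g : G) (u v : V), T.Adj u v → T.Adj (g • u) (g • v))
    {v0 a0 : V} (h0 : T.Adj v0 a0) {e : G} (heE : e ∈ Es G v0 a0)
    (hei : (zpowers e).relIndex (Es G v0 a0) ≠ 0) (hinf : InfOrd e) (hbal : Balanced e)
    (hBQ : ∀ v u, T.Adj v u → Rf G (v0, a0) (v, u) → ∀ z ∈ Es G v u, InfOrd z → BQ C v z)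
    (K : Subgroup G) (hK : ∀ g ∈ K, Pres hact (cy (rf G) h0) g) : C K := by
  refine C_le hC.base (le_Kc hact _ K hK) ?_
  obtain ⟨K', hK'⟩ : ∃ K' : Subgroup G, K' = Kc hact (cy (rf G) h0) := ⟨_, rfl⟩
  rw [← hK']
  refine Pool.Agent.Y430.SS.of_directed hC.base K' ℕ
    (fun i j => ⟨max i j, le_max_left _ _, le_max_right _ _⟩)
    (fun i => (K' ⊓ Nm (e ^ (i.factorial))).subgroupOf K') ?_ ?_ ?_
  · intro i j hij x hx
    rw [mem_subgroupOf] at hx ⊢
    refine ⟨hx.1, ?_⟩
    obtain ⟨k, hk⟩ := Nat.factorial_dvd_factorial hij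
    rw [hk, pow_mul]
    exact Nm_pow _ k hx.2
  · rintro ⟨g, hg⟩
    have h1 : g ∈ commensurator (Es G v0 a0) := by
      rw [Commensurable.commensurator_mem_iff, ← Es_smul]
      have h2 := (hK' ▸ hg : g ∈ Kc hact (cy (rf G) h0)).1 v0 a0 h0 rfl
      exact (Rf_gen (p := dt (hact g v0 a0 h0)) (q := dt h0) (Quotient.exact h2)).comm
    rw [← Commensurable.eq (comm_fin heE hei)] at h1
    obtain ⟨i, m, hi0, hm0, hi⟩ := comm_pow hinf h1
    have h2 := hbal g i m hi0 hi
    have h3 : g ∈ Nm (e ^ i) := by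
      rcases h2 with h2 | h2
      · left
        rw [h2] at hi
        exact hi
      · right
        rw [h2, zpow_neg] at hi
        exact hi
    have h4 : g ∈ Nm (e ^ i.natAbs) := by
      rcases Int.natAbs_eq i with h5 | h5
      · rw [h5, zpow_natCast] at h3
        exact h3
      · rw [h5, zpow_neg, zpow_natCast] at h3
        rw [mem_Nm] at h3 ⊢
        have h6 : g * e ^ i.natAbs * g⁻¹ = (g * (e ^ i.natAbs)⁻¹ * g⁻¹)⁻¹ := by group
        rw [h6]
        rcases h3 with h3 | h3 <;> rw [h3]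
        · exact Or.inl (inv_inv _)
        · exact Or.inr (by rw [inv_inv])
    refine ⟨i.natAbs, ?_⟩
    rw [mem_subgroupOf]
    refine ⟨hg, ?_⟩
    obtain ⟨k, hk⟩ := Nat.dvd_factorial (Int.natAbs_pos.2 hi0) le_rfl
    show g ∈ Nm (e ^ (i.natAbs).factorial)
    rw [hk, pow_mul]
    exact Nm_pow _ k h4
  · intro i
    have h1 : C ↥(K' ⊓ Nm (e ^ i.factorial)) := by
      rw [hK']
      refine bal_one hC hM hA hT hact h0 (z := e ^ i.factorial) ?_ ?_ ?_
      · exact pow_mem heE _
      · exact Subgroup.relIndex_ne_zero_trans (rel_pow i.factorial_pos) hei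
      · intro v u hvu hR hz
        exact hBQ v u hvu hR _ hz (hinf.pow i.factorial_ne_zero)
    exact C_equiv hC.base (Subgroup.subgroupOfEquivOfLe inf_le_left) h1

/-- balanced virtually infinite cyclic edge groups -/
def BV (C : ∀ (G : Type) [Group G], Prop) (G : Type) {V : Type} [Group G] [MulAction G V]
    (T : SimpleGraph V) (v u : V) : Prop :=
  ∃ e ∈ Es G v u, (zpowers e).relIndex (Es G v u) ≠ 0 ∧ InfOrd e ∧ Balanced e ∧
    ∀ v' u' : V, T.Adj v' u' → Commensurable (Es G v' u') (Es G v u) →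
      ∀ z ∈ Es G v' u', InfOrd z → BQ C v' z

/-- **the general criterion** -/
theorem gen_loc (hC : ClosedE C) (hM : ∀ (G : Type) [Group G], derivedSeries G 2 = ⊥ → C G)
    (hA : AcylF C) (hT : T.IsTree) (hact : ∀ (g : G) (u v : V), T.Adj u v → T.Adj (g • u) (g • v))
    (hV : ∀ v : V, C ↥(MulAction.stabilizer G v)) (hint : IsoAt G T)
    (hE : ∀ v u : V, T.Adj v u → Infinite (Es G v u) → ER C G T v u ∨ BV C G T v u) : C G := by
  refine main_loc hC hA hT hact hV hint ?_
  intro v0 u0 h0 hinf K hK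
  by_cases h : ∃ (v u : V) (h : T.Adj v u), cy (rf G) h = cy (rf G) h0 ∧ BV C G T v u
  · obtain ⟨v, u, hvu, hy, e, he, hei, hinf', hbal, hBQ⟩ := h
    rw [← hy] at hK
    exact bal_cyl' hC hM hA hT hact hvu he hei hinf' hbal
      (fun v' u' hvu' hR z hz hz1 => hBQ v' u' hvu' hR.comm.symm z hz hz1) K hK
  · refine cyl_R hC hM hT hact hV h0 hinf K hK fun v u hvu hy => ?_
    have h1 : Rf G (v0, u0) (v, u) := Rf_gen (p := dt h0) (q := dt hvu) (Quotient.exact hy.symm)
    rcases hE v u hvu (h1.inf hinf) with h2 | h2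
    · exact h2
    · exact absurd ⟨v, u, hvu, hy, h2⟩ h

theorem comm_of_common {e e' : G} {i j : ℤ} (hi : i ≠ 0) (hj : j ≠ 0) (h : e ^ i = e' ^ j) :
    Commensurable (zpowers e) (zpowers e') := by
  have key : ∀ (e : G) (i : ℤ), i ≠ 0 → Commensurable (zpowers (e ^ i)) (zpowers e) := by
    intro e i hi
    have h1 : zpowers (e ^ i) = zpowers (e ^ i.natAbs) := by
      obtain ⟨a, rfl | rfl⟩ := Int.eq_nat_or_neg i
      · rw [Int.natAbs_natCast, zpow_natCast]
      · rw [Int.natAbs_neg, Int.natAbs_natCast, zpow_neg, zpow_natCast, zpowers_inv]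
    rw [h1]
    refine ⟨rel_pow (Int.natAbs_pos.2 hi), ?_⟩
    rw [Subgroup.relIndex_eq_one.2 (zpowers_le.2 (pow_mem (mem_zpowers e) _))]
    exact one_ne_zero
  have h1 := key e i hi
  have h2 := key e' j hj
  rw [← h] at h2
  exact h1.symm.trans h2

theorem Balanced.comm {e e' : G} (h : Balanced e') {m b : ℤ} (hm : m ≠ 0)
    (hmb : e' ^ m = e ^ b) : Balanced e := by
  intro g i j hi hg
  have h1 : g * e' ^ (i * m) * g⁻¹ = e' ^ (j * m) := by
    have h2 : e' ^ (i * m) = e ^ (i * b) := by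
      rw [mul_comm i m, zpow_mul, hmb, ← zpow_mul, mul_comm]
    have h3 : e' ^ (j * m) = e ^ (j * b) := by
      rw [mul_comm j m, zpow_mul, hmb, ← zpow_mul, mul_comm]
    rw [h2, h3, zpow_mul, zpow_mul, ← hg, conj_zpow]
  rcases h g _ _ (mul_ne_zero hi hm) h1 with h2 | h2
  · exact Or.inl (mul_right_cancel₀ hm h2)
  · right
    apply mul_right_cancel₀ hm
    rw [h2]
    ring

/-- `E` is virtually cyclic: a cyclic subgroup has finite index in `E` -/
def VC {G : Type} [Group G] (E : Subgroup G) : Prop := ∃ c ∈ E, (zpowers c).relIndex E ≠ 0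

/-- an element of infinite order of a virtually cyclic group generates a subgroup of finite index -/
theorem VC.comm {E : Subgroup G} (h : VC E) {x : G} (hx : x ∈ E) (hinf : InfOrd x) :
    Commensurable (zpowers x) E := by
  obtain ⟨c, hc, hci⟩ := h
  obtain ⟨m, hm, -, h2⟩ := Subgroup.exists_pow_mem_of_relIndex_ne_zero hci hx
  obtain ⟨b, hb⟩ := h2.1
  have hb : c ^ b = x ^ m := hb
  have hb0 : b ≠ 0 := by
    rintro rfl
    rw [zpow_zero] at hb
    have h3 := hinf m (by rw [zpow_natCast]; exact hb.symm)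
    omega
  have hm0 : (m : ℤ) ≠ 0 := by exact_mod_cast hm.ne'
  have h3 : Commensurable (zpowers x) (zpowers c) :=
    comm_of_common (i := m) (j := b) hm0 hb0 (by rw [zpow_natCast]; exact hb.symm)
  exact h3.trans (comm_fin hc hci)

theorem VC.relIndex {E : Subgroup G} (h : VC E) {x : G} (hx : x ∈ E) (hinf : InfOrd x) :
    (zpowers x).relIndex E ≠ 0 := (h.comm hx hinf).1

/-- infinite virtually cyclic groups contain an element of infinite order -/
theorem VC.exists_inf {E : Subgroup G} (h : VC E) (hE : Infinite E) : ∃ x ∈ E, InfOrd x := by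
  obtain ⟨c, hc, hci⟩ := h
  refine ⟨c, hc, fun i hi => ?_⟩
  by_contra h0
  have h1 : Finite (zpowers c) := by
    have h2 : IsOfFinOrder c := by
      rw [isOfFinOrder_iff_zpow_eq_one]
      exact ⟨i, h0, hi⟩
    exact h2.finite_zpowers.to_subtype
  have h2 : Finite ((zpowers c).subgroupOf E) := by
    refine Finite.of_injective (fun x : (zpowers c).subgroupOf E => (⟨((x : E) : G), x.2⟩ :
      zpowers c)) fun x y hxy => ?_
    exact Subtype.ext (Subtype.ext (congrArg (fun z : zpowers c => (z : G)) hxy))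
  have h3 : ((zpowers c).subgroupOf E).FiniteIndex := ⟨hci⟩
  have h4 : Finite (E ⧸ (zpowers c).subgroupOf E) := Subgroup.finite_quotient_of_finiteIndex
  have h5 : Finite E := Finite.of_subgroup_quotient ((zpowers c).subgroupOf E)
  exact not_finite E

/-- **virtually cyclic edge groups are isolated** -/
theorem iso_vc (hvc : ∀ v u : V, T.Adj v u → VC (Es G v u)) : IsoAt G T := by
  classical
  intro v a hva
  by_cases hfin : Infinite (Es G v a)
  · obtain ⟨c, hc, hinf⟩ := (hvc v a hva).exists_inf hfin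
    have hci := (hvc v a hva).relIndex hc hinf
    refine ⟨(zpowers c).relIndex (Es G v a), fun b hvb hab => ?_⟩
    by_cases h : ∃ x ∈ Es G v a ⊓ Es G v b, InfOrd x
    · left
      obtain ⟨x, hx, hxi⟩ := h
      have h1 := (hvc v a hva).comm hx.1 hxi
      have h2 := (hvc v b hvb).comm hx.2 hxi
      refine ⟨hfin, ?_, h1.symm.trans h2⟩
      have := hxi.infinite
      exact Infinite.of_injective (inclusion (zpowers_le.2 hx.2)) (inclusion_injective _)
    · right
      intro F hF
      have h1 : ((zpowers c).subgroupOf (Es G v a)).FiniteIndex := ⟨hci⟩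
      have h2 : Finite (Es G v a ⧸ (zpowers c).subgroupOf (Es G v a)) :=
        Subgroup.finite_quotient_of_finiteIndex
      have h3 := Nat.card_le_card_of_injective (fun x : F =>
        ((⟨x.1, (hF x x.2).1⟩ : Es G v a) : Es G v a ⧸ (zpowers c).subgroupOf (Es G v a))) (by
          intro x y hxy
          have h4 := QuotientGroup.eq.1 hxy
          rw [mem_subgroupOf] at h4
          have h4 : (x.1)⁻¹ * y.1 ∈ zpowers c := h4
          obtain ⟨i, hi⟩ := h4
          have hi : c ^ i = (x.1)⁻¹ * y.1 := hi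
          by_cases hi0 : i = 0
          · rw [hi0, zpow_zero] at hi
            exact Subtype.ext (inv_mul_eq_one.1 hi.symm)
          · exact absurd ⟨c ^ i, by
              rw [hi]
              exact mul_mem (inv_mem (hF x x.2)) (hF y y.2), hinf.zpow hi0⟩ h)
      have h5 : Nat.card F = F.card := by simp
      rw [h5] at h3
      exact h3
  · have hfin := not_infinite_iff_finite.1 hfin
    refine ⟨Nat.card (Es G v a), fun b _ _ => Or.inr fun F hF => ?_⟩
    have h2 := Nat.card_le_card_of_injective (fun x : F => (⟨x.1, (hF x x.2).1⟩ : Es G v a))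
      (fun x y hxy => Subtype.ext (congrArg (fun z : Es G v a => (z : G)) hxy))
    simpa using h2

end Pool.Agent.J6H95.FJ
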