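import Pool.Agent.J6H95.FJ.LinU
import Pool.Agent.J6H95.FJ.Bal3

/-!
# Linear vertex groups, virtually cyclic edge groups
-/

set_option autoImplicit false

namespace Pool.Agent.J6H95.FJ

open SimpleGraph
open Matrix (GeneralLinearGroup)
open Subgroup
open Subgroup.Commensurable (commensurator)
open Pool.Agent.Y110.FJ
open Pool.Agent.N509.TK
open Pool.Agent.N509.TX (AcylF)
open Pool.Agent.N431.CE (Es Es_comm Es_smul mem_Es rf rf_LR Rf Rf_gen Kv le_comm Cn mem_Cn comm_Cn)

variable {C : ∀ (G : Type) [Group G], Prop}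
variable {G V : Type} [Group G] [MulAction G V] {T : SimpleGraph V}

/-- unipotent elements of finite-order type only exist in characteristic zero -/
theorem char_zero_of {k : Type} [Field k] {d : ℕ} {x : GL (Fin d) k} (hinf : ∀ i : ℤ, x ^ i = 1 → i = 0)
    {M : ℕ} (hM0 : 0 < M) (hx : IsNilpotent ((x : Matrix (Fin d) (Fin d) k) ^ M - 1)) :
    CharZero k := by
  obtain ⟨p, hp⟩ := CharP.exists k
  rcases CharP.char_is_prime_or_zero k p with hpp | hp0
  · exfalso
    obtain ⟨r, hr⟩ := hx
    have : Fact p.Prime := ⟨hpp⟩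
    have hr2 : r ≤ p ^ r := (Nat.lt_pow_self hpp.one_lt).le
    have h2 : ((x : Matrix (Fin d) (Fin d) k) ^ M - 1) ^ (p ^ r) = 0 := pow_eq_zero_of_le hr2 hr
    have hCP : CharP (Matrix (Fin d) (Fin d) k) p ∨ Subsingleton (Matrix (Fin d) (Fin d) k) := by
      rcases Nat.eq_zero_or_pos d with h0 | h0
      · right
        rw [h0]
        infer_instance
      · left
        have : Nonempty (Fin d) := ⟨⟨0, h0⟩⟩
        infer_instance
    have h3 : (x : Matrix (Fin d) (Fin d) k) ^ (M * p ^ r) = 1 := by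
      rcases hCP with h4 | h4
      · rw [sub_pow_char_pow_of_commute _ _ (Commute.one_right _), one_pow, sub_eq_zero,
          ← pow_mul] at h2
        exact h2
      · exact Subsingleton.elim _ _
    have h4 : x ^ (M * p ^ r) = 1 := by
      apply Units.ext
      rw [Units.val_pow_eq_pow_val, h3, Units.val_one]
    have h7 := hinf ((M * p ^ r : ℕ) : ℤ) (by rw [zpow_natCast]; exact h4)
    have h8 : 0 < M * p ^ r := Nat.mul_pos hM0 (pow_pos hpp.pos _)
    omega
  · subst hp0
    exact CharP.charP_to_charZero k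

/-- finite groups are virtually cyclic -/
theorem VC_fin {E : Subgroup G} (h : Finite E) : VC E := by
  refine ⟨1, one_mem _, ?_⟩
  exact Subgroup.index_ne_zero_of_finite

theorem VC_cyc {E : Subgroup G} {e : G} (h : E = zpowers e) : VC E := by
  refine ⟨e, by rw [h]; exact mem_zpowers e, ?_⟩
  rw [h, relIndex_self]
  exact one_ne_zero

/-- **linear vertex groups and virtually cyclic edge groups** -/
theorem lin_loc (hC : ClosedE C) (hM : ∀ (G : Type) [Group G], derivedSeries G 2 = ⊥ → C G)
    (hA : AcylF C) (hT : T.IsTree)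
    (hact : ∀ (g : G) (u v : V), T.Adj u v → T.Adj (g • u) (g • v))
    (k : V → Type) [∀ v, Field (k v)] (hk : ∀ v, ∀ m : ℕ, C (GL (Fin m) (k v)))
    (d : V → ℕ) (ρ : ∀ v : V, MulAction.stabilizer G v →* GL (Fin (d v)) (k v))
    (hρ : ∀ v, Function.Injective (ρ v))
    (hE : ∀ v u : V, T.Adj v u → Finite (Es G v u) ∨
      (VC (Es G v u) ∧ ∃ e ∈ Es G v u, InfOrd e ∧ Balanced e) ∨
      ∃ e : G, Es G v u = zpowers e ∧
        (CharZero (k v) → ∀ h : e ∈ MulAction.stabilizer G v, OneEig (ρ v ⟨e, h⟩))) :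
    C G := by
  have hVC : ∀ v u : V, T.Adj v u → VC (Es G v u) := by
    intro v u h
    rcases hE v u h with h1 | ⟨h1, _⟩ | ⟨e, h1, _⟩
    · exact VC_fin h1
    · exact h1
    · exact VC_cyc h1
  refine gen_loc hC hM hA hT hact (fun v => hC.base.of_injective _ _ (ρ v) (hρ v) (hk v _))
    (iso_vc hVC) ?_
  intro v u huv hinf
  by_cases hbal : ∃ e ∈ Es G v u, InfOrd e ∧ Balanced e
  · obtain ⟨e, he, hei, hb⟩ := hbal
    right
    refine ⟨e, he, (hVC v u huv).relIndex he hei, hei, hb, fun v' u' h' _ z hz _ => ?_⟩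
    exact BQ_lin hC hM (hk v') (ρ v') (hρ v') hz.1
  · left
    -- edge groups commensurable with this one
    have key : ∀ w, T.Adj v w → Infinite (Es G v w) → Commensurable (Es G v w) (Es G v u) →
        ∃ e' : G, Es G v w = zpowers e' ∧ (∀ i : ℤ, e' ^ i = 1 → i = 0) ∧
          (CharZero (k v) → ∀ h : e' ∈ MulAction.stabilizer G v, OneEig (ρ v ⟨e', h⟩)) := by
      intro w hvw hwinf hwc
      rcases hE v w hvw with h1 | ⟨h1, e', he', hei', hb'⟩ | ⟨e', he', hone⟩
      · exact absurd hwinf (not_infinite_iff_finite.2 h1)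
      · exfalso
        obtain ⟨x, hx, hxi⟩ := (hVC v u huv).exists_inf hinf
        have h2 : Commensurable (zpowers e') (zpowers x) :=
          (h1.comm he' hei').trans (hwc.trans ((hVC v u huv).comm hx hxi).symm)
        obtain ⟨m, b, hm, _, hmb⟩ := common_pow hei' h2
        exact hbal ⟨x, hx, hxi, hb'.comm hm hmb⟩
      · refine ⟨e', he', ?_, hone⟩
        intro i hi
        by_contra h0
        have h2 : IsOfFinOrder e' := by
          rw [isOfFinOrder_iff_zpow_eq_one]
          exact ⟨i, h0, hi⟩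
        have h3 : Finite (zpowers e') := h2.finite_zpowers.to_subtype
        rw [he'] at hwinf
        exact absurd hwinf (not_infinite_iff_finite.2 h3)
    obtain ⟨e, he, hei, hc⟩ := key u huv hinf (Commensurable.refl _)
    have hev : e ∈ MulAction.stabilizer G v := by
      have h1 : e ∈ Es G v u := by
        rw [he]
        exact mem_zpowers e
      exact h1.1
    by_cases hbig : ∀ M : ℕ, 0 < M →
        ¬ IsNilpotent ((ρ v ⟨e, hev⟩ : Matrix (Fin (d v)) (Fin (d v)) (k v)) ^ M - 1)
    · exact ER_big hC hM he hei (ρ v) hev hbig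
    push Not at hbig
    obtain ⟨M, hM0, hx⟩ := hbig
    have hchar : CharZero (k v) := by
      refine char_zero_of (x := ρ v ⟨e, hev⟩) ?_ hM0 hx
      intro i hi
      rw [← map_zpow] at hi
      have h5 := hρ v (hi.trans (map_one _).symm)
      exact hei i (congrArg Subtype.val h5)
    refine ER_uni hC (hk v) he hei (ρ v) (hρ v) hev hM0 hx (hc hchar hev) ?_
    intro w hvw hwinf hwc
    obtain ⟨e', he', hei', hc'⟩ := key w hvw hwinf hwc
    exact ⟨e', he', hei', hc' hchar⟩

end Pool.Agent.J6H95.FJ
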