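import Pool.Agent.J6H95.FJ.Ab

/-!
# Cylinders with cyclic edge groups: the balanced case
-/

set_option autoImplicit false

namespace Pool.Agent.J6H95.FJ

open SimpleGraph
open scoped commutatorElement
open Subgroup
open Subgroup.Commensurable (commensurator)
open Pool.Agent.Y110.FJ
open Pool.Agent.N509.TK
open Pool.Agent.N509.TX (AcylF C_edge)
open Pool.Agent.R941.FJ (C_equiv C_le C_cyc mem_sup_normal)
open Pool.Agent.N431.CE (Es Es_comm Es_smul mem_Es rf rf_LR Rf Rf_gen Kv le_comm)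

variable {C : ∀ (G : Type) [Group G], Prop}

/-- the elements `g` with `g z g⁻¹ = z` or `g z g⁻¹ = z⁻¹` -/
def Nm {G : Type} [Group G] (z : G) : Subgroup G where
  carrier := {g | g * z * g⁻¹ = z ∨ g * z * g⁻¹ = z⁻¹}
  one_mem' := Or.inl (by group)
  mul_mem' := by
    intro g h hg hh
    have h1 : g * h * z * (g * h)⁻¹ = g * (h * z * h⁻¹) * g⁻¹ := by group
    have h2 : g * z⁻¹ * g⁻¹ = (g * z * g⁻¹)⁻¹ := by group
    show g * h * z * (g * h)⁻¹ = z ∨ g * h * z * (g * h)⁻¹ = z⁻¹
    rw [h1]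
    rcases hh with hh | hh <;> rcases hg with hg | hg <;> rw [hh]
    · exact Or.inl hg
    · exact Or.inr hg
    · rw [h2, hg]
      exact Or.inr rfl
    · rw [h2, hg, inv_inv]
      exact Or.inl rfl
  inv_mem' := by
    intro g hg
    show g⁻¹ * z * g⁻¹⁻¹ = z ∨ g⁻¹ * z * g⁻¹⁻¹ = z⁻¹
    rcases hg with hg | hg
    · left
      have h1 : g⁻¹ * (g * z * g⁻¹) * g = z := by group
      rw [hg] at h1
      rw [inv_inv]
      exact h1
    · right
      have h1 : g⁻¹ * (g * z * g⁻¹) * g = z := by group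
      rw [hg] at h1
      rw [inv_inv]
      calc g⁻¹ * z * g = (g⁻¹ * z⁻¹ * g)⁻¹ := by group
        _ = z⁻¹ := by rw [h1]

theorem mem_Nm {G : Type} [Group G] {z g : G} :
    g ∈ Nm z ↔ g * z * g⁻¹ = z ∨ g * z * g⁻¹ = z⁻¹ := Iff.rfl

theorem Nm_pow {G : Type} [Group G] (z : G) (k : ℕ) : Nm z ≤ Nm (z ^ k) := by
  intro g hg
  have h1 : g * z ^ k * g⁻¹ = (g * z * g⁻¹) ^ k := (conj_pow).symm
  rw [mem_Nm] at hg ⊢
  rw [h1]
  rcases hg with hg | hg <;> rw [hg]
  · exact Or.inl rfl
  · exact Or.inr (inv_pow z k)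

/-- the elements of the stabilizer of `v` which centralize or invert `z` -/
def Nz {G V : Type} [Group G] [MulAction G V] (v : V) (z : G) : Subgroup G :=
  MulAction.stabilizer G v ⊓ Nm z

/-- the quotient of `Nz v z` by `⟨z⟩` is in the class: there is a homomorphism from `Nz v z` to a group in `C`
with kernel `⟨z⟩` -/
def BQ (C : ∀ (G : Type) [Group G], Prop) {G V : Type} [Group G] [MulAction G V] (v : V) (z : G) :
    Prop :=
  ∃ (Q : Type) (_ : Group Q) (π : Nz v z →* Q), C Q ∧ ∀ x, π x = 1 ↔ (x : G) ∈ zpowers z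

/-- `e` is balanced: `g e ^ a g⁻¹ = e ^ b` with `a ≠ 0` is only possible for `b = ± a` -/
def Balanced {G : Type} [Group G] (e : G) : Prop :=
  ∀ (g : G) (a b : ℤ), a ≠ 0 → g * e ^ a * g⁻¹ = e ^ b → b = a ∨ b = -a

variable {G V : Type} [Group G] [MulAction G V] {T : SimpleGraph V}

/-- the path between two fixed points is fixed -/
theorem fix_path (hT : T.IsTree) (hact : ∀ (g : G) (u v : V), T.Adj u v → T.Adj (g • u) (g • v))
    {z : G} {v u : V} (hu : z • u = u) (p : T.Walk v u) (hp : p.IsPath) (hv : z • v = v) :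
    ∀ x ∈ p.support, z • x = x := by
  induction p with
  | nil =>
    intro x hx
    rw [Walk.support_nil, List.mem_singleton] at hx
    rw [hx]
    exact hv
  | @cons v w u h p ih =>
    rw [Walk.cons_isPath_iff] at hp
    have h1 : St T v w u := ⟨h, p, hp.2⟩
    have h2 := St_smul hact z h1
    rw [hv, hu] at h2
    have hw : z • w = w := St_unique hT.isAcyclic h2 h1
    intro x hx
    rw [Walk.support_cons, List.mem_cons] at hx
    rcases hx with rfl | hx
    · exact hv
    · exact ih hu hp.1 hw x hx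

/-- the group of all elements which preserve a cylinder -/
def Kc (hact : ∀ (g : G) (u v : V), T.Adj u v → T.Adj (g • u) (g • v)) {r : V → V → V → Prop}
    (y : Cyl T r) : Subgroup G where
  carrier := {g | Pres hact y g ∧ Pres hact y g⁻¹}
  one_mem' := by
    have h1 : Pres hact y 1 := by
      intro v a h hy
      rw [← hy]
      exact cy_congr _ _ (one_smul G v) (one_smul G a)
    exact ⟨h1, by rw [inv_one]; exact h1⟩
  mul_mem' := by
    have key : ∀ g h : G, Pres hact y g → Pres hact y h → Pres hact y (g * h) := by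
      intro g h hg hh v a hva hy
      rw [← hg _ _ _ (hh v a hva hy)]
      exact cy_congr _ _ (mul_smul g h v) (mul_smul g h a)
    rintro g h ⟨hg, hg'⟩ ⟨hh, hh'⟩
    refine ⟨key g h hg hh, ?_⟩
    rw [mul_inv_rev]
    exact key _ _ hh' hg'
  inv_mem' := by
    rintro g ⟨hg, hg'⟩
    exact ⟨hg', by rw [inv_inv]; exact hg⟩

theorem le_Kc (hact : ∀ (g : G) (u v : V), T.Adj u v → T.Adj (g • u) (g • v))
    {r : V → V → V → Prop} (y : Cyl T r) (K : Subgroup G) (hK : ∀ g ∈ K, Pres hact y g) :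
    K ≤ Kc hact y := fun g hg => ⟨hK g hg, hK _ (inv_mem hg)⟩

/-- the elements which fix an edge preserve its cylinder -/
theorem fix_Pres (hact : ∀ (g : G) (u v : V), T.Adj u v → T.Adj (g • u) (g • v))
    {r : V → V → V → Prop} (hr : LR G T r) {v u : V} (h : T.Adj v u) {g : G} (hg : g ∈ Es G v u) :
    g ∈ Kc hact (cy r h) := by
  have key : ∀ g ∈ Es G v u, Pres hact (cy r h) g := by
    intro g hg v' a h' hy
    have h1 : (cyAct hact hr).smul g (cy r h') = (cyAct hact hr).smul g (cy r h) := by rw [hy]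
    rw [cyAct_cy, cyAct_cy] at h1
    rw [h1]
    exact cy_congr _ _ hg.1 hg.2
  exact ⟨key g hg, key _ (inv_mem hg)⟩

end Pool.Agent.J6H95.FJ
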