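import Pool.Agent.J6H95.FJ.Qa

/-!
# Cylinders with cyclic edge groups: the balanced case, second part
-/

set_option autoImplicit false

namespace Pool.Agent.J6H95.FJ

open SimpleGraph
open scoped commutatorElement
open Subgroup
open Subgroup.Commensurable (commensurator)
open Pool.Agent.Y110.FJ
open Pool.Agent.N509.TK
open Pool.Agent.N509.TX (AcylF C_edge)
open Pool.Agent.R941.FJ (C_equiv C_le C_cyc mem_sup_normal)
open Pool.Agent.N431.CE (Es Es_comm Es_smul mem_Es rf rf_LR Rf Rf_gen Kv le_comm)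

variable {C : ∀ (G : Type) [Group G], Prop}
variable {G V : Type} [Group G] [MulAction G V] {T : SimpleGraph V}

theorem Nm_zpow {z g : G} (hg : g ∈ Nm z) (i : ℤ) : ∃ j : ℤ, g * z ^ i * g⁻¹ = z ^ j := by
  have h1 : g * z ^ i * g⁻¹ = (g * z * g⁻¹) ^ i := (conj_zpow).symm
  rcases hg with hg | hg
  · exact ⟨i, by rw [h1, hg]⟩
  · exact ⟨-i, by rw [h1, hg, inv_zpow, zpow_neg]⟩

/-- the elements of the stabilizer of a cylinder which centralize or invert a nontrivial element of the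
edge groups -/
theorem bal_one (hC : ClosedE C) (hM : ∀ (G : Type) [Group G], derivedSeries G 2 = ⊥ → C G)
    (hA : AcylF C) (hT : T.IsTree) (hact : ∀ (g : G) (u v : V), T.Adj u v → T.Adj (g • u) (g • v))
    {v0 a0 : V} (h0 : T.Adj v0 a0) {z : G} (hz : z ∈ Es G v0 a0)
    (hzi : (zpowers z).relIndex (Es G v0 a0) ≠ 0)
    (hBQ : ∀ v u, T.Adj v u → Rf G (v0, a0) (v, u) → z ∈ Es G v u → BQ C v z) :
    C ↥(Kc hact (cy (rf G) h0) ⊓ Nm z) := by
  obtain ⟨y, hy⟩ : ∃ y : Cyl T (rf G), y = cy (rf G) h0 := ⟨_, rfl⟩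
  have hzK : z ∈ Kc hact y := by
    rw [hy]
    exact fix_Pres hact (rf_LR (T := T)) h0 hz
  have hzN : z ∈ Nm z := Or.inl (by group)
  rw [← hy]
  obtain ⟨H, hH⟩ : ∃ H : Subgroup G, H = Kc hact y ⊓ Nm z := ⟨_, rfl⟩
  rw [← hH]
  have hr := rf_LR (G := G) (T := T)
  have hRf : ∀ (v u : V) (h : T.Adj v u), cy (rf G) h = y → Rf G (v0, a0) (v, u) := by
    intro v u h hvu
    exact Rf_gen (p := dt h0) (q := dt h) (Quotient.exact (hy.symm.trans hvu.symm))
  have hzp : ∀ (v : V), z • v = v → ∀ i : ℤ, z ^ i • v = v := by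
    intro v hv i
    have h1 : z ∈ MulAction.stabilizer G v := hv
    exact zpow_mem h1 i
  have hHz : ∀ h ∈ H, ∀ v : V, z • v = v → z • h • v = h • v := by
    intro h hh v hv
    have h1 : h⁻¹ ∈ Nm z := inv_mem ((hH ▸ hh : h ∈ Kc hact y ⊓ Nm z).2)
    obtain ⟨j, hj⟩ := Nm_zpow h1 1
    rw [zpow_one, inv_inv] at hj
    have h2 : z * h = h * z ^ j := by rw [← hj]; group
    rw [← mul_smul, h2, mul_smul, hzp v hv]
  have hHm : ∀ h ∈ H, ∀ v : V, Mem y v → Mem y (h • v) := fun h hh v hv =>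
    ((hH ▸ hh : h ∈ Kc hact y ⊓ Nm z).1).1.mem hv
  obtain ⟨X, hX⟩ : ∃ X : Set V, X = {v : V | Mem y v ∧ z • v = v} := ⟨_, rfl⟩
  have hXm : ∀ v, v ∈ X ↔ Mem y v ∧ z • v = v := fun v => by rw [hX]; rfl
  have hHX : ∀ (h : H) (v : V), v ∈ X → (h : G) • v ∈ X := by
    intro h v hv
    rw [hXm] at hv ⊢
    exact ⟨hHm h h.2 v hv.1, hHz h h.2 v hv.2⟩
  let _ : MulAction H X :=
    { smul := fun h x => ⟨(h : G) • (x : V), hHX h x x.2⟩
      one_smul := fun x => Subtype.ext (one_smul G (x : V))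
      mul_smul := fun h k x => Subtype.ext (mul_smul (h : G) (k : G) (x : V)) }
  have hsm : ∀ (h : H) (x : X), ((h • x : X) : V) = (h : G) • (x : V) := fun _ _ => rfl
  have htree : (T.induce X).IsTree := by
    refine ⟨?_, hT.isAcyclic.induce _⟩
    have : Nonempty X := ⟨⟨v0, (hXm v0).2 ⟨by rw [hy]; exact Mem_cy h0, hz.1⟩⟩⟩
    refine ⟨fun v u => ?_⟩
    obtain ⟨p, hp, -⟩ := hT.existsUnique_path (v : V) (u : V)
    refine ⟨p.induce _ fun x hx => (hXm x).2 ⟨?_, ?_⟩⟩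
    · exact path_mem hT hr ((hXm _).1 v.2).1 ((hXm _).1 u.2).1 p hp x hx
    · exact fix_path hT hact ((hXm _).1 u.2).2 p hp ((hXm _).1 v.2).2 x hx
  have hzH : z ∈ H := by
    rw [hH]
    exact ⟨hzK, hzN⟩
  obtain ⟨Z, hZ⟩ : ∃ Z : Subgroup H, Z = (zpowers z).subgroupOf H := ⟨_, rfl⟩
  have hZm : ∀ x : H, x ∈ Z ↔ (x : G) ∈ zpowers z := fun x => by rw [hZ]; exact mem_subgroupOf
  have hZn : Z.Normal := by
    refine ⟨fun x hx h => ?_⟩
    rw [hZm] at hx ⊢
    obtain ⟨i, hi⟩ := hx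
    obtain ⟨j, hj⟩ := Nm_zpow ((hH ▸ h.2 : (h : G) ∈ Kc hact y ⊓ Nm z).2) i
    exact ⟨j, by
      show z ^ j = (h : G) * (x : G) * (h : G)⁻¹
      rw [← hj, ← hi]⟩
  -- the conditions at the vertices
  have hvert : ∀ x : X, BQ C (x : V) z := by
    intro x
    obtain ⟨hxm, hxz⟩ := (hXm _).1 x.2
    by_cases hxv : (x : V) = v0
    · rw [hxv]
      exact hBQ v0 a0 h0 (Or.inl (Or.inl rfl)) hz
    · obtain ⟨s, hs⟩ := St_exists hT hxv
      have hm0 : Mem y v0 := by
        rw [hy]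
        exact Mem_cy h0
      have h1 : cy (rf G) hs.1 = y := f1 hT hr hxm hm0 hs
      have h2 : z • s = s := by
        have h3 := St_smul hact z hs
        rw [hxz, hz.1] at h3
        exact St_unique hT.isAcyclic h3 hs
      exact hBQ _ _ hs.1 (hRf _ _ _ h1) ⟨hxz, h2⟩
  have hquot : C (H ⧸ Z) := by
    refine quot_act hC hA htree ?_ Z ?_ ?_ ?_
    · intro g u v huv
      exact hact g u v huv
    · intro x hx v
      rw [hZm] at hx
      obtain ⟨i, hi⟩ := hx
      apply Subtype.ext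
      rw [hsm, ← hi]
      exact hzp v ((hXm _).1 v.2).2 i
    · intro x
      obtain ⟨Q, _, π, hQ, hπ⟩ := hvert x
      have h1 : ∀ a : MulAction.stabilizer H x, ((a : H) : G) ∈ Nz (x : V) z := fun a =>
        ⟨congrArg Subtype.val a.2, (hH ▸ a.1.2 : ((a : H) : G) ∈ Kc hact y ⊓ Nm z).2⟩
      refine ⟨Q, _, π.comp ((H.subtype.comp (Subgroup.subtype
        (MulAction.stabilizer H x))).codRestrict (Nz (x : V) z) h1), hQ, fun a => ?_⟩
      rw [hZm]
      exact hπ ⟨((a : H) : G), h1 a⟩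
    · intro u w huw
      have h1 : T.Adj (u : V) (w : V) := huw
      have h2 : cy (rf G) h1 = y := adj_cy hT hr ((hXm _).1 u.2).1 ((hXm _).1 w.2).1 h1
      have h3 : Commensurable (Es G v0 a0) (Es G (u : V) (w : V)) := (hRf _ _ _ h2).comm
      have h4 : (zpowers z).relIndex (Es G (u : V) (w : V)) ≠ 0 := by
        refine Subgroup.relIndex_ne_zero_trans (K := Es G v0 a0) ?_ ?_
        · exact hzi
        · exact h3.1
      have h5 : Es H u w = (Es G (u : V) (w : V)).comap H.subtype := by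
        ext x
        constructor
        · rintro ⟨h6, h7⟩
          exact ⟨congrArg Subtype.val h6, congrArg Subtype.val h7⟩
        · rintro ⟨h6, h7⟩
          exact ⟨Subtype.ext h6, Subtype.ext h7⟩
      have h6 : Z = (zpowers z).comap H.subtype := hZ
      rw [h5, h6]
      exact relIndex_comap_ne_zero H.subtype h4
  have hab : ∀ x ∈ Z, ∀ x' ∈ Z, x * x' = x' * x := by
    intro x hx x' hx'
    rw [hZm] at hx hx'
    obtain ⟨i, hi⟩ := hx
    obtain ⟨j, hj⟩ := hx'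
    apply Subtype.ext
    show (x : G) * (x' : G) = (x' : G) * (x : G)
    rw [← hi, ← hj]
    show z ^ i * z ^ j = z ^ j * z ^ i
    rw [← zpow_add, ← zpow_add, add_comm]
  exact ab_ext hC hM Z hab hquot

/-- the powers of a generator -/
theorem rel_pow {e : G} {m : ℕ} (hm : 0 < m) : (zpowers (e ^ m)).relIndex (zpowers e) ≠ 0 := by
  have hfin : Finite ((zpowers e) ⧸ (zpowers (e ^ m)).subgroupOf (zpowers e)) := by
    refine Finite.of_surjective (α := Fin m) (fun i =>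
      ((⟨e ^ (i : ℕ), pow_mem (mem_zpowers e) _⟩ : zpowers e) :
        (zpowers e) ⧸ (zpowers (e ^ m)).subgroupOf (zpowers e))) ?_
    intro q
    obtain ⟨⟨_, i, rfl⟩, rfl⟩ := QuotientGroup.mk_surjective q
    have hm' : (0 : ℤ) < m := by exact_mod_cast hm
    have h1 : 0 ≤ i % (m : ℤ) := Int.emod_nonneg _ hm'.ne'
    have h2 : i % (m : ℤ) < m := Int.emod_lt_of_pos _ hm'
    refine ⟨⟨(i % (m : ℤ)).toNat, by omega⟩, ?_⟩
    refine QuotientGroup.eq.2 ?_
    rw [mem_subgroupOf]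
    refine ⟨i / (m : ℤ), ?_⟩
    show (e ^ m) ^ (i / (m : ℤ)) = (e ^ (i % (m : ℤ)).toNat)⁻¹ * e ^ i
    rw [← zpow_natCast e m, ← zpow_natCast e (i % (m : ℤ)).toNat, Int.toNat_of_nonneg h1,
      ← zpow_mul, ← zpow_neg, ← zpow_add]
    congr 1
    have h3 := Int.emod_add_mul_ediv i m
    omega
  exact Subgroup.index_ne_zero_of_finite

/-- **balanced cylinders**: the edge groups are infinite cyclic -/
theorem bal_cyl (hC : ClosedE C) (hM : ∀ (G : Type) [Group G], derivedSeries G 2 = ⊥ → C G)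
    (hA : AcylF C) (hT : T.IsTree) (hact : ∀ (g : G) (u v : V), T.Adj u v → T.Adj (g • u) (g • v))
    {v0 a0 : V} (h0 : T.Adj v0 a0) {e : G} (he : Es G v0 a0 = zpowers e)
    (hinf : ∀ i : ℤ, e ^ i = 1 → i = 0) (hbal : Balanced e)
    (hBQ : ∀ v u, T.Adj v u → Rf G (v0, a0) (v, u) → ∀ z ∈ Es G v u, z ≠ 1 → BQ C v z)
    (K : Subgroup G) (hK : ∀ g ∈ K, Pres hact (cy (rf G) h0) g) : C K := by
  refine C_le hC.base (le_Kc hact _ K hK) ?_
  obtain ⟨K', hK'⟩ : ∃ K' : Subgroup G, K' = Kc hact (cy (rf G) h0) := ⟨_, rfl⟩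
  rw [← hK']
  refine Pool.Agent.Y430.SS.of_directed hC.base K' ℕ
    (fun i j => ⟨max i j, le_max_left _ _, le_max_right _ _⟩)
    (fun i => (K' ⊓ Nm (e ^ (i.factorial))).subgroupOf K') ?_ ?_ ?_
  · intro i j hij x hx
    rw [mem_subgroupOf] at hx ⊢
    refine ⟨hx.1, ?_⟩
    obtain ⟨k, hk⟩ := Nat.factorial_dvd_factorial hij
    rw [hk, pow_mul]
    exact Nm_pow _ k hx.2
  · rintro ⟨g, hg⟩
    have h1 : g ∈ commensurator (Es G v0 a0) := by
      rw [Commensurable.commensurator_mem_iff, ← Es_smul]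
      have h2 := (hK' ▸ hg : g ∈ Kc hact (cy (rf G) h0)).1 v0 a0 h0 rfl
      exact (Rf_gen (p := dt (hact g v0 a0 h0)) (q := dt h0) (Quotient.exact h2)).comm
    rw [Pool.Agent.N431.CE.mem_comm_iff, he] at h1
    -- a power of `e` is conjugated to a power of `e`
    obtain ⟨m, hm, hm1⟩ : ∃ m : ℕ, 0 < m ∧ e ^ m ∈ (zpowers e).map (MulAut.conj g).toMonoidHom := by
      obtain ⟨m, hm, -, h2⟩ := Subgroup.exists_pow_mem_of_relIndex_ne_zero h1.1
        (mem_zpowers e)
      exact ⟨m, hm, h2.1⟩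
    obtain ⟨_, ⟨i, rfl⟩, hi⟩ := hm1
    have hi : g * e ^ i * g⁻¹ = e ^ m := hi
    have hi0 : i ≠ 0 := by
      rintro rfl
      rw [zpow_zero, mul_one, mul_inv_cancel] at hi
      have h2 := hinf m (by rw [zpow_natCast]; exact hi.symm)
      omega
    have h2 := hbal g i m hi0 (by rw [zpow_natCast]; exact hi)
    have h3 : g ∈ Nm (e ^ m) := by
      rcases h2 with h2 | h2
      · left
        rw [← h2, zpow_natCast] at hi
        exact hi
      · right
        have h4 : i = -m := by omega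
        rw [h4, zpow_neg, zpow_natCast] at hi
        have h5 : g * e ^ m * g⁻¹ = (g * (e ^ m)⁻¹ * g⁻¹)⁻¹ := by group
        rw [h5, hi]
    refine ⟨m, ?_⟩
    rw [mem_subgroupOf]
    refine ⟨hg, ?_⟩
    obtain ⟨k, hk⟩ := Nat.dvd_factorial hm le_rfl
    show g ∈ Nm (e ^ m.factorial)
    rw [hk, pow_mul]
    exact Nm_pow _ k h3
  · intro i
    have h1 : C ↥(K' ⊓ Nm (e ^ i.factorial)) := by
      rw [hK']
      refine bal_one hC hM hA hT hact h0 (z := e ^ i.factorial) ?_ ?_ ?_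
      · rw [he]
        exact pow_mem (mem_zpowers e) _
      · rw [he]
        exact rel_pow i.factorial_pos
      · intro v u hvu hR hz
        refine hBQ v u hvu hR _ hz ?_
        intro h2
        have h3 := hinf (i.factorial) (by rw [zpow_natCast]; exact h2)
        have h4 := i.factorial_pos
        omega
    exact C_equiv hC.base (Subgroup.subgroupOfEquivOfLe inf_le_left) h1

end Pool.Agent.J6H95.FJ
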