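import Pool.Agent.J6H95.FJ.DetT

/-!
# Balanced elements of groups acting on trees
-/

set_option autoImplicit false

namespace Pool.Agent.J6H95.FJ

open SimpleGraph
open scoped Pointwise
open Subgroup
open Subgroup.Commensurable (commensurator)
open Pool.Agent.N24.TR (wp wp_nil wp_cons gam gam_eq gam_mul gam_self)
open Pool.Agent.N431.CE (Es Es_comm Es_smul)
open Pool.Agent.R643 (dz dz_zh IsoAct fix_or_hyp isoAct_of_adj)

section mod

variable {G : Type} [Group G]

/-- the modular homomorphism with its formula -/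
theorem exists_mod' {e : G} (hinf : InfOrd e) :
    ∃ f : commensurator (zpowers e) →* ℚˣ, ∀ (g : commensurator (zpowers e)) (i j : ℤ), i ≠ 0 →
      (g : G) * e ^ i * (g : G)⁻¹ = e ^ j → ((f g : ℚˣ) : ℚ) * i = j := by
  have h1 : ∀ g : commensurator (zpowers e), ∃ a b : ℤ, a ≠ 0 ∧ b ≠ 0 ∧
      (g : G) * e ^ a * (g : G)⁻¹ = e ^ b := fun g => comm_pow hinf g.2
  choose a b ha hb hab using h1
  have ha' : ∀ g, ((a g : ℤ) : ℚ) ≠ 0 := fun g => by exact_mod_cast ha g
  have hb' : ∀ g, ((b g : ℤ) : ℚ) ≠ 0 := fun g => by exact_mod_cast hb g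
  refine ⟨MonoidHom.mk' (fun g => Units.mk0 ((b g : ℚ) / (a g : ℚ)) (div_ne_zero (hb' g) (ha' g)))
    ?_, ?_⟩
  · intro g h
    apply Units.ext
    show ((b (g * h) : ℤ) : ℚ) / (a (g * h) : ℤ) = (b g : ℚ) / (a g : ℚ) * ((b h : ℚ) / (a h : ℚ))
    have h2 : ((g * h : commensurator (zpowers e)) : G) * e ^ (a h * a g) *
        ((g * h : commensurator (zpowers e)) : G)⁻¹ = e ^ (b g * b h) := by
      have h3 : (h : G) * e ^ (a h * a g) * (h : G)⁻¹ = e ^ (a g * b h) := by
        rw [zpow_mul, mul_comm (a g), zpow_mul, ← hab h, conj_zpow]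
      have h4 : (g : G) * e ^ (a g * b h) * (g : G)⁻¹ = e ^ (b g * b h) := by
        rw [zpow_mul, zpow_mul, ← hab g, conj_zpow]
      rw [← h4, ← h3]
      show (g : G) * (h : G) * e ^ (a h * a g) * ((g : G) * (h : G))⁻¹ = _
      group
    have h3 := mod_uniq hinf (hab (g * h)) h2
    have h4 : ((b (g * h) : ℤ) : ℚ) * ((a h : ℚ) * (a g : ℚ)) = (b g : ℚ) * (b h : ℚ) *
        ((a (g * h) : ℤ) : ℚ) := by exact_mod_cast h3
    rw [div_mul_div_comm, div_eq_div_iff (ha' _) (mul_ne_zero (ha' g) (ha' h))]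
    linarith
  · intro g i j hi hij
    show (b g : ℚ) / (a g : ℚ) * i = j
    have h2 := mod_uniq hinf (hab g) hij
    have h3 : (b g : ℚ) * i = j * a g := by exact_mod_cast h2
    rw [div_mul_eq_mul_div, div_eq_iff (ha' g), h3]

/-- an element which conjugates a power of `e` to a power of `e` commensurates `⟨e⟩` -/
theorem mem_comm_of {e g : G} (hinf : InfOrd e) {i j : ℤ} (hi : i ≠ 0)
    (h : g * e ^ i * g⁻¹ = e ^ j) : g ∈ commensurator (zpowers e) := by
  have hj : j ≠ 0 := by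
    rintro rfl
    rw [zpow_zero] at h
    have h1 : e ^ i = 1 := by
      calc e ^ i = g⁻¹ * (g * e ^ i * g⁻¹) * g := by group
        _ = 1 := by rw [h, mul_one, inv_mul_cancel]
    exact hi (hinf i h1)
  rw [Commensurable.commensurator_mem_iff]
  have h1 : ConjAct.toConjAct g • zpowers e = zpowers (g * e * g⁻¹) := by
    ext x
    rw [Subgroup.mem_smul_pointwise_iff_exists]
    constructor
    · rintro ⟨_, ⟨n, rfl⟩, rfl⟩
      refine ⟨n, ?_⟩
      show (g * e * g⁻¹) ^ n = ConjAct.toConjAct g • e ^ n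
      rw [ConjAct.toConjAct_smul, conj_zpow]
    · rintro ⟨n, rfl⟩
      refine ⟨e ^ n, ⟨n, rfl⟩, ?_⟩
      show ConjAct.toConjAct g • e ^ n = (g * e * g⁻¹) ^ n
      rw [ConjAct.toConjAct_smul, conj_zpow]
  rw [h1]
  exact comm_of_common (i := i) (j := j) hi hj (by rw [conj_zpow, h])

end mod

variable {G V : Type} [Group G] [MulAction G V] {T : SimpleGraph V}

/-- **elliptic elements of groups which are generated by vertex stabilizers** -/
theorem bal_ell (hT : T.IsTree) (hact : ∀ (g : G) (u v : V), T.Adj u v → T.Adj (g • u) (g • v))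
    (hVC : ∀ v u : V, T.Adj v u → VC (Es G v u)) (hV : ∀ v : V, Bald (MulAction.stabilizer G v))
    (hgen : (⨆ v : V, MulAction.stabilizer G v) = ⊤) {e : G} (hei : InfOrd e) {v0 : V}
    (hv0 : e • v0 = v0) : Balanced e := by
  classical
  obtain ⟨f, hf⟩ := exists_mod' hei
  obtain ⟨D, hD⟩ : ∃ D : Subgroup G, D = commensurator (zpowers e) := ⟨_, rfl⟩
  subst hD
  -- the square of the modular homomorphism
  obtain ⟨Δ, hΔ⟩ : ∃ Δ : commensurator (zpowers e) →* ℚˣ, ∀ g, Δ g = f g ^ 2 :=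
    ⟨(powMonoidHom 2).comp f, fun _ => rfl⟩
  have hep : ∀ (u : V), e • u = u → ∀ i : ℤ, e ^ i • u = u := by
    intro u hu i
    have h1 : e ∈ MulAction.stabilizer G u := hu
    exact zpow_mem h1 i
  have hepp : ∀ (u : V) (m : ℤ), e ^ m • u = u → ∀ i : ℤ, e ^ (m * i) • u = u := by
    intro u m hu i
    have h1 : e ^ m ∈ MulAction.stabilizer G u := hu
    rw [zpow_mul]
    exact zpow_mem h1 i
  have hconj : ∀ (g : G) (i j m : ℤ), g * e ^ i * g⁻¹ = e ^ j → g * e ^ (i * m) * g⁻¹ = e ^ (j * m) := by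
    intro g i j m h
    rw [zpow_mul, zpow_mul, ← h, conj_zpow]
  -- the vertices of the cylinder
  obtain ⟨Y, hY⟩ : ∃ Y : V → Prop, Y = fun u => ∃ m : ℤ, m ≠ 0 ∧ e ^ m • u = u := ⟨_, rfl⟩
  have hYD : ∀ (g : commensurator (zpowers e)) (u : V), Y u → Y ((g : G) • u) := by
    intro g u hu
    rw [hY] at hu ⊢
    obtain ⟨m, hm, hu⟩ := hu
    obtain ⟨i, j, hi, hj, hij⟩ := comm_pow hei g.2
    refine ⟨j * m, mul_ne_zero hj hm, ?_⟩
    rw [← hconj (g : G) i j m hij, mul_smul, mul_smul, inv_smul_smul, mul_comm i m, hepp u m hu]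
  have hfix : ∀ (g : commensurator (zpowers e)) (u : V), Y u → (g : G) • u = u → Δ g = 1 := by
    intro g u hu hgu
    rw [hY] at hu
    obtain ⟨m, hm, hu⟩ := hu
    obtain ⟨i, j, hi, hj, hij⟩ := comm_pow hei g.2
    have h1 : InfOrd (⟨e ^ m, hu⟩ : MulAction.stabilizer G u) :=
      InfOrd.of_map (MulAction.stabilizer G u).subtype (hei.zpow hm)
    have h2 := hV u _ h1 ⟨(g : G), hgu⟩ i j hi (by
      apply Subtype.ext
      show (g : G) * (e ^ m) ^ i * (g : G)⁻¹ = (e ^ m) ^ j
      rw [← zpow_mul, ← zpow_mul, mul_comm m i, mul_comm m j]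
      exact hconj _ _ _ _ hij)
    have h3 := hf g i j hi hij
    have hi' : (i : ℚ) ≠ 0 := by exact_mod_cast hi
    have h4 : ((f g : ℚˣ) : ℚ) ^ 2 = 1 := by
      rcases h2 with h2 | h2
      · rw [h2] at h3
        have h5 : ((f g : ℚˣ) : ℚ) = 1 := mul_right_cancel₀ hi' (by rw [h3, one_mul])
        rw [h5, one_pow]
      · rw [h2] at h3
        push_cast at h3
        have h5 : ((f g : ℚˣ) : ℚ) = -1 := mul_right_cancel₀ hi' (by rw [h3]; ring)
        rw [h5]
        norm_num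
    rw [hΔ]
    apply Units.ext
    rw [Units.val_pow_eq_pow_val, h4, Units.val_one]
  -- the function on the vertices
  obtain ⟨s, r, hs, hr⟩ : ∃ (s : V → commensurator (zpowers e)) (r : V → V),
      (∀ u, s u • r u = u) ∧ ∀ (g : commensurator (zpowers e)) (u : V), r (g • u) = r u := by
    have h1 : ∀ w : V, ∃ k : commensurator (zpowers e), k • (Quotient.out (Quotient.mk
        (MulAction.orbitRel (commensurator (zpowers e)) V) w)) = w := by
      intro w
      have h2 := Quotient.mk_out (s := MulAction.orbitRel (commensurator (zpowers e)) V) w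
      obtain ⟨k, hk⟩ := (MulAction.orbitRel (commensurator (zpowers e)) V).symm h2
      exact ⟨k, hk⟩
    choose k hk using h1
    refine ⟨k, fun w => Quotient.out (Quotient.mk (MulAction.orbitRel
      (commensurator (zpowers e)) V) w), hk, fun g w => ?_⟩
    have h3 : (Quotient.mk (MulAction.orbitRel (commensurator (zpowers e)) V) (g • w)) =
        Quotient.mk (MulAction.orbitRel (commensurator (zpowers e)) V) w :=
      Quotient.sound ⟨g, rfl⟩
    show Quotient.out (Quotient.mk _ (g • w)) = Quotient.out (Quotient.mk _ w)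
    rw [h3]
  have hF : ∀ (g : commensurator (zpowers e)) (u : V), Y u → Δ (s (g • u)) = Δ g * Δ (s u) := by
    intro g u hu
    have h1 : ((s (g • u))⁻¹ * g * s u) • r u = r u := by
      rw [mul_smul, mul_smul, hs u]
      refine inv_smul_eq_iff.2 ?_
      have h1 := hs (g • u)
      rw [hr] at h1
      exact h1.symm
    have h2 : Y (r u) := by
      have h3 : r u = ((s u)⁻¹ : commensurator (zpowers e)) • u := by
        rw [eq_inv_smul_iff]
        exact hs u
      rw [h3]
      exact hYD _ u hu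
    have h3 := hfix _ _ h2 h1
    rw [map_mul, map_mul, map_inv] at h3
    have h4 : Δ (s (g • u)) = Δ (s (g • u)) * ((Δ (s (g • u)))⁻¹ * Δ g * Δ (s u)) := by
      rw [h3, mul_one]
    rw [h4]
    group
  -- the edges of the cylinder
  have hEY : ∀ u w : V, T.Adj u w → Commensurable (Es G u w) (zpowers e) → Y u ∧ Y w := by
    intro u w huw hc
    obtain ⟨m, hm, -, h2⟩ := Subgroup.exists_pow_mem_of_relIndex_ne_zero hc.1 (mem_zpowers e)
    rw [hY]
    have h3 : (m : ℤ) ≠ 0 := by exact_mod_cast hm.ne'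
    exact ⟨⟨m, h3, by rw [zpow_natCast]; exact h2.1.1⟩, ⟨m, h3, by rw [zpow_natCast]; exact h2.1.2⟩⟩
  have hED : ∀ (k : G) (u w : V), Commensurable (Es G u w) (zpowers e) →
      Commensurable (Es G (k • u) (k • w)) (zpowers e) → k ∈ commensurator (zpowers e) := by
    intro k u w h1 h2
    rw [Es_smul] at h2
    rw [Commensurable.commensurator_mem_iff]
    exact (h1.symm.conj (ConjAct.toConjAct k)).trans h2
  -- the labels
  obtain ⟨lb, hlb⟩ : ∃ lb : V → V → ℚˣ, lb = fun u w =>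
      if h : ∃ g : G, Commensurable (Es G (g • u) (g • w)) (zpowers e) then
        (Δ (s (h.choose • u)))⁻¹ * Δ (s (h.choose • w)) else 1 := ⟨_, rfl⟩
  have hlb1 : ∀ u w : V, T.Adj u w → ∀ g : G, Commensurable (Es G (g • u) (g • w)) (zpowers e) →
      lb u w = (Δ (s (g • u)))⁻¹ * Δ (s (g • w)) := by
    intro u w huw g hg
    have h : ∃ g : G, Commensurable (Es G (g • u) (g • w)) (zpowers e) := ⟨g, hg⟩
    have h1 : lb u w = (Δ (s (h.choose • u)))⁻¹ * Δ (s (h.choose • w)) := by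
      rw [hlb]
      exact dif_pos h
    obtain ⟨g', hg'⟩ : ∃ g', g' = h.choose := ⟨_, rfl⟩
    have hg'c : Commensurable (Es G (g' • u) (g' • w)) (zpowers e) := hg' ▸ h.choose_spec
    rw [h1, ← hg']
    obtain ⟨k, hk⟩ : ∃ k, k = g' * g⁻¹ := ⟨_, rfl⟩
    have hku : k • g • u = g' • u := by rw [hk, mul_smul, inv_smul_smul]
    have hkw : k • g • w = g' • w := by rw [hk, mul_smul, inv_smul_smul]
    have hkD : k ∈ commensurator (zpowers e) := hED k (g • u) (g • w) hg (by rwa [hku, hkw])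
    obtain ⟨hYu, hYw⟩ := hEY _ _ (hact g u w huw) hg
    have h2 := hF ⟨k, hkD⟩ (g • u) hYu
    have h3 := hF ⟨k, hkD⟩ (g • w) hYw
    have h4 : (⟨k, hkD⟩ : commensurator (zpowers e)) • g • u = g' • u := hku
    have h5 : (⟨k, hkD⟩ : commensurator (zpowers e)) • g • w = g' • w := hkw
    rw [h4] at h2
    rw [h5] at h3
    rw [h2, h3]
    calc (Δ ⟨k, hkD⟩ * Δ (s (g • u)))⁻¹ * (Δ ⟨k, hkD⟩ * Δ (s (g • w)))
        = (Δ (s (g • u)))⁻¹ * ((Δ ⟨k, hkD⟩)⁻¹ * Δ ⟨k, hkD⟩) * Δ (s (g • w)) := by group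
      _ = _ := by group
  have hlb2 : ∀ u w : V, (¬ ∃ g : G, Commensurable (Es G (g • u) (g • w)) (zpowers e)) →
      lb u w = 1 := by
    intro u w h
    rw [hlb]
    exact dif_neg h
  have hlbg : ∀ (x : G) (u w : V), T.Adj u w → lb (x • u) (x • w) = lb u w := by
    intro x u w huw
    by_cases h : ∃ g : G, Commensurable (Es G (g • u) (g • w)) (zpowers e)
    · obtain ⟨g, hg⟩ := h
      have h1 := hlb1 (x • u) (x • w) (hact x u w huw) (g * x⁻¹) (by
        rw [mul_smul, mul_smul, inv_smul_smul, inv_smul_smul]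
        exact hg)
      rw [h1, hlb1 u w huw g hg, mul_smul, mul_smul, inv_smul_smul, inv_smul_smul]
    · rw [hlb2 u w h, hlb2]
      rintro ⟨g, hg⟩
      exact h ⟨g * x, by rwa [mul_smul, mul_smul]⟩
  have hlbs : ∀ u w : V, T.Adj u w → lb u w * lb w u = 1 := by
    intro u w huw
    by_cases h : ∃ g : G, Commensurable (Es G (g • u) (g • w)) (zpowers e)
    · obtain ⟨g, hg⟩ := h
      rw [hlb1 u w huw g hg, hlb1 w u huw.symm g (by rwa [Es_comm])]
      group
    · rw [hlb2 u w h, hlb2 w u, mul_one]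
      rintro ⟨g, hg⟩
      exact h ⟨g, by rwa [Es_comm]⟩
  -- the homomorphism
  obtain ⟨F, hFo⟩ : ∃ F : G →* ℚˣ, ∀ g, F g = gam hT lb v0 (g • v0) :=
    ⟨thom hT hact lb hlbs (fun _ _ => 1) (fun _ _ _ => (mul_one _).symm)
      (fun g u w huw => by rw [hlbg g u w huw, one_mul, inv_one, mul_one]) v0,
      fun g => by rw [thom_apply, mul_one]⟩
  have hgamg : ∀ (g : G) (u w : V), gam hT lb (g • u) (g • w) = gam hT lb u w := by
    intro g u w
    have h1 := gam_tw hT hact lb hlbs (fun _ _ => 1) g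
      (fun u w huw => by rw [hlbg g u w huw, one_mul, inv_one, mul_one]) u w
    rwa [one_mul, inv_one, mul_one] at h1
  have hF1 : ∀ g : G, F g = 1 := by
    intro g
    have h1 : (⨆ v : V, MulAction.stabilizer G v) ≤ F.ker := by
      refine iSup_le fun w x hx => ?_
      have hx : x • w = w := hx
      rw [MonoidHom.mem_ker, hFo, ← gam_mul hT lb hlbs v0 w (x • v0)]
      have h2 := hgamg x w v0
      rw [hx] at h2
      rw [h2, gam_mul hT lb hlbs, gam_self hT lb hlbs]
    rw [hgen] at h1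
    exact h1 (mem_top g)
  -- the holonomy along paths of the cylinder
  have hwalk : ∀ (j : ℤ), j ≠ 0 → ∀ {a b : V} (p : T.Walk a b), (∀ x ∈ p.support, e ^ j • x = x) →
      wp lb p = (Δ (s a))⁻¹ * Δ (s b) := by
    intro j hj a b p
    induction p with
    | nil =>
      intro _
      rw [wp_nil, inv_mul_cancel]
    | @cons a c b hac p ih =>
      intro hp
      have h1 : e ^ j • a = a := hp a (by simp)
      have h2 : e ^ j • c = c := hp c (by simp)
      have h3 : Commensurable (Es G a c) (zpowers e) := by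
        have h4 := (hVC a c hac).comm (x := e ^ j) ⟨h1, h2⟩ (hei.zpow hj)
        exact h4.symm.trans (comm_of_common (e := e ^ j) (e' := e) (i := 1) (j := j) one_ne_zero hj
          (by rw [zpow_one]))
      have h4 := hlb1 a c hac 1 (by rwa [one_smul, one_smul])
      rw [one_smul, one_smul] at h4
      rw [wp_cons, ih fun x hx => hp x (by
        rw [Walk.support_cons]
        exact List.mem_cons_of_mem _ hx), h4]
      group
  -- the end
  intro g i j hi hij
  have hgD := mem_comm_of hei hi hij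
  have hj : j ≠ 0 := by
    rintro rfl
    rw [zpow_zero] at hij
    have h1 : e ^ i = 1 := by
      calc e ^ i = g⁻¹ * (g * e ^ i * g⁻¹) * g := by group
        _ = 1 := by rw [hij, mul_one, inv_mul_cancel]
    exact hi (hei i h1)
  have h1 : e ^ j • g • v0 = g • v0 := by
    rw [← hij, mul_smul, mul_smul, inv_smul_smul, hep v0 hv0]
  obtain ⟨p, hp, -⟩ := hT.existsUnique_path v0 (g • v0)
  have h2 := hwalk j hj p (fix_path hT hact h1 p hp (hep v0 hv0 j))
  rw [← gam_eq hT lb hlbs p, ← hFo, hF1] at h2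
  have hYv0 : Y v0 := by
    rw [hY]
    exact ⟨1, one_ne_zero, by rw [zpow_one]; exact hv0⟩
  have h3 := hF ⟨g, hgD⟩ v0 hYv0
  have h4 : (⟨g, hgD⟩ : commensurator (zpowers e)) • v0 = g • v0 := rfl
  rw [h4] at h3
  rw [h3] at h2
  have h5 : Δ ⟨g, hgD⟩ = 1 := by
    have h6 : (Δ (s v0))⁻¹ * (Δ ⟨g, hgD⟩ * Δ (s v0)) = Δ ⟨g, hgD⟩ := by
      rw [mul_comm (Δ ⟨g, hgD⟩), inv_mul_cancel_left]
    rw [h6] at h2
    exact h2.symm
  rw [hΔ] at h5
  have h6 : ((f ⟨g, hgD⟩ : ℚˣ) : ℚ) ^ 2 = 1 := by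
    have h7 := congrArg (fun x : ℚˣ => (x : ℚ)) h5
    rwa [Units.val_pow_eq_pow_val] at h7
  have h7 := hf ⟨g, hgD⟩ i j hi hij
  rcases mul_self_eq_one_iff.1 ((sq _).symm.trans h6) with h8 | h8
  · left
    rw [h8, one_mul] at h7
    exact_mod_cast h7.symm
  · right
    rw [h8] at h7
    have h9 : ((-i : ℤ) : ℚ) = (j : ℚ) := by
      push_cast
      linarith
    exact_mod_cast h9.symm

end Pool.Agent.J6H95.FJ
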