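import Pool.Agent.J6H95.FJ.BalT

/-!
# Balanced groups acting on trees
-/

set_option autoImplicit false

namespace Pool.Agent.J6H95.FJ

open SimpleGraph
open Subgroup
open Pool.Agent.Y110.FJ
open Pool.Agent.N509.TK (St St_smul St_unique St_exists)
open Pool.Agent.N509.TX (AcylF)
open Pool.Agent.N24.TR (wp wp_nil wp_cons gam gam_eq gam_mul gam_self gam_adj)
open Pool.Agent.N431.CE (Es Es_comm Es_smul Cn)
open Pool.Agent.R643 (dz dz_zh IsoAct fix_or_hyp isoAct_of_adj)

variable {C : ∀ (G : Type) [Group G], Prop}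
variable {G V : Type} [Group G] [MulAction G V] {T : SimpleGraph V}

/-- hyperbolic elements are balanced -/
theorem bal_hyp (A : IsoAct (dz T) G) {e : G} (he : ∀ x : V, e • e • x ≠ x) (v0 : V) :
    Balanced e := by
  obtain ⟨Ax, c, x0, l, hl, hx0, c0, hiso, hinv, hcy⟩ := axis_coord A he v0
  have hei := hyp_inf A he v0
  have hyk : ∀ i : ℤ, ∀ x, Ax x → Ax (e ^ i • x) := by
    intro i x hx
    refine hinv _ 1 1 one_ne_zero one_ne_zero ?_ x hx
    rw [zpow_one, ((Commute.refl e).zpow_left i).eq, mul_inv_cancel_right]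
  have hck := zpow_coord hyk hcy
  intro g i j hi hij
  have hj : j ≠ 0 := by
    rintro rfl
    rw [zpow_zero] at hij
    have h1 : e ^ i = 1 := by
      calc e ^ i = g⁻¹ * (g * e ^ i * g⁻¹) * g := by group
        _ = 1 := by rw [hij, mul_one, inv_mul_cancel]
    exact hi (hei i h1)
  have hgx := hinv g i j hi hj hij x0 hx0
  have h1 : dz T x0 (e ^ i • x0) = |i * l| := by
    rw [hiso _ _ hx0 (hyk i x0 hx0), hck x0 hx0, c0, zero_add, zero_sub, abs_neg]
  have h2 : dz T (g • x0) (e ^ j • g • x0) = |j * l| := by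
    rw [hiso _ _ hgx (hyk j _ hgx), hck _ hgx]
    have h3 : c (g • x0) - (c (g • x0) + j * l) = -(j * l) := by ring
    rw [h3, abs_neg]
  have h3 : e ^ j • g • x0 = g • e ^ i • x0 := by
    rw [← hij, mul_smul, mul_smul, inv_smul_smul]
  rw [h3, A.iso, h1, abs_mul, abs_mul] at h2
  have h4 : |i| = |j| := mul_right_cancel₀ (abs_pos.2 hl.ne').ne' h2
  rcases abs_eq_abs.1 h4 with h5 | h5
  · exact Or.inl h5.symm
  · right
    omega

/-- groups generated by vertex stabilizers act without inversions -/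
theorem noinv_gen (hT : T.IsTree) (hact : ∀ (g : G) (u v : V), T.Adj u v → T.Adj (g • u) (g • v))
    (hgen : (⨆ v : V, MulAction.stabilizer G v) = ⊤) :
    ∀ (g : G) (u v : V), T.Adj u v → ¬ (g • u = v ∧ g • v = u) := by
  rintro g u v huv ⟨hgu, hgv⟩
  have hlbs : ∀ a b : V, T.Adj a b → (fun _ _ : V => Multiplicative.ofAdd (1 : ZMod 2)) a b *
      (fun _ _ : V => Multiplicative.ofAdd (1 : ZMod 2)) b a = 1 := by
    intro a b _
    show Multiplicative.ofAdd (1 : ZMod 2) * Multiplicative.ofAdd (1 : ZMod 2) = 1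
    decide
  obtain ⟨F, hF⟩ : ∃ F : G →* Multiplicative (ZMod 2), ∀ g, F g =
      gam hT (fun _ _ => Multiplicative.ofAdd (1 : ZMod 2)) u (g • u) :=
    ⟨thom hT hact (fun _ _ => Multiplicative.ofAdd (1 : ZMod 2)) hlbs (fun _ _ => 1)
      (fun _ _ _ => (mul_one _).symm)
      (fun g u w huw => by rw [one_mul, inv_one, mul_one]) u,
      fun g => by rw [thom_apply, mul_one]⟩
  have h1 : (⨆ v : V, MulAction.stabilizer G v) ≤ F.ker := by
    refine iSup_le fun w x hx => ?_
    have hx : x • w = w := hx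
    have h2 := gam_tw hT hact (fun _ _ => Multiplicative.ofAdd (1 : ZMod 2)) hlbs (fun _ _ => 1) x
      (fun u w huw => by rw [one_mul, inv_one, mul_one]) w u
    rw [one_mul, inv_one, mul_one, hx] at h2
    rw [MonoidHom.mem_ker, hF, ← gam_mul hT _ hlbs u w (x • u), h2, gam_mul hT _ hlbs,
      gam_self hT _ hlbs]
  rw [hgen] at h1
  have h2 : F g = 1 := h1 (mem_top g)
  rw [hF, hgu, gam_adj hT _ hlbs huv] at h2
  exact absurd h2 (by decide)

/-- **groups generated by balanced vertex stabilizers** -/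
theorem tree_bal (hT : T.IsTree) (hact : ∀ (g : G) (u v : V), T.Adj u v → T.Adj (g • u) (g • v))
    (hVC : ∀ v u : V, T.Adj v u → VC (Es G v u)) (hV : ∀ v : V, Bald (MulAction.stabilizer G v))
    (hgen : (⨆ v : V, MulAction.stabilizer G v) = ⊤) : Bald G := by
  intro e hei
  obtain ⟨o⟩ := hT.connected.nonempty
  obtain ⟨A⟩ : Nonempty (IsoAct (dz T) G) := ⟨isoAct_of_adj hT hact⟩
  rcases fix_or_hyp hT A (noinv_gen hT hact hgen) e with ⟨v, hv⟩ | h
  · exact bal_ell hT hact hVC hV hgen hei hv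
  · exact bal_hyp A h o

/-- **actions with balanced edge stabilizers** -/
theorem tree_bal' (hT : T.IsTree) (hact : ∀ (g : G) (u v : V), T.Adj u v → T.Adj (g • u) (g • v))
    (hinv : ∀ (g : G) (u v : V), T.Adj u v → ¬ (g • u = v ∧ g • v = u))
    (hV : ∀ v : V, Bald (MulAction.stabilizer G v))
    (hE : ∀ v u : V, T.Adj v u → ∀ x ∈ Es G v u, InfOrd x → Balanced x) : Bald G := by
  intro e hei
  obtain ⟨o⟩ := hT.connected.nonempty
  obtain ⟨A⟩ : Nonempty (IsoAct (dz T) G) := ⟨isoAct_of_adj hT hact⟩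
  rcases fix_or_hyp hT A hinv e with ⟨v, hv⟩ | h
  · intro g i j hi hij
    have hep : ∀ i : ℤ, e ^ i • v = v := fun i => by
      have h1 : e ∈ MulAction.stabilizer G v := hv
      exact zpow_mem h1 i
    have hj : j ≠ 0 := by
      rintro rfl
      rw [zpow_zero] at hij
      have h1 : e ^ i = 1 := by
        calc e ^ i = g⁻¹ * (g * e ^ i * g⁻¹) * g := by group
          _ = 1 := by rw [hij, mul_one, inv_mul_cancel]
      exact hi (hei i h1)
    by_cases hg : g • v = v
    · have h1 : InfOrd (⟨e, hv⟩ : MulAction.stabilizer G v) :=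
        InfOrd.of_map (MulAction.stabilizer G v).subtype hei
      exact hV v _ h1 ⟨g, hg⟩ i j hi (Subtype.ext hij)
    · have h1 : e ^ j • g • v = g • v := by
        rw [← hij, mul_smul, mul_smul, inv_smul_smul, hep]
      obtain ⟨s, hs⟩ := St_exists hT (Ne.symm hg)
      have h2 : e ^ j • s = s := by
        have h3 := St_smul hact (e ^ j) hs
        rw [h1, hep] at h3
        exact St_unique hT.isAcyclic h3 hs
      have h3 := hE v s hs.1 (e ^ j) ⟨hep j, h2⟩ (hei.zpow hj)
      have h4 : Balanced e := h3.comm (m := 1) (b := j) one_ne_zero (by rw [zpow_one])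
      exact h4 g i j hi hij
  · exact bal_hyp A h o

/-- **the class of the balanced groups in `Quo C`** -/
theorem tree_quo_bal (hC : ClosedE C) (hM : ∀ (G : Type) [Group G], derivedSeries G 2 = ⊥ → C G)
    (hA : AcylF C) (hT : T.IsTree) (hact : ∀ (g : G) (u v : V), T.Adj u v → T.Adj (g • u) (g • v))
    (hVC : ∀ v u : V, T.Adj v u → VC (Es G v u))
    (hV : ∀ v : V, Quo C (MulAction.stabilizer G v) ∧ Bald (MulAction.stabilizer G v))
    (hgen : (⨆ v : V, MulAction.stabilizer G v) = ⊤) : Quo C G ∧ Bald G := by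
  have hb := tree_bal hT hact hVC (fun v => (hV v).2) hgen
  refine ⟨tree_quo hC hM hA hT hact (noinv_gen hT hact hgen) (fun v => (hV v).1)
    fun v u huv => ?_, hb⟩
  by_cases h : Infinite (Es G v u)
  · obtain ⟨x, hx, hxi⟩ := (hVC v u huv).exists_inf h
    exact Or.inr (Or.inl ⟨hVC v u huv, x, hx, hxi, hb x hxi⟩)
  · exact Or.inl (not_infinite_iff_finite.1 h)

/-- an edge group condition which follows from `Det` for the vertex stabilizer -/
theorem Det.edge {v : V} (h : Det (MulAction.stabilizer G v)) {e : G}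
    (he : e ∈ MulAction.stabilizer G v) (hei : InfOrd e) :
    ∀ N j : ℕ, N ≠ 0 → j ≠ 0 → e ^ j ∉ ⁅Cn (e ^ N) v, Cn (e ^ N) v⁆ := by
  intro N j hN hj hc
  have h1 : InfOrd (⟨e ^ N, pow_mem he N⟩ : MulAction.stabilizer G v) :=
    InfOrd.of_map (MulAction.stabilizer G v).subtype (hei.pow hN)
  refine h _ h1 j hj ?_
  have h2 : (centralizer {(⟨e ^ N, pow_mem he N⟩ : MulAction.stabilizer G v)}).map
      (MulAction.stabilizer G v).subtype = Cn (e ^ N) v := by
    ext x
    rw [Pool.Agent.N431.CE.mem_Cn]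
    constructor
    · rintro ⟨y, hy, rfl⟩
      exact ⟨y.2, congrArg Subtype.val (mem_centralizer_singleton_iff.1 hy)⟩
    · rintro ⟨h3, h4⟩
      exact ⟨⟨x, h3⟩, mem_centralizer_singleton_iff.2 (Subtype.ext h4), rfl⟩
  have h3 : (e ^ N) ^ j ∈ ⁅Cn (e ^ N) v, Cn (e ^ N) v⁆ := by
    rw [← pow_mul, mul_comm, pow_mul]
    exact pow_mem hc N
  rw [← h2, ← Subgroup.map_commutator] at h3
  obtain ⟨y, hy, hyx⟩ := h3
  have h4 : y = (⟨e ^ N, pow_mem he N⟩ : MulAction.stabilizer G v) ^ j := Subtype.ext hyx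
  rwa [← h4]

/-- **the class of the groups in `Quo C` with `Det`** -/
theorem tree_quo_det (hC : ClosedE C) (hM : ∀ (G : Type) [Group G], derivedSeries G 2 = ⊥ → C G)
    (hA : AcylF C) (hT : T.IsTree) (hact : ∀ (g : G) (u v : V), T.Adj u v → T.Adj (g • u) (g • v))
    (hinv : ∀ (g : G) (u v : V), T.Adj u v → ¬ (g • u = v ∧ g • v = u))
    (hE : ∀ v u : V, T.Adj v u → Finite (Es G v u) ∨ BalVC (G := G) v u ∨
      ∃ e : G, Es G v u = zpowers e)
    (hV : ∀ v : V, Quo C (MulAction.stabilizer G v) ∧ Det (MulAction.stabilizer G v)) :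
    Quo C G ∧ Det G := by
  have hVC : ∀ v u : V, T.Adj v u → VC (Es G v u) := by
    intro v u h
    rcases hE v u h with h1 | ⟨h1, _⟩ | ⟨e, h1⟩
    · exact VC_fin h1
    · exact h1
    · exact VC_cyc h1
  refine ⟨tree_quo hC hM hA hT hact hinv (fun v => (hV v).1) fun v u huv => ?_,
    tree_det hT hact hinv hVC fun v => (hV v).2⟩
  rcases hE v u huv with h1 | h1 | ⟨e, h1⟩
  · exact Or.inl h1
  · exact Or.inr (Or.inl h1)
  · by_cases h : Infinite (Es G v u)
    · right
      right
      have hei : InfOrd e := by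
        intro i hi
        by_contra h0
        have h2 : IsOfFinOrder e := by
          rw [isOfFinOrder_iff_zpow_eq_one]
          exact ⟨i, h0, hi⟩
        have h3 : Finite (zpowers e) := h2.finite_zpowers.to_subtype
        rw [h1] at h
        exact absurd h (not_infinite_iff_finite.2 h3)
      have he : e ∈ MulAction.stabilizer G v := by
        have h2 : e ∈ Es G v u := by
          rw [h1]
          exact mem_zpowers e
        exact h2.1
      exact ⟨e, h1, (hV v).2.edge he hei⟩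
    · exact Or.inl (not_infinite_iff_finite.1 h)

end Pool.Agent.J6H95.FJ
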