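import Pool.Agent.J6H95.FJ.Fam

/-!
# Vertices the edge groups of which are isolated in terms of their centralizers
-/

set_option autoImplicit false

namespace Pool.Agent.J6H95.FJ

open SimpleGraph
open Matrix (GeneralLinearGroup)
open scoped commutatorElement
open Subgroup
open Subgroup.Commensurable (commensurator)
open Pool.Agent.Y110.FJ
open Pool.Agent.N509.TK
open Pool.Agent.N509.TX (AcylF)
open Pool.Agent.N431.CE (Es Es_comm Es_smul mem_Es Cn mem_Cn)

variable {C : ∀ (G : Type) [Group G], Prop}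
variable {G V : Type} [Group G] [MulAction G V] {T : SimpleGraph V}

/-- the centralizer of `E` in the stabilizer of `v` -/
def Cv {G V : Type} [Group G] [MulAction G V] (v : V) (E : Subgroup G) : Subgroup G :=
  MulAction.stabilizer G v ⊓ centralizer (E : Set G)

theorem mem_Cv {v : V} {E : Subgroup G} {g : G} :
    g ∈ Cv v E ↔ g • v = v ∧ ∀ x ∈ E, g * x = x * g := by
  unfold Cv
  rw [mem_inf, MulAction.mem_stabilizer_iff, mem_centralizer_iff]
  exact and_congr_right fun _ => ⟨fun h x hx => (h x hx).symm, fun h x hx => (h x hx).symm⟩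

theorem Cv_anti {v : V} {E F : Subgroup G} (h : E ≤ F) : Cv v F ≤ Cv v E := by
  intro g hg
  rw [mem_Cv] at hg ⊢
  exact ⟨hg.1, fun x hx => hg.2 x (h hx)⟩

theorem le_CCv {v : V} {E : Subgroup G} (h : E ≤ MulAction.stabilizer G v) :
    E ≤ Cv v (Cv v E) := by
  intro g hg
  rw [mem_Cv]
  refine ⟨h hg, fun x hx => ?_⟩
  rw [mem_Cv] at hx
  exact (hx.2 g hg).symm

theorem CCCv {v : V} {E : Subgroup G} (h : E ≤ MulAction.stabilizer G v) :
    Cv v (Cv v (Cv v E)) = Cv v E :=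
  le_antisymm (Cv_anti (le_CCv h)) (le_CCv inf_le_left)

theorem Cv_cj {v : V} {E : Subgroup G} {g : G} (hg : g • v = v) : Cv v (cj g E) = cj g (Cv v E) := by
  ext x
  rw [mem_cj, mem_Cv, mem_Cv]
  have h0 : x • v = v ↔ (g⁻¹ * x * g) • v = v := by
    rw [mul_smul, mul_smul, hg, inv_smul_eq_iff, hg]
  rw [h0]
  refine and_congr_right fun _ => ⟨fun h y hy => ?_, fun h y hy => ?_⟩
  · have h1 : g * y * g⁻¹ ∈ cj g E := by
      rw [mem_cj]
      have h2 : g⁻¹ * (g * y * g⁻¹) * g = y := by group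
      rw [h2]
      exact hy
    have h3 := h _ h1
    calc g⁻¹ * x * g * y = g⁻¹ * (x * (g * y * g⁻¹)) * g := by group
      _ = g⁻¹ * (g * y * g⁻¹ * x) * g := by rw [h3]
      _ = y * (g⁻¹ * x * g) := by group
  · rw [mem_cj] at hy
    have h3 := h _ hy
    calc x * y = g * (g⁻¹ * x * g * (g⁻¹ * y * g)) * g⁻¹ := by group
      _ = g * (g⁻¹ * y * g * (g⁻¹ * x * g)) * g⁻¹ := by rw [h3]
      _ = y * x := by group

theorem mem_nor_of {A : Subgroup G} {g : G} (h : cj g A = A) : g ∈ normalizer (A : Set G) := by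
  rw [mem_normalizer_iff]
  intro x
  have h9 : g⁻¹ * (g * x * g⁻¹) * g = x := by group
  constructor
  · intro hx
    rw [← h, mem_cj, h9]
    exact hx
  · intro hx
    rw [← h, mem_cj, h9] at hx
    exact hx

theorem cj_of_nor {A : Subgroup G} {g : G} (h : g ∈ normalizer (A : Set G)) : cj g A = A := by
  have h1 := mem_normalizer_iff.1 h
  ext x
  rw [mem_cj]
  have h2 := h1 (g⁻¹ * x * g)
  have h3 : g * (g⁻¹ * x * g) * g⁻¹ = x := by group
  rw [h3] at h2
  exact h2

/-- the stabilizer of `v` is linear over a field `k` such that all `GL_m(k)` are in `C` -/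
def LinS (C : ∀ (G : Type) [Group G], Prop) {G V : Type} [Group G] [MulAction G V] (v : V) : Prop :=
  ∃ (k : Type) (_ : Field k) (d : ℕ) (ρ : MulAction.stabilizer G v →* GL (Fin d) k),
    (∀ m : ℕ, C (GL (Fin m) k)) ∧ Function.Injective ρ

theorem LinS.mem (hC : ClosedE C) {v : V} (h : LinS C (G := G) v) :
    C ↥(MulAction.stabilizer G v) := by
  obtain ⟨k, _, d, ρ, hk, hρ⟩ := h
  exact hC.base.of_injective _ _ ρ hρ (hk _)

/-- **normalizers in linear groups of subgroups which are their own double centralizers** -/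
theorem LinS.nq (hC : ClosedE C) {v : V} (h : LinS C (G := G) v) {A : Subgroup G}
    (hA : Cv v (Cv v A) = A) : NQ C v A := by
  obtain ⟨k, _, d, ρ, hk, hρ⟩ := h
  obtain ⟨N, hN⟩ : ∃ N : Subgroup G, N = MulAction.stabilizer G v ⊓ normalizer (A : Set G) := ⟨_, rfl⟩
  unfold NQ
  rw [← hN]
  have hNs : ∀ g : N, (g : G) ∈ MulAction.stabilizer G v := fun g => (hN ▸ g.2 :
    (g : G) ∈ MulAction.stabilizer G v ⊓ normalizer (A : Set G)).1
  have hNn : ∀ g : N, (g : G) ∈ normalizer (A : Set G) := fun g => (hN ▸ g.2 :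
    (g : G) ∈ MulAction.stabilizer G v ⊓ normalizer (A : Set G)).2
  obtain ⟨σ, hσ⟩ : ∃ σ : N →* GL (Fin d) k, ∀ g, σ g = ρ ⟨g, hNs g⟩ :=
    ⟨ρ.comp (N.subtype.codRestrict _ hNs), fun g => rfl⟩
  have hCs : ∀ g : Cv v A, (g : G) ∈ MulAction.stabilizer G v := fun g => g.2.1
  obtain ⟨B, hB⟩ : ∃ B : Submodule k (Matrix (Fin d) (Fin d) k), B = Submodule.span k
      (Set.range fun g : Cv v A => ((ρ ⟨g, hCs g⟩ : GL (Fin d) k) : Matrix (Fin d) (Fin d) k)) :=
    ⟨_, rfl⟩
  have hst : ∀ a, ∀ b ∈ B, (σ a : Matrix (Fin d) (Fin d) k) * b * ((σ a)⁻¹ : GL (Fin d) k) ∈ B := by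
    intro a b hb
    rw [hB] at hb ⊢
    induction hb using Submodule.span_induction with
    | mem x hx =>
      obtain ⟨g, rfl⟩ := hx
      have h1 : (a : G) * (g : G) * (a : G)⁻¹ ∈ Cv v A := by
        have h2 : cj (a : G) (Cv v A) = Cv v A := by
          rw [← Cv_cj (hNs a), cj_of_nor (hNn a)]
        have h4 : (a : G) * (g : G) * (a : G)⁻¹ ∈ cj (a : G) (Cv v A) := by
          rw [mem_cj]
          have h3 : (a : G)⁻¹ * ((a : G) * (g : G) * (a : G)⁻¹) * (a : G) = g := by group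
          rw [h3]
          exact g.2
        exact h2.le h4
      refine Submodule.subset_span ⟨⟨_, h1⟩, ?_⟩
      show ((ρ ⟨(a : G) * (g : G) * (a : G)⁻¹, _⟩ : GL (Fin d) k) : Matrix (Fin d) (Fin d) k) =
        (σ a : Matrix (Fin d) (Fin d) k) * (ρ ⟨g, hCs g⟩ : GL (Fin d) k) *
          ((σ a)⁻¹ : GL (Fin d) k)
      rw [← Units.val_mul, ← Units.val_mul, hσ, ← map_inv, ← map_mul, ← map_mul]
      rfl
    | zero =>
      rw [mul_zero, zero_mul]
      exact zero_mem _
    | add x y _ _ hx hy =>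
      rw [mul_add, add_mul]
      exact add_mem hx hy
    | smul c x _ hx =>
      rw [mul_smul_comm, smul_mul_assoc]
      exact Submodule.smul_mem _ c hx
  refine ⟨_, inferInstance, (conjHom σ B hst).toHomUnits, C_lin hC hk B, fun x => ?_⟩
  rw [conjHom_eq_one]
  constructor
  · intro h
    rw [← hA, mem_Cv]
    refine ⟨hNs x, fun g hg => ?_⟩
    have h1 := h ((ρ ⟨g, hg.1⟩ : GL (Fin d) k) : Matrix (Fin d) (Fin d) k) (by
      rw [hB]
      exact Submodule.subset_span ⟨⟨g, hg⟩, rfl⟩)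
    rw [← comm_gl, hσ, ← map_mul, ← map_mul] at h1
    exact congrArg Subtype.val (hρ h1)
  · intro hx b hb
    rw [← hA, mem_Cv] at hx
    rw [hB] at hb
    induction hb using Submodule.span_induction with
    | mem y hy =>
      obtain ⟨g, rfl⟩ := hy
      show (σ x : Matrix (Fin d) (Fin d) k) * (ρ ⟨g, hCs g⟩ : GL (Fin d) k) =
        (ρ ⟨g, hCs g⟩ : GL (Fin d) k) * (σ x : Matrix (Fin d) (Fin d) k)
      rw [← comm_gl, hσ, ← map_mul, ← map_mul]
      congr 1
      exact Subtype.ext (hx.2 g g.2)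
    | zero => rw [mul_zero, zero_mul]
    | add y z _ _ hy hz => rw [mul_add, add_mul, hy, hz]
    | smul c y _ hy => rw [mul_smul_comm, smul_mul_assoc, hy]

/-- the conditions at a vertex `v` in terms of centralizers. The stabilizer of `v` is in `C`. Each infinite
stabilizer `E` of an edge at `v` is commutative, the stabilizer of `v` is linear (`LinS`), or the quotient of
the normalizer of the double centralizer of `E` by this double centralizer is in `C`, and the intersections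
of `E` with the infinite stabilizers `E'` of the other edges at `v`, the centralizers of which in the
stabilizer of `v` are different from the centralizer of `E`, are finite of bounded order -/
def CenV (C : ∀ (G : Type) [Group G], Prop) (G : Type) {V : Type} [Group G] [MulAction G V]
    (T : SimpleGraph V) (v : V) : Prop :=
  C ↥(MulAction.stabilizer G v) ∧ ∀ a, T.Adj v a → Infinite (Es G v a) →
    (∀ x ∈ Es G v a, ∀ y ∈ Es G v a, x * y = y * x) ∧
    (LinS C (G := G) v ∨ NQ C v (Cv v (Cv v (Es G v a)))) ∧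
    ∃ n : ℕ, ∀ b, T.Adj v b → Infinite (Es G v b) → Cv v (Es G v a) ≠ Cv v (Es G v b) →
      ∀ F : Finset G, (∀ g ∈ F, g ∈ Es G v a ∧ g ∈ Es G v b) → F.card ≤ n

/-- the relation for the cyclic edge groups at the vertices in `P`, the centralizers of the edge groups at
the vertices in `Q`, and the families at the other vertices -/
def rmix (G : Type) {V : Type} [Group G] [MulAction G V] (P Q : Set V) (𝓐 : V → Set (Subgroup G))
    (v a b : V) : Prop :=
  (v ∈ P → Commensurable (Es G v a) (Es G v b)) ∧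
    (v ∉ P → v ∈ Q → Cv v (Es G v a) = Cv v (Es G v b)) ∧
    (v ∉ P → v ∉ Q → ∀ A ∈ 𝓐 v, Es G v a ≤ A ↔ Es G v b ≤ A)

theorem stab_smul {g : G} {v : V} : MulAction.stabilizer G (g • v) = cj g (MulAction.stabilizer G v) := by
  ext x
  rw [mem_cj, MulAction.mem_stabilizer_iff, MulAction.mem_stabilizer_iff, mul_smul, mul_smul,
    inv_smul_eq_iff]

theorem Cv_smul {g : G} {v : V} {E : Subgroup G} : Cv (g • v) (cj g E) = cj g (Cv v E) := by
  ext x
  rw [mem_cj, mem_Cv, mem_Cv]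
  have h0 : x • g • v = g • v ↔ (g⁻¹ * x * g) • v = v := by
    rw [mul_smul, mul_smul, inv_smul_eq_iff]
  rw [h0]
  refine and_congr_right fun _ => ⟨fun h y hy => ?_, fun h y hy => ?_⟩
  · have h1 : g * y * g⁻¹ ∈ cj g E := by
      rw [mem_cj]
      have h2 : g⁻¹ * (g * y * g⁻¹) * g = y := by group
      rw [h2]
      exact hy
    have h3 := h _ h1
    calc g⁻¹ * x * g * y = g⁻¹ * (x * (g * y * g⁻¹)) * g := by group
      _ = g⁻¹ * (g * y * g⁻¹ * x) * g := by rw [h3]
      _ = y * (g⁻¹ * x * g) := by group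
  · rw [mem_cj] at hy
    have h3 := h _ hy
    calc x * y = g * (g⁻¹ * x * g * (g⁻¹ * y * g)) * g⁻¹ := by group
      _ = g * (g⁻¹ * y * g * (g⁻¹ * x * g)) * g⁻¹ := by rw [h3]
      _ = y * x := by group

theorem rmix_LR {P Q : Set V} (hP : ∀ (g : G) (v : V), v ∈ P → g • v ∈ P)
    (hQ : ∀ (g : G) (v : V), v ∈ Q → g • v ∈ Q) {𝓐 : V → Set (Subgroup G)}
    (h𝓐 : ∀ (g : G) (v : V), ∀ A ∈ 𝓐 v, cj g A ∈ 𝓐 (g • v)) : LR G T (rmix G P Q 𝓐) where
  refl _ _ _ := ⟨fun _ => Commensurable.refl _, fun _ _ => rfl, fun _ _ _ _ => Iff.rfl⟩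
  symm _ _ _ _ _ h := ⟨fun hv => (h.1 hv).symm, fun hv hv' => (h.2.1 hv hv').symm,
    fun hv hv' A hA => (h.2.2 hv hv' A hA).symm⟩
  trans _ _ _ _ _ _ _ h h' := ⟨fun hv => (h.1 hv).trans (h'.1 hv),
    fun hv hv' => (h.2.1 hv hv').trans (h'.2.1 hv hv'),
    fun hv hv' A hA => (h.2.2 hv hv' A hA).trans (h'.2.2 hv hv' A hA)⟩
  eqv g v a b h := by
    have hP' : g • v ∈ P ↔ v ∈ P := ⟨fun hv => by
      have h2 := hP g⁻¹ _ hv
      rwa [inv_smul_smul] at h2, hP g v⟩
    have hQ' : g • v ∈ Q ↔ v ∈ Q := ⟨fun hv => by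
      have h2 := hQ g⁻¹ _ hv
      rwa [inv_smul_smul] at h2, hQ g v⟩
    unfold rmix
    rw [hP', hQ']
    refine ⟨fun hv => ?_, fun hv hv' => ?_, fun hv hv' A hA => ?_⟩
    · rw [Es_smul, Es_smul]
      exact (h.1 hv).conj _
    · rw [Es_cj, Es_cj, Cv_smul, Cv_smul, h.2.1 hv hv']
    · have h2 : cj g⁻¹ A ∈ 𝓐 v := by
        have h3 := h𝓐 g⁻¹ _ A hA
        rwa [inv_smul_smul] at h3
      have h3 := h.2.2 hv hv' _ h2
      rw [Es_cj, Es_cj, ← cj_inv (g := g) (A := A), cj_le, cj_le]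
      exact h3

end Pool.Agent.J6H95.FJ
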