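import Pool.Agent.J6H95.FJ.IntG
import Mathlib.GroupTheory.Transfer

/-!
# Finite index overgroups and directed unions
-/

set_option autoImplicit false

namespace Pool.Agent.J6H95.FJ

open Subgroup
open scoped commutatorElement
open Subgroup.Commensurable (commensurator)
open Pool.Agent.Y110.FJ

variable {C : ∀ (G : Type) [Group G], Prop}

/-- the class `P` is closed under subgroups, overgroups of finite index and directed unions -/
structure Stable (P : ∀ (G : Type) [Group G], Prop) : Prop where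
  sub : ∀ (G H : Type) [Group G] [Group H] (f : H →* G), Function.Injective f → P G → P H
  fin : ∀ (G : Type) [Group G] (K : Subgroup G), K.FiniteIndex → P K → P G
  dir : ∀ (G : Type) [Group G] (I : Type) [Preorder I] [Nonempty I]
    (_ : ∀ i j : I, ∃ k, i ≤ k ∧ j ≤ k) (K : I → Subgroup G), Monotone K → (∀ g, ∃ i, g ∈ K i) →
    (∀ i, P (K i)) → P G

theorem Stable.and {P Q : ∀ (G : Type) [Group G], Prop} (hP : Stable P) (hQ : Stable Q) :
    Stable (fun G _ => P G ∧ Q G) :=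
  ⟨fun G H _ _ f hf h => ⟨hP.sub G H f hf h.1, hQ.sub G H f hf h.2⟩,
    fun G _ K hK h => ⟨hP.fin G K hK h.1, hQ.fin G K hK h.2⟩,
    fun G _ I _ _ hI K hK hg h => ⟨hP.dir G I hI K hK hg fun i => (h i).1,
      hQ.dir G I hI K hK hg fun i => (h i).2⟩⟩

section bald

theorem conj_iter {G : Type} [Group G] {g e : G} {i j : ℤ} (h : g * e ^ i * g⁻¹ = e ^ j) (r : ℕ) :
    g ^ r * e ^ (i ^ r) * (g ^ r)⁻¹ = e ^ (j ^ r) := by
  induction r with
  | zero => simp
  | succ r ih =>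
    have h1 : g ^ (r + 1) * e ^ (i ^ (r + 1)) * (g ^ (r + 1))⁻¹ =
        g * (g ^ r * (e ^ (i ^ r)) * (g ^ r)⁻¹) ^ i * g⁻¹ := by
      rw [conj_zpow, ← zpow_mul, ← pow_succ, pow_succ' g]
      group
    rw [h1, ih, ← zpow_mul, mul_comm, zpow_mul, ← conj_zpow, h, ← zpow_mul, ← pow_succ']

theorem abs_of_pow {i j : ℤ} {r : ℕ} (hr : r ≠ 0) (h : j ^ r = i ^ r ∨ j ^ r = -(i ^ r)) :
    j = i ∨ j = -i := by
  have h1 : j.natAbs ^ r = i.natAbs ^ r := by
    rw [← Int.natAbs_pow, ← Int.natAbs_pow]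
    rcases h with h | h
    · rw [h]
    · rw [h, Int.natAbs_neg]
  have h2 : j.natAbs = i.natAbs := Nat.pow_left_injective hr h1
  omega

theorem stable_bald : Stable (fun G _ => Bald G) := by
  refine ⟨fun G H _ _ f hf h => h.of_injective f hf, ?_, ?_⟩
  · intro G _ K hK h e he g i j hi hij
    obtain ⟨m, hm, -, hme⟩ := Subgroup.exists_pow_mem_of_index_ne_zero hK.index_ne_zero e
    obtain ⟨r, hr, -, hrg⟩ := Subgroup.exists_pow_mem_of_index_ne_zero hK.index_ne_zero g
    have h1 := conj_iter hij r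
    have h2 : InfOrd (⟨e ^ m, hme⟩ : K) := InfOrd.of_map K.subtype (he.pow hm.ne')
    have h3 := h _ h2 ⟨g ^ r, hrg⟩ (i ^ r) (j ^ r) (pow_ne_zero r hi) (by
      apply Subtype.ext
      show g ^ r * (e ^ m) ^ (i ^ r) * (g ^ r)⁻¹ = (e ^ m) ^ (j ^ r)
      rw [← zpow_natCast e m, ← zpow_mul, mul_comm (m : ℤ), zpow_mul, ← conj_zpow, h1, ← zpow_mul,
        ← zpow_mul, mul_comm (m : ℤ)])
    exact abs_of_pow hr.ne' h3
  · intro G _ I _ _ hI K hK hg h e he g i j hi hij
    obtain ⟨a, ha⟩ := hg e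
    obtain ⟨b, hb⟩ := hg g
    obtain ⟨k, hak, hbk⟩ := hI a b
    have h2 : InfOrd (⟨e, hK hak ha⟩ : K k) := InfOrd.of_map (K k).subtype he
    exact h k _ h2 ⟨g, hK hbk hb⟩ i j hi (Subtype.ext hij)

end bald

section det

theorem tf_pow {x : Multiplicative ℚ} {j : ℕ} (hj : j ≠ 0) (h : x ^ j = 1) : x = 1 := by
  have h1 : x ^ (j : ℤ) = 1 ^ (j : ℤ) := by
    rw [zpow_natCast, h, one_zpow]
  exact root_unique (by exact_mod_cast hj) h1

/-- the transfer of a character -/
theorem det_transfer {G : Type} [Group G] {z : G} (hz : z ∈ centralizer {z})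
    (A : Subgroup (centralizer {z})) (hA : A.FiniteIndex) (ϕ : A →* Multiplicative ℚ) {m : ℕ}
    (hzm : (⟨z, hz⟩ : centralizer {z}) ^ m ∈ A) (hϕ : ϕ ⟨_, hzm⟩ = Multiplicative.ofAdd 1) {j : ℕ}
    (hj : j ≠ 0) : z ^ j ∉ ⁅centralizer {z}, centralizer {z}⁆ := by
  intro hc
  obtain ⟨D, hD⟩ : ∃ D : Subgroup G, D = centralizer {z} := ⟨_, rfl⟩
  have h1 := MonoidHom.transfer_eq_pow ϕ (⟨z, hz⟩ : centralizer {z}) (by
    intro k g0 _
    apply Subtype.ext
    have h2 : Commute (g0 : G) z := mem_centralizer_singleton_iff.1 g0.2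
    show (g0 : G)⁻¹ * z ^ k * (g0 : G) = z ^ k
    rw [mul_assoc, ← (h2.pow_right k).eq, inv_mul_cancel_left])
  have h2 := comm_kill (MonoidHom.transfer ϕ) hc (pow_mem hz j)
  have h3 : MonoidHom.transfer ϕ (⟨z ^ j, pow_mem hz j⟩ : centralizer {z}) =
      (MonoidHom.transfer ϕ ⟨z, hz⟩) ^ j := by
    rw [← map_pow]
    rfl
  rw [h3] at h2
  have h4 := tf_pow hj h2
  rw [h4] at h1
  have h5 : (1 : Multiplicative ℚ) ^ m = Multiplicative.ofAdd (A.index : ℚ) := by
    rw [h1, ← map_pow]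
    have h6 : (⟨(⟨z, hz⟩ : centralizer {z}) ^ A.index, MonoidHom.transfer_eq_pow_aux
        (⟨z, hz⟩ : centralizer {z}) (by
          intro k g0 _
          apply Subtype.ext
          have h2 : Commute (g0 : G) z := mem_centralizer_singleton_iff.1 g0.2
          show (g0 : G)⁻¹ * z ^ k * (g0 : G) = z ^ k
          rw [mul_assoc, ← (h2.pow_right k).eq, inv_mul_cancel_left])⟩ : A) ^ m =
        (⟨_, hzm⟩ : A) ^ A.index := by
      apply Subtype.ext
      show ((⟨z, hz⟩ : centralizer {z}) ^ A.index) ^ m = ((⟨z, hz⟩ : centralizer {z}) ^ m) ^ A.index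
      rw [← pow_mul, ← pow_mul, mul_comm]
    rw [h6, map_pow, hϕ, ← ofAdd_nsmul, nsmul_eq_mul, mul_one]
  rw [one_pow] at h5
  have h7 : (A.index : ℚ) = 0 := (congrArg Multiplicative.toAdd h5).symm
  exact hA.index_ne_zero (by exact_mod_cast h7)

theorem stable_det : Stable (fun G _ => Det G) := by
  refine ⟨fun G H _ _ f hf h => h.of_injective f hf, ?_, ?_⟩
  · intro G _ K hK h z hz j hj
    have hzz : z ∈ centralizer {z} := mem_centralizer_singleton_iff.2 rfl
    obtain ⟨m, hm, -, hmz⟩ := Subgroup.exists_pow_mem_of_index_ne_zero hK.index_ne_zero z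
    have h2 : InfOrd (⟨z ^ m, hmz⟩ : K) := InfOrd.of_map K.subtype (hz.pow hm.ne')
    have hz' : (⟨z ^ m, hmz⟩ : K) ∈ centralizer {(⟨z ^ m, hmz⟩ : K)} :=
      mem_centralizer_singleton_iff.2 rfl
    obtain ⟨χ, hχ⟩ := exists_char (z := (⟨⟨z ^ m, hmz⟩, hz'⟩ : centralizer {(⟨z ^ m, hmz⟩ : K)}))
      (by
        intro i hi hc
        refine h _ h2 i hi ?_
        have h3 : ((⟨⟨z ^ m, hmz⟩, hz'⟩ : centralizer {(⟨z ^ m, hmz⟩ : K)}) ^ i : K) ∈
            (commutator (centralizer {(⟨z ^ m, hmz⟩ : K)})).map (centralizer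
              {(⟨z ^ m, hmz⟩ : K)}).subtype := ⟨_, hc, rfl⟩
        rw [_root_.commutator_def, Subgroup.map_commutator] at h3
        refine Subgroup.commutator_mono ?_ ?_ h3 <;>
        · rintro _ ⟨g, -, rfl⟩
          exact g.2)
    have h3 : (K.subgroupOf (centralizer {z})).FiniteIndex := by
      have := hK
      infer_instance
    have h4 : ∀ x : K.subgroupOf (centralizer {z}),
        (⟨((x : centralizer {z}) : G), x.2⟩ : K) ∈ centralizer {(⟨z ^ m, hmz⟩ : K)} := by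
      intro x
      rw [mem_centralizer_singleton_iff]
      apply Subtype.ext
      have h5 : Commute ((x : centralizer {z}) : G) z :=
        mem_centralizer_singleton_iff.1 (x : centralizer {z}).2
      exact (h5.pow_right m).eq
    obtain ⟨ι, hι⟩ : ∃ ι : K.subgroupOf (centralizer {z}) →* centralizer {(⟨z ^ m, hmz⟩ : K)},
        ∀ x, ι x = ⟨⟨((x : centralizer {z}) : G), x.2⟩, h4 x⟩ :=
      ⟨((((centralizer {z}).subtype.comp (K.subgroupOf (centralizer {z})).subtype).codRestrict K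
        (fun x => x.2)).codRestrict _ h4), fun x => rfl⟩
    refine det_transfer hzz (K.subgroupOf (centralizer {z})) h3 (χ.comp ι) (m := m)
      (mem_subgroupOf.2 hmz) ?_ hj
    rw [MonoidHom.comp_apply, hι, ← hχ]
    rfl
  · intro G _ I _ _ hI K hK hg h z hz j hj hc
    have h1 : ∀ x ∈ ⁅centralizer {z}, centralizer {z}⁆, ∃ i, x ∈
        ⁅centralizer {z} ⊓ K i, centralizer {z} ⊓ K i⁆ := by
      intro x hx
      have hmono : ∀ i k, i ≤ k → ⁅centralizer {z} ⊓ K i, centralizer {z} ⊓ K i⁆ ≤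
          ⁅centralizer {z} ⊓ K k, centralizer {z} ⊓ K k⁆ := fun i k hik =>
        Subgroup.commutator_mono (inf_le_inf_left _ (hK hik)) (inf_le_inf_left _ (hK hik))
      rw [Subgroup.commutator_def] at hx
      induction hx using Subgroup.closure_induction with
      | mem x hx =>
        obtain ⟨a, ha, b, hb, rfl⟩ := hx
        obtain ⟨i, hi⟩ := hg a
        obtain ⟨i', hi'⟩ := hg b
        obtain ⟨k, hk, hk'⟩ := hI i i'
        exact ⟨k, Subgroup.commutator_mem_commutator ⟨ha, hK hk hi⟩ ⟨hb, hK hk' hi'⟩⟩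
      | one =>
        obtain ⟨i⟩ := ‹Nonempty I›
        exact ⟨i, one_mem _⟩
      | mul x y _ _ ihx ihy =>
        obtain ⟨i, hi⟩ := ihx
        obtain ⟨i', hi'⟩ := ihy
        obtain ⟨k, hk, hk'⟩ := hI i i'
        exact ⟨k, mul_mem (hmono _ _ hk hi) (hmono _ _ hk' hi')⟩
      | inv x _ ihx =>
        obtain ⟨i, hi⟩ := ihx
        exact ⟨i, inv_mem hi⟩
    obtain ⟨a, ha⟩ := h1 _ hc
    obtain ⟨b, hb⟩ := hg z
    obtain ⟨k, hak, hbk⟩ := hI a b
    have h2 : InfOrd (⟨z, hK hbk hb⟩ : K k) := InfOrd.of_map (K k).subtype hz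
    refine h k _ h2 j hj ?_
    have h3 : z ^ j ∈ ⁅centralizer {z} ⊓ K k, centralizer {z} ⊓ K k⁆ :=
      Subgroup.commutator_mono (inf_le_inf_left _ (hK hak)) (inf_le_inf_left _ (hK hak)) ha
    have h4 : (centralizer {(⟨z, hK hbk hb⟩ : K k)}).map (K k).subtype = centralizer {z} ⊓ K k := by
      ext x
      constructor
      · rintro ⟨y, hy, rfl⟩
        exact ⟨mem_centralizer_singleton_iff.2 (congrArg Subtype.val
          (mem_centralizer_singleton_iff.1 hy)), y.2⟩
      · rintro ⟨h5, h6⟩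
        exact ⟨⟨x, h6⟩, mem_centralizer_singleton_iff.2
          (Subtype.ext (mem_centralizer_singleton_iff.1 h5)), rfl⟩
    rw [← h4, ← Subgroup.map_commutator] at h3
    obtain ⟨y, hy, hyx⟩ := h3
    have h5 : y = (⟨z, hK hbk hb⟩ : K k) ^ j := Subtype.ext hyx
    rwa [← h5]

end det

end Pool.Agent.J6H95.FJ
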