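import Pool.Agent.J6H95.FJ.Clo

/-!
# Finite index overgroups and directed unions, second part
-/

set_option autoImplicit false

namespace Pool.Agent.J6H95.FJ

open Subgroup
open scoped commutatorElement Pointwise
open Subgroup.Commensurable (commensurator)
open Pool.Agent.Y110.FJ

variable {C : ∀ (G : Type) [Group G], Prop}

theorem Zn_normal {G : Type} [Group G] (z : G) : ((zpowers z).subgroupOf (Nm z)).Normal := by
  refine ⟨fun x hx h => ?_⟩
  rw [mem_subgroupOf] at hx ⊢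
  obtain ⟨i, hi⟩ := hx
  obtain ⟨j, hj⟩ := Nm_zpow h.2 i
  exact ⟨j, by
    show z ^ j = (h : G) * (x : G) * (h : G)⁻¹
    rw [← hj, ← hi]⟩

/-- the image of `K ∩ Nm z` in the quotient by `⟨z⟩` -/
theorem C_image (hC : ClosedE C) {G : Type} [Group G] {z : G} (K : Subgroup G) {c : G}
    (hcK : c ∈ K) (hKc : K ⊓ zpowers z = zpowers c) (hcN : Nm z ≤ Nm c)
    (hK : ∃ (Q : Type) (_ : Group Q) (π : Nm (⟨c, hcK⟩ : K) →* Q), C Q ∧
      ∀ x, π x = 1 ↔ (x : K) ∈ zpowers (⟨c, hcK⟩ : K))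
    (Z : Subgroup (Nm z)) [Z.Normal] (hZ : ∀ x : Nm z, x ∈ Z ↔ (x : G) ∈ zpowers z) :
    C ↥((K.subgroupOf (Nm z)).map (QuotientGroup.mk' Z)) := by
  obtain ⟨Q, _, π, hQ, hπ⟩ := hK
  obtain ⟨A, hA⟩ : ∃ A : Subgroup (Nm z), A = K.subgroupOf (Nm z) := ⟨_, rfl⟩
  have hAm : ∀ x : A, ((x : Nm z) : G) ∈ K := fun x => mem_subgroupOf.1 (hA ▸ x.2)
  rw [← hA]
  obtain ⟨B, hB⟩ : ∃ B : Subgroup (Nm z ⧸ Z), B = A.map (QuotientGroup.mk' Z) := ⟨_, rfl⟩
  rw [← hB]
  have hAB : ∀ x : A, QuotientGroup.mk' Z (x : Nm z) ∈ B := fun x => by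
    rw [hB]
    exact ⟨x, x.2, rfl⟩
  have h1 : ∀ x : A, (⟨((x : Nm z) : G), hAm x⟩ : K) ∈ Nm (⟨c, hcK⟩ : K) := by
    intro x
    rcases hcN (x : Nm z).2 with h | h
    · exact Or.inl (Subtype.ext h)
    · exact Or.inr (Subtype.ext h)
  obtain ⟨ι, hι⟩ : ∃ ι : A →* Nm (⟨c, hcK⟩ : K), ∀ x, ι x = ⟨⟨((x : Nm z) : G), hAm x⟩, h1 x⟩ :=
    ⟨(((Nm z).subtype.comp A.subtype).codRestrict K hAm).codRestrict _ h1, fun x => rfl⟩
  have h2 : ∀ x : A, π (ι x) = 1 ↔ (x : Nm z) ∈ Z := by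
    intro x
    rw [hπ, hZ, hι]
    constructor
    · rintro ⟨i, hi⟩
      have hi : c ^ i = ((x : Nm z) : G) := congrArg Subtype.val hi
      have h3 : ((x : Nm z) : G) ∈ K ⊓ zpowers z := by
        rw [hKc]
        exact ⟨i, hi⟩
      exact h3.2
    · intro h3
      have h4 : ((x : Nm z) : G) ∈ K ⊓ zpowers z := ⟨hAm x, h3⟩
      rw [hKc] at h4
      obtain ⟨i, hi⟩ := h4
      exact ⟨i, Subtype.ext hi⟩
  refine C_ker hC (((QuotientGroup.mk' Z).comp A.subtype).codRestrict B hAB) ?_ (π.comp ι) ?_ ?_ hQ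
  · rintro ⟨q, hq⟩
    obtain ⟨s, hs, hsq⟩ := hB ▸ hq
    exact ⟨⟨s, hs⟩, Subtype.ext hsq⟩
  · intro a ha
    apply Subtype.ext
    exact (QuotientGroup.eq_one_iff (a : Nm z)).2 ((h2 a).1 ha)
  · intro a ha
    exact (h2 a).2 ((QuotientGroup.eq_one_iff (a : Nm z)).1 (congrArg Subtype.val ha))

theorem stable_quo (hC : ClosedE C) : Stable (fun G _ => Quo C G) := by
  classical
  refine ⟨fun G H _ _ f hf h => h.of_injective hC f hf, ?_, ?_⟩
  · intro G _ K hK h
    refine ⟨hC.base.finiteIndex G K hK h.mem, fun z hz => ?_⟩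
    -- the generator of `K ∩ ⟨z⟩`
    have hex : ∃ m : ℕ, 0 < m ∧ z ^ m ∈ K := by
      obtain ⟨m, hm, -, hmz⟩ := Subgroup.exists_pow_mem_of_index_ne_zero hK.index_ne_zero z
      exact ⟨m, hm, hmz⟩
    obtain ⟨m, ⟨hm, hmz⟩, hmin⟩ : ∃ m : ℕ, (0 < m ∧ z ^ m ∈ K) ∧
        ∀ r, r < m → ¬ (0 < r ∧ z ^ r ∈ K) :=
      ⟨Nat.find hex, Nat.find_spec hex, fun r hr => Nat.find_min hex hr⟩
    have hKc : K ⊓ zpowers z = zpowers (z ^ m) := by
      ext x
      constructor
      · rintro ⟨hx, ⟨i, hi⟩⟩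
        have hi : z ^ i = x := hi
        have hm' : (0 : ℤ) < m := by exact_mod_cast hm
        have h1 : 0 ≤ i % (m : ℤ) := Int.emod_nonneg _ hm'.ne'
        have h2 : i % (m : ℤ) < m := Int.emod_lt_of_pos _ hm'
        have h3 : z ^ (i % (m : ℤ)) ∈ K := by
          have h4 : z ^ (i % (m : ℤ)) = z ^ i * ((z ^ m) ^ (i / (m : ℤ)))⁻¹ := by
            rw [← zpow_natCast z m, ← zpow_mul, ← zpow_neg, ← zpow_add]
            congr 1
            have h5 := Int.emod_add_mul_ediv i m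
            omega
          rw [h4, hi]
          exact mul_mem hx (inv_mem (zpow_mem hmz _))
        have h4 : i % (m : ℤ) = 0 := by
          by_contra h0
          refine hmin (i % (m : ℤ)).toNat (by omega) ⟨by omega, ?_⟩
          rw [← zpow_natCast, Int.toNat_of_nonneg h1]
          exact h3
        refine ⟨i / (m : ℤ), ?_⟩
        show (z ^ m) ^ (i / (m : ℤ)) = x
        rw [← hi, ← zpow_natCast z m, ← zpow_mul]
        congr 1
        have h5 := Int.emod_add_mul_ediv i m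
        omega
      · rintro ⟨i, rfl⟩
        exact ⟨zpow_mem hmz i, zpow_mem (pow_mem (mem_zpowers z) m) i⟩
    have h2 : InfOrd (⟨z ^ m, hmz⟩ : K) := InfOrd.of_map K.subtype (hz.pow hm.ne')
    have hZn := Zn_normal z
    obtain ⟨Z, hZ⟩ : ∃ Z : Subgroup (Nm z), Z = (zpowers z).subgroupOf (Nm z) := ⟨_, rfl⟩
    have hZm : ∀ x : Nm z, x ∈ Z ↔ (x : G) ∈ zpowers z := fun x => by
      rw [hZ]
      exact mem_subgroupOf
    rw [← hZ] at hZn
    refine ⟨Nm z ⧸ Z, inferInstance, QuotientGroup.mk' Z, ?_, fun x => ?_⟩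
    · have h3 := C_image hC K hmz hKc (Nm_pow z m) (h.quot _ h2) Z hZm
      refine hC.base.finiteIndex _ _ ?_ h3
      have h4 : (K.subgroupOf (Nm z)).FiniteIndex := by
        have := hK
        infer_instance
      exact ⟨by
        have h5 := Subgroup.index_map_dvd (K.subgroupOf (Nm z)) (f := QuotientGroup.mk' Z)
          (QuotientGroup.mk'_surjective Z)
        exact ne_zero_of_dvd_ne_zero h4.index_ne_zero h5⟩
    · rw [← hZm]
      exact QuotientGroup.eq_one_iff x
  · intro G _ I _ _ hI K hK hg h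
    refine ⟨Pool.Agent.Y430.SS.of_directed hC.base G I hI K hK hg fun i => (h i).mem,
      fun z hz => ?_⟩
    have hZn := Zn_normal z
    obtain ⟨Z, hZ⟩ : ∃ Z : Subgroup (Nm z), Z = (zpowers z).subgroupOf (Nm z) := ⟨_, rfl⟩
    have hZm : ∀ x : Nm z, x ∈ Z ↔ (x : G) ∈ zpowers z := fun x => by
      rw [hZ]
      exact mem_subgroupOf
    rw [← hZ] at hZn
    refine ⟨Nm z ⧸ Z, inferInstance, QuotientGroup.mk' Z, ?_, fun x => ?_⟩
    · obtain ⟨i0, hi0⟩ := hg z
      have : Nonempty {i : I // i0 ≤ i} := ⟨⟨i0, le_refl i0⟩⟩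
      refine Pool.Agent.Y430.SS.of_directed hC.base (Nm z ⧸ Z) {i : I // i0 ≤ i} ?_
        (fun i => ((K i).subgroupOf (Nm z)).map (QuotientGroup.mk' Z)) ?_ ?_ ?_
      · rintro ⟨i, hi⟩ ⟨j, hj⟩
        obtain ⟨k, hk, hk'⟩ := hI i j
        exact ⟨⟨k, hi.trans hk⟩, hk, hk'⟩
      · intro i j hij
        exact Subgroup.map_mono (Subgroup.comap_mono (hK hij))
      · intro q
        obtain ⟨x, rfl⟩ := QuotientGroup.mk_surjective q
        obtain ⟨i, hi⟩ := hg (x : G)
        obtain ⟨k, hk, hk'⟩ := hI i0 i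
        exact ⟨⟨k, hk⟩, ⟨x, mem_subgroupOf.2 (hK hk' hi), rfl⟩⟩
      · rintro ⟨i, hi⟩
        have hzi : z ∈ K i := hK hi hi0
        have h2 : InfOrd (⟨z, hzi⟩ : K i) := InfOrd.of_map (K i).subtype hz
        refine C_image hC (K i) hzi ?_ le_rfl ((h i).quot _ h2) Z hZm
        exact inf_eq_right.2 (zpowers_le.2 hzi)
    · rw [← hZm]
      exact QuotientGroup.eq_one_iff x

/-- finite groups are in the class -/
theorem C_fin (hC : ClosedE C) (Q : Type) [Group Q] [Finite Q] : C Q := by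
  refine hC.base.finiteIndex Q ⊥ inferInstance ?_
  exact hC.base.of_injective _ _ (1 : (⊥ : Subgroup Q) →* Multiplicative ℤ)
    (fun a b _ => Subsingleton.elim a b) hC.base.int

/-- **groups in which the commensurators of the infinite cyclic subgroups are virtually cyclic** -/
theorem vc_comm (hC : ClosedE C) {G : Type} [Group G] (hG : C G)
    (h : ∀ z : G, InfOrd z → VC (commensurator (zpowers z))) : Quo C G ∧ Det G ∧ Bald G := by
  have hmem : ∀ z : G, z ∈ commensurator (zpowers z) := by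
    intro z
    rw [Commensurable.commensurator_mem_iff]
    have h1 : ConjAct.toConjAct z • zpowers z = zpowers z := by
      ext x
      rw [Subgroup.mem_smul_pointwise_iff_exists]
      constructor
      · rintro ⟨_, ⟨n, rfl⟩, rfl⟩
        refine ⟨n, ?_⟩
        show z ^ n = ConjAct.toConjAct z • z ^ n
        rw [ConjAct.toConjAct_smul, ((Commute.refl z).zpow_right n).eq, mul_inv_cancel_right]
      · rintro ⟨n, rfl⟩
        refine ⟨z ^ n, ⟨n, rfl⟩, ?_⟩
        show ConjAct.toConjAct z • z ^ n = z ^ n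
        rw [ConjAct.toConjAct_smul, ((Commute.refl z).zpow_right n).eq, mul_inv_cancel_right]
    rw [h1]
  have hrel : ∀ z : G, InfOrd z → (zpowers z).relIndex (commensurator (zpowers z)) ≠ 0 :=
    fun z hz => (h z hz).relIndex (hmem z) hz
  have hNm : ∀ z : G, InfOrd z → Nm z ≤ commensurator (zpowers z) := by
    intro z hz g hg
    rcases hg with hg | hg
    · exact mem_comm_of hz (i := 1) (j := 1) one_ne_zero (by rw [zpow_one]; exact hg)
    · exact mem_comm_of hz (i := 1) (j := -1) one_ne_zero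
        (by rw [zpow_one, zpow_neg, zpow_one]; exact hg)
  refine ⟨⟨hG, fun z hz => ?_⟩, fun z hz j hj => ?_, fun e he g i j hi hij => ?_⟩
  · have hZn := Zn_normal z
    obtain ⟨Z, hZ⟩ : ∃ Z : Subgroup (Nm z), Z = (zpowers z).subgroupOf (Nm z) := ⟨_, rfl⟩
    have hZm : ∀ x : Nm z, x ∈ Z ↔ (x : G) ∈ zpowers z := fun x => by
      rw [hZ]
      exact mem_subgroupOf
    rw [← hZ] at hZn
    refine ⟨Nm z ⧸ Z, inferInstance, QuotientGroup.mk' Z, ?_, fun x => ?_⟩
    · have h1 : (zpowers z).relIndex (Nm z) ≠ 0 := fun h0 =>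
        hrel z hz (Subgroup.relIndex_eq_zero_of_le_right (hNm z hz) h0)
      have h2 : Z.FiniteIndex := by
        rw [hZ]
        exact ⟨h1⟩
      have h3 : Finite (Nm z ⧸ Z) := Subgroup.finite_quotient_of_finiteIndex
      exact C_fin hC _
    · rw [← hZm]
      exact QuotientGroup.eq_one_iff x
  · have hzz : z ∈ centralizer {z} := mem_centralizer_singleton_iff.2 rfl
    have hcN : centralizer {z} ≤ commensurator (zpowers z) := by
      refine le_trans ?_ (hNm z hz)
      intro g hg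
      left
      rw [mem_centralizer_singleton_iff.1 hg, mul_inv_cancel_right]
    have h1 : (zpowers z).relIndex (centralizer {z}) ≠ 0 := fun h0 =>
      hrel z hz (Subgroup.relIndex_eq_zero_of_le_right hcN h0)
    have h2 : ((zpowers z).subgroupOf (centralizer {z})).FiniteIndex := ⟨h1⟩
    have hz1 : (⟨z, hzz⟩ : centralizer {z}) ∈ (zpowers z).subgroupOf (centralizer {z}) :=
      mem_subgroupOf.2 (mem_zpowers z)
    obtain ⟨χ, hχ⟩ := exists_char (z := (⟨⟨z, hzz⟩, hz1⟩ :
        (zpowers z).subgroupOf (centralizer {z}))) (by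
      intro i hi hc
      have h3 : commutator ↥((zpowers z).subgroupOf (centralizer {z})) = ⊥ := by
        rw [_root_.commutator_def, eq_bot_iff, Subgroup.commutator_le]
        rintro ⟨x, hx⟩ - ⟨y, hy⟩ -
        rw [mem_bot, commutatorElement_eq_one_iff_mul_comm]
        obtain ⟨a, ha⟩ := mem_subgroupOf.1 hx
        obtain ⟨b, hb⟩ := mem_subgroupOf.1 hy
        apply Subtype.ext
        apply Subtype.ext
        show (x : G) * (y : G) = (y : G) * (x : G)
        have ha : z ^ a = (x : G) := ha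
        have hb : z ^ b = (y : G) := hb
        rw [← ha, ← hb, ← zpow_add, ← zpow_add, add_comm]
      rw [h3, mem_bot] at hc
      have h4 : z ^ i = 1 := congrArg (fun y : (zpowers z).subgroupOf (centralizer {z}) =>
        ((y : centralizer {z}) : G)) hc
      have h5 := hz (i : ℤ) (by rw [zpow_natCast]; exact h4)
      exact hi (by exact_mod_cast h5))
    refine det_transfer hzz ((zpowers z).subgroupOf (centralizer {z})) h2 χ (m := 1)
      (by rw [pow_one]; exact hz1) ?_ hj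
    rw [← hχ]
    congr 1
    exact Subtype.ext (pow_one _)
  · have hg := mem_comm_of he hi hij
    obtain ⟨r, hr, -, h1⟩ := Subgroup.exists_pow_mem_of_relIndex_ne_zero (hrel e he) hg
    obtain ⟨a, ha⟩ := h1.1
    have ha : e ^ a = g ^ r := ha
    have h2 := conj_iter hij r
    rw [← ha] at h2
    have h3 : e ^ a * e ^ (i ^ r) * (e ^ a)⁻¹ = e ^ (i ^ r) := by
      rw [← zpow_neg, ← zpow_add, ← zpow_add]
      congr 1
      ring
    rw [h3] at h2
    have h4 := he (i ^ r - j ^ r) (by rw [zpow_sub, h2, mul_inv_cancel])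
    refine abs_of_pow hr.ne' (Or.inl ?_)
    omega

end Pool.Agent.J6H95.FJ
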