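import Pool.Agent.J6H95.FJ.ModQ

/-!
# Vertices the edge groups of which are isolated up to commensurability
-/

set_option autoImplicit false

namespace Pool.Agent.J6H95.FJ

open SimpleGraph
open Matrix (GeneralLinearGroup)
open scoped commutatorElement
open Subgroup
open Subgroup.Commensurable (commensurator)
open Pool.Agent.Y110.FJ
open Pool.Agent.N509.TK
open Pool.Agent.N509.TX (AcylF)
open Pool.Agent.N431.CE (Es Es_comm Es_smul mem_Es Cn mem_Cn comm_Cn Cn_pow)

variable {C : ∀ (G : Type) [Group G], Prop}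
variable {G V : Type} [Group G] [MulAction G V] {T : SimpleGraph V}

theorem FinRank.comm {E : Subgroup G} (h : FinRank E) {x y : G} (hx : x ∈ E) (hy : y ∈ E) :
    x * y = y * x := by
  obtain ⟨r, c, hc⟩ := h
  have h1 : (⟨x, hx⟩ : E) * ⟨y, hy⟩ = ⟨y, hy⟩ * ⟨x, hx⟩ := by
    apply hc
    rw [map_mul, map_mul, mul_comm]
  exact congrArg Subtype.val h1

theorem FinRank.tf {E : Subgroup G} (h : FinRank E) {x : G} (hx : x ∈ E) {m : ℕ} (hm : m ≠ 0)
    (h1 : x ^ m = 1) : x = 1 := by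
  obtain ⟨r, c, hc⟩ := h
  have h2 : (⟨x, hx⟩ : E) ^ m = 1 := Subtype.ext h1
  have h3 : co c (⟨x, hx⟩ ^ m) = 0 := by rw [h2, co_one]
  rw [co_pow] at h3
  have h4 : co c ⟨x, hx⟩ = 0 := by
    rcases smul_eq_zero.1 h3 with h | h
    · exact absurd (by exact_mod_cast h) hm
    · exact h
  have h5 : (⟨x, hx⟩ : E) = 1 := by
    apply co_inj c hc
    rw [h4, co_one]
  exact congrArg Subtype.val h5

/-- infinite cyclic groups -/
theorem FinRank.cyc {e : G} (he : InfOrd e) : FinRank (zpowers e) := by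
  have h1 : ∀ x : zpowers e, ∃ i : ℤ, e ^ i = x := fun x => x.2
  choose f hf using h1
  have huniq : ∀ i j : ℤ, e ^ i = e ^ j → i = j := by
    intro i j hij
    have h2 := he (i - j) (by rw [zpow_sub, hij, mul_inv_cancel])
    omega
  refine ⟨1, MonoidHom.mk' (fun x => Multiplicative.ofAdd fun _ => (f x : ℚ)) ?_, ?_⟩
  · intro x y
    have h2 : f (x * y) = f x + f y := by
      apply huniq
      rw [hf, zpow_add, hf, hf]
      rfl
    show Multiplicative.ofAdd (fun _ => (f (x * y) : ℚ)) = Multiplicative.ofAdd (fun _ => (f x : ℚ)) *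
      Multiplicative.ofAdd (fun _ => (f y : ℚ))
    rw [← ofAdd_add, h2]
    congr 1
    funext i
    push_cast
    rfl
  · intro x y hxy
    have h2 : (fun _ : Fin 1 => (f x : ℚ)) = fun _ => (f y : ℚ) := Multiplicative.ofAdd.injective hxy
    have h3 : (f x : ℚ) = f y := congrFun h2 0
    have h4 : f x = f y := by exact_mod_cast h3
    apply Subtype.ext
    rw [← hf x, ← hf y, h4]

/-- **the modular homomorphism of the vertex group** -/
theorem erl_mod (hC : ClosedE C) (hQ : ∀ m : ℕ, C (GL (Fin m) ℚ)) {v u : V}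
    (hfr : FinRank (Es G v u))
    (hw : ∀ w, T.Adj v w → Infinite (Es G v w) → Commensurable (Es G v w) (Es G v u) →
      ∀ x ∈ Es G v w, ∀ y ∈ Es G v w, x * y = y * x)
    (hx : ∀ x ∈ Es G v u, x ≠ 1 → ∀ N : ℕ, N ≠ 0 → x ∉ ⁅Cn (x ^ N) v, Cn (x ^ N) v⁆) :
    ERL C G T v u := by
  obtain ⟨r, c, hc⟩ := hfr
  obtain ⟨f, hf⟩ := exists_modQ hc
  have hSc : ∀ g : Sc G v u, (g : G) ∈ commensurator (Es G v u) := fun g => g.2.2
  obtain ⟨π, hπ⟩ : ∃ π : Sc G v u →* (Module.End ℚ (Wq c))ˣ,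
      ∀ g, π g = 1 ↔ f ⟨g, hSc g⟩ = 1 := by
    refine ⟨(f.comp ((Sc G v u).subtype.codRestrict _ hSc)).toHomUnits, fun g => ?_⟩
    constructor
    · intro h
      exact congrArg Units.val h
    · intro h
      apply Units.ext
      exact h
  refine ⟨_, inferInstance, π, C_lin hC hQ (Wq c), ?_, ?_⟩
  · intro w hvw hwinf hwc x hxS hxw
    rw [hπ]
    apply LinearMap.ext
    intro z
    apply Subtype.ext
    refine Gq_uniq hc (hf ⟨x, hSc ⟨x, hxS⟩⟩ z) ?_
    obtain ⟨N, hN, y, hy⟩ := z.2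
    obtain ⟨m, hm, -, h2⟩ := Subgroup.exists_pow_mem_of_relIndex_ne_zero hwc.1 y.2
    refine ⟨N * m, mul_ne_zero hN hm.ne', y ^ m, y ^ m, ?_, ?_, ?_⟩
    · show x * (y : G) ^ m * x⁻¹ = (y : G) ^ m
      rw [hw w hvw hwinf hwc x hxw _ h2.1]
      group
    · rw [co_pow, ← hy, smul_smul, Nat.cast_mul, mul_comm (m : ℚ)]
    · show ((N * m : ℕ) : ℚ) • (z : Fin r → ℚ) = _
      rw [co_pow, ← hy, smul_smul, Nat.cast_mul, mul_comm (m : ℚ)]
  · rw [eq_bot_iff]
    rintro x ⟨hxE, hxL⟩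
    obtain ⟨L, hL⟩ : ∃ L : Subgroup G, L = π.ker.map (Sc G v u).subtype := ⟨_, rfl⟩
    rw [← hL] at hxL
    have hxL : x ∈ ⁅L, L⁆ := hxL
    rw [mem_bot]
    by_contra hne
    obtain ⟨N, hN, h1⟩ := comm_Cn (S := L) (a := x) (v := v) (fun s hs => by
      rw [hL] at hs
      obtain ⟨⟨s, hsS⟩, hs1, rfl⟩ := hs
      have hs1 : π ⟨s, hsS⟩ = 1 := hs1
      rw [hπ] at hs1
      have h2 := hf ⟨s, hSc ⟨s, hsS⟩⟩ ⟨co c ⟨x, hxE⟩, co_mem c _⟩
      rw [hs1] at h2
      obtain ⟨N, hN, a, b, hab, ha, hb⟩ := h2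
      have ha : (N : ℚ) • co c ⟨x, hxE⟩ = co c a := ha
      have hb : (N : ℚ) • co c ⟨x, hxE⟩ = co c b := hb
      rw [← co_pow] at ha hb
      have ha' := congrArg Subtype.val (co_inj c hc ha)
      have hb' := congrArg Subtype.val (co_inj c hc hb)
      have ha' : x ^ N = (a : G) := ha'
      have hb' : x ^ N = (b : G) := hb'
      refine ⟨N, hN, mem_Cn.2 ⟨hsS.1, ?_⟩⟩
      have hab : s * (a : G) * s⁻¹ = b := hab
      rw [← ha', ← hb'] at hab
      show s * x ^ N = x ^ N * s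
      exact mul_inv_eq_iff_eq_mul.1 hab) hxL
    exact hx x hxE hne N hN h1

/-- the edge groups at `v` are isolated up to commensurability -/
def IsoC (G : Type) {V : Type} [Group G] [MulAction G V] (T : SimpleGraph V) (v : V) : Prop :=
  (∀ u, T.Adj v u → VC (Es G v u)) ∨
    ∀ a, T.Adj v a → Infinite (Es G v a) → ∃ n : ℕ, ∀ b, T.Adj v b → Infinite (Es G v b) →
      ¬ Commensurable (Es G v a) (Es G v b) →
        ∀ F : Finset G, (∀ g ∈ F, g ∈ Es G v a ∧ g ∈ Es G v b) → F.card ≤ n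

/-- the stabilizer `E` of the edge `{v, u}` is torsion-free abelian of finite rank, and for `x ≠ 1` in `E` there
is a representation over some field of the stabilizer of `v` for which no positive power of `x` is
unipotent, or `x` is not in the commutator subgroups of the centralizers of its positive powers in the
stabilizer of `v` -/
def TrE {G V : Type} [Group G] [MulAction G V] (v u : V) : Prop :=
  FinRank (Es G v u) ∧ ∀ x ∈ Es G v u, x ≠ 1 →
    (∃ (k : Type) (_ : Field k) (d : ℕ) (ρ : MulAction.stabilizer G v →* GL (Fin d) k),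
      ∀ (h : x ∈ MulAction.stabilizer G v) (M : ℕ), 0 < M →
        ¬ IsNilpotent ((ρ ⟨x, h⟩ : Matrix (Fin d) (Fin d) k) ^ M - 1)) ∨
    ∀ N : ℕ, N ≠ 0 → x ∉ ⁅Cn (x ^ N) v, Cn (x ^ N) v⁆

theorem TrE.tr {v u : V} (h : TrE (G := G) v u) {x : G} (hx : x ∈ Es G v u) (hx1 : x ≠ 1) {N : ℕ}
    (hN : N ≠ 0) : x ∉ ⁅Cn (x ^ N) v, Cn (x ^ N) v⁆ := by
  rcases h.2 x hx hx1 with ⟨k, _, d, ρ, h1⟩ | h1
  · have h2 := lin_h1 ρ hx.1 (h1 hx.1) N 1 hN one_ne_zero
    rwa [pow_one] at h2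
  · exact h1 N hN

/-- the edge group of `{v, u}` is generated by `e`; in characteristic zero, if a positive power of `ρ(e)` is
unipotent, then `ρ(e)` has only one eigenvalue -/
def OneE {G V : Type} [Group G] [MulAction G V] {k : Type} [Field k] {d : ℕ} {v : V}
    (ρ : MulAction.stabilizer G v →* GL (Fin d) k) (u : V) : Prop :=
  ∃ e : G, Es G v u = zpowers e ∧ (CharZero k → ∀ h : e ∈ MulAction.stabilizer G v, OneEig (ρ ⟨e, h⟩))

/-- the edge groups at `v` are isolated up to commensurability: the stabilizer of `v` is in `C`, and the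
infinite edge groups at `v` satisfy `TrE`, or the stabilizer of `v` is linear over a field `k` such that all
`GL_m(k)` are in `C`, and the infinite edge groups at `v` satisfy `TrE` or `OneE` -/
def ComV (C : ∀ (G : Type) [Group G], Prop) (G : Type) {V : Type} [Group G] [MulAction G V]
    (T : SimpleGraph V) (v : V) : Prop :=
  IsoC G T v ∧
  ((C ↥(MulAction.stabilizer G v) ∧ ∀ u, T.Adj v u → Finite (Es G v u) ∨ TrE (G := G) v u) ∨
    ∃ (k : Type) (_ : Field k) (d : ℕ) (ρ : MulAction.stabilizer G v →* GL (Fin d) k),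
      (∀ m : ℕ, C (GL (Fin m) k)) ∧ Function.Injective ρ ∧
      ∀ u, T.Adj v u → Finite (Es G v u) ∨ TrE (G := G) v u ∨ OneE ρ u)

theorem ComV.mem (hC : ClosedE C) {v : V} (h : ComV C G T v) : C ↥(MulAction.stabilizer G v) := by
  rcases h.2 with h1 | ⟨k, _, d, ρ, hk, hρ, _⟩
  · exact h1.1
  · exact hC.base.of_injective _ _ ρ hρ (hk _)

theorem ComV.erl (hC : ClosedE C) (hM : ∀ (G : Type) [Group G], derivedSeries G 2 = ⊥ → C G)
    (hQ : ∀ m : ℕ, C (GL (Fin m) ℚ)) {v u : V}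
    (h : ComV C G T v) (huv : T.Adj v u) (hinf : Infinite (Es G v u)) : ERL C G T v u := by
  rcases h.2 with ⟨_, hE⟩ | ⟨k, _, d, ρ, hk, hρ, hE⟩
  · have key : ∀ w, T.Adj v w → Infinite (Es G v w) → TrE (G := G) v w := by
      intro w hvw hwinf
      rcases hE w hvw with h1 | h1
      · exact absurd hwinf (not_infinite_iff_finite.2 h1)
      · exact h1
    exact erl_mod hC hQ (key u huv hinf).1
      (fun w hvw hwinf _ x hx y hy => (key w hvw hwinf).1.comm hx hy)
      fun x hx hx1 N hN => (key u huv hinf).tr hx hx1 hN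
  have key : ∀ w, T.Adj v w → Infinite (Es G v w) → TrE (G := G) v w ∨
      ∃ e' : G, Es G v w = zpowers e' ∧ InfOrd e' ∧
        (CharZero k → ∀ h : e' ∈ MulAction.stabilizer G v, OneEig (ρ ⟨e', h⟩)) := by
    intro w hvw hwinf
    rcases hE w hvw with h1 | h1 | ⟨e', he', hone⟩
    · exact absurd hwinf (not_infinite_iff_finite.2 h1)
    · exact Or.inl h1
    · rw [he'] at hwinf
      exact Or.inr ⟨e', he', infOrd_of hwinf, hone⟩
  by_cases hT : ∃ w, T.Adj v w ∧ Infinite (Es G v w) ∧ Commensurable (Es G v w) (Es G v u) ∧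
      TrE (G := G) v w
  · obtain ⟨w, hvw, hwinf, hwc, hw⟩ := hT
    have hfr : ∀ w, T.Adj v w → Infinite (Es G v w) → FinRank (Es G v w) := by
      intro w hvw hwinf
      rcases key w hvw hwinf with h1 | ⟨e', he', hei', _⟩
      · exact h1.1
      · rw [he']
        exact FinRank.cyc hei'
    refine erl_mod hC hQ (hfr u huv hinf)
      (fun w hvw hwinf _ x hx y hy => (hfr w hvw hwinf).comm hx hy) ?_
    intro x hx hx1 N hN hcon
    obtain ⟨m, hm, -, h2⟩ := Subgroup.exists_pow_mem_of_relIndex_ne_zero hwc.1 hx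
    have h3 : x ^ m ≠ 1 := fun h3 => hx1 ((hfr u huv hinf).tf hx hm.ne' h3)
    refine hw.tr h2.1 h3 hN ?_
    have h4 : Cn (x ^ N) v ≤ Cn ((x ^ m) ^ N) v := by
      rw [← pow_mul, mul_comm, pow_mul]
      exact Cn_pow _ v m
    exact Subgroup.commutator_mono h4 h4 (pow_mem hcon m)
  have key' : ∀ w, T.Adj v w → Infinite (Es G v w) → Commensurable (Es G v w) (Es G v u) →
      ∃ e' : G, Es G v w = zpowers e' ∧ InfOrd e' ∧
        (CharZero k → ∀ h : e' ∈ MulAction.stabilizer G v, OneEig (ρ ⟨e', h⟩)) := by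
    intro w hvw hwinf hwc
    rcases key w hvw hwinf with h1 | h1
    · exact absurd ⟨w, hvw, hwinf, hwc, h1⟩ hT
    · exact h1
  obtain ⟨e, he, hei, hc⟩ := key' u huv hinf (Commensurable.refl _)
  have hev : e ∈ MulAction.stabilizer G v := by
    have h1 : e ∈ Es G v u := by
      rw [he]
      exact mem_zpowers e
    exact h1.1
  by_cases hbig : ∀ M : ℕ, 0 < M →
      ¬ IsNilpotent ((ρ ⟨e, hev⟩ : Matrix (Fin d) (Fin d) k) ^ M - 1)
  · refine loc_mod hM he hei ?_ (lin_h1 ρ hev hbig)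
    intro w hvw hwinf hwc
    obtain ⟨e', he', hei', _⟩ := key' w hvw hwinf hwc
    exact ⟨e', he', hei'⟩
  push Not at hbig
  obtain ⟨M, hM0, hx⟩ := hbig
  have hchar : CharZero k := by
    refine char_zero_of (x := ρ ⟨e, hev⟩) ?_ hM0 hx
    intro i hi
    rw [← map_zpow] at hi
    have h5 := hρ (hi.trans (map_one _).symm)
    exact hei i (congrArg Subtype.val h5)
  refine ERL_uni hC hk he hei ρ hρ hev hM0 hx (hc hchar hev) ?_
  intro w hvw hwinf hwc
  obtain ⟨e', he', hei', hc'⟩ := key' w hvw hwinf hwc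
  exact ⟨e', he', hei', hc' hchar⟩

theorem ComV.iso {v : V} (h : ComV C G T v) {a : V} (hva : T.Adj v a)
    (hinf : Infinite (Es G v a)) : ∃ n : ℕ, ∀ b, T.Adj v b → Infinite (Es G v b) →
      ¬ Commensurable (Es G v a) (Es G v b) →
      ∀ F : Finset G, (∀ g ∈ F, g ∈ Es G v a ∧ g ∈ Es G v b) → F.card ≤ n := by
  rcases h.1 with h1 | h1
  · obtain ⟨n, hn⟩ := iso_at h1 hva hinf
    exact ⟨n, fun b hb _ => hn b hb⟩
  · exact h1 a hva hinf

end Pool.Agent.J6H95.FJ
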