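import Pool.Agent.J6H95.FJ.Glue

/-!
# Centralizers in groups acting on trees
-/

set_option autoImplicit false

namespace Pool.Agent.J6H95.FJ

open SimpleGraph
open scoped commutatorElement
open Subgroup
open Pool.Agent.N431.CE (Es)
open Pool.Agent.R643 (dz dz_zh IsoAct fix_or_hyp isoAct_of_adj)

variable {G V : Type} [Group G] [MulAction G V] {T : SimpleGraph V}

/-- homomorphisms kill commutators -/
theorem comm_kill {H M : Type} [Group H] [CommGroup M] {K : Subgroup H} (F : K →* M) {x : H}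
    (hx : x ∈ ⁅K, K⁆) (h : x ∈ K) : F ⟨x, h⟩ = 1 := by
  have h1 : ⁅K, K⁆ ≤ (F.ker).map K.subtype := by
    rw [Subgroup.commutator_le]
    intro a ha b hb
    refine ⟨⟨⁅a, b⁆, ?_⟩, ?_, rfl⟩
    · exact K.commutator_le_self (Subgroup.commutator_mem_commutator ha hb)
    · show F ⟨⁅a, b⁆, _⟩ = 1
      have h2 : (⟨⁅a, b⁆, K.commutator_le_self (Subgroup.commutator_mem_commutator ha hb)⟩ : K) =
        ⁅(⟨a, ha⟩ : K), ⟨b, hb⟩⁆ := rfl
      rw [h2, map_commutatorElement, commutatorElement_eq_one_iff_mul_comm]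
      exact mul_comm _ _
  obtain ⟨y, hy, hyx⟩ := h1 hx
  have h2 : y = ⟨x, h⟩ := Subtype.ext hyx
  rw [← h2]
  exact hy

/-- **the elements of infinite order have infinite order in the abelianizations of their centralizers** -/
theorem tree_det (hT : T.IsTree) (hact : ∀ (g : G) (u v : V), T.Adj u v → T.Adj (g • u) (g • v))
    (hinv : ∀ (g : G) (u v : V), T.Adj u v → ¬ (g • u = v ∧ g • v = u))
    (hVC : ∀ v u : V, T.Adj v u → VC (Es G v u))
    (hV : ∀ v : V, Det (MulAction.stabilizer G v)) : Det G := by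
  intro z hzi j hj hzj
  obtain ⟨o⟩ := hT.connected.nonempty
  have hzz : z ∈ centralizer {z} := mem_centralizer_singleton_iff.2 rfl
  obtain ⟨A⟩ : Nonempty (IsoAct (dz T) G) := ⟨isoAct_of_adj hT hact⟩
  rcases fix_or_hyp hT A hinv z with ⟨v1, hv1⟩ | h
  · -- the elliptic case
    obtain ⟨H, hH⟩ : ∃ H : Subgroup G, H = centralizer {z} := ⟨_, rfl⟩
    have hHm : ∀ h : H, (h : G) * z = z * h := fun h =>
      mem_centralizer_singleton_iff.1 (hH ▸ h.2)
    have hzH : z ∈ H := hH ▸ hzz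
    obtain ⟨X, hX⟩ : ∃ X : Set V, X = {v : V | z • v = v} := ⟨_, rfl⟩
    have hXm : ∀ v, v ∈ X ↔ z • v = v := fun v => by rw [hX]; rfl
    have hHX : ∀ (h : H) (v : V), v ∈ X → (h : G) • v ∈ X := by
      intro h v hv
      rw [hXm] at hv ⊢
      rw [← mul_smul, ← hHm h, mul_smul, hv]
    let _ : MulAction H X :=
      { smul := fun h x => ⟨(h : G) • (x : V), hHX h x x.2⟩
        one_smul := fun x => Subtype.ext (one_smul G (x : V))
        mul_smul := fun h k x => Subtype.ext (mul_smul (h : G) (k : G) (x : V)) }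
    have htree : (T.induce X).IsTree := by
      refine ⟨?_, hT.isAcyclic.induce _⟩
      have : Nonempty X := ⟨⟨v1, (hXm v1).2 hv1⟩⟩
      refine ⟨fun v u => ?_⟩
      obtain ⟨p, hp, -⟩ := hT.existsUnique_path (v : V) (u : V)
      refine ⟨p.induce _ fun x hx => (hXm x).2 ?_⟩
      exact fix_path hT hact ((hXm _).1 u.2) p hp ((hXm _).1 v.2) x hx
    have hzf : ∀ x : X, (⟨z, hzH⟩ : H) • x = x := fun x => Subtype.ext ((hXm _).1 x.2)
    suffices hF : ∃ F : H →* Multiplicative ℚ, F ⟨z, hzH⟩ = Multiplicative.ofAdd 1 by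
      obtain ⟨F, hF⟩ := hF
      subst hH
      have h1 := comm_kill F hzj (pow_mem hzz j)
      have h2 : F ⟨z ^ j, pow_mem hzz j⟩ = F ⟨z, hzH⟩ ^ j := by
        rw [← map_pow]
        rfl
      rw [h2, hF, ← ofAdd_nsmul] at h1
      have h3 : j • (1 : ℚ) = 0 := h1
      rw [nsmul_eq_mul, mul_one] at h3
      exact hj (by exact_mod_cast h3)
    refine glue (H := H) (V := X) (T := T.induce X) htree ?_ ⟨z, hzH⟩
      (fun g => Subtype.ext (hHm g)) hzf ?_ ?_
    · intro g u v huv
      exact hact g u v huv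
    · intro x
      refine exists_char fun i hi hc => ?_
      have hx : z • (x : V) = x := (hXm _).1 x.2
      have hzx : InfOrd (⟨z, hx⟩ : MulAction.stabilizer G (x : V)) :=
        InfOrd.of_map (MulAction.stabilizer G (x : V)).subtype hzi
      refine hV (x : V) ⟨z, hx⟩ hzx i hi ?_
      -- the homomorphism from the stabilizer in `H`
      have h0 : ∀ g : MulAction.stabilizer H x, ((g : H) : G) ∈ MulAction.stabilizer G (x : V) :=
        fun g => congrArg Subtype.val g.2
      obtain ⟨φ, hφ⟩ : ∃ φ : MulAction.stabilizer H x →* MulAction.stabilizer G (x : V),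
          ∀ g, φ g = ⟨((g : H) : G), h0 g⟩ :=
        ⟨(H.subtype.comp (MulAction.stabilizer H x).subtype).codRestrict _ h0, fun _ => rfl⟩
      have h1 : φ (⟨⟨z, hzH⟩, hzf x⟩ ^ i) ∈ (commutator (MulAction.stabilizer H x)).map φ :=
        ⟨_, hc, rfl⟩
      rw [_root_.commutator_def, Subgroup.map_commutator, map_pow, hφ] at h1
      refine Subgroup.commutator_mono ?_ ?_ h1 <;>
      · rintro _ ⟨g, -, rfl⟩
        rw [mem_centralizer_singleton_iff, hφ]
        exact Subtype.ext (hHm g)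
    · intro u w huw h hu hw
      have h1 : T.Adj (u : V) (w : V) := huw
      have h2 : (zpowers z).relIndex (Es G (u : V) (w : V)) ≠ 0 :=
        (hVC _ _ h1).relIndex ⟨(hXm _).1 u.2, (hXm _).1 w.2⟩ hzi
      have h3 : (h : G) ∈ Es G (u : V) (w : V) :=
        ⟨congrArg Subtype.val hu, congrArg Subtype.val hw⟩
      obtain ⟨m, hm, -, h4⟩ := Subgroup.exists_pow_mem_of_relIndex_ne_zero h2 h3
      obtain ⟨n, hn⟩ := h4.1
      have hn : z ^ n = (h : G) ^ m := hn
      refine ⟨m, n, by exact_mod_cast hm.ne', ?_⟩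
      apply Subtype.ext
      show (h : G) ^ (m : ℤ) = z ^ n
      rw [zpow_natCast, hn]
  · -- the hyperbolic case
    obtain ⟨τ, hτ⟩ := hyp_tau A h o
    have h1 := comm_kill τ hzj (pow_mem hzz j)
    have h2 : τ ⟨z ^ j, pow_mem hzz j⟩ = τ ⟨z, hzz⟩ ^ j := by
      rw [← map_pow]
      rfl
    rw [h2] at h1
    have h3 : j • Multiplicative.toAdd (τ ⟨z, hzz⟩) = 0 := congrArg Multiplicative.toAdd h1
    rw [nsmul_eq_mul] at h3
    rcases mul_eq_zero.1 h3 with h4 | h4
    · exact hj (by exact_mod_cast h4)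
    · exact hτ hzz h4

end Pool.Agent.J6H95.FJ
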