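import Pool.Agent.J6H95.FJ.Clo2

/-!
# Abelian groups and direct products
-/

set_option autoImplicit false

namespace Pool.Agent.J6H95.FJ

open Subgroup
open scoped commutatorElement
open Pool.Agent.Y110.FJ

variable {C : ∀ (G : Type) [Group G], Prop}

/-- abelian groups -/
theorem abelian (hM : ∀ (G : Type) [Group G], derivedSeries G 2 = ⊥ → C G)
    (A : Type) [CommGroup A] : Quo C A ∧ Det A ∧ Bald A := by
  refine ⟨⟨C_comm hM A, fun z hz => ?_⟩, fun z hz j hj hc => ?_, fun e he g i j hi hij => ?_⟩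
  · refine ⟨A ⧸ zpowers z, inferInstance, (QuotientGroup.mk' (zpowers z)).comp (Nm z).subtype,
      C_comm hM _, fun x => ?_⟩
    exact QuotientGroup.eq_one_iff (x : A)
  · have h1 : ⁅centralizer {z}, centralizer {z}⁆ = ⊥ := by
      rw [eq_bot_iff, Subgroup.commutator_le]
      intro x _ y _
      rw [mem_bot, commutatorElement_eq_one_iff_mul_comm]
      exact mul_comm x y
    rw [h1, mem_bot] at hc
    have h2 := hz (j : ℤ) (by rw [zpow_natCast]; exact hc)
    exact hj (by exact_mod_cast h2)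
  · left
    rw [mul_comm g, mul_inv_cancel_right] at hij
    have h1 := he (i - j) (by rw [zpow_sub, hij, mul_inv_cancel])
    omega

/-- `G` is torsion-free -/
def TorFree (G : Type) [Group G] : Prop := ∀ z : G, z ≠ 1 → InfOrd z

section prod

variable {G H : Type} [Group G] [Group H]

theorem prod_inf {z : G × H} (hz : InfOrd z) : InfOrd z.1 ∨ InfOrd z.2 := by
  by_contra hcon
  push Not at hcon
  obtain ⟨h1, h2⟩ := hcon
  unfold InfOrd at h1 h2
  push Not at h1 h2
  obtain ⟨i, hi, hi0⟩ := h1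
  obtain ⟨j, hj, hj0⟩ := h2
  refine mul_ne_zero hi0 hj0 (hz (i * j) ?_)
  apply Prod.ext
  · show z.1 ^ (i * j) = 1
    rw [zpow_mul, hi, one_zpow]
  · show z.2 ^ (i * j) = 1
    rw [mul_comm, zpow_mul, hj, one_zpow]

theorem bald_prod (hG : Bald G) (hH : Bald H) : Bald (G × H) := by
  intro e he g i j hi hij
  rcases prod_inf he with h | h
  · exact hG _ h g.1 i j hi (congrArg Prod.fst hij)
  · exact hH _ h g.2 i j hi (congrArg Prod.snd hij)

theorem det_prod (hG : Det G) (hH : Det H) : Det (G × H) := by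
  intro z hz j hj hc
  rcases prod_inf hz with h | h
  · refine hG _ h j hj ?_
    have h1 : (z ^ j).1 ∈ (⁅centralizer {z}, centralizer {z}⁆).map (MonoidHom.fst G H) :=
      ⟨_, hc, rfl⟩
    rw [Subgroup.map_commutator] at h1
    refine Subgroup.commutator_mono ?_ ?_ h1 <;>
    · rintro _ ⟨x, hx, rfl⟩
      exact mem_centralizer_singleton_iff.2 (congrArg Prod.fst (mem_centralizer_singleton_iff.1 hx))
  · refine hH _ h j hj ?_
    have h1 : (z ^ j).2 ∈ (⁅centralizer {z}, centralizer {z}⁆).map (MonoidHom.snd G H) :=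
      ⟨_, hc, rfl⟩
    rw [Subgroup.map_commutator] at h1
    refine Subgroup.commutator_mono ?_ ?_ h1 <;>
    · rintro _ ⟨x, hx, rfl⟩
      exact mem_centralizer_singleton_iff.2 (congrArg Prod.snd (mem_centralizer_singleton_iff.1 hx))

theorem tor_prod (tG : TorFree G) (tH : TorFree H) : TorFree (G × H) := by
  intro z hz i hi
  by_contra h0
  apply hz
  apply Prod.ext
  · by_contra h1
    exact h0 (tG _ h1 i (congrArg Prod.fst hi))
  · by_contra h1
    exact h0 (tH _ h1 i (congrArg Prod.snd hi))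

/-- products of torsion-free groups -/
theorem quo_prod (hC : ClosedE C) (hM : ∀ (G : Type) [Group G], derivedSeries G 2 = ⊥ → C G)
    (tG : TorFree G) (tH : TorFree H) (hG : Quo C G) (hH : Quo C H) : Quo C (G × H) := by
  refine ⟨hC.base.prod _ _ hG.mem hH.mem, fun z hz => ?_⟩
  have hN1 : ∀ x : Nm z, (x : G × H).1 ∈ Nm z.1 := by
    rintro ⟨x, hx⟩
    rcases hx with hx | hx
    · exact Or.inl (congrArg Prod.fst hx)
    · exact Or.inr (congrArg Prod.fst hx)
  have hN2 : ∀ x : Nm z, (x : G × H).2 ∈ Nm z.2 := by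
    rintro ⟨x, hx⟩
    rcases hx with hx | hx
    · exact Or.inl (congrArg Prod.snd hx)
    · exact Or.inr (congrArg Prod.snd hx)
  have hZn := Zn_normal z
  obtain ⟨Z, hZ⟩ : ∃ Z : Subgroup (Nm z), Z = (zpowers z).subgroupOf (Nm z) := ⟨_, rfl⟩
  have hZm : ∀ x : Nm z, x ∈ Z ↔ (x : G × H) ∈ zpowers z := fun x => by
    rw [hZ]
    exact mem_subgroupOf
  rw [← hZ] at hZn
  -- homomorphisms on the two normalizers whose kernels are cyclic, generated by the coordinates
  have key : ∀ (K : Type) [Group K], TorFree K → Quo C K → ∀ a : K,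
      ∃ (Q : Type) (_ : Group Q) (π : Nm a →* Q), C Q ∧ ∀ x, π x = 1 ↔ (x : K) ∈ zpowers a := by
    intro K _ tK hK a
    by_cases ha : a = 1
    · refine ⟨K, inferInstance, (Nm a).subtype, hK.mem, fun x => ?_⟩
      have h1 : zpowers a = ⊥ := by rw [ha, Subgroup.zpowers_one_eq_bot]
      rw [h1, mem_bot]
      rfl
    · exact hK.quot a (tK a ha)
  obtain ⟨Q1, _, π1, hQ1, hπ1⟩ := key G tG hG z.1
  obtain ⟨Q2, _, π2, hQ2, hπ2⟩ := key H tH hH z.2
  obtain ⟨F, hF⟩ : ∃ F : Nm z →* Q1 × Q2, ∀ x, F x =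
      (π1 ⟨(x : G × H).1, hN1 x⟩, π2 ⟨(x : G × H).2, hN2 x⟩) :=
    ⟨(π1.comp (((MonoidHom.fst G H).comp (Nm z).subtype).codRestrict _ hN1)).prod
      (π2.comp (((MonoidHom.snd G H).comp (Nm z).subtype).codRestrict _ hN2)), fun x => rfl⟩
  have hFk : ∀ x, F x = 1 ↔ (x : G × H).1 ∈ zpowers z.1 ∧ (x : G × H).2 ∈ zpowers z.2 := by
    intro x
    rw [hF, Prod.mk_eq_one, hπ1, hπ2]
  have hFZ : ∀ x ∈ Z, F x = 1 := by
    intro x hx
    rw [hZm] at hx
    obtain ⟨i, hi⟩ := hx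
    have hi : z ^ i = (x : G × H) := hi
    rw [hFk, ← hi]
    exact ⟨⟨i, rfl⟩, ⟨i, rfl⟩⟩
  refine ⟨Nm z ⧸ Z, inferInstance, QuotientGroup.mk' Z, ?_, fun y => ?_⟩
  · refine ab_hom hC hM (QuotientGroup.lift Z F hFZ) ?_ (hC.base.prod _ _ hQ1 hQ2)
    intro q r hq hr
    obtain ⟨g, rfl⟩ := QuotientGroup.mk_surjective q
    obtain ⟨h, rfl⟩ := QuotientGroup.mk_surjective r
    have hg : F g = 1 := hq
    have hh : F h = 1 := hr
    rw [hFk] at hg hh
    obtain ⟨⟨a, ha⟩, b, hb⟩ := hg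
    obtain ⟨⟨a', ha'⟩, b', hb'⟩ := hh
    have ha : z.1 ^ a = (g : G × H).1 := ha
    have hb : z.2 ^ b = (g : G × H).2 := hb
    have ha' : z.1 ^ a' = (h : G × H).1 := ha'
    have hb' : z.2 ^ b' = (h : G × H).2 := hb'
    have h4 : g * h = h * g := by
      apply Subtype.ext
      apply Prod.ext
      · show (g : G × H).1 * (h : G × H).1 = (h : G × H).1 * (g : G × H).1
        rw [← ha, ← ha', ← zpow_add, ← zpow_add, add_comm]
      · show (g : G × H).2 * (h : G × H).2 = (h : G × H).2 * (g : G × H).2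
        rw [← hb, ← hb', ← zpow_add, ← zpow_add, add_comm]
    rw [← QuotientGroup.mk_mul, ← QuotientGroup.mk_mul, h4]
  · rw [← hZm]
    exact QuotientGroup.eq_one_iff y

end prod

/-- groups of integral matrices -/
theorem int_quo (hC : ClosedE C) (hM : ∀ (G : Type) [Group G], derivedSeries G 2 = ⊥ → C G)
    (hQ : ∀ m : ℕ, C (GL (Fin m) ℚ)) (n : ℕ) : Quo C (GL (Fin n) ℤ) := by
  refine quo_lin hC hM hQ (Matrix.GeneralLinearGroup.map (Int.castRingHom ℚ)) ?_
  intro x y hxy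
  apply Units.ext
  ext i j
  have h1 := congrArg (fun g : GL (Fin n) ℚ => (g : Matrix (Fin n) (Fin n) ℚ) i j) hxy
  have h2 : (((x : Matrix (Fin n) (Fin n) ℤ) i j : ℤ) : ℚ) =
    (((y : Matrix (Fin n) (Fin n) ℤ) i j : ℤ) : ℚ) := h1
  exact_mod_cast h2

end Pool.Agent.J6H95.FJ
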