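import Pool.Agent.J6H95.FJ.Loc

/-!
# Vertices with a family of subgroups which contain the edge groups
-/

set_option autoImplicit false

namespace Pool.Agent.J6H95.FJ

open SimpleGraph
open scoped commutatorElement
open Subgroup
open Subgroup.Commensurable (commensurator)
open Pool.Agent.Y110.FJ
open Pool.Agent.N509.TK
open Pool.Agent.N509.TX (AcylF)
open Pool.Agent.N431.CE (Es Es_comm Es_smul mem_Es Cn mem_Cn)

variable {C : ∀ (G : Type) [Group G], Prop}
variable {G V : Type} [Group G] [MulAction G V] {T : SimpleGraph V}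

/-- the subgroup `g A g⁻¹` -/
def cj {G : Type} [Group G] (g : G) (A : Subgroup G) : Subgroup G := A.map (MulAut.conj g).toMonoidHom

theorem mem_cj {G : Type} [Group G] {g x : G} {A : Subgroup G} : x ∈ cj g A ↔ g⁻¹ * x * g ∈ A := by
  constructor
  · rintro ⟨y, hy, rfl⟩
    have h1 : g⁻¹ * (MulAut.conj g).toMonoidHom y * g = y := by
      show g⁻¹ * (g * y * g⁻¹) * g = y
      group
    rw [h1]
    exact hy
  · intro h
    refine ⟨_, h, ?_⟩
    show g * (g⁻¹ * x * g) * g⁻¹ = x
    group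

theorem cj_le {G : Type} [Group G] {g : G} {A B : Subgroup G} : cj g A ≤ cj g B ↔ A ≤ B := by
  constructor
  · intro h x hx
    have h1 : g * x * g⁻¹ ∈ cj g A := by
      rw [mem_cj]
      have h2 : g⁻¹ * (g * x * g⁻¹) * g = x := by group
      rw [h2]
      exact hx
    have h2 := mem_cj.1 (h h1)
    have h3 : g⁻¹ * (g * x * g⁻¹) * g = x := by group
    rwa [h3] at h2
  · intro h
    exact Subgroup.map_mono h

theorem cj_inv {G : Type} [Group G] {g : G} {A : Subgroup G} : cj g (cj g⁻¹ A) = A := by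
  ext x
  rw [mem_cj, mem_cj, inv_inv]
  have h3 : g * (g⁻¹ * x * g) * g⁻¹ = x := by group
  rw [h3]

theorem Es_cj (g : G) (v u : V) : Es G (g • v) (g • u) = cj g (Es G v u) := by
  ext x
  rw [mem_cj, mem_Es, mem_Es, mul_smul, mul_smul, mul_smul, mul_smul, inv_smul_eq_iff,
    inv_smul_eq_iff]

/-- the quotient by `A` of the normalizer of `A` in the stabilizer of `v` is in the class: there is a
homomorphism from this normalizer to a group in `C` with kernel `A` -/
def NQ (C : ∀ (G : Type) [Group G], Prop) {G V : Type} [Group G] [MulAction G V] (v : V)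
    (A : Subgroup G) : Prop :=
  ∃ (Q : Type) (_ : Group Q) (π : ↥(MulAction.stabilizer G v ⊓ normalizer (A : Set G)) →* Q), C Q ∧
    ∀ x, π x = 1 ↔ (x : G) ∈ A

/-- the conditions at a vertex `v` for a family `𝓐 v` of subgroups of the stabilizer of `v`: the stabilizer
is in `C`; for `A` in the family the quotient of the normalizer of `A` in the stabilizer by `A` is in `C`, and the
intersections of `A` with the other members are finite of bounded order; each infinite stabilizer `E` of an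
edge at `v` is contained in a member `A` with `E ∩ [A ∩ ker f, A ∩ ker f] = 1` for a homomorphism `f` from `G`
to a group in `C` -/
def FamV (C : ∀ (G : Type) [Group G], Prop) (G : Type) {V : Type} [Group G] [MulAction G V]
    (T : SimpleGraph V) (𝓐 : V → Set (Subgroup G)) (v : V) : Prop :=
  C ↥(MulAction.stabilizer G v) ∧
  (∀ A ∈ 𝓐 v, A ≤ MulAction.stabilizer G v ∧ NQ C v A ∧ ∃ n : ℕ, ∀ B ∈ 𝓐 v, B ≠ A → ∀ F : Finset G, (∀ g ∈ F, g ∈ A ∧ g ∈ B) → F.card ≤ n) ∧
  ∀ u, T.Adj v u → Infinite (Es G v u) → ∃ A ∈ 𝓐 v, Es G v u ≤ A ∧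
    ∃ (P : Type) (_ : Group P) (f : G →* P), C P ∧
      ∀ x ∈ Es G v u, x ∈ ⁅A ⊓ f.ker, A ⊓ f.ker⁆ → x = 1

theorem fam_uniq {𝓐 : V → Set (Subgroup G)} {v : V} (h : FamV C G T 𝓐 v) {A B : Subgroup G}
    (hA : A ∈ 𝓐 v) (hB : B ∈ 𝓐 v) {E : Subgroup G} (hE : Infinite E) (h1 : E ≤ A) (h2 : E ≤ B) :
    B = A := by
  by_contra hne
  obtain ⟨n, hn⟩ := (h.2.1 A hA).2.2
  obtain ⟨F, hF⟩ := Infinite.exists_subset_card_eq E (n + 1)
  have h3 := hn B hB hne (F.map ⟨Subtype.val, Subtype.val_injective⟩) (by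
    intro g hg
    obtain ⟨a, ha, rfl⟩ := Finset.mem_map.1 hg
    exact ⟨h1 a.2, h2 a.2⟩)
  rw [Finset.card_map, hF] at h3
  omega

/-- virtually cyclic edge groups at a vertex are isolated -/
theorem iso_at {v : V} (hvc : ∀ u : V, T.Adj v u → VC (Es G v u)) {a : V} (hva : T.Adj v a)
    (hfin : Infinite (Es G v a)) : ∃ n : ℕ, ∀ b, T.Adj v b → ¬ Commensurable (Es G v a) (Es G v b) →
      ∀ F : Finset G, (∀ g ∈ F, g ∈ Es G v a ∧ g ∈ Es G v b) → F.card ≤ n := by
  classical
  obtain ⟨c, hc, hinf⟩ := (hvc a hva).exists_inf hfin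
  have hci := (hvc a hva).relIndex hc hinf
  refine ⟨(zpowers c).relIndex (Es G v a), fun b hvb hab F hF => ?_⟩
  have h : ¬ ∃ x ∈ Es G v a ⊓ Es G v b, InfOrd x := by
    rintro ⟨x, hx, hxi⟩
    have h1 := (hvc a hva).comm hx.1 hxi
    have h2 := (hvc b hvb).comm hx.2 hxi
    exact hab (h1.symm.trans h2)
  have h1 : ((zpowers c).subgroupOf (Es G v a)).FiniteIndex := ⟨hci⟩
  have h2 : Finite (Es G v a ⧸ (zpowers c).subgroupOf (Es G v a)) :=
    Subgroup.finite_quotient_of_finiteIndex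
  have h3 := Nat.card_le_card_of_injective (fun x : F =>
    ((⟨x.1, (hF x x.2).1⟩ : Es G v a) : Es G v a ⧸ (zpowers c).subgroupOf (Es G v a))) (by
      intro x y hxy
      have h4 := QuotientGroup.eq.1 hxy
      rw [mem_subgroupOf] at h4
      have h4 : (x.1)⁻¹ * y.1 ∈ zpowers c := h4
      obtain ⟨i, hi⟩ := h4
      have hi : c ^ i = (x.1)⁻¹ * y.1 := hi
      by_cases hi0 : i = 0
      · rw [hi0, zpow_zero] at hi
        exact Subtype.ext (inv_mul_eq_one.1 hi.symm)
      · exact absurd ⟨c ^ i, by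
          rw [hi]
          exact mul_mem (inv_mem (hF x x.2)) (hF y y.2), hinf.zpow hi0⟩ h)
  have h5 : Nat.card F = F.card := by simp
  rw [h5] at h3
  exact h3

end Pool.Agent.J6H95.FJ
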