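import Pool.Agent.J6H95.FJ.Gen
import Pool.Agent.N509.TK.Loc

/-!
# Actions on trees with finite edge stabilizers
-/

set_option autoImplicit false

namespace Pool.Agent.J6H95.FJ

open SimpleGraph
open Subgroup
open Pool.Agent.Y110.FJ
open Pool.Agent.N509.TK
open Pool.Agent.N509.TX (AcylF)
open Pool.Agent.N431.CE (Es)

variable {C : ∀ (G : Type) [Group G], Prop}

/-- **finite edge stabilizers** -/
theorem fin_edges (hC : ClosedE C) (hA : AcylF C) {G V : Type} [Group G] [MulAction G V]
    {T : SimpleGraph V} (hT : T.IsTree)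
    (hact : ∀ (g : G) (u v : V), T.Adj u v → T.Adj (g • u) (g • v))
    (hV : ∀ v : V, C ↥(MulAction.stabilizer G v))
    (hE : ∀ u v : V, T.Adj u v → Finite (Es G u v)) : C G := by
  classical
  obtain ⟨o⟩ := hT.connected.nonempty
  refine Pool.Agent.Y430.SS.of_directed hC.base G (Finset G) (fun i j => ?_)
    (fun s => Subgroup.closure (s : Set G))
    (fun s t h => Subgroup.closure_mono (by exact_mod_cast h))
    (fun g => ⟨{g}, Subgroup.subset_closure (by simp)⟩) (fun S => ?_)
  · exact ⟨i ∪ j, Finset.subset_union_left, Finset.subset_union_right⟩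
  obtain ⟨H, hH⟩ : ∃ H : Subgroup G, H = Subgroup.closure (S : Set G) := ⟨_, rfl⟩
  show C (Subgroup.closure (S : Set G))
  rw [← hH]
  let w : ∀ g : G, T.Walk o (g • o) := fun g => (hT.connected.preconnected o (g • o)).some
  obtain ⟨Φ, hΦ⟩ : ∃ Φ : Finset (V × V),
      Φ = S.biUnion fun s => ((w s).darts.map fun d => d.toProd).toFinset := ⟨_, rfl⟩
  have hΦT : ∀ e ∈ Φ, T.Adj e.1 e.2 := by
    intro e he
    rw [hΦ, Finset.mem_biUnion] at he
    obtain ⟨s, -, he⟩ := he
    rw [List.mem_toFinset, List.mem_map] at he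
    obtain ⟨d, -, rfl⟩ := he
    exact d.adj
  -- a bound
  obtain ⟨n, hn⟩ : ∃ n : ℕ, ∀ e ∈ Φ, ∀ F : Finset G, (∀ g ∈ F, g ∈ Es G e.1 e.2) → F.card ≤ n := by
    refine ⟨Φ.sup fun e => Nat.card (Es G e.1 e.2), fun e he F hF => ?_⟩
    have := hE _ _ (hΦT e he)
    have h1 : F.card ≤ Nat.card (Es G e.1 e.2) := by
      have h2 := Nat.card_le_card_of_injective (fun x : F => (⟨x.1, hF x x.2⟩ : Es G e.1 e.2))
        (fun a b hab => Subtype.ext (congrArg (fun z : Es G e.1 e.2 => (z : G)) hab))
      simpa using h2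
    exact h1.trans (Finset.le_sup (f := fun e : V × V => Nat.card (Es G e.1 e.2)) he)
  obtain ⟨T', hT'⟩ : ∃ T' : SimpleGraph V, T' = tg T H (Φ : Set (V × V)) := ⟨_, rfl⟩
  have hle : T' ≤ T := by
    rw [hT']
    intro u v h
    exact h.1
  have hreach : ∀ g ∈ H, T'.Reachable o (g • o) := by
    intro g hg
    rw [hH] at hg
    induction hg using Subgroup.closure_induction with
    | mem s hs =>
      rw [hT']
      refine tg_walk H _ (w s) fun d hd => ?_
      rw [hΦ]
      simp only [Finset.coe_biUnion, Set.mem_iUnion, Finset.mem_coe, List.mem_toFinset, List.mem_map]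
      exact ⟨s, hs, d, hd, rfl⟩
    | one =>
      rw [one_smul]
    | mul a b ha hb iha ihb =>
      rw [mul_smul]
      refine iha.trans ?_
      rw [hT'] at ihb ⊢
      exact tg_reach hact H _ (hH ▸ ha) ihb
    | inv a ha iha =>
      have h1 : T'.Reachable (a⁻¹ • o) (a⁻¹ • a • o) := by
        rw [hT'] at iha ⊢
        exact tg_reach hact H _ (H.inv_mem (hH ▸ ha)) iha
      rw [inv_smul_smul] at h1
      exact h1.symm
  have hTs : ∀ a ∈ H, ∀ x y : V, T'.Adj x y → T'.Adj (a • x) (a • y) := by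
    intro a ha x y h
    rw [hT'] at h ⊢
    exact tg_smul hact H _ ha h
  have hTa : ∀ x y : V, T'.Adj x y → ∃ h ∈ H, (h • x, h • y) ∈ Φ ∨ (h • y, h • x) ∈ Φ := by
    intro x y h
    rw [hT'] at h
    exact h.2
  obtain ⟨c, hc⟩ : ∃ c : T'.ConnectedComponent, c = T'.connectedComponentMk o := ⟨_, rfl⟩
  have hcm : ∀ x, x ∈ c.supp ↔ T'.Reachable o x := by
    intro x
    rw [hc, ConnectedComponent.mem_supp_iff, ConnectedComponent.eq]
    exact ⟨fun h => h.symm, fun h => h.symm⟩
  have hcs : ∀ (h : H) (x : V), x ∈ c.supp → (h : G) • x ∈ c.supp := by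
    intro h x hx
    rw [hcm] at hx ⊢
    refine (hreach h h.2).trans ?_
    rw [hT'] at hx ⊢
    exact tg_reach hact H _ h.2 hx
  let _ : MulAction H c.supp :=
    { smul := fun h x => ⟨(h : G) • (x : V), hcs h x x.2⟩
      one_smul := fun x => Subtype.ext (one_smul G (x : V))
      mul_smul := fun h k x => Subtype.ext (mul_smul (h : G) (k : G) (x : V)) }
  have hfe : ∀ x y : c.supp, c.toSimpleGraph.Adj x y →
      ∀ F : Finset H, (∀ g ∈ F, g ∈ Es H x y) → F.card ≤ n := by
    intro x y hxy F hF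
    have h1 : T'.Adj (x : V) (y : V) := hxy
    obtain ⟨k, hk, h2⟩ := hTa _ _ h1
    have h3 : (F.map ⟨fun g : H => k * (g : G) * k⁻¹, fun a b hab => by
        apply Subtype.ext
        exact mul_left_cancel (mul_right_cancel hab)⟩).card = F.card := Finset.card_map _
    rw [← h3]
    have h4 : ∀ g ∈ F, (k * (g : G) * k⁻¹) • k • (x : V) = k • (x : V) ∧
        (k * (g : G) * k⁻¹) • k • (y : V) = k • (y : V) := by
      intro g hg
      have hgx' : (g : G) • (x : V) = x := congrArg Subtype.val (hF g hg).1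
      have hgy' : (g : G) • (y : V) = y := congrArg Subtype.val (hF g hg).2
      constructor
      · rw [mul_smul, mul_smul, inv_smul_smul, hgx']
      · rw [mul_smul, mul_smul, inv_smul_smul, hgy']
    rcases h2 with h2 | h2
    · refine hn _ h2 _ fun g hg => ?_
      obtain ⟨a, ha, rfl⟩ := Finset.mem_map.1 hg
      exact h4 a ha
    · refine hn _ h2 _ fun g hg => ?_
      obtain ⟨a, ha, rfl⟩ := Finset.mem_map.1 hg
      exact (h4 a ha).symm
  have hnf : ∀ x y : c.supp, c.toSimpleGraph.Adj x y → ¬ Infinite (Es H x y) := by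
    intro x y hxy hinf
    obtain ⟨F, hF⟩ := Infinite.exists_subset_card_eq (Es H x y) (n + 1)
    have h1 := hfe x y hxy (F.map ⟨Subtype.val, Subtype.val_injective⟩) (by
      intro g hg
      obtain ⟨a, ha, rfl⟩ := Finset.mem_map.1 hg
      exact a.2)
    rw [Finset.card_map, hF] at h1
    omega
  refine main_cyl (G := H) (V := c.supp) (T := c.toSimpleGraph) hC hA
    ((hT.isAcyclic.anti hle).isTree_connectedComponent c) ?_ ?_ n ?_ ?_
  · intro h x y hxy
    have h1 : T'.Adj (x : V) (y : V) := hxy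
    exact hTs h h.2 _ _ h1
  · intro x
    refine hC.base.of_injective _ _ ((H.subtype.comp (Subgroup.subtype
      (MulAction.stabilizer H x))).codRestrict (MulAction.stabilizer G (x : V)) ?_) ?_ (hV x)
    · rintro ⟨z, hz⟩
      exact congrArg Subtype.val hz
    · intro a b hab
      have h1 := congrArg Subtype.val hab
      exact Subtype.ext (Subtype.ext h1)
  · intro v a b ha _ _
    exact Or.inr fun F hF => hfe v a ha F fun g hg => (hF g hg).1
  · intro v u h hinf
    exact absurd hinf (hnf v u h)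

end Pool.Agent.J6H95.FJ
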