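import Pool.Agent.J6H95.FJ.Red
import Pool.Agent.N431.CE.Fin

/-!
# Cylinders whose edge groups are contained in normal subgroups of the vertex groups
-/

set_option autoImplicit false

namespace Pool.Agent.J6H95.FJ

open SimpleGraph
open scoped commutatorElement
open Subgroup
open Subgroup.Commensurable (commensurator)
open Pool.Agent.Y110.FJ
open Pool.Agent.N509.TK
open Pool.Agent.N509.TX (AcylF C_edge)
open Pool.Agent.N431.CE (Es Es_comm Es_smul mem_Es rf rf_LR Rf Rf_gen Kv le_comm)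

variable {C : ∀ (G : Type) [Group G], Prop}
variable {G V : Type} [Group G] [MulAction G V] {T : SimpleGraph V}

/-- the elements of the stabilizer of `v` which commensurate the stabilizer of the edge `(v, u)` -/
def Sc (G : Type) {V : Type} [Group G] [MulAction G V] (v u : V) : Subgroup G :=
  MulAction.stabilizer G v ⊓ commensurator (Es G v u)

/-- the condition at an edge with an infinite stabilizer -/
def ER (C : ∀ (G : Type) [Group G], Prop) (G : Type) {V : Type} [Group G] [MulAction G V]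
    (T : SimpleGraph V) (v u : V) : Prop :=
  ∃ (Q : Type) (_ : Group Q) (π : Sc G v u →* Q) (P : Type) (_ : Group P)
    (f : commensurator (Es G v u) →* P), C Q ∧ C P ∧
    (∀ w, T.Adj v w → Infinite (Es G v w) → Commensurable (Es G v w) (Es G v u) →
      ∀ (x : G) (hx : x ∈ Sc G v u), x ∈ Es G v w → π ⟨x, hx⟩ = 1) ∧
    Es G v u ⊓ ⁅Lk π f, Lk π f⁆ = ⊥

/-- groups which preserve a cylinder with infinite edge groups -/
theorem cyl_R (hC : ClosedE C) (hM : ∀ (G : Type) [Group G], derivedSeries G 2 = ⊥ → C G)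
    (hT : T.IsTree) (hact : ∀ (g : G) (u v : V), T.Adj u v → T.Adj (g • u) (g • v))
    (hV : ∀ v : V, C ↥(MulAction.stabilizer G v)) {v0 a0 : V} (h0 : T.Adj v0 a0)
    (hinf : Infinite (Es G v0 a0)) (K : Subgroup G) (hK : ∀ g ∈ K, Pres hact (cy (rf G) h0) g)
    (hE : ∀ (v u : V) (h : T.Adj v u), cy (rf G) h = cy (rf G) h0 → ER C G T v u) : C K := by
  refine cyl_sub_R hC hM hT hact (rf_LR (T := T)) _ K hK hV ?_
  intro v u hvu hy
  obtain ⟨Q, _, π, P, _, f, hQ, hP, h1, h2⟩ := hE v u hvu hy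
  have h3 : Rf G (v0, a0) (v, u) := Rf_gen (p := dt h0) (q := dt hvu) (Quotient.exact hy.symm)
  have hinf' : Infinite (Es G v u) := h3.inf hinf
  have hle : K ≤ commensurator (Es G v u) := by
    intro g hg
    rw [Commensurable.commensurator_mem_iff, ← Es_smul]
    have h4 : cy (rf G) (hact g v u hvu) = cy (rf G) hvu := (hK g hg v u hvu hy).trans hy.symm
    exact (Rf_gen (p := dt (hact g v u hvu)) (q := dt hvu) (Quotient.exact h4)).comm
  refine ⟨Sc G v u, _, Q, _, π, P, _, f, hQ, hP, ?_, hle, ?_, ?_⟩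
  · rintro x ⟨hxK, hxv⟩
    exact ⟨hxv, hle hxK⟩
  · intro w hw hyw x _ hxv hxw
    have h4 : Rf G (v, u) (v, w) :=
      Rf_gen (p := dt hvu) (q := dt hw) (Quotient.exact (hy.trans hyw.symm))
    exact h1 w hw (h4.inf hinf') h4.comm.symm x x.2 ⟨hxv, hxw⟩
  · intro x hxv hxu hx
    have h4 : x ∈ Es G v u ⊓ ⁅Lk π f, Lk π f⁆ := ⟨⟨hxv, hxu⟩, hx⟩
    rw [h2] at h4
    exact h4

/-- the stabilizer of a cylinder consisting of one edge with a finite stabilizer -/
theorem cyl_fin (hC : ClosedE C)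
    (hact : ∀ (g : G) (u v : V), T.Adj u v → T.Adj (g • u) (g • v))
    (hV : ∀ v : V, C ↥(MulAction.stabilizer G v)) {v0 a0 : V} (h0 : T.Adj v0 a0)
    (hinf : ¬ Infinite (Es G v0 a0)) (K : Subgroup G)
    (hK : ∀ g ∈ K, Pres hact (cy (rf G) h0) g) : C K := by
  refine C_edge hC v0 a0 (hV v0) K fun g hg => ?_
  have h1 := hK g hg v0 a0 h0 rfl
  rcases Rf_gen (p := dt (hact g v0 a0 h0)) (q := dt h0) (Quotient.exact h1) with
    (h | h) | ⟨_, h, _⟩
  · exact Or.inl ⟨(congrArg Prod.fst h).symm, (congrArg Prod.snd h).symm⟩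
  · exact Or.inr ⟨(congrArg Prod.snd h).symm, (congrArg Prod.fst h).symm⟩
  · exact absurd h hinf

/-- **isolated edge groups**: it is enough to treat the groups which preserve a cylinder with infinite
edge groups -/
theorem main_cyl (hC : ClosedE C)
    (hA : AcylF C) (hT : T.IsTree) (hact : ∀ (g : G) (u v : V), T.Adj u v → T.Adj (g • u) (g • v))
    (hV : ∀ v : V, C ↥(MulAction.stabilizer G v)) (n : ℕ)
    (hint : ∀ v a b, T.Adj v a → T.Adj v b → a ≠ b →
      (Infinite (Es G v a) ∧ Infinite (Es G v b) ∧ Commensurable (Es G v a) (Es G v b)) ∨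
      ∀ F : Finset G, (∀ g ∈ F, g ∈ Es G v a ∧ g ∈ Es G v b) → F.card ≤ n)
    (hY : ∀ (v u : V) (h : T.Adj v u), Infinite (Es G v u) → ∀ K : Subgroup G,
      (∀ g ∈ K, Pres hact (cy (rf G) h) g) → C K) : C G := by
  refine Pool.Agent.N431.CE.cylF hC hA hT hact (rf_LR (T := T)) n ?_ hV fun y K hK => ?_
  · intro w a b ha hb hab F hF
    rcases hint w a b ha hb (fun h => hab (Or.inl h)) with h | h
    · exact absurd (Or.inr h) hab
    · exact h F fun g hg => ⟨⟨(hF g hg).1, (hF g hg).2.1⟩, ⟨(hF g hg).1, (hF g hg).2.2⟩⟩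
  obtain ⟨⟨⟨v0, a0⟩, h0⟩, hy⟩ := Quotient.exists_rep y
  have h0 : T.Adj v0 a0 := h0
  have hy : cy (rf G) h0 = y := hy
  subst hy
  by_cases hinf : Infinite (Es G v0 a0)
  · exact hY v0 a0 h0 hinf K hK
  · exact cyl_fin hC hact hV h0 hinf K hK

end Pool.Agent.J6H95.FJ
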