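import Pool.Agent.J6H95.FJ.Per

/-!
# Characters of groups acting on trees which detect a central elliptic element
-/

set_option autoImplicit false

namespace Pool.Agent.J6H95.FJ

open SimpleGraph
open scoped commutatorElement
open Subgroup
open Pool.Agent.N24.TR (gam gam_self)

/-- half of a rational number, multiplicatively -/
noncomputable def half : Multiplicative ℚ →* Multiplicative ℚ :=
  AddMonoidHom.toMultiplicative (AddMonoidHom.mulLeft (1 / 2 : ℚ))

theorem half_sq (x : Multiplicative ℚ) : half (x * x) = x := by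
  apply Multiplicative.toAdd.injective
  show (1 / 2 : ℚ) * (Multiplicative.toAdd x + Multiplicative.toAdd x) = Multiplicative.toAdd x
  ring

theorem root_unique {x y : Multiplicative ℚ} {m : ℤ} (hm : m ≠ 0) (h : x ^ m = y ^ m) : x = y := by
  have h1 : (m : ℚ) * Multiplicative.toAdd x = m * Multiplicative.toAdd y := by
    have h2 : m • Multiplicative.toAdd x = m • Multiplicative.toAdd y := congrArg Multiplicative.toAdd h
    rwa [zsmul_eq_mul, zsmul_eq_mul] at h2
  exact Multiplicative.toAdd.injective (mul_left_cancel₀ (by exact_mod_cast hm) h1)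

/-- an element of infinite order of the abelianization is detected by a rational character -/
theorem exists_char {H : Type} [Group H] {z : H} (hz : ∀ j : ℕ, j ≠ 0 → z ^ j ∉ commutator H) :
    ∃ χ : H →* Multiplicative ℚ, χ z = Multiplicative.ofAdd 1 := by
  obtain ⟨a, ha⟩ : ∃ a : Additive (Abelianization H), a = Additive.ofMul (Abelianization.of z) :=
    ⟨_, rfl⟩
  have hinj : Function.Injective ((zmultiplesHom (Additive (Abelianization H))) a) := by
    rw [injective_iff_map_eq_zero]
    intro i hi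
    by_contra h0
    have hi : i • a = 0 := hi
    have h1 : (i.natAbs : ℤ) • a = 0 := by
      rcases Int.natAbs_eq i with h2 | h2
      · rw [← h2]
        exact hi
      · rw [h2, neg_smul, neg_eq_zero] at hi
        exact hi
    rw [natCast_zsmul, ha] at h1
    have h2 : Abelianization.of (z ^ i.natAbs) = 1 := by
      rw [map_pow]
      exact h1
    have h3 : z ^ i.natAbs ∈ commutator H := by
      rw [← Abelianization.ker_of]
      exact h2
    exact hz _ (Int.natAbs_ne_zero.2 h0) h3
  obtain ⟨h, hh⟩ := (Module.Baer.of_divisible ℚ).extension_property_addMonoidHom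
    ((zmultiplesHom (Additive (Abelianization H))) a) hinj (Int.castAddHom ℚ)
  refine ⟨(AddMonoidHom.toMultiplicative h).comp
    ((MonoidHom.toAdditive.symm (AddMonoidHom.id _) : Abelianization H →* Abelianization H).comp
      Abelianization.of) , ?_⟩
  have h1 := congrArg (fun f : ℤ →+ ℚ => f 1) hh
  have h2 : h a = 1 := by
    have h3 : h ((1 : ℤ) • a) = ((1 : ℤ) : ℚ) := h1
    rwa [one_zsmul, Int.cast_one] at h3
  rw [ha] at h2
  exact congrArg Multiplicative.ofAdd h2

variable {H V : Type} [Group H] [MulAction H V] {T : SimpleGraph V}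

/-- **gluing characters** -/
theorem glue (hT : T.IsTree) (hact : ∀ (g : H) (u v : V), T.Adj u v → T.Adj (g • u) (g • v))
    (z : H) (hzc : ∀ g : H, g * z = z * g) (hzf : ∀ v : V, z • v = v)
    (hχ : ∀ v : V, ∃ χ : MulAction.stabilizer H v →* Multiplicative ℚ,
      χ ⟨z, hzf v⟩ = Multiplicative.ofAdd 1)
    (hE : ∀ u w : V, T.Adj u w → ∀ h : H, h • u = u → h • w = w → ∃ m n : ℤ, m ≠ 0 ∧ h ^ m = z ^ n) :
    ∃ F : H →* Multiplicative ℚ, F z = Multiplicative.ofAdd 1 := by
  classical
  choose χ hχz using hχ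
  -- total functions
  obtain ⟨p, hp⟩ : ∃ p : V → H → Multiplicative ℚ,
      p = fun v x => if h : x • v = v then χ v ⟨x, h⟩ else 1 := ⟨_, rfl⟩
  have hpe : ∀ (v : V) (x : H) (h : x • v = v), p v x = χ v ⟨x, h⟩ := by
    intro v x h
    rw [hp]
    simp only [h, dite_true]
  have hpm : ∀ (v : V) (x y : H), x • v = v → y • v = v → p v (x * y) = p v x * p v y := by
    intro v x y hx hy
    rw [hpe v x hx, hpe v y hy, ← map_mul]
    exact hpe v (x * y) (by rw [mul_smul, hy, hx])
  have hpz : ∀ v : V, p v z = Multiplicative.ofAdd 1 := fun v => (hpe v z (hzf v)).trans (hχz v)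
  -- representatives
  obtain ⟨s, r, hs, hr⟩ : ∃ (s : V → H) (r : V → V), (∀ u, s u • r u = u) ∧
      ∀ (g : H) (u : V), r (g • u) = r u := by
    have h1 : ∀ w : V, ∃ k : H, k • (Quotient.out (Quotient.mk (MulAction.orbitRel H V) w)) = w := by
      intro w
      have h2 := Quotient.mk_out (s := MulAction.orbitRel H V) w
      obtain ⟨k, hk⟩ := (MulAction.orbitRel H V).symm h2
      exact ⟨k, hk⟩
    choose k hk using h1
    refine ⟨k, fun w => Quotient.out (Quotient.mk (MulAction.orbitRel H V) w), hk, fun g w => ?_⟩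
    have h3 : (Quotient.mk (MulAction.orbitRel H V) (g • w)) =
        Quotient.mk (MulAction.orbitRel H V) w := Quotient.sound ⟨g, rfl⟩
    show Quotient.out (Quotient.mk _ (g • w)) = Quotient.out (Quotient.mk _ w)
    rw [h3]
  have hst : ∀ (g : H) (u : V), ((s (g • u))⁻¹ * g * s u) • r u = r u := by
    intro g u
    rw [mul_smul, mul_smul, hs u]
    refine inv_smul_eq_iff.2 ?_
    have h1 := hs (g • u)
    rw [hr] at h1
    exact h1.symm
  -- the cocycle
  obtain ⟨c, hc⟩ : ∃ c : H → V → Multiplicative ℚ,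
      c = fun g u => p (r u) ((s (g • u))⁻¹ * g * s u) := ⟨_, rfl⟩
  have hcc : ∀ g h u, c (g * h) u = c g (h • u) * c h u := by
    intro g h u
    rw [hc]
    show p (r u) ((s ((g * h) • u))⁻¹ * (g * h) * s u) =
      p (r (h • u)) ((s (g • h • u))⁻¹ * g * s (h • u)) * p (r u) ((s (h • u))⁻¹ * h * s u)
    have h1 := hst g (h • u)
    rw [hr] at h1 ⊢
    rw [← hpm _ _ _ h1 (hst h u), mul_smul]
    congr 1
    group
  have hc1 : ∀ u, c 1 u = 1 := by
    intro u
    have h1 := hcc 1 1 u
    rw [one_smul, mul_one] at h1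
    exact (mul_eq_left.1 h1.symm)
  have hcz : ∀ u, c z u = Multiplicative.ofAdd 1 := by
    intro u
    rw [hc]
    show p (r u) ((s (z • u))⁻¹ * z * s u) = _
    rw [hzf, mul_assoc, ← hzc, inv_mul_cancel_left]
    exact hpz _
  have hcp : ∀ (h : H) (u : V), h • u = u → ∀ m : ℤ, c (h ^ m) u = c h u ^ m := by
    intro h u hu m
    have hu' : ∀ m : ℤ, h ^ m • u = u := fun m => by
      have h1 : h ∈ MulAction.stabilizer H u := hu
      exact zpow_mem h1 m
    induction m using Int.induction_on with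
    | zero => rw [zpow_zero, zpow_zero, hc1]
    | succ i ih =>
      rw [add_comm, zpow_add, zpow_one, hcc, hu', ih, zpow_add, zpow_one]
    | pred i ih =>
      have h1 : h ^ (-(i : ℤ)) = h * h ^ (-(i : ℤ) - 1) := by
        rw [← zpow_one_add]
        congr 1
        ring
      rw [h1, hcc, hu'] at ih
      have h2 : c h u ^ (-(i : ℤ)) = c h u * c h u ^ (-(i : ℤ) - 1) := by
        rw [← zpow_one_add]
        congr 1
        ring
      rw [h2] at ih
      exact mul_left_cancel ih
  -- the characters agree on the edge groups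
  have hcE : ∀ u w : V, T.Adj u w → ∀ h : H, h • u = u → h • w = w → c h u = c h w := by
    intro u w huw h hu hw
    obtain ⟨m, n, hm, hmn⟩ := hE u w huw h hu hw
    refine root_unique hm ?_
    rw [← hcp h u hu, ← hcp h w hw, hmn, hcp z u (hzf u), hcp z w (hzf w), hcz, hcz]
  -- representatives of the edges
  obtain ⟨k, a, hk, ha⟩ : ∃ (k : V × V → H) (a : V × V → V × V), (∀ q, k q • a q = q) ∧
      ∀ (g : H) (q : V × V), a (g • q) = a q := by
    have h1 : ∀ w : V × V, ∃ k : H,
        k • (Quotient.out (Quotient.mk (MulAction.orbitRel H (V × V)) w)) = w := by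
      intro w
      have h2 := Quotient.mk_out (s := MulAction.orbitRel H (V × V)) w
      obtain ⟨k, hk⟩ := (MulAction.orbitRel H (V × V)).symm h2
      exact ⟨k, hk⟩
    choose k hk using h1
    refine ⟨k, fun w => Quotient.out (Quotient.mk (MulAction.orbitRel H (V × V)) w), hk,
      fun g w => ?_⟩
    have h3 : (Quotient.mk (MulAction.orbitRel H (V × V)) (g • w)) =
        Quotient.mk (MulAction.orbitRel H (V × V)) w := Quotient.sound ⟨g, rfl⟩
    show Quotient.out (Quotient.mk _ (g • w)) = Quotient.out (Quotient.mk _ w)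
    rw [h3]
  obtain ⟨b, hb⟩ : ∃ b : V → V → Multiplicative ℚ,
      b = fun u w => c (k (u, w)) (a (u, w)).1 * (c (k (u, w)) (a (u, w)).2)⁻¹ := ⟨_, rfl⟩
  have hbg : ∀ g u w, T.Adj u w → b (g • u) (g • w) = c g u * b u w * (c g w)⁻¹ := by
    intro g u w huw
    obtain ⟨k0, hk0⟩ : ∃ k0, k0 = k (u, w) := ⟨_, rfl⟩
    obtain ⟨k1, hk1⟩ : ∃ k1, k1 = k (g • u, g • w) := ⟨_, rfl⟩
    obtain ⟨⟨u0, w0⟩, ha0⟩ : ∃ a0, a0 = a (u, w) := ⟨_, rfl⟩
    have ha1 : a (g • u, g • w) = (u0, w0) := by
      rw [ha0]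
      exact ha g (u, w)
    have e0 := hk (u, w)
    rw [← ha0, ← hk0] at e0
    have e1 := hk (g • u, g • w)
    rw [ha1, ← hk1] at e1
    have e0u : k0 • u0 = u := congrArg Prod.fst e0
    have e0w : k0 • w0 = w := congrArg Prod.snd e0
    have e1u : k1 • u0 = g • u := congrArg Prod.fst e1
    have e1w : k1 • w0 = g • w := congrArg Prod.snd e1
    have hadj : T.Adj u0 w0 := by
      have h1 := hact k0⁻¹ u w huw
      rwa [← e0u, ← e0w, inv_smul_smul, inv_smul_smul] at h1
    rw [hb]
    show c (k (g • u, g • w)) (a (g • u, g • w)).1 * (c (k (g • u, g • w)) (a (g • u, g • w)).2)⁻¹ =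
      c g u * (c (k (u, w)) (a (u, w)).1 * (c (k (u, w)) (a (u, w)).2)⁻¹) * (c g w)⁻¹
    rw [ha1, ← ha0, ← hk0, ← hk1]
    show c k1 u0 * (c k1 w0)⁻¹ = c g u * (c k0 u0 * (c k0 w0)⁻¹) * (c g w)⁻¹
    -- `g k0 = k1 h`
    obtain ⟨h, hh⟩ : ∃ h, h = k1⁻¹ * g * k0 := ⟨_, rfl⟩
    have hhu : h • u0 = u0 := by
      rw [hh, mul_smul, mul_smul, e0u]
      exact inv_smul_eq_iff.2 e1u.symm
    have hhw : h • w0 = w0 := by
      rw [hh, mul_smul, mul_smul, e0w]
      exact inv_smul_eq_iff.2 e1w.symm
    have hgk : g * k0 = k1 * h := by rw [hh]; group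
    have f1 : c g u * c k0 u0 = c k1 u0 * c h u0 := by
      have h1 := hcc g k0 u0
      have h2 := hcc k1 h u0
      rw [hgk, h2, e0u, hhu] at h1
      exact h1.symm
    have f2 : c g w * c k0 w0 = c k1 w0 * c h w0 := by
      have h1 := hcc g k0 w0
      have h2 := hcc k1 h w0
      rw [hgk, h2, e0w, hhw] at h1
      exact h1.symm
    have f3 := hcE u0 w0 hadj h hhu hhw
    calc c k1 u0 * (c k1 w0)⁻¹ = (c k1 u0 * c h u0) * (c k1 w0 * c h w0)⁻¹ := by
          rw [f3]
          simp only [mul_inv_rev]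
          rw [mul_assoc, mul_inv_cancel_left]
      _ = (c g u * c k0 u0) * (c g w * c k0 w0)⁻¹ := by rw [f1, f2]
      _ = _ := by
          rw [mul_inv_rev]
          simp only [mul_assoc]
  -- the labels
  obtain ⟨e, he⟩ : ∃ e : V → V → Multiplicative ℚ, e = fun u w => half (b u w * (b w u)⁻¹) :=
    ⟨_, rfl⟩
  have hee : ∀ u w, T.Adj u w → e u w * e w u = 1 := by
    intro u w _
    rw [he]
    show half (b u w * (b w u)⁻¹) * half (b w u * (b u w)⁻¹) = 1
    rw [← map_mul]
    have h1 : b u w * (b w u)⁻¹ * (b w u * (b u w)⁻¹) = 1 := by group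
    rw [h1, map_one]
  have hec : ∀ g u w, T.Adj u w → e (g • u) (g • w) = c g u * e u w * (c g w)⁻¹ := by
    intro g u w huw
    rw [he]
    show half (b (g • u) (g • w) * (b (g • w) (g • u))⁻¹) =
      c g u * half (b u w * (b w u)⁻¹) * (c g w)⁻¹
    rw [hbg g u w huw, hbg g w u huw.symm]
    have h1 : c g u * b u w * (c g w)⁻¹ * (c g w * b w u * (c g u)⁻¹)⁻¹ =
        (c g u * (c g w)⁻¹) * (c g u * (c g w)⁻¹) * (b u w * (b w u)⁻¹) := by
      simp only [mul_inv_rev, inv_inv]
      apply Multiplicative.toAdd.injective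
      simp only [toAdd_mul, toAdd_inv]
      ring
    rw [h1, map_mul, half_sq, mul_assoc, mul_comm (c g w)⁻¹, mul_assoc]
  obtain ⟨o⟩ := hT.connected.nonempty
  refine ⟨thom hT hact e hee c hcc hec o, ?_⟩
  rw [thom_apply, hzf, gam_self hT e hee, one_mul, hcz]

end Pool.Agent.J6H95.FJ
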