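import Pool.Agent.J6H95.FJ.Asm2

/-!
# Linear vertex groups, and vertex groups whose edge groups are detected by abelian quotients
-/

set_option autoImplicit false

namespace Pool.Agent.J6H95.FJ

open SimpleGraph
open Matrix (GeneralLinearGroup)
open scoped commutatorElement
open Subgroup
open Subgroup.Commensurable (commensurator)
open Pool.Agent.Y110.FJ
open Pool.Agent.N509.TK
open Pool.Agent.N509.TX (AcylF)
open Pool.Agent.N431.CE (Es Es_comm Es_smul mem_Es rf rf_LR Rf Rf_gen Kv le_comm Cn mem_Cn comm_Cn)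

variable {C : ∀ (G : Type) [Group G], Prop}
variable {G V : Type} [Group G] [MulAction G V] {T : SimpleGraph V}

/-- **edge groups which embed in the abelianizations of centralizers** -/
theorem ER_h1 (hC : ClosedE C) (hM : ∀ (G : Type) [Group G], derivedSeries G 2 = ⊥ → C G)
    {v u : V} {e : G} (he : Es G v u = zpowers e) (hinf : ∀ i : ℤ, e ^ i = 1 → i = 0)
    (hx : ∀ N j : ℕ, N ≠ 0 → j ≠ 0 → e ^ j ∉ ⁅Cn (e ^ N) v, Cn (e ^ N) v⁆) : ER C G T v u := by
  obtain ⟨f, hf⟩ := exists_mod hinf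
  have hle : commensurator (Es G v u) ≤ commensurator (zpowers e) := by rw [he]
  obtain ⟨L, hL⟩ : ∃ L : Subgroup G, L = Lk (1 : Sc G v u →* Multiplicative ℤ)
    (f.comp (inclusion hle)) := ⟨_, rfl⟩
  refine ⟨Multiplicative ℤ, inferInstance, 1, ℚˣ, inferInstance, f.comp (inclusion hle),
    hC.base.int, C_comm hM _, fun _ _ _ _ _ _ _ => rfl, ?_⟩
  rw [← hL, eq_bot_iff]
  rintro x ⟨hxE, hxL⟩
  rw [he] at hxE
  obtain ⟨j, rfl⟩ := hxE
  have hxL : e ^ j ∈ ⁅L, L⁆ := hxL
  rw [mem_bot]
  by_contra hne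
  have hj : j ≠ 0 := by
    rintro rfl
    exact hne (zpow_zero e)
  obtain ⟨N, hN, h1⟩ := comm_Cn (S := L) (a := e) (v := v) (fun s hs => by
    rw [hL, mem_Lk] at hs
    obtain ⟨⟨h1, _⟩, h2, h3⟩ := hs
    obtain ⟨a, ha, h4⟩ := hf _ h3
    have h4 : s * e ^ a * s⁻¹ = e ^ a := h4
    have h5 : s * e ^ a = e ^ a * s := mul_inv_eq_iff_eq_mul.1 h4
    refine ⟨a.natAbs, Int.natAbs_ne_zero.2 ha, mem_Cn.2 ⟨h1.1, ?_⟩⟩
    have h6 : Commute s (e ^ a) := h5
    rcases Int.natAbs_eq a with h7 | h7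
    · rw [h7, zpow_natCast] at h6
      exact h6
    · rw [h7, zpow_neg, zpow_natCast] at h6
      exact (Commute.inv_right_iff.1 h6)) hxL
  refine hx N j.natAbs hN (Int.natAbs_ne_zero.2 hj) ?_
  rcases Int.natAbs_eq j with h7 | h7
  · rw [h7, zpow_natCast] at h1
    exact h1
  · rw [h7, zpow_neg, zpow_natCast] at h1
    exact inv_mem_iff.1 h1

/-- the stabilizer of the edge `{v, u}` is virtually cyclic and contains an element of infinite order
which is balanced in `G` -/
def BalVC {G V : Type} [Group G] [MulAction G V] (v u : V) : Prop :=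
  VC (Es G v u) ∧ ∃ e ∈ Es G v u, InfOrd e ∧ Balanced e

/-- the vertex `v` is linear: its stabilizer embeds in some `GL_d(k)` such that all `GL_m(k)` are in `C`, and
the stabilizer of each edge at `v` is finite, or virtually cyclic and balanced, or generated by one element
`e`; in characteristic zero, if a positive power of `e` is unipotent, then `e` has only one eigenvalue -/
def LinV (C : ∀ (G : Type) [Group G], Prop) (G : Type) {V : Type} [Group G] [MulAction G V]
    (T : SimpleGraph V) (v : V) : Prop :=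
  ∃ (k : Type) (_ : Field k) (d : ℕ) (ρ : MulAction.stabilizer G v →* GL (Fin d) k),
    (∀ m : ℕ, C (GL (Fin m) k)) ∧ Function.Injective ρ ∧
    ∀ u, T.Adj v u → Finite (Es G v u) ∨ BalVC (G := G) v u ∨
      ∃ e : G, Es G v u = zpowers e ∧
        (CharZero k → ∀ h : e ∈ MulAction.stabilizer G v, OneEig (ρ ⟨e, h⟩))

/-- the stabilizer of `v` is in `C`; for the elements `z` of infinite order in the stabilizers of the edges at
`v` the quotient of `{g | g v = v, g z g⁻¹ = z or z⁻¹}` by `⟨z⟩` is in `C`; and the stabilizer of each edge at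
`v` is finite, or virtually cyclic and balanced, or generated by an element `e` no positive power of which
is in the commutator subgroup of the centralizer of a power `e ^ N`, `N > 0`, in the stabilizer of `v` -/
def TrV (C : ∀ (G : Type) [Group G], Prop) (G : Type) {V : Type} [Group G] [MulAction G V]
    (T : SimpleGraph V) (v : V) : Prop :=
  C ↥(MulAction.stabilizer G v) ∧ ∀ u, T.Adj v u → (∀ z ∈ Es G v u, InfOrd z → BQ C v z) ∧
    (Finite (Es G v u) ∨ BalVC (G := G) v u ∨ ∃ e : G, Es G v u = zpowers e ∧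
      ∀ N j : ℕ, N ≠ 0 → j ≠ 0 → e ^ j ∉ ⁅Cn (e ^ N) v, Cn (e ^ N) v⁆)

/-- **virtually cyclic edge groups** -/
theorem mix_loc (hC : ClosedE C) (hM : ∀ (G : Type) [Group G], derivedSeries G 2 = ⊥ → C G)
    (hA : AcylF C) (hT : T.IsTree)
    (hact : ∀ (g : G) (u v : V), T.Adj u v → T.Adj (g • u) (g • v))
    (hV : ∀ v : V, LinV C G T v ∨ TrV C G T v) : C G := by
  have hVC : ∀ v u : V, T.Adj v u → VC (Es G v u) := by
    intro v u h
    rcases hV v with ⟨_, _, _, _, _, _, h2⟩ | ⟨_, h2⟩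
    · rcases h2 u h with h1 | ⟨h1, _⟩ | ⟨e, h1, _⟩
      · exact VC_fin h1
      · exact h1
      · exact VC_cyc h1
    · rcases (h2 u h).2 with h1 | ⟨h1, _⟩ | ⟨e, h1, _⟩
      · exact VC_fin h1
      · exact h1
      · exact VC_cyc h1
  have hCV : ∀ v : V, C ↥(MulAction.stabilizer G v) := by
    intro v
    rcases hV v with ⟨k, _, d, ρ, hk, hρ, _⟩ | ⟨h, _⟩
    · exact hC.base.of_injective _ _ ρ hρ (hk _)
    · exact h
  refine gen_loc hC hM hA hT hact hCV (iso_vc hVC) ?_
  intro v u huv hinf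
  by_cases hbal : ∃ e ∈ Es G v u, InfOrd e ∧ Balanced e
  · obtain ⟨e, he, hei, hb⟩ := hbal
    right
    refine ⟨e, he, (hVC v u huv).relIndex he hei, hei, hb, fun v' u' h' _ z hz hzi => ?_⟩
    rcases hV v' with ⟨k, _, d, ρ, hk, hρ, _⟩ | ⟨_, h2⟩
    · exact BQ_lin hC hM hk ρ hρ hz.1
    · exact (h2 u' h').1 z hz hzi
  left
  -- edge groups commensurable with this one are not balanced
  have hnb : ∀ w, T.Adj v w → Commensurable (Es G v w) (Es G v u) → ¬ BalVC (G := G) v w := by
    rintro w hvw hwc ⟨h1, e', he', hei', hb'⟩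
    obtain ⟨x, hx, hxi⟩ := (hVC v u huv).exists_inf hinf
    have h2 : Commensurable (zpowers e') (zpowers x) :=
      (h1.comm he' hei').trans (hwc.trans ((hVC v u huv).comm hx hxi).symm)
    obtain ⟨m, b, hm, _, hmb⟩ := common_pow hei' h2
    exact hbal ⟨x, hx, hxi, hb'.comm hm hmb⟩
  have hord : ∀ w, Infinite (Es G v w) → ∀ e' : G, Es G v w = zpowers e' →
      ∀ i : ℤ, e' ^ i = 1 → i = 0 := by
    intro w hwinf e' he' i hi
    by_contra h0
    have h2 : IsOfFinOrder e' := by
      rw [isOfFinOrder_iff_zpow_eq_one]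
      exact ⟨i, h0, hi⟩
    have h3 : Finite (zpowers e') := h2.finite_zpowers.to_subtype
    rw [he'] at hwinf
    exact absurd hwinf (not_infinite_iff_finite.2 h3)
  rcases hV v with ⟨k, _, d, ρ, hk, hρ, hE⟩ | ⟨_, hE⟩
  · have key : ∀ w, T.Adj v w → Infinite (Es G v w) → Commensurable (Es G v w) (Es G v u) →
        ∃ e' : G, Es G v w = zpowers e' ∧ (∀ i : ℤ, e' ^ i = 1 → i = 0) ∧
          (CharZero k → ∀ h : e' ∈ MulAction.stabilizer G v, OneEig (ρ ⟨e', h⟩)) := by
      intro w hvw hwinf hwc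
      rcases hE w hvw with h1 | h1 | ⟨e', he', hone⟩
      · exact absurd hwinf (not_infinite_iff_finite.2 h1)
      · exact absurd h1 (hnb w hvw hwc)
      · exact ⟨e', he', hord w hwinf e' he', hone⟩
    obtain ⟨e, he, hei, hc⟩ := key u huv hinf (Commensurable.refl _)
    have hev : e ∈ MulAction.stabilizer G v := by
      have h1 : e ∈ Es G v u := by
        rw [he]
        exact mem_zpowers e
      exact h1.1
    by_cases hbig : ∀ M : ℕ, 0 < M →
        ¬ IsNilpotent ((ρ ⟨e, hev⟩ : Matrix (Fin d) (Fin d) k) ^ M - 1)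
    · exact ER_big hC hM he hei ρ hev hbig
    push Not at hbig
    obtain ⟨M, hM0, hx⟩ := hbig
    have hchar : CharZero k := by
      refine char_zero_of (x := ρ ⟨e, hev⟩) ?_ hM0 hx
      intro i hi
      rw [← map_zpow] at hi
      have h5 := hρ (hi.trans (map_one _).symm)
      exact hei i (congrArg Subtype.val h5)
    refine ER_uni hC hk he hei ρ hρ hev hM0 hx (hc hchar hev) ?_
    intro w hvw hwinf hwc
    obtain ⟨e', he', hei', hc'⟩ := key w hvw hwinf hwc
    exact ⟨e', he', hei', hc' hchar⟩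
  · rcases (hE u huv).2 with h1 | h1 | ⟨e, he, h1⟩
    · exact absurd hinf (not_infinite_iff_finite.2 h1)
    · exact absurd h1 (hnb u huv (Commensurable.refl _))
    · exact ER_h1 hC hM he (hord u hinf e he) h1

/-- **edge groups in normal subgroups** -/
theorem normal_edges (hC : ClosedE C)
    (hM : ∀ (G : Type) [Group G], derivedSeries G 2 = ⊥ → C G)
    (hT : T.IsTree) (hact : ∀ (g : G) (u v : V), T.Adj u v → T.Adj (g • u) (g • v))
    (hV : ∀ v : V, C ↥(MulAction.stabilizer G v))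
    (hE : ∀ v u : V, T.Adj v u → ∃ (P : Type) (_ : Group P) (f : G →* P)
      (N : Subgroup (MulAction.stabilizer G v)) (_ : N.Normal), C P ∧
      C (MulAction.stabilizer G v ⧸ N) ∧
      (∀ w, T.Adj v w → ∀ x : MulAction.stabilizer G v, (x : G) • w = w → x ∈ N) ∧
      ∀ x : G, x • v = v → x • u = u →
        x ∈ ⁅N.map (MulAction.stabilizer G v).subtype ⊓ f.ker,
          N.map (MulAction.stabilizer G v).subtype ⊓ f.ker⁆ → x = 1) : C G := by
  refine redges hC hM hT hact hV fun v u huv => ?_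
  obtain ⟨P, _, f, N, _, hP, hQ, h1, h2⟩ := hE v u huv
  refine ⟨_, inferInstance, QuotientGroup.mk' N, P, inferInstance, f, hQ, hP, ?_, ?_⟩
  · intro w hw x hx
    exact (QuotientGroup.eq_one_iff x).2 (h1 w hw x hx)
  · rw [QuotientGroup.ker_mk']
    exact h2

end Pool.Agent.J6H95.FJ
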