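import Pool.Agent.R643.Line
import Pool.Agent.J6H95.FJ.Mix

/-!
# Normalizers of hyperbolic elements
-/

set_option autoImplicit false

namespace Pool.Agent.J6H95.FJ

open Subgroup
open Pool.Agent.Y110.FJ
open Pool.Agent.R643 (dz dz_zh IsoAct between_translates fix_or_hyp isoAct_of_adj)

variable {C : ∀ (G : Type) [Group G], Prop}
variable {G V : Type} [Group G] [MulAction G V] {T : SimpleGraph V}

/-- the coordinate on the axis of a hyperbolic element -/
theorem axis_coord (A : IsoAct (dz T) G) {y : G} (hy : ∀ x : V, y • y • x ≠ x) (v0 : V) :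
    ∃ (Ax : V → Prop) (c : V → ℤ) (x0 : V) (l : ℤ), 0 < l ∧ Ax x0 ∧ c x0 = 0 ∧
      (∀ z w, Ax z → Ax w → dz T z w = |c z - c w|) ∧
      (∀ (g : G) (m n : ℤ), m ≠ 0 → n ≠ 0 → g * y ^ m * g⁻¹ = y ^ n → ∀ x, Ax x → Ax (g • x)) ∧
      ∀ x, Ax x → c (y • x) = c x + l := by
  have h := A.zh
  let Ax : V → Prop := fun x => dz T x (y • y • x) = 2 * dz T x (y • x)
  obtain ⟨x0, hx0⟩ : ∃ x0, Ax x0 := A.axis_nonempty hy v0
  have hyinv : ∀ x : V, y⁻¹ • y⁻¹ • x ≠ x := by
    intro x hx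
    apply hy x
    rw [inv_smul_eq_iff, inv_smul_eq_iff] at hx
    exact hx.symm
  -- the axis of a power
  have axpow : ∀ (n : ℤ), n ≠ 0 → ∀ x, Ax x ↔
      dz T x (y ^ n • y ^ n • x) = 2 * dz T x (y ^ n • x) := by
    intro n hn x
    obtain ⟨k, rfl | rfl⟩ := n.eq_nat_or_neg
    · rw [zpow_natCast]
      exact ⟨fun hx => A.pow_axis hy hx k, fun hx => A.axis_of_pow hy (by omega) hx⟩
    · rw [zpow_neg, zpow_natCast, ← inv_pow]
      constructor
      · intro hx
        exact A.pow_axis hyinv (A.axis_inv hx) k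
      · intro hx
        have := A.axis_inv (A.axis_of_pow hyinv (by omega) hx)
        rwa [inv_inv] at this
  -- the axis is preserved
  have axinv : ∀ (g : G) (m n : ℤ), m ≠ 0 → n ≠ 0 → g * y ^ m * g⁻¹ = y ^ n →
      ∀ x, Ax x → Ax (g • x) := by
    intro g m n hm hn hmn x hx
    rw [axpow m hm] at hx
    rw [axpow n hn, ← hmn]
    have e1 : (g * y ^ m * g⁻¹) • g • x = g • y ^ m • x := by
      simp only [mul_smul, inv_smul_smul]
    have e2 : (g * y ^ m * g⁻¹) • g • y ^ m • x = g • y ^ m • y ^ m • x := by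
      simp only [mul_smul, inv_smul_smul]
    rw [e1, e2, A.iso, A.iso]
    exact hx
  -- the coordinate
  let l := dz T x0 (y • x0)
  have hl : 0 < l := A.hyp_pos hy x0
  let κ : V → ℕ := fun z => (dz T z x0).toNat + 1
  have hκ : ∀ z, dz T z x0 < κ z := by
    intro z
    have := h.nn z x0
    show dz T z x0 < (((dz T z x0).toNat + 1 : ℕ) : ℤ)
    push_cast
    rw [Int.toNat_of_nonneg this]; omega
  let c : V → ℤ := fun z => dz T (y⁻¹ ^ (κ z) • x0) z - κ z * l
  have step : ∀ z, Ax z → ∀ k : ℕ, dz T z x0 < k →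
      dz T (y⁻¹ ^ (k + 1) • x0) z = dz T (y⁻¹ ^ k • x0) z + l := by
    intro z hz k hk
    have b1 := between_translates A hy hz (x := x0) hk
    have b2 : dz T (y⁻¹ ^ (k + 1) • x0) (y ^ k • x0) = (2 * k + 1) * l := by
      rw [inv_pow, A.inv_left, ← mul_smul, ← pow_add, A.orbit_axis hy hx0]
      push_cast; ring
    have b3 : dz T (y⁻¹ ^ k • x0) (y ^ k • x0) = (2 * k) * l := by
      rw [inv_pow, A.inv_left, ← mul_smul, ← pow_add, A.orbit_axis hy hx0]
      push_cast; ring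
    have b4 : dz T (y⁻¹ ^ (k + 1) • x0) (y⁻¹ ^ k • x0) = l := by
      rw [pow_succ, mul_smul, A.iso, A.inv_left]
    have t1 := h.tri (y⁻¹ ^ (k + 1) • x0) (y⁻¹ ^ k • x0) z
    have t2 := h.tri (y⁻¹ ^ (k + 1) • x0) z (y ^ k • x0)
    have e : (2 * (k : ℤ) + 1) * l = 2 * k * l + l := by ring
    linarith
  have hc : ∀ z, Ax z → ∀ k : ℕ, κ z ≤ k → c z = dz T (y⁻¹ ^ k • x0) z - k * l := by
    intro z hz k hk
    induction k, hk using Nat.le_induction with
    | base => rfl
    | succ k hk ih =>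
      rw [ih, step z hz k (lt_of_lt_of_le (hκ z) (by exact_mod_cast hk))]
      push_cast; ring
  have hciso : ∀ z w, Ax z → Ax w → dz T z w = |c z - c w| := by
    intro z w hz hw
    set k := max (κ z) (κ w) with hk
    have k1 : κ z ≤ k := le_max_left _ _
    have k2 : κ w ≤ k := le_max_right _ _
    rw [hc z hz k k1, hc w hw k k2]
    have b1 := between_translates A hy hz (x := x0) (k := k)
      (lt_of_lt_of_le (hκ z) (by exact_mod_cast k1))
    have b2 := between_translates A hy hw (x := x0) (k := k)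
      (lt_of_lt_of_le (hκ w) (by exact_mod_cast k2))
    have e : dz T (y⁻¹ ^ k • x0) z - k * l - (dz T (y⁻¹ ^ k • x0) w - k * l) =
      dz T (y⁻¹ ^ k • x0) z - dz T (y⁻¹ ^ k • x0) w := by ring
    rw [e]
    rcases le_total (dz T (y⁻¹ ^ k • x0) z) (dz T (y⁻¹ ^ k • x0) w) with hle | hle
    · rw [h.lin b1.symm b2.symm hle, abs_of_nonpos (by linarith)]; ring
    · rw [h.symm z w, h.lin b2.symm b1.symm hle, abs_of_nonneg (by linarith)]
  have c0 : c x0 = 0 := by
    rw [hc x0 hx0 (κ x0) le_rfl]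
    rw [inv_pow, A.inv_left, A.orbit_axis hy hx0]
    ring
  have haxy : ∀ x, Ax x → Ax (y • x) := axinv y 1 1 one_ne_zero one_ne_zero (by group)
  refine ⟨Ax, c, x0, l, hl, hx0, c0, hciso, axinv, fun x hx => ?_⟩
  set k := max (κ x) (κ (y • x)) with hk
  have k1 : κ x ≤ k := le_max_left _ _
  have k2 : κ (y • x) ≤ k := le_max_right _ _
  rw [hc x hx (k + 1) (by omega), hc (y • x) (haxy x hx) k k2]
  have e1 : dz T (y⁻¹ ^ (k + 1) • x0) x = dz T (y⁻¹ ^ k • x0) (y • x) := by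
    rw [pow_succ', mul_smul, A.inv_left]
  rw [e1]
  push_cast
  ring

/-- hyperbolic elements have infinite order -/
theorem hyp_inf (A : IsoAct (dz T) G) {y : G} (hy : ∀ x : V, y • y • x ≠ x) (v0 : V) :
    InfOrd y := by
  intro i hi
  by_contra h0
  have h1 : y ^ i.natAbs = 1 := by
    rcases Int.natAbs_eq i with h2 | h2
    · rw [h2, zpow_natCast] at hi
      exact hi
    · rw [h2, zpow_neg, zpow_natCast, inv_eq_one] at hi
      exact hi
  refine A.pow_ne hy (Int.natAbs_ne_zero.2 h0) v0 ?_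
  rw [h1, one_smul]

theorem zpow_coord {y : G} {Ax : V → Prop} {c : V → ℤ} {l : ℤ} (hAx : ∀ i : ℤ, ∀ x, Ax x → Ax (y ^ i • x))
    (hc : ∀ x, Ax x → c (y • x) = c x + l) (x : V) (hx : Ax x) (i : ℤ) :
    c (y ^ i • x) = c x + i * l := by
  induction i using Int.induction_on with
  | zero => simp
  | succ i ih =>
    have h1 : y ^ ((i : ℤ) + 1) • x = y • y ^ (i : ℤ) • x := by
      rw [← mul_smul]
      congr 1
      rw [add_comm, zpow_add, zpow_one]
    rw [h1, hc _ (hAx _ _ hx), ih]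
    ring
  | pred i ih =>
    have h1 : y ^ (-(i : ℤ)) • x = y • y ^ (-(i : ℤ) - 1) • x := by
      rw [← mul_smul]
      congr 1
      rw [← zpow_one_add]
      congr 1
      ring
    have h2 := hc _ (hAx (-(i : ℤ) - 1) x hx)
    rw [← h1, ih] at h2
    linarith

/-- elements of the centralizer of a hyperbolic element act on the axis by translations -/
theorem hyp_tau (A : IsoAct (dz T) G) {y : G} (hy : ∀ x : V, y • y • x ≠ x) (v0 : V) :
    ∃ τ : centralizer {y} →* Multiplicative ℤ, ∀ h : y ∈ centralizer {y}, τ ⟨y, h⟩ ≠ 1 := by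
  obtain ⟨Ax, c, x0, l, hl, hx0, c0, hiso, hinv, hcy⟩ := axis_coord A hy v0
  have hmem : ∀ g : centralizer {y}, (g : G) * y = y * g := fun g =>
    mem_centralizer_singleton_iff.1 g.2
  have hAx : ∀ g : centralizer {y}, ∀ x, Ax x → Ax ((g : G) • x) := by
    intro g x hx
    refine hinv g 1 1 one_ne_zero one_ne_zero ?_ x hx
    rw [zpow_one, hmem g, mul_inv_cancel_right]
  have hy' : y ∈ centralizer {y} := mem_centralizer_singleton_iff.2 rfl
  have hyx : ∀ x, Ax x → Ax (y • x) := fun x hx => hAx ⟨y, hy'⟩ x hx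
  have key : ∀ (g : centralizer {y}) (z : V), Ax z → c ((g : G) • z) = c ((g : G) • x0) + c z := by
    intro g z hz
    have h1 := hiso _ _ (hAx g z hz) (hAx g x0 hx0)
    rw [A.iso, hiso z x0 hz hx0, c0, sub_zero] at h1
    rcases abs_eq_abs.1 h1 with h2 | h2
    · linarith
    -- the reversing case
    have h3 : ∀ k : ℕ, c ((g : G) • y ^ k • z) = c ((g : G) • z) + k * l ∧
        c (y ^ k • z) = c z + k * l ∧ Ax (y ^ k • z) := by
      intro k
      induction k with
      | zero => simpa using hz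
      | succ k ih =>
        obtain ⟨i1, i2, i3⟩ := ih
        have e1 : (g : G) • y ^ (k + 1) • z = y • (g : G) • y ^ k • z := by
          rw [pow_succ', mul_smul, ← mul_smul, hmem g, mul_smul]
        have e2 : y ^ (k + 1) • z = y • y ^ k • z := by rw [pow_succ', mul_smul]
        refine ⟨?_, ?_, ?_⟩
        · rw [e1, hcy _ (hAx g _ i3), i1]
          push_cast
          ring
        · rw [e2, hcy _ i3, i2]
          push_cast
          ring
        · rw [e2]
          exact hyx _ i3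
    obtain ⟨k, hk⟩ : ∃ k : ℕ, |c z| + 1 ≤ k * l := by
      refine ⟨(|c z| + 1).toNat, ?_⟩
      have h4 : 0 ≤ |c z| + 1 := by positivity
      rw [Int.toNat_of_nonneg h4]
      nlinarith
    obtain ⟨i1, i2, i3⟩ := h3 k
    have h5 := hiso _ _ (hAx g _ i3) (hAx g x0 hx0)
    rw [A.iso, hiso _ x0 i3 hx0, c0, sub_zero, i1, i2] at h5
    have h6 := abs_nonneg (c z)
    have h7 := neg_abs_le (c z)
    have h8 := le_abs_self (c z)
    rcases abs_eq_abs.1 h5 with h9 | h9
    · linarith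
    · linarith
  refine ⟨MonoidHom.mk' (fun g => Multiplicative.ofAdd (c ((g : G) • x0))) ?_, ?_⟩
  · intro g k
    show Multiplicative.ofAdd (c (((g : G) * (k : G)) • x0)) = _
    rw [mul_smul, key g _ (hAx k x0 hx0), ofAdd_add]
  · intro h h1
    have h2 : c (y • x0) = 0 := h1
    rw [hcy x0 hx0, c0] at h2
    omega

/-- **normalizers of hyperbolic elements** -/
theorem quot_hyp (hC : ClosedE C) (A : IsoAct (dz T) G) {y : G} (hy : ∀ x : V, y • y • x ≠ x)
    (v0 : V) (hV : ∀ v : V, C ↥(MulAction.stabilizer G v)) :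
    ∃ (Q : Type) (_ : Group Q) (π : Nm y →* Q), C Q ∧ ∀ x, π x = 1 ↔ (x : G) ∈ zpowers y := by
  obtain ⟨Ax, c, x0, l, hl, hx0, c0, hiso, hinv, hcy⟩ := axis_coord A hy v0
  have hyi := hyp_inf A hy v0
  have hyN : y ∈ Nm y := Or.inl (by group)
  have hAx : ∀ g ∈ Nm y, ∀ x, Ax x → Ax (g • x) := by
    intro g hg x hx
    rcases hg with hg | hg
    · exact hinv g 1 1 one_ne_zero one_ne_zero (by rw [zpow_one]; exact hg) x hx
    · exact hinv g 1 (-1) one_ne_zero (by norm_num) (by rw [zpow_one, zpow_neg, zpow_one]; exact hg)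
        x hx
  have hyk : ∀ i : ℤ, ∀ x, Ax x → Ax (y ^ i • x) := fun i x hx => hAx _ (zpow_mem hyN i) x hx
  have hck := zpow_coord hyk hcy
  obtain ⟨Z, hZ⟩ : ∃ Z : Subgroup (Nm y), Z = (zpowers y).subgroupOf (Nm y) := ⟨_, rfl⟩
  have hZm : ∀ x : Nm y, x ∈ Z ↔ (x : G) ∈ zpowers y := fun x => by rw [hZ]; exact mem_subgroupOf
  have hZn : Z.Normal := by
    refine ⟨fun x hx h => ?_⟩
    rw [hZm] at hx ⊢
    obtain ⟨i, hi⟩ := hx
    obtain ⟨j, hj⟩ := Nm_zpow h.2 i
    exact ⟨j, by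
      show y ^ j = (h : G) * (x : G) * (h : G)⁻¹
      rw [← hj, ← hi]⟩
  refine ⟨Nm y ⧸ Z, inferInstance, QuotientGroup.mk' Z, ?_, fun x => ?_⟩
  · obtain ⟨S, hS⟩ : ∃ S : Subgroup (Nm y), S = (MulAction.stabilizer G x0).subgroupOf (Nm y) :=
      ⟨_, rfl⟩
    have hSm : ∀ x : Nm y, x ∈ S ↔ (x : G) • x0 = x0 := fun x => by rw [hS]; exact mem_subgroupOf
    obtain ⟨K, hK⟩ : ∃ K : Subgroup (Nm y ⧸ Z), K = S.map (QuotientGroup.mk' Z) := ⟨_, rfl⟩
    have hSK : ∀ s : S, QuotientGroup.mk' Z (s : Nm y) ∈ K := fun s => by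
      rw [hK]
      exact ⟨s, s.2, rfl⟩
    have hCK : C K := by
      have hSG : ∀ s : S, ((s : Nm y) : G) ∈ MulAction.stabilizer G x0 := fun s => (hSm _).1 s.2
      refine C_ker hC (((QuotientGroup.mk' Z).comp S.subtype).codRestrict K hSK) ?_
        (((Nm y).subtype.comp S.subtype).codRestrict (MulAction.stabilizer G x0) hSG) ?_ ?_ (hV x0)
      · rintro ⟨q, hq⟩
        obtain ⟨s, hs, hsq⟩ := hK ▸ hq
        exact ⟨⟨s, hs⟩, Subtype.ext hsq⟩
      · intro s hs
        have h1 : ((s : Nm y) : G) = 1 := congrArg Subtype.val hs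
        apply Subtype.ext
        refine (QuotientGroup.eq_one_iff (s : Nm y)).2 ?_
        rw [hZm, h1]
        exact one_mem _
      · intro s hs
        have h1 := (QuotientGroup.eq_one_iff (s : Nm y)).1 (congrArg Subtype.val hs)
        rw [hZm] at h1
        obtain ⟨i, hi⟩ := h1
        have hi : y ^ i = ((s : Nm y) : G) := hi
        have h2 := (hSm _).1 s.2
        rw [← hi] at h2
        have h3 := hck x0 hx0 i
        rw [h2, c0, zero_add] at h3
        have h4 : i = 0 := by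
          rcases mul_eq_zero.1 h3.symm with h4 | h4
          · exact h4
          · omega
        apply Subtype.ext
        show ((s : Nm y) : G) = 1
        rw [← hi, h4, zpow_zero]
    refine hC.base.finiteIndex _ K ⟨?_⟩ hCK
    have hfin : Finite ((Nm y ⧸ Z) ⧸ K) := by
      have h1 : ∀ q : (Nm y ⧸ Z) ⧸ K, ∃ n : Nm y, ((n : Nm y ⧸ Z) : (Nm y ⧸ Z) ⧸ K) = q := by
        intro q
        obtain ⟨a, rfl⟩ := QuotientGroup.mk_surjective q
        obtain ⟨b, rfl⟩ := QuotientGroup.mk_surjective a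
        exact ⟨b, rfl⟩
      choose n hn using h1
      have : NeZero l.toNat := ⟨by omega⟩
      refine Finite.of_injective (β := ZMod l.toNat)
        (fun q => ((c (((n q : Nm y) : G) • x0) : ℤ) : ZMod l.toNat)) ?_
      intro q q' hqq
      have hqq : ((c (((n q : Nm y) : G) • x0) : ℤ) : ZMod l.toNat) =
        ((c (((n q' : Nm y) : G) • x0) : ℤ) : ZMod l.toNat) := hqq
      rw [ZMod.intCast_eq_intCast_iff_dvd_sub, Int.toNat_of_nonneg hl.le] at hqq
      obtain ⟨k, hk⟩ := hqq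
      have hA1 := hAx _ (n q).2 x0 hx0
      have hA2 := hAx _ (n q').2 x0 hx0
      have h2 : y ^ k • ((n q : Nm y) : G) • x0 = ((n q' : Nm y) : G) • x0 := by
        apply A.zh.eq_of
        rw [hiso _ _ (hyk k _ hA1) hA2, hck _ hA1 k]
        have h3 : c (((n q : Nm y) : G) • x0) + k * l - c (((n q' : Nm y) : G) • x0) = 0 := by
          linarith
        rw [h3, abs_zero]
      -- `n q' = y ^ k * n q * s`
      obtain ⟨s, hs⟩ : ∃ s : Nm y, s = (⟨y ^ k, zpow_mem hyN k⟩ * n q)⁻¹ * n q' := ⟨_, rfl⟩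
      have hsS : s ∈ S := by
        rw [hSm, hs]
        show ((y ^ k * ((n q : Nm y) : G))⁻¹ * ((n q' : Nm y) : G)) • x0 = x0
        rw [mul_smul, ← h2, ← mul_smul (y ^ k), inv_smul_smul]
      rw [← hn q, ← hn q']
      refine QuotientGroup.eq.2 ?_
      have h4 : ((⟨y ^ k, zpow_mem hyN k⟩ : Nm y) : Nm y ⧸ Z) = 1 := by
        refine (QuotientGroup.eq_one_iff _).2 ?_
        rw [hZm]
        exact ⟨k, rfl⟩
      have h5 : ((n q : Nm y ⧸ Z))⁻¹ * (n q' : Nm y ⧸ Z) = QuotientGroup.mk' Z s := by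
        rw [hs, map_mul, map_inv, map_mul]
        show _ = (((⟨y ^ k, zpow_mem hyN k⟩ : Nm y) : Nm y ⧸ Z) * (n q : Nm y ⧸ Z))⁻¹ *
          (n q' : Nm y ⧸ Z)
        rw [h4, one_mul]
      rw [h5]
      exact hSK ⟨s, hsS⟩
    exact (Nat.card_pos (α := (Nm y ⧸ Z) ⧸ K)).ne'
  · rw [← hZm]
    exact QuotientGroup.eq_one_iff x

end Pool.Agent.J6H95.FJ
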