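import Pool.Agent.J6H95.FJ.BalU

/-!
# Linear groups, and groups of integral matrices
-/

set_option autoImplicit false

namespace Pool.Agent.J6H95.FJ

open Subgroup
open Pool.Agent.Y110.FJ

variable {C : ∀ (G : Type) [Group G], Prop}

section lin

variable {G : Type} [Group G] {k : Type} [Field k] {d : ℕ}

/-- **linear groups are in `Quo C`** -/
theorem quo_lin (hC : ClosedE C) (hM : ∀ (G : Type) [Group G], derivedSeries G 2 = ⊥ → C G)
    (hk : ∀ m : ℕ, C (GL (Fin m) k)) (ρ : G →* GL (Fin d) k) (hρ : Function.Injective ρ) :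
    Quo C G := by
  refine ⟨hC.base.of_injective _ _ ρ hρ (hk _), fun z _ => ?_⟩
  obtain ⟨x, hxd⟩ : ∃ x : GL (Fin d) k, x = ρ z := ⟨_, rfl⟩
  obtain ⟨σ, hσ⟩ : ∃ σ : Nm z →* GL (Fin d) k, ∀ g, σ g = ρ g :=
    ⟨ρ.comp (Nm z).subtype, fun g => rfl⟩
  have hB : ∀ a : Nm z, ∀ b ∈ Cmat (x : Matrix (Fin d) (Fin d) k),
      (σ a : Matrix (Fin d) (Fin d) k) * b * ((σ a)⁻¹ : GL (Fin d) k) ∈
        Cmat (x : Matrix (Fin d) (Fin d) k) := by
    intro a b hb
    rw [mem_Cmat] at hb ⊢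
    have hconj : ∀ y : G, (a : G) * z * (a : G)⁻¹ = y → σ a * x * (σ a)⁻¹ = ρ y := by
      intro y hy
      rw [hσ, hxd, ← map_inv, ← map_mul, ← map_mul, hy]
    rcases a.2 with h | h
    · have h1 := hconj z h
      rw [← hxd] at h1
      exact conj_comm hb h1
    · have h1 := hconj z⁻¹ h
      rw [map_inv, ← hxd] at h1
      have h2 := conj_comm hb h1
      have h3 := zpow_comm_mat (x := x⁻¹) h2 (-1)
      rw [zpow_neg, zpow_one, inv_inv] at h3
      exact h3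
  obtain ⟨Z, hZ⟩ : ∃ Z : Subgroup (Nm z), Z = (zpowers z).subgroupOf (Nm z) := ⟨_, rfl⟩
  have hZm : ∀ y : Nm z, y ∈ Z ↔ (y : G) ∈ zpowers z := fun y => by rw [hZ]; exact mem_subgroupOf
  have hZn : Z.Normal := by
    refine ⟨fun y hy h => ?_⟩
    rw [hZm] at hy ⊢
    obtain ⟨i, hi⟩ := hy
    obtain ⟨j, hj⟩ := Nm_zpow h.2 i
    exact ⟨j, by
      show z ^ j = (h : G) * (y : G) * (h : G)⁻¹
      rw [← hj, ← hi]⟩
  obtain ⟨π, hπ⟩ : ∃ π : Nm z →* (Module.End k (Cmat (x : Matrix (Fin d) (Fin d) k)))ˣ,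
      ∀ a, π a = 1 ↔ ∀ b ∈ Cmat (x : Matrix (Fin d) (Fin d) k),
        (σ a : Matrix (Fin d) (Fin d) k) * b = b * (σ a : Matrix (Fin d) (Fin d) k) :=
    ⟨(conjHom σ _ hB).toHomUnits, fun a => conjHom_eq_one⟩
  have hzπ : ∀ y ∈ Z, π y = 1 := by
    intro y hy
    rw [hπ]
    intro b hb
    rw [hZm] at hy
    obtain ⟨i, hi⟩ := hy
    have hi : z ^ i = (y : G) := hi
    have h2 : σ y = x ^ i := by
      rw [hσ, hxd, ← map_zpow, hi]
    rw [h2]
    exact (zpow_comm_mat hb i).symm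
  refine ⟨Nm z ⧸ Z, inferInstance, QuotientGroup.mk' Z, ?_, fun y => ?_⟩
  · refine ab_hom hC hM (QuotientGroup.lift Z π hzπ) ?_
      (C_lin hC hk (Cmat (x : Matrix (Fin d) (Fin d) k)))
    intro q r hq hr
    obtain ⟨g, rfl⟩ := QuotientGroup.mk_surjective q
    obtain ⟨h, rfl⟩ := QuotientGroup.mk_surjective r
    have hg : π g = 1 := hq
    have hh : π h = 1 := hr
    rw [hπ] at hg hh
    have hxc : (x : Matrix (Fin d) (Fin d) k) ∈ Cmat (x : Matrix (Fin d) (Fin d) k) := by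
      rw [mem_Cmat]
    have h2 : (σ h : Matrix (Fin d) (Fin d) k) ∈ Cmat (x : Matrix (Fin d) (Fin d) k) := by
      rw [mem_Cmat]
      exact hh _ hxc
    have h3 := hg _ h2
    rw [← comm_gl, ← map_mul, ← map_mul, hσ, hσ] at h3
    have h4 : g * h = h * g := Subtype.ext (hρ h3)
    rw [← QuotientGroup.mk_mul, ← QuotientGroup.mk_mul, h4]
  · rw [← hZm]
    exact QuotientGroup.eq_one_iff y

end lin

section int

variable {n : ℕ}

/-- the reduction of integral matrices -/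
noncomputable def red (n m : ℕ) : GL (Fin n) ℤ →* GL (Fin n) (ZMod m) :=
  Matrix.GeneralLinearGroup.map (Int.castRingHom (ZMod m))

theorem red_eq_one {m : ℕ} {x : GL (Fin n) ℤ} :
    red n m x = 1 ↔ ∀ i j, (m : ℤ) ∣ ((x : Matrix (Fin n) (Fin n) ℤ) - 1) i j := by
  have h1 : red n m x = 1 ↔ ∀ i j, (((x : Matrix (Fin n) (Fin n) ℤ) i j : ℤ) : ZMod m) =
      (1 : Matrix (Fin n) (Fin n) (ZMod m)) i j := by
    rw [Units.ext_iff, ← Matrix.ext_iff]
    rfl
  rw [h1]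
  refine forall_congr' fun i => forall_congr' fun j => ?_
  rw [← ZMod.intCast_zmod_eq_zero_iff_dvd, Matrix.sub_apply, Int.cast_sub, sub_eq_zero]
  have h2 : (1 : Matrix (Fin n) (Fin n) (ZMod m)) i j =
      (((1 : Matrix (Fin n) (Fin n) ℤ) i j : ℤ) : ZMod m) := by
    by_cases h : i = j
    · subst h
      simp
    · simp [h]
  rw [h2]

/-- powers of matrices congruent to one -/
theorem pow_cong {p : ℕ} {x : Matrix (Fin n) (Fin n) ℤ} (hx : ∀ i j, (p : ℤ) ∣ (x - 1) i j)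
    (k : ℕ) : ∀ i j, ((p ^ (k + 1) : ℕ) : ℤ) ∣ (x ^ p ^ k - 1) i j := by
  choose b hb using hx
  obtain ⟨B, hB⟩ : ∃ B : Matrix (Fin n) (Fin n) ℤ, B = Matrix.of b := ⟨_, rfl⟩
  have hxB : x = 1 + (p : ℤ) • B := by
    have h0 : x - 1 = (p : ℤ) • B := by
      ext i j
      rw [hb i j, hB]
      rfl
    rw [← h0]
    abel
  have h1 : ((p : ℕ) : Polynomial ℤ) ∣ (1 + (p : Polynomial ℤ) * Polynomial.X) - 1 :=
    ⟨Polynomial.X, by ring⟩
  obtain ⟨q, hq⟩ := dvd_sub_pow_of_dvd_sub h1 k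
  have h2 := congrArg (Polynomial.aeval B) hq
  simp only [map_sub, map_pow, map_add, map_one, map_mul, Polynomial.aeval_X, map_natCast,
    one_pow] at h2
  have h3 : (p : Matrix (Fin n) (Fin n) ℤ) * B = (p : ℤ) • B := by
    rw [natCast_zsmul, nsmul_eq_mul]
  rw [h3, ← hxB] at h2
  intro i j
  rw [h2]
  have h4 : (p : Matrix (Fin n) (Fin n) ℤ) ^ (k + 1) * (Polynomial.aeval B) q =
      ((p ^ (k + 1) : ℕ) : ℤ) • (Polynomial.aeval B) q := by
    rw [natCast_zsmul, nsmul_eq_mul]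
    push_cast
    rfl
  rw [h4]
  exact ⟨_, rfl⟩

theorem dvd_aux {p o m k s : ℕ} (hp : p.Prime) (ho : o ≠ 0) (h : o ∣ m * p ^ k) (hs : ¬ p ^ s ∣ o) :
    o ∣ m * p ^ s := by
  obtain ⟨t, u, hu, rfl⟩ := Nat.exists_eq_pow_mul_and_not_dvd ho p hp.ne_one
  have ht : t ≤ s := by
    by_contra hlt
    exact hs ((pow_dvd_pow p (by omega)).trans (Dvd.intro _ rfl))
  have h1 : u ∣ m := by
    have h2 : u ∣ m * p ^ k := (Dvd.intro_left _ rfl).trans h
    exact Nat.Coprime.dvd_of_dvd_mul_right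
      (Nat.Coprime.pow_right k ((Nat.Prime.coprime_iff_not_dvd hp).2 hu).symm) h2
  rw [mul_comm m]
  exact mul_dvd_mul (pow_dvd_pow p ht) h1

/-- the orders of the reductions modulo powers of `p` are divisible by large powers of `p` -/
theorem order_red {e : GL (Fin n) ℤ} (he : InfOrd e) {p : ℕ} (hp : p.Prime) (s : ℕ) :
    ∃ k, p ^ s ∣ orderOf (red n (p ^ (k + 1)) e) := by
  by_contra hcon
  push Not at hcon
  have hne : ∀ k, NeZero (p ^ (k + 1)) := fun k => ⟨(pow_pos hp.pos _).ne'⟩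
  have hfin : ∀ k, Finite (GL (Fin n) (ZMod (p ^ (k + 1)))) := fun k => by
    have := hne k
    infer_instance
  have ho : ∀ k, orderOf (red n (p ^ (k + 1)) e) ≠ 0 := fun k => by
    have := hfin k
    exact (orderOf_pos _).ne'
  obtain ⟨m, hm⟩ : ∃ m, m = orderOf (red n (p ^ (0 + 1)) e) := ⟨_, rfl⟩
  have hm0 : m ≠ 0 := by
    rw [hm]
    exact ho 0
  have h1 : red n (p ^ (0 + 1)) (e ^ m) = 1 := by
    rw [map_pow, hm]
    exact pow_orderOf_eq_one _
  rw [red_eq_one, zero_add, pow_one] at h1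
  have h2 : ∀ k, red n (p ^ (k + 1)) (e ^ (m * p ^ k)) = 1 := by
    intro k
    rw [red_eq_one, pow_mul]
    have h3 := pow_cong h1 k
    rw [← Units.val_pow_eq_pow_val] at h3
    exact h3
  have h3 : ∀ k, red n (p ^ (k + 1)) (e ^ (m * p ^ s)) = 1 := by
    intro k
    have h4 : orderOf (red n (p ^ (k + 1)) e) ∣ m * p ^ k := by
      rw [orderOf_dvd_iff_pow_eq_one, ← map_pow]
      exact h2 k
    have h5 := dvd_aux hp (ho k) h4 (hcon k)
    rw [map_pow]
    exact orderOf_dvd_iff_pow_eq_one.1 h5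
  have h4 : e ^ (m * p ^ s) = 1 := by
    apply Units.ext
    rw [Units.val_one, ← sub_eq_zero]
    ext i j
    obtain ⟨a, ha⟩ : ∃ a : ℤ, a = (((e ^ (m * p ^ s) : GL (Fin n) ℤ) :
      Matrix (Fin n) (Fin n) ℤ) - 1) i j := ⟨_, rfl⟩
    rw [← ha]
    show a = 0
    by_contra h0
    have h5 := (red_eq_one.1 (h3 a.natAbs)) i j
    rw [← ha] at h5
    have h6 := Int.natAbs_dvd_natAbs.2 h5
    rw [Int.natAbs_natCast] at h6
    have h7 := Nat.le_of_dvd (Int.natAbs_pos.2 h0) h6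
    have h8 := Nat.lt_pow_self (n := a.natAbs + 1) hp.one_lt
    omega
  have h5 := he ((m * p ^ s : ℕ) : ℤ) (by rw [zpow_natCast]; exact h4)
  have h6 : m * p ^ s ≠ 0 := mul_ne_zero hm0 (pow_pos hp.pos _).ne'
  exact h6 (by exact_mod_cast h5)

theorem order_zpow {H : Type} [Group H] (x : H) (i : ℤ) : orderOf (x ^ i) = orderOf (x ^ i.natAbs) := by
  rcases Int.natAbs_eq i with h | h
  · conv_lhs => rw [h, zpow_natCast]
  · conv_lhs => rw [h, zpow_neg, zpow_natCast, orderOf_inv]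

/-- **groups of integral matrices are balanced** -/
theorem bald_int (n : ℕ) : Bald (GL (Fin n) ℤ) := by
  have key : ∀ (e : GL (Fin n) ℤ), InfOrd e → ∀ (g : GL (Fin n) ℤ) (i j : ℤ), i ≠ 0 → j ≠ 0 →
      g * e ^ i * g⁻¹ = e ^ j → i.natAbs ∣ j.natAbs := by
    intro e he g i j hi hj hij
    rw [Nat.dvd_iff_prime_pow_dvd_dvd]
    intro p s hp hpi
    obtain ⟨k, hk⟩ := order_red he hp s
    have : NeZero (p ^ (k + 1)) := ⟨(pow_pos hp.pos _).ne'⟩
    obtain ⟨x, hx⟩ : ∃ x, x = red n (p ^ (k + 1)) e := ⟨_, rfl⟩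
    rw [← hx] at hk
    have h1 : red n (p ^ (k + 1)) g * x ^ i * (red n (p ^ (k + 1)) g)⁻¹ = x ^ j := by
      rw [hx, ← map_zpow, ← map_inv, ← map_mul, ← map_mul, hij, map_zpow]
    have h2 : orderOf (x ^ i) = orderOf (x ^ j) := by
      rw [← h1]
      exact (orderOf_injective (MulAut.conj (red n (p ^ (k + 1)) g)).toMonoidHom
        (MulAut.conj (red n (p ^ (k + 1)) g)).injective (x ^ i)).symm
    rw [order_zpow, order_zpow, orderOf_pow' _ (Int.natAbs_ne_zero.2 hi),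
      orderOf_pow' _ (Int.natAbs_ne_zero.2 hj)] at h2
    have ho : 0 < orderOf x := orderOf_pos x
    have h3 := Nat.div_mul_cancel (Nat.gcd_dvd_left (orderOf x) i.natAbs)
    have h4 := Nat.div_mul_cancel (Nat.gcd_dvd_left (orderOf x) j.natAbs)
    rw [h2] at h3
    have h5 : 0 < orderOf x / (orderOf x).gcd j.natAbs :=
      Nat.div_pos (Nat.gcd_le_left _ ho) (Nat.gcd_pos_of_pos_left _ ho)
    have h6 : (orderOf x).gcd i.natAbs = (orderOf x).gcd j.natAbs :=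
      Nat.eq_of_mul_eq_mul_left h5 (h3.trans h4.symm)
    have h7 : p ^ s ∣ (orderOf x).gcd i.natAbs := Nat.dvd_gcd hk hpi
    rw [h6] at h7
    exact h7.trans (Nat.gcd_dvd_right _ _)
  intro e he g i j hi hij
  have hj : j ≠ 0 := by
    rintro rfl
    rw [zpow_zero] at hij
    have h1 : e ^ i = 1 := by
      calc e ^ i = g⁻¹ * (g * e ^ i * g⁻¹) * g := by group
        _ = 1 := by rw [hij, mul_one, inv_mul_cancel]
    exact hi (he i h1)
  have h1 := key e he g i j hi hj hij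
  have h2 := key e he g⁻¹ j i hj hi (by rw [← hij]; group)
  have h3 : i.natAbs = j.natAbs := Nat.dvd_antisymm h1 h2
  omega

end int

end Pool.Agent.J6H95.FJ
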