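import Pool.Agent.J6H95.FJ.Bal2

/-!
# Isolated edge groups with local bounds
-/

set_option autoImplicit false

namespace Pool.Agent.J6H95.FJ

open SimpleGraph
open Subgroup
open Pool.Agent.Y110.FJ
open Pool.Agent.N509.TK
open Pool.Agent.N509.TX (AcylF)
open Pool.Agent.R941.FJ (C_equiv C_le C_cyc mem_sup_normal)
open Pool.Agent.N431.CE (Es Es_comm Es_smul mem_Es rf rf_LR Rf Rf_gen)

variable {C : ∀ (G : Type) [Group G], Prop}
variable {G V : Type} [Group G] [MulAction G V] {T : SimpleGraph V}

/-- an element which maps an edge of a cylinder into the cylinder preserves it -/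
theorem Pres_of (hact : ∀ (g : G) (u v : V), T.Adj u v → T.Adj (g • u) (g • v))
    {r : V → V → V → Prop} (hr : LR G T r) {v u : V} (h : T.Adj v u) {g : G}
    (hg : cy r (hact g v u h) = cy r h) : Pres hact (cy r h) g := by
  intro v' a h' hy
  have h1 : (cyAct hact hr).smul g (cy r h') = (cyAct hact hr).smul g (cy r h) := by rw [hy]
  rw [cyAct_cy, cyAct_cy, hg] at h1
  exact h1

/-- the intersection of commensurable infinite subgroups is infinite -/
theorem inf_comm_inf {G : Type} [Group G] {A B : Subgroup G} (hA : Infinite A)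
    (h : Commensurable A B) : Infinite ↥(A ⊓ B) := by
  by_contra hcon
  have hfin := not_infinite_iff_finite.1 hcon
  have h1 : Finite (B.subgroupOf A) := by
    refine Finite.of_injective (fun x : B.subgroupOf A => (⟨((x : A) : G), (x : A).2, x.2⟩ :
      ↥(A ⊓ B))) fun x y hxy => ?_
    exact Subtype.ext (Subtype.ext (congrArg (fun z : ↥(A ⊓ B) => (z : G)) hxy))
  have h2 : (B.subgroupOf A).FiniteIndex := ⟨h.2⟩
  have h3 : Finite (A ⧸ B.subgroupOf A) := Subgroup.finite_quotient_of_finiteIndex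
  have h4 : Finite A := Finite.of_subgroup_quotient (B.subgroupOf A)
  exact not_finite A

/-- the relation at two edge groups at a vertex -/
def IsoAt (G : Type) {V : Type} [Group G] [MulAction G V] (T : SimpleGraph V) : Prop :=
  ∀ v a : V, T.Adj v a → ∃ n : ℕ, ∀ b, T.Adj v b → a ≠ b →
    (Infinite (Es G v a) ∧ Infinite (Es G v b) ∧ Commensurable (Es G v a) (Es G v b)) ∨
    ∀ F : Finset G, (∀ g ∈ F, g ∈ Es G v a ∧ g ∈ Es G v b) → F.card ≤ n

/-- **isolated edge groups with local bounds** -/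
theorem main_loc (hC : ClosedE C) (hA : AcylF C) (hT : T.IsTree)
    (hact : ∀ (g : G) (u v : V), T.Adj u v → T.Adj (g • u) (g • v))
    (hV : ∀ v : V, C ↥(MulAction.stabilizer G v)) (hint : IsoAt G T)
    (hY : ∀ (v u : V) (h : T.Adj v u), Infinite (Es G v u) → ∀ K : Subgroup G,
      (∀ g ∈ K, Pres hact (cy (rf G) h) g) → C K) : C G := by
  classical
  obtain ⟨o⟩ := hT.connected.nonempty
  refine Pool.Agent.Y430.SS.of_directed hC.base G (Finset G) (fun i j => ?_)
    (fun s => Subgroup.closure (s : Set G))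
    (fun s t h => Subgroup.closure_mono (by exact_mod_cast h))
    (fun g => ⟨{g}, Subgroup.subset_closure (by simp)⟩) (fun S => ?_)
  · exact ⟨i ∪ j, Finset.subset_union_left, Finset.subset_union_right⟩
  obtain ⟨H, hH⟩ : ∃ H : Subgroup G, H = Subgroup.closure (S : Set G) := ⟨_, rfl⟩
  show C (Subgroup.closure (S : Set G))
  rw [← hH]
  let w : ∀ g : G, T.Walk o (g • o) := fun g => (hT.connected.preconnected o (g • o)).some
  obtain ⟨Φ, hΦ⟩ : ∃ Φ : Finset (V × V),
      Φ = S.biUnion fun s => ((w s).darts.map fun d => d.toProd).toFinset := ⟨_, rfl⟩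
  have hΦT : ∀ e ∈ Φ, T.Adj e.1 e.2 := by
    intro e he
    rw [hΦ, Finset.mem_biUnion] at he
    obtain ⟨s, -, he⟩ := he
    rw [List.mem_toFinset, List.mem_map] at he
    obtain ⟨d, -, rfl⟩ := he
    exact d.adj
  -- a bound
  obtain ⟨n, hn⟩ : ∃ n : ℕ, ∀ e ∈ Φ, ∀ b, (T.Adj e.1 b → e.2 ≠ b →
      (Infinite (Es G e.1 e.2) ∧ Infinite (Es G e.1 b) ∧
        Commensurable (Es G e.1 e.2) (Es G e.1 b)) ∨
      ∀ F : Finset G, (∀ g ∈ F, g ∈ Es G e.1 e.2 ∧ g ∈ Es G e.1 b) → F.card ≤ n) ∧
      (T.Adj e.2 b → e.1 ≠ b →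
      (Infinite (Es G e.2 e.1) ∧ Infinite (Es G e.2 b) ∧
        Commensurable (Es G e.2 e.1) (Es G e.2 b)) ∨
      ∀ F : Finset G, (∀ g ∈ F, g ∈ Es G e.2 e.1 ∧ g ∈ Es G e.2 b) → F.card ≤ n) := by
    choose f hf using hint
    refine ⟨Φ.sup fun e => if h : T.Adj e.1 e.2 then max (f e.1 e.2 h) (f e.2 e.1 h.symm) else 0,
      fun e he b => ?_⟩
    have h1 := hΦT e he
    have h2 : max (f e.1 e.2 h1) (f e.2 e.1 h1.symm) ≤ Φ.sup fun e =>
        if h : T.Adj e.1 e.2 then max (f e.1 e.2 h) (f e.2 e.1 h.symm) else 0 := by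
      have h3 := Finset.le_sup (f := fun e : V × V =>
        if h : T.Adj e.1 e.2 then max (f e.1 e.2 h) (f e.2 e.1 h.symm) else 0) he
      simp only [h1, dite_true] at h3
      exact h3
    constructor
    · intro hb hab
      rcases hf e.1 e.2 h1 b hb hab with h4 | h4
      · exact Or.inl h4
      · exact Or.inr fun F hF => (h4 F hF).trans ((le_max_left _ _).trans h2)
    · intro hb hab
      rcases hf e.2 e.1 h1.symm b hb hab with h4 | h4
      · exact Or.inl h4
      · exact Or.inr fun F hF => (h4 F hF).trans ((le_max_right _ _).trans h2)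
  obtain ⟨n', hn'⟩ : ∃ n' : ℕ, ∀ e ∈ Φ, Infinite ↥(Es G e.1 e.2 ⊓ H) ∨
      ∀ F : Finset G, (∀ g ∈ F, g ∈ Es G e.1 e.2 ∧ g ∈ H) → F.card ≤ n' := by
    refine ⟨Φ.sup fun e => Nat.card ↥(Es G e.1 e.2 ⊓ H), fun e he => ?_⟩
    by_cases hfin : Infinite ↥(Es G e.1 e.2 ⊓ H)
    · exact Or.inl hfin
    · right
      intro F hF
      have hfin := not_infinite_iff_finite.1 hfin
      have h1 : F.card ≤ Nat.card ↥(Es G e.1 e.2 ⊓ H) := by
        have h2 := Nat.card_le_card_of_injective
          (fun x : F => (⟨x.1, hF x x.2⟩ : ↥(Es G e.1 e.2 ⊓ H)))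
          (fun a b hab => Subtype.ext (congrArg (fun z : ↥(Es G e.1 e.2 ⊓ H) => (z : G)) hab))
        simpa using h2
      exact h1.trans (Finset.le_sup (f := fun e : V × V => Nat.card ↥(Es G e.1 e.2 ⊓ H)) he)
  obtain ⟨T', hT'⟩ : ∃ T' : SimpleGraph V, T' = tg T H (Φ : Set (V × V)) := ⟨_, rfl⟩
  have hle : T' ≤ T := by
    rw [hT']
    intro u v h
    exact h.1
  have hreach : ∀ g ∈ H, T'.Reachable o (g • o) := by
    intro g hg
    rw [hH] at hg
    induction hg using Subgroup.closure_induction with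
    | mem s hs =>
      rw [hT']
      refine tg_walk H _ (w s) fun d hd => ?_
      rw [hΦ]
      simp only [Finset.coe_biUnion, Set.mem_iUnion, Finset.mem_coe, List.mem_toFinset, List.mem_map]
      exact ⟨s, hs, d, hd, rfl⟩
    | one =>
      rw [one_smul]
    | mul a b ha hb iha ihb =>
      rw [mul_smul]
      refine iha.trans ?_
      rw [hT'] at ihb ⊢
      exact tg_reach hact H _ (hH ▸ ha) ihb
    | inv a ha iha =>
      have h1 : T'.Reachable (a⁻¹ • o) (a⁻¹ • a • o) := by
        rw [hT'] at iha ⊢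
        exact tg_reach hact H _ (H.inv_mem (hH ▸ ha)) iha
      rw [inv_smul_smul] at h1
      exact h1.symm
  have hTs : ∀ a ∈ H, ∀ x y : V, T'.Adj x y → T'.Adj (a • x) (a • y) := by
    intro a ha x y h
    rw [hT'] at h ⊢
    exact tg_smul hact H _ ha h
  have hTa : ∀ x y : V, T'.Adj x y → ∃ h ∈ H, (h • x, h • y) ∈ Φ ∨ (h • y, h • x) ∈ Φ := by
    intro x y h
    rw [hT'] at h
    exact h.2
  obtain ⟨c, hc⟩ : ∃ c : T'.ConnectedComponent, c = T'.connectedComponentMk o := ⟨_, rfl⟩
  have hcm : ∀ x, x ∈ c.supp ↔ T'.Reachable o x := by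
    intro x
    rw [hc, ConnectedComponent.mem_supp_iff, ConnectedComponent.eq]
    exact ⟨fun h => h.symm, fun h => h.symm⟩
  have hcs : ∀ (h : H) (x : V), x ∈ c.supp → (h : G) • x ∈ c.supp := by
    intro h x hx
    rw [hcm] at hx ⊢
    refine (hreach h h.2).trans ?_
    rw [hT'] at hx ⊢
    exact tg_reach hact H _ h.2 hx
  let _ : MulAction H c.supp :=
    { smul := fun h x => ⟨(h : G) • (x : V), hcs h x x.2⟩
      one_smul := fun x => Subtype.ext (one_smul G (x : V))
      mul_smul := fun h k x => Subtype.ext (mul_smul (h : G) (k : G) (x : V)) }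
  have hsm : ∀ (h : H) (x : c.supp), ((h • x : c.supp) : V) = (h : G) • (x : V) := fun _ _ => rfl
  have hadj : ∀ x y : c.supp, c.toSimpleGraph.Adj x y → T.Adj (x : V) (y : V) := fun x y h => hle h
  have hEs : ∀ (x y : c.supp) (g : H), g ∈ Es H x y ↔ (g : G) ∈ Es G (x : V) (y : V) := by
    intro x y g
    constructor
    · rintro ⟨h1, h2⟩
      exact ⟨congrArg Subtype.val h1, congrArg Subtype.val h2⟩
    · rintro ⟨h1, h2⟩
      exact ⟨Subtype.ext h1, Subtype.ext h2⟩
  have hactH : ∀ (h : H) (x y : c.supp), c.toSimpleGraph.Adj x y →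
      c.toSimpleGraph.Adj (h • x) (h • y) := by
    intro h x y hxy
    have h1 : T'.Adj (x : V) (y : V) := hxy
    exact hTs h h.2 _ _ h1
  have hInf : ∀ x y : c.supp, Infinite (Es H x y) → Infinite (Es G (x : V) (y : V)) := by
    intro x y hxy
    refine Infinite.of_injective (fun g : Es H x y =>
      (⟨((g : H) : G), (hEs x y g).1 g.2⟩ : Es G (x : V) (y : V))) fun a b hab => ?_
    exact Subtype.ext (Subtype.ext (congrArg (fun z : Es G (x : V) (y : V) => (z : G)) hab))
  -- the bound for the subtree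
  have hbd : ∀ x a b : c.supp, c.toSimpleGraph.Adj x a → c.toSimpleGraph.Adj x b → a ≠ b →
      (Infinite (Es G (x : V) (a : V)) ∧ Infinite (Es G (x : V) (b : V)) ∧
        Commensurable (Es G (x : V) (a : V)) (Es G (x : V) (b : V))) ∨
      ∀ F : Finset H, (∀ g ∈ F, g ∈ Es H x a ∧ g ∈ Es H x b) → F.card ≤ n := by
    intro x a b hxa hxb hab
    obtain ⟨k, hk, h2⟩ := hTa _ _ (show T'.Adj (x : V) (a : V) from hxa)
    have hab' : (a : V) ≠ b := fun h => hab (Subtype.ext h)
    have h3 : T.Adj (k • (x : V)) (k • (b : V)) := hact k _ _ (hadj x b hxb)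
    have h4 : k • (a : V) ≠ k • (b : V) := fun h => hab' (smul_left_cancel k h)
    have h5 : (Infinite (Es G (k • (x : V)) (k • (a : V))) ∧
        Infinite (Es G (k • (x : V)) (k • (b : V))) ∧
        Commensurable (Es G (k • (x : V)) (k • (a : V))) (Es G (k • (x : V)) (k • (b : V)))) ∨
      ∀ F : Finset G, (∀ g ∈ F, g ∈ Es G (k • (x : V)) (k • (a : V)) ∧
        g ∈ Es G (k • (x : V)) (k • (b : V))) → F.card ≤ n := by
      rcases h2 with h2 | h2
      · exact (hn _ h2 (k • (b : V))).1 h3 h4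
      · exact (hn _ h2 (k • (b : V))).2 h3 h4
    rcases h5 with ⟨h5, h6, h7⟩ | h5
    · left
      have h8 : ∀ z : V, Infinite (Es G (k • (x : V)) (k • z)) → Infinite (Es G (x : V) z) := by
        intro z hz
        have h9 := Pool.Agent.N431.CE.inf_smul (g := k⁻¹) hz
        rwa [inv_smul_smul, inv_smul_smul] at h9
      refine ⟨h8 _ h5, h8 _ h6, ?_⟩
      rw [Es_smul, Es_smul] at h7
      have h9 := h7.conj (ConjAct.toConjAct k⁻¹)
      rw [← Es_smul, ← Es_smul, ← Es_smul, ← Es_smul] at h9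
      simpa only [inv_smul_smul] using h9
    · right
      intro F hF
      have h6 : (F.map ⟨fun g : H => k * (g : G) * k⁻¹, fun a b hab => by
          apply Subtype.ext
          exact mul_left_cancel (mul_right_cancel hab)⟩).card = F.card := Finset.card_map _
      rw [← h6]
      refine h5 _ fun g hg => ?_
      obtain ⟨g0, hg0, rfl⟩ := Finset.mem_map.1 hg
      obtain ⟨h7, h8⟩ := hF g0 hg0
      have h9 := (hEs x a g0).1 h7
      have h10 := (hEs x b g0).1 h8
      refine ⟨⟨?_, ?_⟩, ⟨?_, ?_⟩⟩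
      · show (k * (g0 : G) * k⁻¹) • k • (x : V) = k • (x : V)
        rw [mul_smul, mul_smul, inv_smul_smul, h9.1]
      · show (k * (g0 : G) * k⁻¹) • k • (a : V) = k • (a : V)
        rw [mul_smul, mul_smul, inv_smul_smul, h9.2]
      · show (k * (g0 : G) * k⁻¹) • k • (x : V) = k • (x : V)
        rw [mul_smul, mul_smul, inv_smul_smul, h9.1]
      · show (k * (g0 : G) * k⁻¹) • k • (b : V) = k • (b : V)
        rw [mul_smul, mul_smul, inv_smul_smul, h10.2]
  have hbig : ∀ (K : Subgroup H) (m : ℕ), Infinite K → ∃ F : Finset H, (∀ g ∈ F, g ∈ K) ∧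
      m < F.card := by
    intro K m hK
    obtain ⟨F, hF⟩ := Infinite.exists_subset_card_eq K (m + 1)
    refine ⟨F.map ⟨Subtype.val, Subtype.val_injective⟩, ?_, ?_⟩
    · intro g hg
      obtain ⟨a, ha, rfl⟩ := Finset.mem_map.1 hg
      exact a.2
    · rw [Finset.card_map, hF]
      omega
  have hfinb : ∀ x a : c.supp, c.toSimpleGraph.Adj x a → Infinite (Es H x a) ∨
      ∀ F : Finset H, (∀ g ∈ F, g ∈ Es H x a) → F.card ≤ n' := by
    intro x a hxa
    obtain ⟨k, hk, h2⟩ := hTa _ _ (show T'.Adj (x : V) (a : V) from hxa)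
    have h3 : Infinite ↥(Es G (k • (x : V)) (k • (a : V)) ⊓ H) ∨
      ∀ F : Finset G, (∀ g ∈ F, g ∈ Es G (k • (x : V)) (k • (a : V)) ∧ g ∈ H) → F.card ≤ n' := by
      rcases h2 with h2 | h2
      · exact hn' _ h2
      · have h3 := hn' _ h2
        rw [Es_comm]
        exact h3
    rcases h3 with h3 | h3
    · left
      refine Infinite.of_injective (fun g : ↥(Es G (k • (x : V)) (k • (a : V)) ⊓ H) =>
        (⟨⟨k⁻¹ * (g : G) * k, H.mul_mem (H.mul_mem (H.inv_mem hk) g.2.2) hk⟩, ?_⟩ : Es H x a)) ?_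
      · rw [hEs]
        constructor
        · show (k⁻¹ * (g : G) * k) • (x : V) = x
          rw [mul_smul, mul_smul, g.2.1.1, inv_smul_smul]
        · show (k⁻¹ * (g : G) * k) • (a : V) = a
          rw [mul_smul, mul_smul, g.2.1.2, inv_smul_smul]
      · intro g g' hgg
        have h4 : k⁻¹ * (g : G) * k = k⁻¹ * (g' : G) * k :=
          congrArg (fun z : Es H x a => ((z : H) : G)) hgg
        exact Subtype.ext (mul_left_cancel (mul_right_cancel h4))
    · right
      intro F hF
      have h6 : (F.map ⟨fun g : H => k * (g : G) * k⁻¹, fun a b hab => by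
          apply Subtype.ext
          exact mul_left_cancel (mul_right_cancel hab)⟩).card = F.card := Finset.card_map _
      rw [← h6]
      refine h3 _ fun g hg => ?_
      obtain ⟨g0, hg0, rfl⟩ := Finset.mem_map.1 hg
      have h9 := (hEs x a g0).1 (hF g0 hg0)
      refine ⟨⟨?_, ?_⟩, H.mul_mem (H.mul_mem hk g0.2) (H.inv_mem hk)⟩
      · show (k * (g0 : G) * k⁻¹) • k • (x : V) = k • (x : V)
        rw [mul_smul, mul_smul, inv_smul_smul, h9.1]
      · show (k * (g0 : G) * k⁻¹) • k • (a : V) = k • (a : V)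
        rw [mul_smul, mul_smul, inv_smul_smul, h9.2]
  have hgen : ∀ p q : Dt c.toSimpleGraph, Relation.EqvGen (lk c.toSimpleGraph (rf H)) p q →
      cy (rf G) (hadj _ _ p.2) = cy (rf G) (hadj _ _ q.2) := by
    intro p q hpq
    induction hpq with
    | rel p q h =>
      obtain ⟨⟨x, a⟩, hxa⟩ := p
      obtain ⟨⟨x', b⟩, hxb⟩ := q
      rcases h with h | ⟨h1, h2⟩
      · have h3 : x' = a := congrArg Prod.fst h
        have h4 : b = x := congrArg Prod.snd h
        subst h3
        subst h4
        exact (cy_symm _).symm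
      · change x = x' at h1
        subst h1
        change rf H x a b at h2
        change c.toSimpleGraph.Adj x a at hxa
        change c.toSimpleGraph.Adj x b at hxb
        rcases h2 with h2 | ⟨h2, h3, h4⟩
        · subst h2
          rfl
        · refine cy_rel _ _ ?_
          by_cases hab : a = b
          · subst hab
            exact Or.inl rfl
          · rcases hbd x a b hxa hxb hab with h5 | h5
            · exact Or.inr h5
            · exfalso
              have h6 : Infinite ↥(Es H x a ⊓ Es H x b) := inf_comm_inf h2 h4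
              obtain ⟨F, hF, hFn⟩ := hbig _ n h6
              have h7 := h5 F fun g hg => hF g hg
              omega
    | refl p => rfl
    | symm p q _ ih => exact ih.symm
    | trans p q s _ _ ih1 ih2 => exact ih1.trans ih2
  refine main_cyl (G := H) (V := c.supp) (T := c.toSimpleGraph) hC hA
    ((hT.isAcyclic.anti hle).isTree_connectedComponent c) hactH ?_ (max n n') ?_ ?_
  · intro x
    refine hC.base.of_injective _ _ ((H.subtype.comp (Subgroup.subtype
      (MulAction.stabilizer H x))).codRestrict (MulAction.stabilizer G (x : V)) ?_) ?_ (hV x)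
    · rintro ⟨z, hz⟩
      exact congrArg Subtype.val hz
    · intro a b hab
      have h1 := congrArg Subtype.val hab
      exact Subtype.ext (Subtype.ext h1)
  · intro x a b hxa hxb hab
    have hcomap : ∀ x y : c.supp, Es H x y = (Es G (x : V) (y : V)).comap H.subtype := by
      intro x y
      ext g
      rw [hEs]
      rfl
    rcases hbd x a b hxa hxb hab with ⟨_, _, h1⟩ | h1
    · rcases hfinb x a hxa with h2 | h2
      · left
        have h3 : Commensurable (Es H x a) (Es H x b) := by
          rw [hcomap, hcomap]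
          exact ⟨relIndex_comap_ne_zero H.subtype h1.1, relIndex_comap_ne_zero H.subtype h1.2⟩
        refine ⟨h2, ?_, h3⟩
        have h4 := inf_comm_inf h2 h3
        exact Infinite.of_injective (inclusion (inf_le_right : Es H x a ⊓ Es H x b ≤ Es H x b))
          (inclusion_injective _)
      · exact Or.inr fun F hF => (h2 F fun g hg => (hF g hg).1).trans (le_max_right _ _)
    · exact Or.inr fun F hF => (h1 F hF).trans (le_max_left _ _)
  · intro x0 y0 h0 hinf K hK
    refine C_equiv hC.base (K.equivMapOfInjective H.subtype H.subtype_injective)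
      (hY x0 y0 (hadj _ _ h0) (hInf _ _ hinf) _ ?_)
    rintro _ ⟨g, hg, rfl⟩
    refine Pres_of hact (rf_LR (T := T)) _ ?_
    have h1 := hK g hg x0 y0 h0 rfl
    exact hgen (dt (hactH g x0 y0 h0)) (dt h0) (Quotient.exact h1)

end Pool.Agent.J6H95.FJ
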