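import Mathlib

/-!
# Linear algebra: matrices which commute with powers, and determinants on eigenspaces
-/

set_option autoImplicit false

namespace Pool.Agent.J6H95.FJ

open Matrix

section comm

variable {n : Type} [Fintype n] [DecidableEq n] {k : Type} [Field k]

/-- in characteristic zero a matrix which commutes with a power of an invertible matrix with only one
eigenvalue commutes with the matrix -/
theorem comm_of_pow [CharZero k] {x b : Matrix n n k} {c : k} (hx : IsUnit x)
    (hc : IsNilpotent (x - c • (1 : Matrix n n k))) {m : ℕ} (hm : m ≠ 0)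
    (hb : b * x ^ m = x ^ m * b) : b * x = x * b := by
  obtain ⟨D, hD⟩ : ∃ D : Matrix n n k → Matrix n n k, D = fun b => x * b - b * x := ⟨_, rfl⟩
  have hDb : ∀ b, D b = x * b - b * x := fun b => by rw [hD]
  -- `D` is nilpotent
  have hnil : ∃ N : ℕ, ∀ b, D^[N] b = 0 := by
    obtain ⟨a, ha⟩ : ∃ a : Matrix n n k, a = x - c • (1 : Matrix n n k) := ⟨_, rfl⟩
    rw [← ha] at hc
    have hl : IsNilpotent (LinearMap.mulLeft k a) := by rwa [LinearMap.isNilpotent_mulLeft_iff]
    have hr : IsNilpotent (LinearMap.mulRight k a) := by rwa [LinearMap.isNilpotent_mulRight_iff]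
    obtain ⟨N, hN⟩ := (LinearMap.commute_mulLeft_right a a).isNilpotent_sub hl hr
    refine ⟨N, fun b => ?_⟩
    have h2 : ∀ b, (LinearMap.mulLeft k a - LinearMap.mulRight k a) b = D b := by
      intro b
      rw [hDb, LinearMap.sub_apply, LinearMap.mulLeft_apply, LinearMap.mulRight_apply, ha]
      simp [sub_mul, mul_sub]
    have h3 : ∀ (i : ℕ) b, ((LinearMap.mulLeft k a - LinearMap.mulRight k a) ^ i) b = D^[i] b := by
      intro i
      induction i with
      | zero => intro b; rfl
      | succ i ih =>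
        intro b
        rw [pow_succ, Module.End.mul_apply, h2, ih, Function.iterate_succ_apply]
    rw [← h3, hN]
    rfl
  have hDc : ∀ b, b * x ^ m = x ^ m * b → D b * x ^ m = x ^ m * D b := by
    intro b hb
    rw [hDb, sub_mul, mul_sub, mul_assoc, hb, mul_assoc b x, (Commute.refl x).pow_right m |>.eq,
      ← mul_assoc b, hb, ← mul_assoc, ← mul_assoc, ((Commute.refl x).pow_right m).eq, mul_assoc,
      mul_assoc]
  have key : ∀ b, b * x ^ m = x ^ m * b → D (D b) = 0 → D b = 0 := by
    intro b hb h2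
    obtain ⟨d, hd⟩ : ∃ d, d = D b := ⟨_, rfl⟩
    rw [← hd] at h2 ⊢
    have hxd : x * d = d * x := by
      rw [hDb, sub_eq_zero] at h2
      exact h2
    have hxb : x * b = b * x + d := by
      rw [hd, hDb]
      abel
    have h3 : ∀ i : ℕ, x ^ (i + 1) * b = b * x ^ (i + 1) + ((i : k) + 1) • (x ^ i * d) := by
      intro i
      induction i with
      | zero => simp [hxb]
      | succ i ih =>
        have h4 : d * x ^ (i + 1) = x ^ (i + 1) * d :=
          ((Commute.pow_right (show Commute d x from hxd.symm) (i + 1))).eq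
        calc x ^ (i + 1 + 1) * b = x * (x ^ (i + 1) * b) := by rw [pow_succ' x (i + 1), mul_assoc]
          _ = x * b * x ^ (i + 1) + ((i : k) + 1) • (x * x ^ i * d) := by
              rw [ih, mul_add, mul_smul_comm, mul_assoc, mul_assoc]
          _ = b * (x * x ^ (i + 1)) + (d * x ^ (i + 1) + ((i : k) + 1) • (x * x ^ i * d)) := by
              rw [hxb, add_mul, mul_assoc, add_assoc]
          _ = _ := by
              rw [h4, ← pow_succ' x (i + 1), ← pow_succ' x i]
              push_cast
              rw [add_smul ((i : k) + 1) 1, one_smul, add_comm (x ^ (i + 1) * d)]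
    obtain ⟨i, rfl⟩ : ∃ i, m = i + 1 := ⟨m - 1, by omega⟩
    have h4 := h3 i
    rw [← hb] at h4
    have h5 : ((i : k) + 1) • (x ^ i * d) = 0 := by
      have h6 : b * x ^ (i + 1) + 0 = b * x ^ (i + 1) + ((i : k) + 1) • (x ^ i * d) := by
        rw [add_zero]
        exact h4
      exact (add_left_cancel h6).symm
    have h6 : ((i : k) + 1) ≠ 0 := by exact_mod_cast Nat.succ_ne_zero i
    have h7 : x ^ i * d = 0 := (smul_eq_zero.1 h5).resolve_left h6
    exact (hx.pow i).mul_right_eq_zero.1 h7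
  have hall : ∀ (N : ℕ) b, b * x ^ m = x ^ m * b → D^[N] b = 0 → D b = 0 := by
    intro N
    induction N with
    | zero =>
      intro b _ h0
      have h1 : b = 0 := h0
      rw [h1, hDb]
      simp
    | succ N ih =>
      intro b hb h1
      rw [Function.iterate_succ_apply] at h1
      exact key b hb (ih (D b) (hDc b hb) h1)
  obtain ⟨N, hN⟩ := hnil
  have h1 := hall N b hb (hN b)
  rw [hDb, sub_eq_zero] at h1
  exact h1.symm

end comm

section det

variable {n : Type} [Fintype n] [DecidableEq n]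

/-- a matrix over an algebraically closed field whose eigenvalues are roots of unity -/
theorem nil_of_roots {K : Type} [Field K] [IsAlgClosed K] (y : Matrix n n K)
    (h : ∀ l : K, l ∈ y.charpoly.roots → ∃ M : ℕ, 0 < M ∧ l ^ M = 1) :
    ∃ M : ℕ, 0 < M ∧ IsNilpotent (y ^ M - 1) := by
  classical
  choose! f hf hf1 using h
  obtain ⟨M, hM⟩ : ∃ M, M = ∏ l ∈ y.charpoly.roots.toFinset, f l := ⟨_, rfl⟩
  have h1 : ∀ l ∈ y.charpoly.roots, l ^ M = 1 := by
    intro l hl
    obtain ⟨q, hq⟩ : f l ∣ M := by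
      rw [hM]
      exact Finset.dvd_prod_of_mem _ (Multiset.mem_toFinset.2 hl)
    rw [hq, pow_mul, hf1 l hl, one_pow]
  refine ⟨M, ?_, Multiset.card y.charpoly.roots, ?_⟩
  · rw [hM]
    exact Finset.prod_pos fun l hl => hf l (Multiset.mem_toFinset.1 hl)
  · have h2 : y.charpoly ∣ (Polynomial.X ^ M - 1) ^ (Multiset.card y.charpoly.roots) := by
      have h3 : y.charpoly = (y.charpoly.roots.map fun a => Polynomial.X - Polynomial.C a).prod := by
        have h4 := (IsAlgClosed.splits y.charpoly).eq_prod_roots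
        rw [(Matrix.charpoly_monic y).leadingCoeff, Polynomial.C_1, one_mul] at h4
        exact h4
      have h5 : ((Polynomial.X ^ M - 1 : Polynomial K)) ^ (Multiset.card y.charpoly.roots) =
          (y.charpoly.roots.map fun _ => (Polynomial.X ^ M - 1 : Polynomial K)).prod := by
        rw [Multiset.map_const', Multiset.prod_replicate]
      rw [h5]
      conv_lhs => rw [h3]
      refine Multiset.prod_dvd_prod_of_dvd _ _ ?_
      intro a ha
      rw [Polynomial.dvd_iff_isRoot]
      simp [h1 a ha]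
    obtain ⟨q, hq⟩ := h2
    have h3 := congrArg (Polynomial.aeval y) hq
    rw [map_mul, Matrix.aeval_self_charpoly, zero_mul] at h3
    simpa using h3

/-- eigenvectors -/
theorem exists_eigen {K : Type} [Field K] (y : Matrix n n K) {l : K} (hl : l ∈ y.charpoly.roots) :
    ∃ w : n → K, w ≠ 0 ∧ y.mulVec w = l • w := by
  have h1 : y.charpoly.eval l = 0 := (Polynomial.mem_roots'.1 hl).2
  rw [Matrix.eval_charpoly] at h1
  obtain ⟨w, hw, h2⟩ := Matrix.exists_mulVec_eq_zero_iff.2 h1
  refine ⟨w, hw, ?_⟩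
  rw [Matrix.sub_mulVec, sub_eq_zero] at h2
  rw [← h2]
  ext i
  simp [Matrix.mulVec_diagonal]

/-- determinants on an invariant subspace -/
noncomputable def restrDet {K A : Type} [Field K] [Group A] (ρ : A →* Matrix n n K)
    (W : Submodule K (n → K)) (hW : ∀ a, ∀ w ∈ W, Matrix.toLin' (ρ a) w ∈ W) : A →* K where
  toFun a := LinearMap.det ((Matrix.toLin' (ρ a)).restrict (hW a))
  map_one' := by
    have h1 : (Matrix.toLin' (ρ 1)).restrict (hW 1) = LinearMap.id := by
      ext w i
      simp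
    rw [h1, LinearMap.det_id]
  map_mul' := by
    intro s t
    rw [← LinearMap.det_comp]
    congr 1
    ext w i
    simp

theorem restrDet_apply {K A : Type} [Field K] [Group A] (ρ : A →* Matrix n n K)
    (W : Submodule K (n → K)) (hW : ∀ a, ∀ w ∈ W, Matrix.toLin' (ρ a) w ∈ W) (a : A) :
    restrDet ρ W hW a = LinearMap.det ((Matrix.toLin' (ρ a)).restrict (hW a)) := rfl

/-- homomorphisms to commutative monoids are trivial on commutators -/
theorem hom_comm {G K : Type} [Group G] [Field K] (S : Subgroup G) (ψ : S →* K) {x : G}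
    (hx : x ∈ ⁅S, S⁆) (hxS : x ∈ S) : ψ ⟨x, hxS⟩ = 1 := by
  have h1 : Subgroup.map S.subtype ⁅(⊤ : Subgroup S), (⊤ : Subgroup S)⁆ = ⁅S, S⁆ := by
    rw [Subgroup.map_commutator, ← MonoidHom.range_eq_map, Subgroup.range_subtype]
  rw [← h1] at hx
  obtain ⟨s, hs, hsx⟩ := hx
  have h2 : s = ⟨x, hxS⟩ := Subtype.ext hsx
  rw [← h2]
  have h3 : s ∈ ψ.toHomUnits.ker := Abelianization.commutator_subset_ker ψ.toHomUnits hs
  exact congrArg Units.val h3

/-- if a power of `x` is a product of commutators of matrices which commute with a power of `x`, then a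
power of `x` is unipotent -/
theorem det_lemma {k : Type} [Field k] (x : GL n k) (S : Subgroup (GL n k)) {N j : ℕ} (hN : 0 < N)
    (hj : 0 < j) (hS : ∀ s ∈ S, s * x ^ N = x ^ N * s) (hx : x ^ j ∈ ⁅S, S⁆) :
    ∃ M : ℕ, 0 < M ∧ IsNilpotent ((x : Matrix n n k) ^ M - 1) := by
  obtain ⟨φ, hφ⟩ : ∃ φ : Matrix n n k →+* Matrix n n (AlgebraicClosure k),
      φ = (algebraMap k (AlgebraicClosure k)).mapMatrix := ⟨_, rfl⟩
  have hφi : Function.Injective φ := by
    rw [hφ]
    intro a b hab
    exact Matrix.map_injective (algebraMap k (AlgebraicClosure k)).injective hab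
  obtain ⟨y, hy⟩ : ∃ y, y = φ ((x : Matrix n n k) ^ N) := ⟨_, rfl⟩
  have hroots : ∀ l : AlgebraicClosure k, l ∈ y.charpoly.roots → ∃ M : ℕ, 0 < M ∧ l ^ M = 1 := by
    intro l hl
    obtain ⟨w0, hw0, hw1⟩ := exists_eigen y hl
    obtain ⟨W, hW⟩ : ∃ W : Submodule (AlgebraicClosure k) (n → AlgebraicClosure k),
        W = LinearMap.ker (Matrix.toLin' (y - l • 1)) := ⟨_, rfl⟩
    have hWm : ∀ w, w ∈ W ↔ y.mulVec w = l • w := by
      intro w
      rw [hW, LinearMap.mem_ker, Matrix.toLin'_apply, Matrix.sub_mulVec, sub_eq_zero,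
        Matrix.smul_mulVec, Matrix.one_mulVec]
    obtain ⟨ρ, hρ⟩ : ∃ ρ : S →* Matrix n n (AlgebraicClosure k),
        ∀ s : S, ρ s = φ ((s : GL n k) : Matrix n n k) :=
      ⟨(φ : Matrix n n k →* Matrix n n (AlgebraicClosure k)).comp
        ((Units.coeHom (Matrix n n k)).comp S.subtype), fun s => rfl⟩
    have hWs : ∀ s : S, ∀ w ∈ W, Matrix.toLin' (ρ s) w ∈ W := by
      intro s w hw
      rw [hWm] at hw ⊢
      have h1 := congrArg (fun z : GL n k => φ (z : Matrix n n k)) (hS s s.2)
      simp only [Units.val_mul, Units.val_pow_eq_pow_val, map_mul] at h1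
      rw [← hy] at h1
      rw [Matrix.toLin'_apply, Matrix.mulVec_mulVec, hρ, ← h1, ← Matrix.mulVec_mulVec, hw,
        Matrix.mulVec_smul]
    have hxS : x ^ j ∈ S := Subgroup.commutator_le_self S hx
    obtain ⟨s0, hs0⟩ : ∃ s0 : S, s0 = ⟨x ^ j, hxS⟩ := ⟨_, rfl⟩
    obtain ⟨s1, hs1⟩ : ∃ s1 : S, s1 = s0 ^ N := ⟨_, rfl⟩
    have h1 : restrDet ρ W hWs s0 = 1 := by
      rw [hs0]
      exact hom_comm S (restrDet ρ W hWs) hx hxS
    have h2 : restrDet ρ W hWs s1 = 1 := by
      rw [hs1, map_pow, h1, one_pow]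
    have h4 : ρ s1 = y ^ j := by
      rw [hρ, hy, ← map_pow, hs1, hs0]
      congr 1
      show (((x ^ j) ^ N : GL n k) : Matrix n n k) = ((x : Matrix n n k) ^ N) ^ j
      rw [← pow_mul, Units.val_pow_eq_pow_val, ← pow_mul, mul_comm j N]
    have h5 : ∀ (i : ℕ) (w : n → AlgebraicClosure k), w ∈ W → (y ^ i).mulVec w = l ^ i • w := by
      intro i
      induction i with
      | zero => intro w _; simp
      | succ i ih =>
        intro w hw
        rw [pow_succ, ← Matrix.mulVec_mulVec, (hWm w).1 hw, Matrix.mulVec_smul, ih w hw, smul_smul,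
          pow_succ, mul_comm]
    have h3 : (Matrix.toLin' (ρ s1)).restrict (hWs s1) = (l ^ j) • LinearMap.id := by
      apply LinearMap.ext
      intro w
      apply Subtype.ext
      show Matrix.toLin' (ρ s1) (w : n → AlgebraicClosure k) = l ^ j • (w : n → AlgebraicClosure k)
      rw [h4, Matrix.toLin'_apply, h5 j w w.2]
    rw [restrDet_apply, h3, LinearMap.det_smul, LinearMap.det_id, mul_one, ← pow_mul] at h2
    refine ⟨j * Module.finrank (AlgebraicClosure k) W, Nat.mul_pos hj ?_, h2⟩
    have : Nontrivial W := ⟨⟨⟨w0, (hWm w0).2 hw1⟩, 0, fun h => hw0 (congrArg Subtype.val h)⟩⟩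
    exact Module.finrank_pos
  obtain ⟨M, hM, hnil⟩ := nil_of_roots y hroots
  refine ⟨N * M, Nat.mul_pos hN hM, ?_⟩
  have h1 : y ^ M - 1 = φ ((x : Matrix n n k) ^ (N * M) - 1) := by
    rw [hy, ← map_pow, ← pow_mul, map_sub, map_one]
  rw [h1] at hnil
  exact (IsNilpotent.map_iff hφi).1 hnil

end det

end Pool.Agent.J6H95.FJ
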