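import Pool.Agent.J6H95.FJ.LinG

/-!
# Linear vertex groups: the conditions at the edges
-/

set_option autoImplicit false

namespace Pool.Agent.J6H95.FJ

open SimpleGraph
open scoped commutatorElement
open Matrix (GeneralLinearGroup)
open Subgroup
open Subgroup.Commensurable (commensurator)
open Pool.Agent.Y110.FJ
open Pool.Agent.N509.TK
open Pool.Agent.N509.TX (AcylF C_edge)
open Pool.Agent.R941.FJ (C_equiv C_le C_cyc mem_sup_normal)
open Pool.Agent.N431.CE (Es Es_comm Es_smul mem_Es rf rf_LR Rf Rf_gen Kv le_comm Cn mem_Cn comm_Cn)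

variable {C : ∀ (G : Type) [Group G], Prop}
variable {G V : Type} [Group G] [MulAction G V] {T : SimpleGraph V}
variable {k : Type} [Field k] {d : ℕ}

/-- **edge groups without unipotent elements** -/
theorem ER_big (hC : ClosedE C) (hM : ∀ (G : Type) [Group G], derivedSeries G 2 = ⊥ → C G)
    {v u : V} {e : G} (he : Es G v u = zpowers e) (hinf : ∀ i : ℤ, e ^ i = 1 → i = 0)
    (ρ : MulAction.stabilizer G v →* GL (Fin d) k) (hev : e ∈ MulAction.stabilizer G v)
    (hx : ∀ M : ℕ, 0 < M →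
      ¬ IsNilpotent ((ρ ⟨e, hev⟩ : Matrix (Fin d) (Fin d) k) ^ M - 1)) : ER C G T v u := by
  obtain ⟨f, hf⟩ := exists_mod hinf
  have hle : commensurator (Es G v u) ≤ commensurator (zpowers e) := by rw [he]
  obtain ⟨L, hL⟩ : ∃ L : Subgroup G, L = Lk (1 : Sc G v u →* Multiplicative ℤ)
    (f.comp (inclusion hle)) := ⟨_, rfl⟩
  refine ⟨Multiplicative ℤ, inferInstance, 1, ℚˣ, inferInstance, f.comp (inclusion hle),
    hC.base.int, C_comm hM _, fun _ _ _ _ _ _ _ => rfl, ?_⟩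
  rw [← hL, eq_bot_iff]
  rintro x ⟨hxE, hxL⟩
  rw [he] at hxE
  obtain ⟨j, rfl⟩ := hxE
  have hxL : e ^ j ∈ ⁅L, L⁆ := hxL
  rw [mem_bot]
  by_contra hne
  have hj : j ≠ 0 := by
    rintro rfl
    exact hne (zpow_zero e)
  obtain ⟨N, hN, h1⟩ := comm_Cn (S := L) (a := e) (v := v) (fun s hs => by
    rw [hL, mem_Lk] at hs
    obtain ⟨⟨h1, _⟩, h2, h3⟩ := hs
    obtain ⟨a, ha, h4⟩ := hf _ h3
    have h4 : s * e ^ a * s⁻¹ = e ^ a := h4
    have h5 : s * e ^ a = e ^ a * s := mul_inv_eq_iff_eq_mul.1 h4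
    refine ⟨a.natAbs, Int.natAbs_ne_zero.2 ha, mem_Cn.2 ⟨h1.1, ?_⟩⟩
    have h6 : Commute s (e ^ a) := h5
    rcases Int.natAbs_eq a with h7 | h7
    · rw [h7, zpow_natCast] at h6
      exact h6
    · rw [h7, zpow_neg, zpow_natCast] at h6
      exact (Commute.inv_right_iff.1 h6)) hxL
  -- the linear group
  obtain ⟨St, hSt⟩ : ∃ St : Subgroup G, St = MulAction.stabilizer G v := ⟨_, rfl⟩
  have hD : Cn (e ^ N) v ≤ MulAction.stabilizer G v := inf_le_left
  obtain ⟨D, hDd⟩ : ∃ D : Subgroup (MulAction.stabilizer G v),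
    D = (Cn (e ^ N) v).subgroupOf (MulAction.stabilizer G v) := ⟨_, rfl⟩
  have hDm : D.map (MulAction.stabilizer G v).subtype = Cn (e ^ N) v := by
    rw [hDd]
    exact map_subgroupOf_eq_of_le hD
  obtain ⟨x, hxd⟩ : ∃ x : MulAction.stabilizer G v, x = ⟨e, hev⟩ := ⟨_, rfl⟩
  have h2 : x ^ j ∈ ⁅D, D⁆ := by
    rw [← hDm, ← Subgroup.map_commutator] at h1
    obtain ⟨s, hs, hsx⟩ := h1
    have h3 : s = x ^ j := by
      rw [hxd]
      exact Subtype.ext hsx
    rw [← h3]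
    exact hs
  have h3 : x ^ j.natAbs ∈ ⁅D, D⁆ := by
    rcases Int.natAbs_eq j with h7 | h7
    · rw [h7, zpow_natCast] at h2
      exact h2
    · rw [h7, zpow_neg, zpow_natCast] at h2
      exact inv_mem_iff.1 h2
  have h4 : (ρ x) ^ j.natAbs ∈ ⁅D.map ρ, D.map ρ⁆ := by
    rw [← Subgroup.map_commutator, ← map_pow]
    exact ⟨_, h3, rfl⟩
  obtain ⟨M, hM0, h5⟩ := det_lemma (ρ x) (D.map ρ) (N := N) (j := j.natAbs)
    (Nat.pos_of_ne_zero hN) (Int.natAbs_pos.2 hj) (by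
      rintro _ ⟨s, hs, rfl⟩
      rw [← map_pow, ← map_mul, ← map_mul]
      congr 1
      apply Subtype.ext
      rw [hxd]
      rw [hDd] at hs
      exact (mem_Cn.1 hs).2) h4
  rw [hxd] at h5
  exact hx M hM0 h5

/-- powers of unipotent matrices -/
theorem unip_zpow {U : GL (Fin d) k} (hU : IsNilpotent ((U : Matrix (Fin d) (Fin d) k) - 1)) (i : ℤ) :
    IsNilpotent (((U ^ i : GL (Fin d) k) : Matrix (Fin d) (Fin d) k) - 1) := by
  have h1 : ∀ i : ℕ, IsNilpotent (((U ^ i : GL (Fin d) k) : Matrix (Fin d) (Fin d) k) - 1) := by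
    intro i
    rw [Units.val_pow_eq_pow_val, ← mul_geom_sum]
    refine Commute.isNilpotent_mul_right ?_ hU
    refine Commute.sum_right _ _ _ fun j _ => ?_
    exact ((Commute.refl _).sub_left (Commute.one_left _)).pow_right j
  rcases Int.natAbs_eq i with h | h
  · rw [h, zpow_natCast]
    exact h1 _
  · rw [h, zpow_neg, zpow_natCast]
    obtain ⟨W, hW⟩ : ∃ W : GL (Fin d) k, W = U ^ i.natAbs := ⟨_, rfl⟩
    have h2 := h1 i.natAbs
    rw [← hW] at h2 ⊢
    have h3 : ((W⁻¹ : GL (Fin d) k) : Matrix (Fin d) (Fin d) k) * (W : Matrix (Fin d) (Fin d) k) = 1 := by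
      rw [← Units.val_mul, inv_mul_cancel, Units.val_one]
    have h3' : (W : Matrix (Fin d) (Fin d) k) * ((W⁻¹ : GL (Fin d) k) : Matrix (Fin d) (Fin d) k) = 1 := by
      rw [← Units.val_mul, mul_inv_cancel, Units.val_one]
    have h4 : ((W⁻¹ : GL (Fin d) k) : Matrix (Fin d) (Fin d) k) - 1 =
        -(((W⁻¹ : GL (Fin d) k) : Matrix (Fin d) (Fin d) k) * ((W : Matrix (Fin d) (Fin d) k) - 1)) := by
      rw [mul_sub, h3, mul_one]
      abel
    rw [h4]
    refine IsNilpotent.neg ?_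
    refine Commute.isNilpotent_mul_left ?_ h2
    show _ * _ = _ * _
    rw [mul_sub, sub_mul, h3, h3', mul_one, one_mul]

theorem comm_of_zpow [CharZero k] {x : GL (Fin d) k} {b : Matrix (Fin d) (Fin d) k} {c : k}
    (hc : IsNilpotent ((x : Matrix (Fin d) (Fin d) k) - c • (1 : Matrix (Fin d) (Fin d) k))) {a : ℤ}
    (ha : a ≠ 0) (hb : b * ((x ^ a : GL (Fin d) k) : Matrix (Fin d) (Fin d) k) =
      ((x ^ a : GL (Fin d) k) : Matrix (Fin d) (Fin d) k) * b) :
    b * (x : Matrix (Fin d) (Fin d) k) = (x : Matrix (Fin d) (Fin d) k) * b := by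
  refine comm_of_pow (m := a.natAbs) x.isUnit hc (Int.natAbs_ne_zero.2 ha) ?_
  have h1 : Commute b ((x ^ a : GL (Fin d) k) : Matrix (Fin d) (Fin d) k) := hb
  have h2 : Commute b ((x ^ a.natAbs : GL (Fin d) k) : Matrix (Fin d) (Fin d) k) := by
    rcases Int.natAbs_eq a with h | h
    · rw [h, zpow_natCast] at h1
      exact h1
    · rw [h, zpow_neg, zpow_natCast] at h1
      have h3 := h1.units_inv_right
      rwa [inv_inv] at h3
  have h3 := h2.eq
  rw [Units.val_pow_eq_pow_val] at h3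
  exact h3

end Pool.Agent.J6H95.FJ
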