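import Pool.Agent.J6H95.FJ.Mod
import Pool.Agent.J6H95.FJ.Lin

/-!
# Linear vertex groups
-/

set_option autoImplicit false

namespace Pool.Agent.J6H95.FJ

open SimpleGraph
open scoped commutatorElement
open Matrix (GeneralLinearGroup)
open Subgroup
open Subgroup.Commensurable (commensurator)
open Pool.Agent.Y110.FJ
open Pool.Agent.N509.TK
open Pool.Agent.N509.TX (AcylF C_edge)
open Pool.Agent.R941.FJ (C_equiv C_le C_cyc mem_sup_normal)
open Pool.Agent.N431.CE (Es Es_comm Es_smul mem_Es rf rf_LR Rf Rf_gen Kv le_comm Cn mem_Cn comm_Cn)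

variable {C : ∀ (G : Type) [Group G], Prop}

/-- commutative groups -/
theorem C_comm (hM : ∀ (G : Type) [Group G], derivedSeries G 2 = ⊥ → C G) (A : Type) [CommGroup A] :
    C A := by
  refine hM A (metab ⊤ (fun x _ y _ => mul_comm x y) fun x y => mem_top _)

section conj

variable {A k : Type} [Group A] [Field k] {d : ℕ}

/-- the elements of `A` act by conjugation on a subspace of the matrices -/
def conjHom (σ : A →* GL (Fin d) k) (B : Submodule k (Matrix (Fin d) (Fin d) k))
    (hB : ∀ a, ∀ b ∈ B, (σ a : Matrix (Fin d) (Fin d) k) * b * ((σ a)⁻¹ : GL (Fin d) k) ∈ B) :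
    A →* Module.End k B where
  toFun a :=
    { toFun := fun b => ⟨(σ a : Matrix (Fin d) (Fin d) k) * b * ((σ a)⁻¹ : GL (Fin d) k),
        hB a b b.2⟩
      map_add' := by
        intro x y
        apply Subtype.ext
        show (σ a : Matrix (Fin d) (Fin d) k) * ((x : Matrix (Fin d) (Fin d) k) + y) * _ = _
        rw [mul_add, add_mul]
        rfl
      map_smul' := by
        intro c x
        apply Subtype.ext
        show (σ a : Matrix (Fin d) (Fin d) k) * (c • (x : Matrix (Fin d) (Fin d) k)) * _ = _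
        rw [mul_smul_comm, smul_mul_assoc]
        rfl }
  map_one' := by
    apply LinearMap.ext
    intro b
    apply Subtype.ext
    show (σ 1 : Matrix (Fin d) (Fin d) k) * (b : Matrix (Fin d) (Fin d) k) * ((σ 1)⁻¹ :
      GL (Fin d) k) = b
    rw [map_one, inv_one, Units.val_one, one_mul, mul_one]
  map_mul' := by
    intro a a'
    apply LinearMap.ext
    intro b
    apply Subtype.ext
    show (σ (a * a') : Matrix (Fin d) (Fin d) k) * (b : Matrix (Fin d) (Fin d) k) *
      ((σ (a * a'))⁻¹ : GL (Fin d) k) = (σ a : Matrix (Fin d) (Fin d) k) *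
      ((σ a' : Matrix (Fin d) (Fin d) k) * b * ((σ a')⁻¹ : GL (Fin d) k)) *
      ((σ a)⁻¹ : GL (Fin d) k)
    rw [map_mul, mul_inv_rev, Units.val_mul, Units.val_mul]
    simp only [mul_assoc]

theorem conjHom_eq_one {σ : A →* GL (Fin d) k} {B : Submodule k (Matrix (Fin d) (Fin d) k)}
    {hB : ∀ a, ∀ b ∈ B, (σ a : Matrix (Fin d) (Fin d) k) * b * ((σ a)⁻¹ : GL (Fin d) k) ∈ B}
    {a : A} : (conjHom σ B hB).toHomUnits a = 1 ↔
      ∀ b ∈ B, (σ a : Matrix (Fin d) (Fin d) k) * b = b * (σ a : Matrix (Fin d) (Fin d) k) := by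
  have h0 : (((σ a)⁻¹ : GL (Fin d) k) : Matrix (Fin d) (Fin d) k) *
      (σ a : Matrix (Fin d) (Fin d) k) = 1 := by
    rw [← Units.val_mul, inv_mul_cancel, Units.val_one]
  have h0' : (σ a : Matrix (Fin d) (Fin d) k) *
      (((σ a)⁻¹ : GL (Fin d) k) : Matrix (Fin d) (Fin d) k) = 1 := by
    rw [← Units.val_mul, mul_inv_cancel, Units.val_one]
  constructor
  · intro h b hb
    have h1 : conjHom σ B hB a = 1 := congrArg Units.val h
    have h2 : (σ a : Matrix (Fin d) (Fin d) k) * b * ((σ a)⁻¹ : GL (Fin d) k) = b :=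
      congrArg (fun f : Module.End k B => ((f ⟨b, hb⟩ : B) : Matrix (Fin d) (Fin d) k)) h1
    conv_rhs => rw [← h2]
    rw [mul_assoc _ _ (σ a : Matrix (Fin d) (Fin d) k), h0, mul_one]
  · intro h
    apply Units.ext
    apply LinearMap.ext
    intro b
    apply Subtype.ext
    show (σ a : Matrix (Fin d) (Fin d) k) * (b : Matrix (Fin d) (Fin d) k) *
      ((σ a)⁻¹ : GL (Fin d) k) = b
    rw [h b b.2, mul_assoc, h0', mul_one]

/-- the general linear groups of finite-dimensional spaces -/
theorem C_lin (hC : ClosedE C) (hk : ∀ m : ℕ, C (GL (Fin m) k)) (V : Type) [AddCommGroup V]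
    [Module k V] [Module.Finite k V] : C (Module.End k V)ˣ := by
  let b := Module.finBasis k V
  let e2 : (Module.End k V)ˣ ≃* GL (Fin (Module.finrank k V)) k :=
    Units.mapEquiv (LinearMap.toMatrixAlgEquiv b).toMulEquiv
  exact hC.base.of_injective _ _ e2.toMonoidHom e2.injective (hk _)

/-- the matrices which commute with `x` -/
def Cmat (x : Matrix (Fin d) (Fin d) k) : Submodule k (Matrix (Fin d) (Fin d) k) where
  carrier := {b | b * x = x * b}
  add_mem' := by
    intro a b ha hb
    show (a + b) * x = x * (a + b)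
    rw [add_mul, mul_add, show a * x = x * a from ha, show b * x = x * b from hb]
  zero_mem' := by
    show 0 * x = x * 0
    rw [zero_mul, mul_zero]
  smul_mem' := by
    intro c a ha
    show (c • a) * x = x * (c • a)
    rw [smul_mul_assoc, mul_smul_comm, show a * x = x * a from ha]

theorem mem_Cmat {x b : Matrix (Fin d) (Fin d) k} : b ∈ Cmat x ↔ b * x = x * b := Iff.rfl

end conj

end Pool.Agent.J6H95.FJ
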