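import Pool.Agent.J6H95.FJ.LinE

/-!
# Linear vertex groups: unipotent edge groups, and quotients by cyclic groups
-/

set_option autoImplicit false

namespace Pool.Agent.J6H95.FJ

open SimpleGraph
open scoped commutatorElement
open Matrix (GeneralLinearGroup)
open Subgroup
open Subgroup.Commensurable (commensurator)
open Pool.Agent.Y110.FJ
open Pool.Agent.N509.TK
open Pool.Agent.N509.TX (AcylF C_edge)
open Pool.Agent.R941.FJ (C_equiv C_le C_cyc mem_sup_normal)
open Pool.Agent.N431.CE (Es Es_comm Es_smul mem_Es rf rf_LR Rf Rf_gen Kv le_comm Cn mem_Cn comm_Cn)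

variable {C : ∀ (G : Type) [Group G], Prop}
variable {G V : Type} [Group G] [MulAction G V] {T : SimpleGraph V}
variable {k : Type} [Field k] {d : ℕ}

/-- if a power of `x` is unipotent, then `x` has only one eigenvalue -/
def OneEig (x : GL (Fin d) k) : Prop :=
  ∀ M : ℕ, 0 < M → IsNilpotent ((x : Matrix (Fin d) (Fin d) k) ^ M - 1) →
    ∃ c : k, IsNilpotent ((x : Matrix (Fin d) (Fin d) k) - c • (1 : Matrix (Fin d) (Fin d) k))

theorem comm_gl {x y : GL (Fin d) k} :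
    x * y = y * x ↔ (x : Matrix (Fin d) (Fin d) k) * (y : Matrix (Fin d) (Fin d) k) =
      (y : Matrix (Fin d) (Fin d) k) * (x : Matrix (Fin d) (Fin d) k) := by
  rw [← Units.val_mul, ← Units.val_mul]
  exact Units.ext_iff

theorem zpow_comm_mat {x : GL (Fin d) k} {b : Matrix (Fin d) (Fin d) k}
    (h : b * (x : Matrix (Fin d) (Fin d) k) = (x : Matrix (Fin d) (Fin d) k) * b) (i : ℤ) :
    b * ((x ^ i : GL (Fin d) k) : Matrix (Fin d) (Fin d) k) =
      ((x ^ i : GL (Fin d) k) : Matrix (Fin d) (Fin d) k) * b := by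
  have h1 : Commute b (x : Matrix (Fin d) (Fin d) k) := h
  rcases Int.natAbs_eq i with h2 | h2
  · rw [h2, zpow_natCast, Units.val_pow_eq_pow_val]
    exact h1.pow_right _
  · rw [h2, zpow_neg, zpow_natCast]
    have h3 : Commute b ((x ^ i.natAbs : GL (Fin d) k) : Matrix (Fin d) (Fin d) k) := by
      rw [Units.val_pow_eq_pow_val]
      exact h1.pow_right _
    exact h3.units_inv_right

/-- conjugates of matrices commuting with `x` -/
theorem conj_comm {g x y : GL (Fin d) k} {b : Matrix (Fin d) (Fin d) k}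
    (hb : b * (x : Matrix (Fin d) (Fin d) k) = (x : Matrix (Fin d) (Fin d) k) * b)
    (hg : g * x * g⁻¹ = y) :
    ((g : Matrix (Fin d) (Fin d) k) * b * ((g⁻¹ : GL (Fin d) k) : Matrix (Fin d) (Fin d) k)) *
        (y : Matrix (Fin d) (Fin d) k) = (y : Matrix (Fin d) (Fin d) k) *
      ((g : Matrix (Fin d) (Fin d) k) * b * ((g⁻¹ : GL (Fin d) k) : Matrix (Fin d) (Fin d) k)) := by
  have h0 : ((g⁻¹ : GL (Fin d) k) : Matrix (Fin d) (Fin d) k) * (g : Matrix (Fin d) (Fin d) k) = 1 := by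
    rw [← Units.val_mul, inv_mul_cancel, Units.val_one]
  rw [← hg, Units.val_mul, Units.val_mul]
  calc (g : Matrix (Fin d) (Fin d) k) * b * ((g⁻¹ : GL (Fin d) k) : Matrix (Fin d) (Fin d) k) *
        ((g : Matrix (Fin d) (Fin d) k) * (x : Matrix (Fin d) (Fin d) k) *
          ((g⁻¹ : GL (Fin d) k) : Matrix (Fin d) (Fin d) k))
      = (g : Matrix (Fin d) (Fin d) k) * b *
          (((g⁻¹ : GL (Fin d) k) : Matrix (Fin d) (Fin d) k) * (g : Matrix (Fin d) (Fin d) k)) *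
          (x : Matrix (Fin d) (Fin d) k) * ((g⁻¹ : GL (Fin d) k) : Matrix (Fin d) (Fin d) k) := by
        simp only [mul_assoc]
    _ = (g : Matrix (Fin d) (Fin d) k) * (b * (x : Matrix (Fin d) (Fin d) k)) *
          ((g⁻¹ : GL (Fin d) k) : Matrix (Fin d) (Fin d) k) := by
        rw [h0, mul_one]
        simp only [mul_assoc]
    _ = (g : Matrix (Fin d) (Fin d) k) * ((x : Matrix (Fin d) (Fin d) k) *
          (((g⁻¹ : GL (Fin d) k) : Matrix (Fin d) (Fin d) k) * (g : Matrix (Fin d) (Fin d) k)) * b) *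
          ((g⁻¹ : GL (Fin d) k) : Matrix (Fin d) (Fin d) k) := by
        rw [h0, mul_one, hb]
    _ = _ := by simp only [mul_assoc]

/-- commensurable infinite cyclic groups -/
theorem common_pow {e e' : G} (hinf : ∀ i : ℤ, e' ^ i = 1 → i = 0)
    (h : Commensurable (zpowers e') (zpowers e)) : ∃ (m b : ℤ), m ≠ 0 ∧ b ≠ 0 ∧ e' ^ m = e ^ b := by
  obtain ⟨m, hm, -, h2⟩ := Subgroup.exists_pow_mem_of_relIndex_ne_zero h.2 (mem_zpowers e')
  obtain ⟨b, hb⟩ := h2.1
  have hb : e ^ b = e' ^ m := hb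
  refine ⟨m, b, by exact_mod_cast hm.ne', ?_, by rw [zpow_natCast]; exact hb.symm⟩
  rintro rfl
  rw [zpow_zero] at hb
  have h3 := hinf m (by rw [zpow_natCast]; exact hb.symm)
  omega

/-- **unipotent edge groups** -/
theorem ER_uni [CharZero k] (hC : ClosedE C) (hk : ∀ m : ℕ, C (GL (Fin m) k))
    {v u : V} {e : G} (he : Es G v u = zpowers e) (hinf : ∀ i : ℤ, e ^ i = 1 → i = 0)
    (ρ : MulAction.stabilizer G v →* GL (Fin d) k) (hρ : Function.Injective ρ)
    (hev : e ∈ MulAction.stabilizer G v) {M : ℕ} (hM0 : 0 < M)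
    (hx : IsNilpotent ((ρ ⟨e, hev⟩ : Matrix (Fin d) (Fin d) k) ^ M - 1))
    (hone : OneEig (ρ ⟨e, hev⟩))
    (hw : ∀ w, T.Adj v w → Infinite (Es G v w) → Commensurable (Es G v w) (Es G v u) →
      ∃ e' : G, Es G v w = zpowers e' ∧ (∀ i : ℤ, e' ^ i = 1 → i = 0) ∧
        ∀ h : e' ∈ MulAction.stabilizer G v, OneEig (ρ ⟨e', h⟩)) : ER C G T v u := by
  obtain ⟨x, hxd⟩ : ∃ x : GL (Fin d) k, x = ρ ⟨e, hev⟩ := ⟨_, rfl⟩
  rw [← hxd] at hx hone
  obtain ⟨c, hc⟩ := hone M hM0 hx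
  have hSc : ∀ g : Sc G v u, (g : G) ∈ MulAction.stabilizer G v := fun g => g.2.1
  obtain ⟨σ, hσ⟩ : ∃ σ : Sc G v u →* GL (Fin d) k, ∀ g, σ g = ρ ⟨g, hSc g⟩ :=
    ⟨ρ.comp ((Sc G v u).subtype.codRestrict _ hSc), fun g => rfl⟩
  have hB : ∀ a : Sc G v u, ∀ b ∈ Cmat (x : Matrix (Fin d) (Fin d) k),
      (σ a : Matrix (Fin d) (Fin d) k) * b * ((σ a)⁻¹ : GL (Fin d) k) ∈
        Cmat (x : Matrix (Fin d) (Fin d) k) := by
    intro a b hb
    rw [mem_Cmat] at hb ⊢
    have h1 : (a : G) ∈ commensurator (zpowers e) := by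
      rw [← he]
      exact a.2.2
    obtain ⟨i, j, hi, hj, hij⟩ := comm_pow hinf h1
    have h2 : σ a * x ^ i * (σ a)⁻¹ = x ^ j := by
      rw [hσ, hxd, ← map_zpow, ← map_zpow, ← map_inv, ← map_mul, ← map_mul]
      congr 1
      exact Subtype.ext hij
    exact comm_of_zpow hc hj (conj_comm (zpow_comm_mat hb i) h2)
  obtain ⟨π, hπ⟩ : ∃ π : Sc G v u →* (Module.End k (Cmat (x : Matrix (Fin d) (Fin d) k)))ˣ,
      ∀ a, π a = 1 ↔ ∀ b ∈ Cmat (x : Matrix (Fin d) (Fin d) k),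
        (σ a : Matrix (Fin d) (Fin d) k) * b = b * (σ a : Matrix (Fin d) (Fin d) k) :=
    ⟨(conjHom σ _ hB).toHomUnits, fun a => conjHom_eq_one⟩
  refine ⟨_, inferInstance, π, Multiplicative ℤ, inferInstance, 1,
    C_lin hC hk (Cmat (x : Matrix (Fin d) (Fin d) k)), hC.base.int, ?_, ?_⟩
  · intro w hvw hwinf hwc y hy hyw
    obtain ⟨e', he', hinf', hone'⟩ := hw w hvw hwinf hwc
    have hev' : e' ∈ MulAction.stabilizer G v := by
      have h1 : e' ∈ Es G v w := by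
        rw [he']
        exact mem_zpowers e'
      exact h1.1
    rw [he', he] at hwc
    obtain ⟨m, j, hm, hj, hmj⟩ := common_pow hinf' hwc
    obtain ⟨x', hx'd⟩ : ∃ x' : GL (Fin d) k, x' = ρ ⟨e', hev'⟩ := ⟨_, rfl⟩
    have h1 : x' ^ m = x ^ j := by
      rw [hxd, hx'd, ← map_zpow, ← map_zpow]
      congr 1
      exact Subtype.ext hmj
    obtain ⟨c', hc'⟩ : ∃ c' : k, IsNilpotent ((x' : Matrix (Fin d) (Fin d) k) -
        c' • (1 : Matrix (Fin d) (Fin d) k)) := by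
      have h2 := hone' hev'
      rw [← hx'd] at h2
      have hx1 : IsNilpotent (((x ^ M : GL (Fin d) k) : Matrix (Fin d) (Fin d) k) - 1) := by
        rw [Units.val_pow_eq_pow_val]
        exact hx
      refine h2 (m.natAbs * M) (Nat.mul_pos (Int.natAbs_pos.2 hm) hM0) ?_
      have h3 : ∃ i : ℤ, x' ^ (m.natAbs * M) = (x ^ M) ^ i := by
        rcases Int.natAbs_eq m with h4 | h4
        · refine ⟨j, ?_⟩
          rw [← zpow_natCast, ← zpow_natCast x M, ← zpow_mul, mul_comm (M : ℤ) j, zpow_mul, ← h1,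
            ← zpow_mul]
          congr 1
          push_cast
          rw [← Int.natCast_natAbs, ← h4]
        · refine ⟨-j, ?_⟩
          rw [← zpow_natCast, ← zpow_natCast x M, ← zpow_mul, mul_neg, mul_comm (M : ℤ) j, zpow_neg,
            zpow_mul, ← h1, ← zpow_mul, ← zpow_neg]
          congr 1
          push_cast
          rw [← Int.natCast_natAbs]
          have h5 : (m.natAbs : ℤ) = -m := by omega
          rw [h5]
          ring
      obtain ⟨i, hi⟩ := h3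
      rw [← Units.val_pow_eq_pow_val, hi]
      exact unip_zpow hx1 i
    rw [hπ]
    intro b hb
    rw [mem_Cmat] at hb
    rw [he'] at hyw
    obtain ⟨i, rfl⟩ := hyw
    have h2 : σ ⟨(fun x => e' ^ x) i, hy⟩ = x' ^ i := by
      rw [hσ, hx'd, ← map_zpow]
      rfl
    rw [h2]
    have h3 : b * ((x' ^ m : GL (Fin d) k) : Matrix (Fin d) (Fin d) k) =
        ((x' ^ m : GL (Fin d) k) : Matrix (Fin d) (Fin d) k) * b := by
      rw [h1]
      exact zpow_comm_mat hb j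
    exact (zpow_comm_mat (comm_of_zpow hc' hm h3) i).symm
  · have hxc : (x : Matrix (Fin d) (Fin d) k) ∈ Cmat (x : Matrix (Fin d) (Fin d) k) := by
      rw [mem_Cmat]
    have h1 : ⁅Lk π (1 : commensurator (Es G v u) →* Multiplicative ℤ),
        Lk π (1 : commensurator (Es G v u) →* Multiplicative ℤ)⁆ = ⊥ := by
      rw [eq_bot_iff, Subgroup.commutator_le]
      intro g hg h hh
      rw [mem_Lk] at hg hh
      obtain ⟨⟨hg1, hg2⟩, -⟩ := hg
      obtain ⟨⟨hh1, hh2⟩, -⟩ := hh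
      rw [hπ] at hg2 hh2
      have h2 : (σ ⟨h, hh1⟩ : Matrix (Fin d) (Fin d) k) ∈ Cmat (x : Matrix (Fin d) (Fin d) k) := by
        rw [mem_Cmat]
        exact hh2 _ hxc
      have h3 := hg2 _ h2
      rw [← comm_gl, ← map_mul, ← map_mul, hσ, hσ] at h3
      have h4 := congrArg Subtype.val (hρ h3)
      rw [mem_bot, commutatorElement_eq_one_iff_mul_comm]
      exact h4
    rw [h1, inf_bot_eq]

/-- **quotients of linear groups by cyclic groups** -/
theorem BQ_lin (hC : ClosedE C) (hM : ∀ (G : Type) [Group G], derivedSeries G 2 = ⊥ → C G)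
    (hk : ∀ m : ℕ, C (GL (Fin m) k)) {v : V} {z : G}
    (ρ : MulAction.stabilizer G v →* GL (Fin d) k) (hρ : Function.Injective ρ)
    (hz : z ∈ MulAction.stabilizer G v) : BQ C v z := by
  obtain ⟨x, hxd⟩ : ∃ x : GL (Fin d) k, x = ρ ⟨z, hz⟩ := ⟨_, rfl⟩
  have hN : ∀ g : Nz v z, (g : G) ∈ MulAction.stabilizer G v := fun g => g.2.1
  obtain ⟨σ, hσ⟩ : ∃ σ : Nz v z →* GL (Fin d) k, ∀ g, σ g = ρ ⟨g, hN g⟩ :=
    ⟨ρ.comp ((Nz v z).subtype.codRestrict _ hN), fun g => rfl⟩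
  have hB : ∀ a : Nz v z, ∀ b ∈ Cmat (x : Matrix (Fin d) (Fin d) k),
      (σ a : Matrix (Fin d) (Fin d) k) * b * ((σ a)⁻¹ : GL (Fin d) k) ∈
        Cmat (x : Matrix (Fin d) (Fin d) k) := by
    intro a b hb
    rw [mem_Cmat] at hb ⊢
    have hconj : ∀ y : MulAction.stabilizer G v, (a : G) * z * (a : G)⁻¹ = y →
        σ a * x * (σ a)⁻¹ = ρ y := by
      intro y hy
      rw [hσ, hxd, ← map_inv, ← map_mul, ← map_mul]
      congr 1
      exact Subtype.ext hy
    rcases a.2.2 with h | h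
    · have h1 := hconj ⟨z, hz⟩ h
      rw [← hxd] at h1
      exact conj_comm hb h1
    · have h1 := hconj (⟨z, hz⟩⁻¹) h
      rw [map_inv, ← hxd] at h1
      have h2 := conj_comm hb h1
      have h3 := zpow_comm_mat (x := x⁻¹) h2 (-1)
      rw [zpow_neg, zpow_one, inv_inv] at h3
      exact h3
  obtain ⟨Z, hZ⟩ : ∃ Z : Subgroup (Nz v z), Z = (zpowers z).subgroupOf (Nz v z) := ⟨_, rfl⟩
  have hZm : ∀ y : Nz v z, y ∈ Z ↔ (y : G) ∈ zpowers z := fun y => by rw [hZ]; exact mem_subgroupOf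
  have hZn : Z.Normal := by
    refine ⟨fun y hy h => ?_⟩
    rw [hZm] at hy ⊢
    obtain ⟨i, hi⟩ := hy
    obtain ⟨j, hj⟩ := Nm_zpow h.2.2 i
    exact ⟨j, by
      show z ^ j = (h : G) * (y : G) * (h : G)⁻¹
      rw [← hj, ← hi]⟩
  obtain ⟨π, hπ⟩ : ∃ π : Nz v z →* (Module.End k (Cmat (x : Matrix (Fin d) (Fin d) k)))ˣ,
      ∀ a, π a = 1 ↔ ∀ b ∈ Cmat (x : Matrix (Fin d) (Fin d) k),
        (σ a : Matrix (Fin d) (Fin d) k) * b = b * (σ a : Matrix (Fin d) (Fin d) k) :=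
    ⟨(conjHom σ _ hB).toHomUnits, fun a => conjHom_eq_one⟩
  have hzπ : ∀ y ∈ Z, π y = 1 := by
    intro y hy
    rw [hπ]
    intro b hb
    rw [hZm] at hy
    obtain ⟨i, hi⟩ := hy
    have h2 : σ y = x ^ i := by
      rw [hσ, hxd, ← map_zpow]
      congr 1
      exact Subtype.ext hi.symm
    rw [h2]
    exact (zpow_comm_mat hb i).symm
  refine ⟨Nz v z ⧸ Z, inferInstance, QuotientGroup.mk' Z, ?_, fun y => ?_⟩
  · refine ab_hom hC hM (QuotientGroup.lift Z π hzπ) ?_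
      (C_lin hC hk (Cmat (x : Matrix (Fin d) (Fin d) k)))
    intro q r hq hr
    obtain ⟨g, rfl⟩ := QuotientGroup.mk_surjective q
    obtain ⟨h, rfl⟩ := QuotientGroup.mk_surjective r
    have hg : π g = 1 := hq
    have hh : π h = 1 := hr
    rw [hπ] at hg hh
    have hxc : (x : Matrix (Fin d) (Fin d) k) ∈ Cmat (x : Matrix (Fin d) (Fin d) k) := by
      rw [mem_Cmat]
    have h2 : (σ h : Matrix (Fin d) (Fin d) k) ∈ Cmat (x : Matrix (Fin d) (Fin d) k) := by
      rw [mem_Cmat]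
      exact hh _ hxc
    have h3 := hg _ h2
    rw [← comm_gl, ← map_mul, ← map_mul, hσ, hσ] at h3
    have h4 : g * h = h * g :=
      Subtype.ext (congrArg (fun y : MulAction.stabilizer G v => (y : G)) (hρ h3))
    rw [← QuotientGroup.mk_mul, ← QuotientGroup.mk_mul, h4]
  · rw [← hZm]
    exact QuotientGroup.eq_one_iff y

end Pool.Agent.J6H95.FJ
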