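import Pool.Agent.J6H95.FJ.Cyr
import Pool.Agent.J6H95.FJ.BalT

/-!
# Local conditions at vertices with cyclic edge groups
-/

set_option autoImplicit false

namespace Pool.Agent.J6H95.FJ

open SimpleGraph
open Matrix (GeneralLinearGroup)
open scoped commutatorElement
open Subgroup
open Subgroup.Commensurable (commensurator)
open Pool.Agent.Y110.FJ
open Pool.Agent.N509.TK
open Pool.Agent.N509.TX (AcylF)
open Pool.Agent.N431.CE (Es Es_comm Es_smul mem_Es rf rf_LR Rf Rf_gen Kv le_comm Cn mem_Cn comm_Cn)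

variable {C : ∀ (G : Type) [Group G], Prop}
variable {G V : Type} [Group G] [MulAction G V] {T : SimpleGraph V}
variable {k : Type} [Field k] {d : ℕ}

/-- the condition at an edge with an infinite stabilizer, with a homomorphism of the vertex group -/
def ERL (C : ∀ (G : Type) [Group G], Prop) (G : Type) {V : Type} [Group G] [MulAction G V]
    (T : SimpleGraph V) (v u : V) : Prop :=
  ∃ (Q : Type) (_ : Group Q) (π : Sc G v u →* Q), C Q ∧
    (∀ w, T.Adj v w → Infinite (Es G v w) → Commensurable (Es G v w) (Es G v u) →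
      ∀ (x : G) (hx : x ∈ Sc G v u), x ∈ Es G v w → π ⟨x, hx⟩ = 1) ∧
    Es G v u ⊓ ⁅π.ker.map (Sc G v u).subtype, π.ker.map (Sc G v u).subtype⁆ = ⊥

/-- the modular homomorphism of the vertex group -/
theorem loc_mod (hM : ∀ (G : Type) [Group G], derivedSeries G 2 = ⊥ → C G)
    {v u : V} {e : G} (he : Es G v u = zpowers e) (hinf : InfOrd e)
    (hw : ∀ w, T.Adj v w → Infinite (Es G v w) → Commensurable (Es G v w) (Es G v u) →
      ∃ e' : G, Es G v w = zpowers e' ∧ InfOrd e')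
    (hx : ∀ N j : ℕ, N ≠ 0 → j ≠ 0 → e ^ j ∉ ⁅Cn (e ^ N) v, Cn (e ^ N) v⁆) : ERL C G T v u := by
  obtain ⟨f, hf⟩ := exists_mod' hinf
  have hf1 : ∀ g, f g = 1 → ∃ a : ℤ, a ≠ 0 ∧ (g : G) * e ^ a * (g : G)⁻¹ = e ^ a := by
    intro g hg
    obtain ⟨a, b, ha, _, hab⟩ := comm_pow hinf g.2
    have h1 := hf g a b ha hab
    rw [hg, Units.val_one, one_mul] at h1
    have h2 : a = b := by exact_mod_cast h1
    exact ⟨a, ha, by rw [hab, h2]⟩
  have hSc : ∀ g : Sc G v u, (g : G) ∈ commensurator (zpowers e) := by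
    intro g
    have h1 := g.2.2
    rwa [he] at h1
  obtain ⟨π, hπ⟩ : ∃ π : Sc G v u →* ℚˣ, ∀ g, π g = f ⟨g, hSc g⟩ :=
    ⟨f.comp ((Sc G v u).subtype.codRestrict _ hSc), fun g => rfl⟩
  obtain ⟨L, hL⟩ : ∃ L : Subgroup G, L = π.ker.map (Sc G v u).subtype := ⟨_, rfl⟩
  refine ⟨ℚˣ, inferInstance, π, C_comm hM _, ?_, ?_⟩
  · intro w hvw hwinf hwc x hxS hxw
    obtain ⟨e', he', hinf'⟩ := hw w hvw hwinf hwc
    rw [he', he] at hwc
    obtain ⟨m, b, hm, hb, hmb⟩ := common_pow hinf' hwc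
    rw [he'] at hxw
    obtain ⟨i, rfl⟩ := hxw
    rw [hπ]
    have h1 : (fun i : ℤ => e' ^ i) i * e ^ b * ((fun i : ℤ => e' ^ i) i)⁻¹ = e ^ b := by
      show e' ^ i * e ^ b * (e' ^ i)⁻¹ = e ^ b
      rw [← hmb]
      group
    have h2 := hf ⟨_, hSc ⟨_, hxS⟩⟩ b b hb h1
    have hb' : (b : ℚ) ≠ 0 := by exact_mod_cast hb
    apply Units.ext
    rw [Units.val_one]
    exact mul_right_cancel₀ hb' (h2.trans (one_mul _).symm)
  rw [← hL, eq_bot_iff]
  rintro x ⟨hxE, hxL⟩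
  rw [he] at hxE
  obtain ⟨j, rfl⟩ := hxE
  have hxL : e ^ j ∈ ⁅L, L⁆ := hxL
  rw [mem_bot]
  by_contra hne
  have hj : j ≠ 0 := by
    rintro rfl
    exact hne (zpow_zero e)
  obtain ⟨N, hN, h1⟩ := comm_Cn (S := L) (a := e) (v := v) (fun s hs => by
    rw [hL] at hs
    obtain ⟨⟨s, hsS⟩, hs1, rfl⟩ := hs
    have hs1 : π ⟨s, hsS⟩ = 1 := hs1
    rw [hπ] at hs1
    obtain ⟨a, ha, h4⟩ := hf1 _ hs1
    have h4 : s * e ^ a * s⁻¹ = e ^ a := h4
    have h5 : s * e ^ a = e ^ a * s := mul_inv_eq_iff_eq_mul.1 h4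
    refine ⟨a.natAbs, Int.natAbs_ne_zero.2 ha, mem_Cn.2 ⟨hsS.1, ?_⟩⟩
    have h6 : Commute s (e ^ a) := h5
    show s * e ^ a.natAbs = e ^ a.natAbs * s
    rcases Int.natAbs_eq a with h7 | h7
    · rw [h7, zpow_natCast] at h6
      exact h6
    · rw [h7, zpow_neg, zpow_natCast] at h6
      exact (Commute.inv_right_iff.1 h6)) hxL
  refine hx N j.natAbs hN (Int.natAbs_ne_zero.2 hj) ?_
  rcases Int.natAbs_eq j with h7 | h7
  · rw [h7, zpow_natCast] at h1
    exact h1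
  · rw [h7, zpow_neg, zpow_natCast] at h1
    exact inv_mem_iff.1 h1

/-- elements of linear groups without unipotent powers -/
theorem lin_h1 {v : V} {e : G}
    (ρ : MulAction.stabilizer G v →* GL (Fin d) k) (hev : e ∈ MulAction.stabilizer G v)
    (hx : ∀ M : ℕ, 0 < M →
      ¬ IsNilpotent ((ρ ⟨e, hev⟩ : Matrix (Fin d) (Fin d) k) ^ M - 1)) :
    ∀ N j : ℕ, N ≠ 0 → j ≠ 0 → e ^ j ∉ ⁅Cn (e ^ N) v, Cn (e ^ N) v⁆ := by
  intro N j hN hj h1
  have hD : Cn (e ^ N) v ≤ MulAction.stabilizer G v := inf_le_left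
  obtain ⟨D, hDd⟩ : ∃ D : Subgroup (MulAction.stabilizer G v),
    D = (Cn (e ^ N) v).subgroupOf (MulAction.stabilizer G v) := ⟨_, rfl⟩
  have hDm : D.map (MulAction.stabilizer G v).subtype = Cn (e ^ N) v := by
    rw [hDd]
    exact map_subgroupOf_eq_of_le hD
  obtain ⟨x, hxd⟩ : ∃ x : MulAction.stabilizer G v, x = ⟨e, hev⟩ := ⟨_, rfl⟩
  have h3 : x ^ j ∈ ⁅D, D⁆ := by
    rw [← hDm, ← Subgroup.map_commutator] at h1
    obtain ⟨s, hs, hsx⟩ := h1
    have h3 : s = x ^ j := by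
      rw [hxd]
      exact Subtype.ext hsx
    rw [← h3]
    exact hs
  have h4 : (ρ x) ^ j ∈ ⁅D.map ρ, D.map ρ⁆ := by
    rw [← Subgroup.map_commutator, ← map_pow]
    exact ⟨_, h3, rfl⟩
  obtain ⟨M, hM0, h5⟩ := det_lemma (ρ x) (D.map ρ) (N := N) (j := j)
    (Nat.pos_of_ne_zero hN) (Nat.pos_of_ne_zero hj) (by
      rintro _ ⟨s, hs, rfl⟩
      rw [← map_pow, ← map_mul, ← map_mul]
      congr 1
      apply Subtype.ext
      rw [hxd]
      rw [hDd] at hs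
      exact (mem_Cn.1 hs).2) h4
  rw [hxd] at h5
  exact hx M hM0 h5

/-- **unipotent edge groups** -/
theorem ERL_uni [CharZero k] (hC : ClosedE C) (hk : ∀ m : ℕ, C (GL (Fin m) k))
    {v u : V} {e : G} (he : Es G v u = zpowers e) (hinf : ∀ i : ℤ, e ^ i = 1 → i = 0)
    (ρ : MulAction.stabilizer G v →* GL (Fin d) k) (hρ : Function.Injective ρ)
    (hev : e ∈ MulAction.stabilizer G v) {M : ℕ} (hM0 : 0 < M)
    (hx : IsNilpotent ((ρ ⟨e, hev⟩ : Matrix (Fin d) (Fin d) k) ^ M - 1))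
    (hone : OneEig (ρ ⟨e, hev⟩))
    (hw : ∀ w, T.Adj v w → Infinite (Es G v w) → Commensurable (Es G v w) (Es G v u) →
      ∃ e' : G, Es G v w = zpowers e' ∧ (∀ i : ℤ, e' ^ i = 1 → i = 0) ∧
        ∀ h : e' ∈ MulAction.stabilizer G v, OneEig (ρ ⟨e', h⟩)) : ERL C G T v u := by
  obtain ⟨x, hxd⟩ : ∃ x : GL (Fin d) k, x = ρ ⟨e, hev⟩ := ⟨_, rfl⟩
  rw [← hxd] at hx hone
  obtain ⟨c, hc⟩ := hone M hM0 hx
  have hSc : ∀ g : Sc G v u, (g : G) ∈ MulAction.stabilizer G v := fun g => g.2.1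
  obtain ⟨σ, hσ⟩ : ∃ σ : Sc G v u →* GL (Fin d) k, ∀ g, σ g = ρ ⟨g, hSc g⟩ :=
    ⟨ρ.comp ((Sc G v u).subtype.codRestrict _ hSc), fun g => rfl⟩
  have hB : ∀ a : Sc G v u, ∀ b ∈ Cmat (x : Matrix (Fin d) (Fin d) k),
      (σ a : Matrix (Fin d) (Fin d) k) * b * ((σ a)⁻¹ : GL (Fin d) k) ∈
        Cmat (x : Matrix (Fin d) (Fin d) k) := by
    intro a b hb
    rw [mem_Cmat] at hb ⊢
    have h1 : (a : G) ∈ commensurator (zpowers e) := by
      rw [← he]
      exact a.2.2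
    obtain ⟨i, j, hi, hj, hij⟩ := comm_pow hinf h1
    have h2 : σ a * x ^ i * (σ a)⁻¹ = x ^ j := by
      rw [hσ, hxd, ← map_zpow, ← map_zpow, ← map_inv, ← map_mul, ← map_mul]
      congr 1
      exact Subtype.ext hij
    exact comm_of_zpow hc hj (conj_comm (zpow_comm_mat hb i) h2)
  obtain ⟨π, hπ⟩ : ∃ π : Sc G v u →* (Module.End k (Cmat (x : Matrix (Fin d) (Fin d) k)))ˣ,
      ∀ a, π a = 1 ↔ ∀ b ∈ Cmat (x : Matrix (Fin d) (Fin d) k),
        (σ a : Matrix (Fin d) (Fin d) k) * b = b * (σ a : Matrix (Fin d) (Fin d) k) :=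
    ⟨(conjHom σ _ hB).toHomUnits, fun a => conjHom_eq_one⟩
  refine ⟨_, inferInstance, π, C_lin hC hk (Cmat (x : Matrix (Fin d) (Fin d) k)), ?_, ?_⟩
  · intro w hvw hwinf hwc y hy hyw
    obtain ⟨e', he', hinf', hone'⟩ := hw w hvw hwinf hwc
    have hev' : e' ∈ MulAction.stabilizer G v := by
      have h1 : e' ∈ Es G v w := by
        rw [he']
        exact mem_zpowers e'
      exact h1.1
    rw [he', he] at hwc
    obtain ⟨m, j, hm, hj, hmj⟩ := common_pow hinf' hwc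
    obtain ⟨x', hx'd⟩ : ∃ x' : GL (Fin d) k, x' = ρ ⟨e', hev'⟩ := ⟨_, rfl⟩
    have h1 : x' ^ m = x ^ j := by
      rw [hxd, hx'd, ← map_zpow, ← map_zpow]
      congr 1
      exact Subtype.ext hmj
    obtain ⟨c', hc'⟩ : ∃ c' : k, IsNilpotent ((x' : Matrix (Fin d) (Fin d) k) -
        c' • (1 : Matrix (Fin d) (Fin d) k)) := by
      have h2 := hone' hev'
      rw [← hx'd] at h2
      have hx1 : IsNilpotent (((x ^ M : GL (Fin d) k) : Matrix (Fin d) (Fin d) k) - 1) := by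
        rw [Units.val_pow_eq_pow_val]
        exact hx
      refine h2 (m.natAbs * M) (Nat.mul_pos (Int.natAbs_pos.2 hm) hM0) ?_
      have h3 : ∃ i : ℤ, x' ^ (m.natAbs * M) = (x ^ M) ^ i := by
        rcases Int.natAbs_eq m with h4 | h4
        · refine ⟨j, ?_⟩
          rw [← zpow_natCast, ← zpow_natCast x M, ← zpow_mul, mul_comm (M : ℤ) j, zpow_mul, ← h1,
            ← zpow_mul]
          congr 1
          push_cast
          rw [← Int.natCast_natAbs, ← h4]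
        · refine ⟨-j, ?_⟩
          rw [← zpow_natCast, ← zpow_natCast x M, ← zpow_mul, mul_neg, mul_comm (M : ℤ) j, zpow_neg,
            zpow_mul, ← h1, ← zpow_mul, ← zpow_neg]
          congr 1
          push_cast
          rw [← Int.natCast_natAbs]
          have h5 : (m.natAbs : ℤ) = -m := by omega
          rw [h5]
          ring
      obtain ⟨i, hi⟩ := h3
      rw [← Units.val_pow_eq_pow_val, hi]
      exact unip_zpow hx1 i
    rw [hπ]
    intro b hb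
    rw [mem_Cmat] at hb
    rw [he'] at hyw
    obtain ⟨i, rfl⟩ := hyw
    have h2 : σ ⟨(fun x => e' ^ x) i, hy⟩ = x' ^ i := by
      rw [hσ, hx'd, ← map_zpow]
      rfl
    rw [h2]
    have h3 : b * ((x' ^ m : GL (Fin d) k) : Matrix (Fin d) (Fin d) k) =
        ((x' ^ m : GL (Fin d) k) : Matrix (Fin d) (Fin d) k) * b := by
      rw [h1]
      exact zpow_comm_mat hb j
    exact (zpow_comm_mat (comm_of_zpow hc' hm h3) i).symm
  · have hxc : (x : Matrix (Fin d) (Fin d) k) ∈ Cmat (x : Matrix (Fin d) (Fin d) k) := by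
      rw [mem_Cmat]
    have h1 : ⁅π.ker.map (Sc G v u).subtype, π.ker.map (Sc G v u).subtype⁆ = ⊥ := by
      rw [eq_bot_iff, Subgroup.commutator_le]
      intro g hg h hh
      obtain ⟨⟨g, hg1⟩, hg2, rfl⟩ := hg
      obtain ⟨⟨h, hh1⟩, hh2, rfl⟩ := hh
      have hg2 : π ⟨g, hg1⟩ = 1 := hg2
      have hh2 : π ⟨h, hh1⟩ = 1 := hh2
      show ⁅g, h⁆ ∈ (⊥ : Subgroup G)
      rw [hπ] at hg2 hh2
      have h2 : (σ ⟨h, hh1⟩ : Matrix (Fin d) (Fin d) k) ∈ Cmat (x : Matrix (Fin d) (Fin d) k) := by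
        rw [mem_Cmat]
        exact hh2 _ hxc
      have h3 := hg2 _ h2
      rw [← comm_gl, ← map_mul, ← map_mul, hσ, hσ] at h3
      have h4 := congrArg Subtype.val (hρ h3)
      rw [mem_bot, commutatorElement_eq_one_iff_mul_comm]
      exact h4
    rw [h1, inf_bot_eq]


theorem infOrd_of {e : G} (h : Infinite (zpowers e)) : InfOrd e := by
  intro i hi
  by_contra h0
  have h2 : IsOfFinOrder e := by
    rw [isOfFinOrder_iff_zpow_eq_one]
    exact ⟨i, h0, hi⟩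
  have h3 : Finite (zpowers e) := h2.finite_zpowers.to_subtype
  exact absurd h (not_infinite_iff_finite.2 h3)

end Pool.Agent.J6H95.FJ
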