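import Pool.Agent.J6H95.FJ.Cen

/-!
# The modular homomorphism of the commensurator of a torsion-free abelian group of finite rank
-/

set_option autoImplicit false

namespace Pool.Agent.J6H95.FJ

open Subgroup
open Subgroup.Commensurable (commensurator)
open Pool.Agent.Y110.FJ

variable {G : Type} [Group G]

/-- `E` is a torsion-free abelian group of finite rank: it embeds in a finite-dimensional rational vector
space -/
def FinRank (E : Subgroup G) : Prop :=
  ∃ (r : ℕ) (c : E →* Multiplicative (Fin r → ℚ)), Function.Injective c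

section mod

variable {r : ℕ} {E : Subgroup G} (c : E →* Multiplicative (Fin r → ℚ))

/-- the coordinates -/
def co (x : E) : Fin r → ℚ := Multiplicative.toAdd (c x)

theorem co_mul (x y : E) : co c (x * y) = co c x + co c y := by
  unfold co
  rw [map_mul, toAdd_mul]

theorem co_pow (x : E) (n : ℕ) : co c (x ^ n) = (n : ℚ) • co c x := by
  unfold co
  rw [map_pow, toAdd_pow, Nat.cast_smul_eq_nsmul]

theorem co_zpow (x : E) (n : ℤ) : co c (x ^ n) = (n : ℚ) • co c x := by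
  unfold co
  rw [map_zpow, toAdd_zpow, Int.cast_smul_eq_zsmul]

theorem co_one : co c 1 = 0 := by
  unfold co
  rw [map_one, toAdd_one]

theorem co_inj (hc : Function.Injective c) {x y : E} (h : co c x = co c y) : x = y :=
  hc (Multiplicative.toAdd.injective h)

/-- the rational span of `E` -/
def Wq : Submodule ℚ (Fin r → ℚ) where
  carrier := {w | ∃ N : ℕ, N ≠ 0 ∧ ∃ x : E, (N : ℚ) • w = co c x}
  zero_mem' := ⟨1, one_ne_zero, 1, by rw [smul_zero, co_one]⟩
  add_mem' := by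
    rintro w w' ⟨N, hN, x, hx⟩ ⟨M, hM, y, hy⟩
    refine ⟨N * M, mul_ne_zero hN hM, x ^ M * y ^ N, ?_⟩
    rw [co_mul, co_pow, co_pow, ← hx, ← hy, smul_smul, smul_smul, smul_add, Nat.cast_mul,
      mul_comm (M : ℚ)]
  smul_mem' := by
    rintro q w ⟨N, hN, x, hx⟩
    refine ⟨N * q.den, mul_ne_zero hN q.den_ne_zero, x ^ q.num, ?_⟩
    rw [co_zpow, ← hx, smul_smul, smul_smul, Nat.cast_mul]
    congr 1
    have h1 : (q.den : ℚ) * q = q.num := Rat.den_mul_eq_num q
    rw [mul_assoc, h1, mul_comm]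

theorem co_mem (x : E) : co c x ∈ Wq c := ⟨1, one_ne_zero, x, by rw [Nat.cast_one, one_smul]⟩

/-- the graph of the conjugation by `g` -/
def Gq (g : G) (w w' : Fin r → ℚ) : Prop :=
  ∃ N : ℕ, N ≠ 0 ∧ ∃ x y : E, g * x * g⁻¹ = y ∧ (N : ℚ) • w = co c x ∧ (N : ℚ) • w' = co c y

variable {c}

theorem Gq_add {g : G} {w w' z z' : Fin r → ℚ} (h : Gq c g w w') (h' : Gq c g z z') :
    Gq c g (w + z) (w' + z') := by
  obtain ⟨N, hN, x, y, hxy, hx, hy⟩ := h
  obtain ⟨M, hM, x', y', hxy', hx', hy'⟩ := h'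
  refine ⟨N * M, mul_ne_zero hN hM, x ^ M * x' ^ N, y ^ M * y' ^ N, ?_, ?_, ?_⟩
  · show g * ((x : G) ^ M * (x' : G) ^ N) * g⁻¹ = (y : G) ^ M * (y' : G) ^ N
    rw [← hxy, ← hxy', conj_pow, conj_pow]
    group
  · rw [co_mul, co_pow, co_pow, ← hx, ← hx', smul_smul, smul_smul, smul_add, Nat.cast_mul,
      mul_comm (M : ℚ)]
  · rw [co_mul, co_pow, co_pow, ← hy, ← hy', smul_smul, smul_smul, smul_add, Nat.cast_mul,
      mul_comm (M : ℚ)]

theorem Gq_smul {g : G} {w w' : Fin r → ℚ} (h : Gq c g w w') (q : ℚ) :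
    Gq c g (q • w) (q • w') := by
  obtain ⟨N, hN, x, y, hxy, hx, hy⟩ := h
  have h1 : (q.den : ℚ) * q = q.num := Rat.den_mul_eq_num q
  refine ⟨N * q.den, mul_ne_zero hN q.den_ne_zero, x ^ q.num, y ^ q.num, ?_, ?_, ?_⟩
  · show g * ((x : G) ^ q.num) * g⁻¹ = (y : G) ^ q.num
    rw [← hxy, conj_zpow]
  · rw [co_zpow, ← hx, smul_smul, smul_smul, Nat.cast_mul]
    congr 1
    rw [mul_assoc, h1, mul_comm]
  · rw [co_zpow, ← hy, smul_smul, smul_smul, Nat.cast_mul]
    congr 1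
    rw [mul_assoc, h1, mul_comm]

theorem smul_cancel {N : ℕ} (hN : N ≠ 0) {w z : Fin r → ℚ} (h : (N : ℚ) • w = (N : ℚ) • z) :
    w = z := by
  have h1 : (N : ℚ) ≠ 0 := by exact_mod_cast hN
  exact smul_right_injective _ h1 h

theorem Gq_uniq (hc : Function.Injective c) {g : G} {w w' w'' : Fin r → ℚ} (h : Gq c g w w')
    (h' : Gq c g w w'') : w' = w'' := by
  obtain ⟨N, hN, x, y, hxy, hx, hy⟩ := h
  obtain ⟨M, hM, x', y', hxy', hx', hy'⟩ := h'
  have h1 : x ^ M = x' ^ N := by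
    apply co_inj c hc
    rw [co_pow, co_pow, ← hx, ← hx', smul_smul, smul_smul, mul_comm]
  have h2 : y ^ M = y' ^ N := by
    apply Subtype.ext
    show (y : G) ^ M = (y' : G) ^ N
    have h3 : (x : G) ^ M = (x' : G) ^ N := congrArg Subtype.val h1
    rw [← hxy, ← hxy', conj_pow, conj_pow, h3]
  refine smul_cancel (mul_ne_zero hM hN) ?_
  have h3 : co c (y ^ M) = co c (y' ^ N) := by rw [h2]
  rw [co_pow, co_pow, ← hy, ← hy', smul_smul, smul_smul] at h3
  rw [Nat.cast_mul, h3, mul_comm]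

theorem Gq_comp (hc : Function.Injective c) {g h : G} {w w' w'' : Fin r → ℚ} (h1 : Gq c h w w')
    (h2 : Gq c g w' w'') : Gq c (g * h) w w'' := by
  obtain ⟨N, hN, x, y, hxy, hx, hy⟩ := h1
  obtain ⟨M, hM, x', y', hxy', hx', hy'⟩ := h2
  have h3 : y ^ M = x' ^ N := by
    apply co_inj c hc
    rw [co_pow, co_pow, ← hy, ← hx', smul_smul, smul_smul, mul_comm]
  refine ⟨N * M, mul_ne_zero hN hM, x ^ M, y' ^ N, ?_, ?_, ?_⟩
  · show g * h * ((x : G) ^ M) * (g * h)⁻¹ = (y' : G) ^ N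
    have h4 : (y : G) ^ M = (x' : G) ^ N := congrArg Subtype.val h3
    rw [← hxy', conj_pow, ← h4, ← hxy, conj_pow]
    group
  · rw [co_pow, ← hx, smul_smul, Nat.cast_mul, mul_comm (N : ℚ)]
  · rw [co_pow, ← hy', smul_smul, Nat.cast_mul]

theorem Gq_total {g : G} (hg : g ∈ commensurator E) {w : Fin r → ℚ} (hw : w ∈ Wq c) :
    ∃ w' ∈ Wq c, Gq c g w w' := by
  obtain ⟨N, hN, x, hx⟩ := hw
  rw [Pool.Agent.N431.CE.mem_comm_iff] at hg
  obtain ⟨m, hm, -, h2⟩ := Subgroup.exists_pow_mem_of_relIndex_ne_zero hg.2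
    (show g * x * g⁻¹ ∈ E.map (MulAut.conj g).toMonoidHom from ⟨x, x.2, rfl⟩)
  have h3 : g * (x : G) ^ m * g⁻¹ ∈ E := by
    rw [← conj_pow]
    exact h2.1
  have hm' : (m : ℚ) ≠ 0 := by exact_mod_cast hm.ne'
  have hN' : (N : ℚ) ≠ 0 := by exact_mod_cast hN
  refine ⟨((N * m : ℕ) : ℚ)⁻¹ • co c ⟨_, h3⟩, Submodule.smul_mem _ _ (co_mem c _), N * m,
    mul_ne_zero hN hm.ne', x ^ m, ⟨_, h3⟩, rfl, ?_, ?_⟩
  · rw [co_pow, ← hx, smul_smul, Nat.cast_mul, mul_comm (m : ℚ)]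
  · rw [smul_smul, mul_inv_cancel₀, one_smul]
    rw [Nat.cast_mul]
    exact mul_ne_zero hN' hm'

/-- the modular homomorphism -/
theorem exists_modQ (hc : Function.Injective c) :
    ∃ f : commensurator E →* Module.End ℚ (Wq c), ∀ (g : commensurator E) (w : Wq c),
      Gq c (g : G) w (f g w) := by
  have h1 : ∀ (g : commensurator E) (w : Wq c), ∃ w' : Wq c, Gq c (g : G) w w' := by
    intro g w
    obtain ⟨w', hw', h⟩ := Gq_total g.2 w.2
    exact ⟨⟨w', hw'⟩, h⟩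
  choose f hf using h1
  refine ⟨
    { toFun := fun g =>
        { toFun := f g
          map_add' := fun w z => Subtype.ext (Gq_uniq hc (hf g (w + z)) (Gq_add (hf g w) (hf g z)))
          map_smul' := fun q w => Subtype.ext (Gq_uniq hc (hf g (q • w)) (Gq_smul (hf g w) q)) }
      map_one' := ?_
      map_mul' := ?_ }, fun g w => hf g w⟩
  · apply LinearMap.ext
    intro w
    apply Subtype.ext
    refine Gq_uniq hc (hf 1 w) ?_
    obtain ⟨N, hN, x, hx⟩ := w.2
    exact ⟨N, hN, x, x, by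
      show (1 : G) * x * 1⁻¹ = x
      group, hx, hx⟩
  · intro g h
    apply LinearMap.ext
    intro w
    apply Subtype.ext
    exact Gq_uniq hc (hf (g * h) w) (Gq_comp hc (hf h w) (hf g (f h w)))

end mod

end Pool.Agent.J6H95.FJ
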