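import Pool.Agent.J6H95.FJ.Hyp

/-!
# Classes of groups which are closed under splittings over virtually cyclic groups
-/

set_option autoImplicit false

namespace Pool.Agent.J6H95.FJ

open SimpleGraph
open scoped commutatorElement
open Subgroup
open Subgroup.Commensurable (commensurator)
open Pool.Agent.Y110.FJ
open Pool.Agent.N509.TK
open Pool.Agent.N509.TX (AcylF)
open Pool.Agent.N431.CE (Es Es_comm Es_smul mem_Es Cn mem_Cn comm_Cn)
open Pool.Agent.R643 (dz dz_zh IsoAct fix_or_hyp isoAct_of_adj)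

variable {C : ∀ (G : Type) [Group G], Prop}

/-- `G` is in `C`, and for all `z` of infinite order the quotient of `{g | g z g⁻¹ = z or z⁻¹}` by `⟨z⟩` is in
`C`: there is a homomorphism to a group in `C` with kernel `⟨z⟩` -/
structure Quo (C : ∀ (G : Type) [Group G], Prop) (G : Type) [Group G] : Prop where
  mem : C G
  quot : ∀ z : G, InfOrd z → ∃ (Q : Type) (_ : Group Q) (π : Nm z →* Q), C Q ∧
    ∀ x, π x = 1 ↔ (x : G) ∈ zpowers z

/-- for all `z` of infinite order no `z ^ j`, `j > 0`, is in the commutator subgroup of the centralizer of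
`z` -/
def Det (G : Type) [Group G] : Prop :=
  ∀ z : G, InfOrd z → ∀ j : ℕ, j ≠ 0 → z ^ j ∉ ⁅centralizer {z}, centralizer {z}⁆

/-- for all `e` of infinite order `g e ^ a g⁻¹ = e ^ b` with `a ≠ 0` is only possible for `b = ± a` -/
def Bald (G : Type) [Group G] : Prop := ∀ e : G, InfOrd e → Balanced e

theorem InfOrd.map {G H : Type} [Group G] [Group H] {f : G →* H} (hf : Function.Injective f) {z : G}
    (hz : InfOrd z) : InfOrd (f z) := by
  intro i hi
  rw [← map_zpow] at hi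
  exact hz i (hf (hi.trans (map_one f).symm))

theorem InfOrd.of_map {G H : Type} [Group G] [Group H] (f : G →* H) {z : G}
    (hz : InfOrd (f z)) : InfOrd z := by
  intro i hi
  refine hz i ?_
  rw [← map_zpow, hi, map_one]

section sub

variable {G H : Type} [Group G] [Group H]

/-- subgroups -/
theorem Quo.of_injective (hC : ClosedE C) (f : H →* G) (hf : Function.Injective f) (h : Quo C G) :
    Quo C H := by
  refine ⟨hC.base.of_injective _ _ f hf h.mem, fun z hz => ?_⟩
  obtain ⟨Q, _, π, hQ, hπ⟩ := h.quot (f z) (hz.map hf)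
  have h1 : ∀ x : Nm z, f (x : H) ∈ Nm (f z) := by
    rintro ⟨x, hx⟩
    rcases hx with hx | hx
    · left
      rw [← map_inv, ← map_mul, ← map_mul, hx]
    · right
      rw [← map_inv, ← map_mul, ← map_mul, hx, map_inv]
  refine ⟨Q, _, π.comp ((f.comp (Nm z).subtype).codRestrict (Nm (f z)) h1), hQ, fun x => ?_⟩
  have h2 : π.comp ((f.comp (Nm z).subtype).codRestrict (Nm (f z)) h1) x =
    π ⟨f (x : H), h1 x⟩ := rfl
  rw [h2, hπ]
  constructor
  · rintro ⟨i, hi⟩
    refine ⟨i, hf ?_⟩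
    rw [map_zpow]
    exact hi
  · rintro ⟨i, hi⟩
    refine ⟨i, ?_⟩
    have hi : z ^ i = (x : H) := hi
    show f z ^ i = f (x : H)
    rw [← hi, map_zpow]

theorem Det.of_injective (f : H →* G) (hf : Function.Injective f) (h : Det G) : Det H := by
  intro z hz j hj hzj
  refine h (f z) (hz.map hf) j hj ?_
  have h1 : f (z ^ j) ∈ (⁅centralizer {z}, centralizer {z}⁆).map f := ⟨_, hzj, rfl⟩
  rw [Subgroup.map_commutator] at h1
  rw [← map_pow]
  have h2 : (centralizer {z}).map f ≤ centralizer {f z} := by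
    rintro _ ⟨x, hx, rfl⟩
    rw [mem_centralizer_singleton_iff]
    have hx : x * z = z * x := mem_centralizer_singleton_iff.1 hx
    rw [← map_mul, hx, map_mul]
  exact Subgroup.commutator_mono h2 h2 h1

theorem Bald.of_injective (f : H →* G) (hf : Function.Injective f) (h : Bald G) : Bald H := by
  intro e he g a b ha hab
  refine h (f e) (he.map hf) (f g) a b ha ?_
  rw [← map_zpow, ← map_inv, ← map_mul, ← map_mul, hab, map_zpow]

end sub

section tree

variable {G V : Type} [Group G] [MulAction G V] {T : SimpleGraph V}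

theorem Quo.BQ {v : V} (h : Quo C (MulAction.stabilizer G v)) {z : G}
    (hz : z ∈ MulAction.stabilizer G v) (hzi : InfOrd z) : BQ C v z := by
  have hzi' : InfOrd (⟨z, hz⟩ : MulAction.stabilizer G v) :=
    InfOrd.of_map (MulAction.stabilizer G v).subtype hzi
  obtain ⟨Q, _, π, hQ, hπ⟩ := h.quot _ hzi'
  have h1 : ∀ x : Nz v z, (⟨(x : G), x.2.1⟩ : MulAction.stabilizer G v) ∈
      Nm (⟨z, hz⟩ : MulAction.stabilizer G v) := by
    rintro ⟨x, hxv, hx⟩
    rcases hx with hx | hx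
    · left
      exact Subtype.ext hx
    · right
      exact Subtype.ext hx
  have h0 : ∀ x : Nz v z, (x : G) ∈ MulAction.stabilizer G v := fun x => x.2.1
  refine ⟨Q, _, π.comp (((Nz v z).subtype.codRestrict (MulAction.stabilizer G v) h0).codRestrict
    (Nm (⟨z, hz⟩ : MulAction.stabilizer G v)) h1), hQ, fun x => ?_⟩
  refine (hπ _).trans ?_
  constructor
  · rintro ⟨i, hi⟩
    exact ⟨i, congrArg Subtype.val hi⟩
  · rintro ⟨i, hi⟩
    exact ⟨i, Subtype.ext hi⟩

/-- **normalizers of elliptic elements** -/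
theorem quot_ell (hC : ClosedE C) (hA : AcylF C) (hT : T.IsTree)
    (hact : ∀ (g : G) (u v : V), T.Adj u v → T.Adj (g • u) (g • v))
    (hVC : ∀ v u : V, T.Adj v u → VC (Es G v u)) {z : G} (hzi : InfOrd z) {v1 : V} (hz1 : z • v1 = v1)
    (hBQ : ∀ v : V, z • v = v → BQ C v z) :
    ∃ (Q : Type) (_ : Group Q) (π : Nm z →* Q), C Q ∧ ∀ x, π x = 1 ↔ (x : G) ∈ zpowers z := by
  have hzN : z ∈ Nm z := Or.inl (by group)
  have hzp : ∀ (v : V), z • v = v → ∀ i : ℤ, z ^ i • v = v := by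
    intro v hv i
    have h1 : z ∈ MulAction.stabilizer G v := hv
    exact zpow_mem h1 i
  have hHz : ∀ h ∈ Nm z, ∀ v : V, z • v = v → z • h • v = h • v := by
    intro h hh v hv
    obtain ⟨j, hj⟩ := Nm_zpow (inv_mem hh) 1
    rw [zpow_one, inv_inv] at hj
    have h2 : z * h = h * z ^ j := by rw [← hj]; group
    rw [← mul_smul, h2, mul_smul, hzp v hv]
  obtain ⟨X, hX⟩ : ∃ X : Set V, X = {v : V | z • v = v} := ⟨_, rfl⟩
  have hXm : ∀ v, v ∈ X ↔ z • v = v := fun v => by rw [hX]; rfl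
  have hHX : ∀ (h : Nm z) (v : V), v ∈ X → (h : G) • v ∈ X := by
    intro h v hv
    rw [hXm] at hv ⊢
    exact hHz h h.2 v hv
  let _ : MulAction (Nm z) X :=
    { smul := fun h x => ⟨(h : G) • (x : V), hHX h x x.2⟩
      one_smul := fun x => Subtype.ext (one_smul G (x : V))
      mul_smul := fun h k x => Subtype.ext (mul_smul (h : G) (k : G) (x : V)) }
  have hsm : ∀ (h : Nm z) (x : X), ((h • x : X) : V) = (h : G) • (x : V) := fun _ _ => rfl
  have htree : (T.induce X).IsTree := by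
    refine ⟨?_, hT.isAcyclic.induce _⟩
    have : Nonempty X := ⟨⟨v1, (hXm v1).2 hz1⟩⟩
    refine ⟨fun v u => ?_⟩
    obtain ⟨p, hp, -⟩ := hT.existsUnique_path (v : V) (u : V)
    refine ⟨p.induce _ fun x hx => (hXm x).2 ?_⟩
    exact fix_path hT hact ((hXm _).1 u.2) p hp ((hXm _).1 v.2) x hx
  obtain ⟨Z, hZ⟩ : ∃ Z : Subgroup (Nm z), Z = (zpowers z).subgroupOf (Nm z) := ⟨_, rfl⟩
  have hZm : ∀ x : Nm z, x ∈ Z ↔ (x : G) ∈ zpowers z := fun x => by rw [hZ]; exact mem_subgroupOf
  have hZn : Z.Normal := by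
    refine ⟨fun x hx h => ?_⟩
    rw [hZm] at hx ⊢
    obtain ⟨i, hi⟩ := hx
    obtain ⟨j, hj⟩ := Nm_zpow h.2 i
    exact ⟨j, by
      show z ^ j = (h : G) * (x : G) * (h : G)⁻¹
      rw [← hj, ← hi]⟩
  refine ⟨Nm z ⧸ Z, inferInstance, QuotientGroup.mk' Z, ?_, fun x => ?_⟩
  · refine quot_act hC hA htree ?_ Z ?_ ?_ ?_
    · intro g u v huv
      exact hact g u v huv
    · intro x hx v
      rw [hZm] at hx
      obtain ⟨i, hi⟩ := hx
      apply Subtype.ext
      rw [hsm, ← hi]
      exact hzp v ((hXm _).1 v.2) i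
    · intro x
      obtain ⟨Q, _, π, hQ, hπ⟩ := hBQ (x : V) ((hXm _).1 x.2)
      have h1 : ∀ a : MulAction.stabilizer (Nm z) x, ((a : Nm z) : G) ∈ Nz (x : V) z := fun a =>
        ⟨congrArg Subtype.val a.2, a.1.2⟩
      refine ⟨Q, _, π.comp (((Nm z).subtype.comp (Subgroup.subtype
        (MulAction.stabilizer (Nm z) x))).codRestrict (Nz (x : V) z) h1), hQ, fun a => ?_⟩
      rw [hZm]
      exact hπ ⟨((a : Nm z) : G), h1 a⟩
    · intro u w huw
      have h1 : T.Adj (u : V) (w : V) := huw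
      have h4 : (zpowers z).relIndex (Es G (u : V) (w : V)) ≠ 0 :=
        (hVC _ _ h1).relIndex ⟨(hXm _).1 u.2, (hXm _).1 w.2⟩ hzi
      have h5 : Es (Nm z) u w = (Es G (u : V) (w : V)).comap (Nm z).subtype := by
        ext x
        constructor
        · rintro ⟨h6, h7⟩
          exact ⟨congrArg Subtype.val h6, congrArg Subtype.val h7⟩
        · rintro ⟨h6, h7⟩
          exact ⟨Subtype.ext h6, Subtype.ext h7⟩
      have h6 : Z = (zpowers z).comap (Nm z).subtype := hZ
      rw [h5, h6]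
      exact relIndex_comap_ne_zero (Nm z).subtype h4
  · rw [← hZm]
    exact QuotientGroup.eq_one_iff x

/-- **the class `Quo C` and actions on trees** -/
theorem tree_quo (hC : ClosedE C) (hM : ∀ (G : Type) [Group G], derivedSeries G 2 = ⊥ → C G)
    (hA : AcylF C) (hT : T.IsTree) (hact : ∀ (g : G) (u v : V), T.Adj u v → T.Adj (g • u) (g • v))
    (hinv : ∀ (g : G) (u v : V), T.Adj u v → ¬ (g • u = v ∧ g • v = u))
    (hV : ∀ v : V, Quo C (MulAction.stabilizer G v))
    (hE : ∀ v u : V, T.Adj v u → Finite (Es G v u) ∨ BalVC (G := G) v u ∨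
      ∃ e : G, Es G v u = zpowers e ∧
        ∀ N j : ℕ, N ≠ 0 → j ≠ 0 → e ^ j ∉ ⁅Cn (e ^ N) v, Cn (e ^ N) v⁆) : Quo C G := by
  have hVC : ∀ v u : V, T.Adj v u → VC (Es G v u) := by
    intro v u h
    rcases hE v u h with h1 | ⟨h1, _⟩ | ⟨e, h1, _⟩
    · exact VC_fin h1
    · exact h1
    · exact VC_cyc h1
  refine ⟨mix_loc hC hM hA hT hact fun v => Or.inr ⟨(hV v).mem, fun u huv =>
    ⟨fun z hz hzi => (hV v).BQ hz.1 hzi, hE v u huv⟩⟩, fun z hz => ?_⟩
  obtain ⟨o⟩ := hT.connected.nonempty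
  have A := isoAct_of_adj hT hact
  rcases fix_or_hyp hT A hinv z with ⟨v, hv⟩ | h
  · exact quot_ell hC hA hT hact hVC hz hv fun w hw => (hV w).BQ hw hz
  · exact quot_hyp hC A h o fun v => (hV v).mem

end tree

end Pool.Agent.J6H95.FJ
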