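import Pool.Agent.J6H95.FJ.Bal

/-!
# Quotients by subgroups which act trivially
-/

set_option autoImplicit false

namespace Pool.Agent.J6H95.FJ

open SimpleGraph
open Subgroup
open Pool.Agent.Y110.FJ
open Pool.Agent.N509.TK
open Pool.Agent.N509.TX (AcylF)
open Pool.Agent.N431.CE (Es)

variable {C : ∀ (G : Type) [Group G], Prop}

/-- **quotients by subgroups which act trivially and have finite index in the edge groups** -/
theorem quot_act (hC : ClosedE C) (hA : AcylF C) {H X : Type} [Group H] [MulAction H X]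
    {T : SimpleGraph X} (hT : T.IsTree)
    (hact : ∀ (g : H) (u v : X), T.Adj u v → T.Adj (g • u) (g • v)) (Z : Subgroup H) [Z.Normal]
    (hZ : ∀ z ∈ Z, ∀ x : X, z • x = x)
    (hV : ∀ x : X, ∃ (Q : Type) (_ : Group Q) (π : MulAction.stabilizer H x →* Q), C Q ∧
      ∀ a, π a = 1 ↔ (a : H) ∈ Z)
    (hE : ∀ u w, T.Adj u w → Z.relIndex (Es H u w) ≠ 0) : C (H ⧸ Z) := by
  let _ : MulAction (H ⧸ Z) X := MulAction.compHom X
    (QuotientGroup.lift Z (MulAction.toPermHom H X) (by
      intro z hz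
      apply Equiv.ext
      intro x
      exact hZ z hz x))
  have hmk : ∀ (h : H) (x : X), ((h : H ⧸ Z)) • x = h • x := fun _ _ => rfl
  refine fin_edges (G := H ⧸ Z) (V := X) (T := T) hC hA hT ?_ ?_ ?_
  · intro q u v huv
    obtain ⟨g, rfl⟩ := QuotientGroup.mk_surjective q
    exact hact g u v huv
  · intro x
    obtain ⟨Q, _, π, hQ, hπ⟩ := hV x
    have h1 : ∀ a : MulAction.stabilizer H x, (QuotientGroup.mk' Z (a : H)) ∈
        MulAction.stabilizer (H ⧸ Z) x := fun a => a.2
    refine C_ker hC (((QuotientGroup.mk' Z).comp (MulAction.stabilizer H x).subtype).codRestrict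
      (MulAction.stabilizer (H ⧸ Z) x) h1) ?_ π ?_ ?_ hQ
    · rintro ⟨q, hq⟩
      obtain ⟨g, rfl⟩ := QuotientGroup.mk_surjective q
      exact ⟨⟨g, hq⟩, rfl⟩
    · intro a ha
      apply Subtype.ext
      exact (QuotientGroup.eq_one_iff (a : H)).2 ((hπ a).1 ha)
    · intro a ha
      exact (hπ a).2 ((QuotientGroup.eq_one_iff (a : H)).1 (congrArg Subtype.val ha))
  · intro u w huw
    have h1 := hE u w huw
    have hfi : (Z.subgroupOf (Es H u w)).FiniteIndex := ⟨h1⟩
    have hfin : Finite ((Es H u w) ⧸ Z.subgroupOf (Es H u w)) :=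
      Subgroup.finite_quotient_of_finiteIndex
    have h2 : ∀ a : Es H u w, (QuotientGroup.mk' Z (a : H)) ∈ Es (H ⧸ Z) u w := fun a => a.2
    have hsurj : Function.Surjective (((QuotientGroup.mk' Z).comp (Es H u w).subtype).codRestrict
        (Es (H ⧸ Z) u w) h2) := by
      rintro ⟨q, hq⟩
      obtain ⟨g, rfl⟩ := QuotientGroup.mk_surjective q
      exact ⟨⟨g, hq⟩, rfl⟩
    refine Finite.of_surjective (QuotientGroup.lift (Z.subgroupOf (Es H u w))
      (((QuotientGroup.mk' Z).comp (Es H u w).subtype).codRestrict (Es (H ⧸ Z) u w) h2) ?_) ?_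
    · intro a ha
      apply Subtype.ext
      exact (QuotientGroup.eq_one_iff (a : H)).2 ha
    · intro b
      obtain ⟨a, rfl⟩ := hsurj b
      exact ⟨(a : (Es H u w) ⧸ Z.subgroupOf (Es H u w)), rfl⟩

end Pool.Agent.J6H95.FJ
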