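import Pool.Agent.J6H95.FJ.Tri

/-!
# Vertices of four kinds

The vertices of the fourth kind have virtually cyclic edge groups, which are balanced or cyclic.
-/

set_option autoImplicit false

namespace Pool.Agent.J6H95.FJ

open SimpleGraph
open Matrix (GeneralLinearGroup)
open scoped commutatorElement
open Subgroup
open Subgroup.Commensurable (commensurator)
open Pool.Agent.Y110.FJ
open Pool.Agent.N509.TK
open Pool.Agent.N509.TX (AcylF C_edge)
open Pool.Agent.R941.FJ (C_equiv C_le C_cyc mem_sup_normal)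
open Pool.Agent.N431.CE (Es Es_comm Es_smul mem_Es rf rf_LR Rf Rf_gen Kv le_comm Cn mem_Cn)

variable {C : ∀ (G : Type) [Group G], Prop}
variable {G V : Type} [Group G] [MulAction G V] {T : SimpleGraph V}

/-- the elements of the stabilizer of a cylinder which centralize or invert a nontrivial element of the
edge groups -/
theorem bal_oneW (hC : ClosedE C) (hM : ∀ (G : Type) [Group G], derivedSeries G 2 = ⊥ → C G)
    (hA : AcylF C) (hT : T.IsTree) (hact : ∀ (g : G) (u v : V), T.Adj u v → T.Adj (g • u) (g • v))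
    {v0 a0 : V} (h0 : T.Adj v0 a0) {z : G} (hz : z ∈ Es G v0 a0)
    (hzi : (zpowers z).relIndex (Es G v0 a0) ≠ 0)
    (hBQ : ∀ v u (h : T.Adj v u), cy (rf G) h = cy (rf G) h0 → z ∈ Es G v u → BQ C v z) :
    C ↥(Kc hact (cy (rf G) h0) ⊓ Nm z) := by
  obtain ⟨y, hy⟩ : ∃ y : Cyl T (rf G), y = cy (rf G) h0 := ⟨_, rfl⟩
  have hzK : z ∈ Kc hact y := by
    rw [hy]
    exact fix_Pres hact (rf_LR (T := T)) h0 hz
  have hzN : z ∈ Nm z := Or.inl (by group)
  rw [← hy]
  obtain ⟨H, hH⟩ : ∃ H : Subgroup G, H = Kc hact y ⊓ Nm z := ⟨_, rfl⟩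
  rw [← hH]
  have hr := rf_LR (G := G) (T := T)
  have hRf : ∀ (v u : V) (h : T.Adj v u), cy (rf G) h = y → Rf G (v0, a0) (v, u) := by
    intro v u h hvu
    exact Rf_gen (p := dt h0) (q := dt h) (Quotient.exact (hy.symm.trans hvu.symm))
  have hzp : ∀ (v : V), z • v = v → ∀ i : ℤ, z ^ i • v = v := by
    intro v hv i
    have h1 : z ∈ MulAction.stabilizer G v := hv
    exact zpow_mem h1 i
  have hHz : ∀ h ∈ H, ∀ v : V, z • v = v → z • h • v = h • v := by
    intro h hh v hv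
    have h1 : h⁻¹ ∈ Nm z := inv_mem ((hH ▸ hh : h ∈ Kc hact y ⊓ Nm z).2)
    obtain ⟨j, hj⟩ := Nm_zpow h1 1
    rw [zpow_one, inv_inv] at hj
    have h2 : z * h = h * z ^ j := by rw [← hj]; group
    rw [← mul_smul, h2, mul_smul, hzp v hv]
  have hHm : ∀ h ∈ H, ∀ v : V, Mem y v → Mem y (h • v) := fun h hh v hv =>
    ((hH ▸ hh : h ∈ Kc hact y ⊓ Nm z).1).1.mem hv
  obtain ⟨X, hX⟩ : ∃ X : Set V, X = {v : V | Mem y v ∧ z • v = v} := ⟨_, rfl⟩
  have hXm : ∀ v, v ∈ X ↔ Mem y v ∧ z • v = v := fun v => by rw [hX]; rfl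
  have hHX : ∀ (h : H) (v : V), v ∈ X → (h : G) • v ∈ X := by
    intro h v hv
    rw [hXm] at hv ⊢
    exact ⟨hHm h h.2 v hv.1, hHz h h.2 v hv.2⟩
  let _ : MulAction H X :=
    { smul := fun h x => ⟨(h : G) • (x : V), hHX h x x.2⟩
      one_smul := fun x => Subtype.ext (one_smul G (x : V))
      mul_smul := fun h k x => Subtype.ext (mul_smul (h : G) (k : G) (x : V)) }
  have hsm : ∀ (h : H) (x : X), ((h • x : X) : V) = (h : G) • (x : V) := fun _ _ => rfl
  have htree : (T.induce X).IsTree := by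
    refine ⟨?_, hT.isAcyclic.induce _⟩
    have : Nonempty X := ⟨⟨v0, (hXm v0).2 ⟨by rw [hy]; exact Mem_cy h0, hz.1⟩⟩⟩
    refine ⟨fun v u => ?_⟩
    obtain ⟨p, hp, -⟩ := hT.existsUnique_path (v : V) (u : V)
    refine ⟨p.induce _ fun x hx => (hXm x).2 ⟨?_, ?_⟩⟩
    · exact path_mem hT hr ((hXm _).1 v.2).1 ((hXm _).1 u.2).1 p hp x hx
    · exact fix_path hT hact ((hXm _).1 u.2).2 p hp ((hXm _).1 v.2).2 x hx
  have hzH : z ∈ H := by
    rw [hH]
    exact ⟨hzK, hzN⟩
  obtain ⟨Z, hZ⟩ : ∃ Z : Subgroup H, Z = (zpowers z).subgroupOf H := ⟨_, rfl⟩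
  have hZm : ∀ x : H, x ∈ Z ↔ (x : G) ∈ zpowers z := fun x => by rw [hZ]; exact mem_subgroupOf
  have hZn : Z.Normal := by
    refine ⟨fun x hx h => ?_⟩
    rw [hZm] at hx ⊢
    obtain ⟨i, hi⟩ := hx
    obtain ⟨j, hj⟩ := Nm_zpow ((hH ▸ h.2 : (h : G) ∈ Kc hact y ⊓ Nm z).2) i
    exact ⟨j, by
      show z ^ j = (h : G) * (x : G) * (h : G)⁻¹
      rw [← hj, ← hi]⟩
  -- the conditions at the vertices
  have hvert : ∀ x : X, BQ C (x : V) z := by
    intro x
    obtain ⟨hxm, hxz⟩ := (hXm _).1 x.2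
    by_cases hxv : (x : V) = v0
    · rw [hxv]
      exact hBQ v0 a0 h0 rfl hz
    · obtain ⟨s, hs⟩ := St_exists hT hxv
      have hm0 : Mem y v0 := by
        rw [hy]
        exact Mem_cy h0
      have h1 : cy (rf G) hs.1 = y := f1 hT hr hxm hm0 hs
      have h2 : z • s = s := by
        have h3 := St_smul hact z hs
        rw [hxz, hz.1] at h3
        exact St_unique hT.isAcyclic h3 hs
      exact hBQ _ _ hs.1 (h1.trans hy) ⟨hxz, h2⟩
  have hquot : C (H ⧸ Z) := by
    refine quot_act hC hA htree ?_ Z ?_ ?_ ?_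
    · intro g u v huv
      exact hact g u v huv
    · intro x hx v
      rw [hZm] at hx
      obtain ⟨i, hi⟩ := hx
      apply Subtype.ext
      rw [hsm, ← hi]
      exact hzp v ((hXm _).1 v.2).2 i
    · intro x
      obtain ⟨Q, _, π, hQ, hπ⟩ := hvert x
      have h1 : ∀ a : MulAction.stabilizer H x, ((a : H) : G) ∈ Nz (x : V) z := fun a =>
        ⟨congrArg Subtype.val a.2, (hH ▸ a.1.2 : ((a : H) : G) ∈ Kc hact y ⊓ Nm z).2⟩
      refine ⟨Q, _, π.comp ((H.subtype.comp (Subgroup.subtype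
        (MulAction.stabilizer H x))).codRestrict (Nz (x : V) z) h1), hQ, fun a => ?_⟩
      rw [hZm]
      exact hπ ⟨((a : H) : G), h1 a⟩
    · intro u w huw
      have h1 : T.Adj (u : V) (w : V) := huw
      have h2 : cy (rf G) h1 = y := adj_cy hT hr ((hXm _).1 u.2).1 ((hXm _).1 w.2).1 h1
      have h3 : Commensurable (Es G v0 a0) (Es G (u : V) (w : V)) := (hRf _ _ _ h2).comm
      have h4 : (zpowers z).relIndex (Es G (u : V) (w : V)) ≠ 0 := by
        refine Subgroup.relIndex_ne_zero_trans (K := Es G v0 a0) ?_ ?_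
        · exact hzi
        · exact h3.1
      have h5 : Es H u w = (Es G (u : V) (w : V)).comap H.subtype := by
        ext x
        constructor
        · rintro ⟨h6, h7⟩
          exact ⟨congrArg Subtype.val h6, congrArg Subtype.val h7⟩
        · rintro ⟨h6, h7⟩
          exact ⟨Subtype.ext h6, Subtype.ext h7⟩
      have h6 : Z = (zpowers z).comap H.subtype := hZ
      rw [h5, h6]
      exact relIndex_comap_ne_zero H.subtype h4
  have hab : ∀ x ∈ Z, ∀ x' ∈ Z, x * x' = x' * x := by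
    intro x hx x' hx'
    rw [hZm] at hx hx'
    obtain ⟨i, hi⟩ := hx
    obtain ⟨j, hj⟩ := hx'
    apply Subtype.ext
    show (x : G) * (x' : G) = (x' : G) * (x : G)
    rw [← hi, ← hj]
    show z ^ i * z ^ j = z ^ j * z ^ i
    rw [← zpow_add, ← zpow_add, add_comm]
  exact ab_ext hC hM Z hab hquot

/-- **balanced cylinders**: the edge groups are virtually infinite cyclic -/
theorem bal_cylW (hC : ClosedE C) (hM : ∀ (G : Type) [Group G], derivedSeries G 2 = ⊥ → C G)
    (hA : AcylF C) (hT : T.IsTree) (hact : ∀ (g : G) (u v : V), T.Adj u v → T.Adj (g • u) (g • v))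
    {v0 a0 : V} (h0 : T.Adj v0 a0) {e : G} (heE : e ∈ Es G v0 a0)
    (hei : (zpowers e).relIndex (Es G v0 a0) ≠ 0) (hinf : InfOrd e) (hbal : Balanced e)
    (hBQ : ∀ v u (h : T.Adj v u), cy (rf G) h = cy (rf G) h0 → ∀ z ∈ Es G v u, InfOrd z → BQ C v z)
    (K : Subgroup G) (hK : ∀ g ∈ K, Pres hact (cy (rf G) h0) g) : C K := by
  refine C_le hC.base (le_Kc hact _ K hK) ?_
  obtain ⟨K', hK'⟩ : ∃ K' : Subgroup G, K' = Kc hact (cy (rf G) h0) := ⟨_, rfl⟩
  rw [← hK']
  refine Pool.Agent.Y430.SS.of_directed hC.base K' ℕ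
    (fun i j => ⟨max i j, le_max_left _ _, le_max_right _ _⟩)
    (fun i => (K' ⊓ Nm (e ^ (i.factorial))).subgroupOf K') ?_ ?_ ?_
  · intro i j hij x hx
    rw [mem_subgroupOf] at hx ⊢
    refine ⟨hx.1, ?_⟩
    obtain ⟨k, hk⟩ := Nat.factorial_dvd_factorial hij
    rw [hk, pow_mul]
    exact Nm_pow _ k hx.2
  · rintro ⟨g, hg⟩
    have h1 : g ∈ commensurator (Es G v0 a0) := by
      rw [Commensurable.commensurator_mem_iff, ← Es_smul]
      have h2 := (hK' ▸ hg : g ∈ Kc hact (cy (rf G) h0)).1 v0 a0 h0 rfl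
      exact (Rf_gen (p := dt (hact g v0 a0 h0)) (q := dt h0) (Quotient.exact h2)).comm
    rw [← Commensurable.eq (comm_fin heE hei)] at h1
    obtain ⟨i, m, hi0, hm0, hi⟩ := comm_pow hinf h1
    have h2 := hbal g i m hi0 hi
    have h3 : g ∈ Nm (e ^ i) := by
      rcases h2 with h2 | h2
      · left
        rw [h2] at hi
        exact hi
      · right
        rw [h2, zpow_neg] at hi
        exact hi
    have h4 : g ∈ Nm (e ^ i.natAbs) := by
      rcases Int.natAbs_eq i with h5 | h5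
      · rw [h5, zpow_natCast] at h3
        exact h3
      · rw [h5, zpow_neg, zpow_natCast] at h3
        rw [mem_Nm] at h3 ⊢
        have h6 : g * e ^ i.natAbs * g⁻¹ = (g * (e ^ i.natAbs)⁻¹ * g⁻¹)⁻¹ := by group
        rw [h6]
        rcases h3 with h3 | h3 <;> rw [h3]
        · exact Or.inl (inv_inv _)
        · exact Or.inr (by rw [inv_inv])
    refine ⟨i.natAbs, ?_⟩
    rw [mem_subgroupOf]
    refine ⟨hg, ?_⟩
    obtain ⟨k, hk⟩ := Nat.dvd_factorial (Int.natAbs_pos.2 hi0) le_rfl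
    show g ∈ Nm (e ^ (i.natAbs).factorial)
    rw [hk, pow_mul]
    exact Nm_pow _ k h4
  · intro i
    have h1 : C ↥(K' ⊓ Nm (e ^ i.factorial)) := by
      rw [hK']
      refine bal_oneW hC hM hA hT hact h0 (z := e ^ i.factorial) ?_ ?_ ?_
      · exact pow_mem heE _
      · exact Subgroup.relIndex_ne_zero_trans (rel_pow i.factorial_pos) hei
      · intro v u hvu hy hz
        exact hBQ v u hvu hy _ hz (hinf.pow i.factorial_ne_zero)
    exact C_equiv hC.base (Subgroup.subgroupOfEquivOfLe inf_le_left) h1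


/-- the edge `p` has an infinite stabilizer and joins vertices in `W` -/
def Wd (G : Type) {V : Type} [Group G] [MulAction G V] {T : SimpleGraph V} (W : Set V) (p : Dt T) :
    Prop :=
  p.1.1 ∈ W ∧ p.1.2 ∈ W ∧ Infinite (Es G p.1.1 p.1.2)

/-- the cylinders which meet `W` -/
theorem W_gen {W : Set V} {r : V → V → V → Prop}
    (hWc : ∀ v ∈ W, ∀ u, T.Adj v u → Infinite (Es G v u) → u ∈ W)
    (hWr : ∀ v ∈ W, ∀ a b, r v a b → Commensurable (Es G v a) (Es G v b)) {p q : Dt T}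
    (h : Relation.EqvGen (lk T (rq G r)) p q) (hp : Wd G W p ∨ Wd G W q) :
    Relation.EqvGen (lk T (rf G)) p q ∧ Wd G W p ∧ Wd G W q := by
  induction h with
  | rel x y h =>
    obtain ⟨⟨x1, x2⟩, hx⟩ := x
    obtain ⟨⟨y1, y2⟩, hy⟩ := y
    have hx : T.Adj x1 x2 := hx
    have hy : T.Adj y1 y2 := hy
    rcases h with h | ⟨h1, h2⟩
    · have h3 : y1 = x2 := congrArg Prod.fst h
      have h4 : y2 = x1 := congrArg Prod.snd h
      subst h3
      subst h4
      refine ⟨Relation.EqvGen.rel _ _ (Or.inl rfl), ?_⟩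
      rcases hp with ⟨h5, h6, h7⟩ | ⟨h5, h6, h7⟩
      · refine ⟨⟨h5, h6, h7⟩, h6, h5, ?_⟩
        have h7 : Infinite (Es G y2 y1) := h7
        show Infinite (Es G y1 y2)
        rwa [Es_comm]
      · refine ⟨⟨h6, h5, ?_⟩, h5, h6, h7⟩
        have h7 : Infinite (Es G y1 y2) := h7
        show Infinite (Es G y2 y1)
        rwa [Es_comm]
    · have h1 : x1 = y1 := h1
      subst h1
      have h2 : rq G r x1 x2 y2 := h2
      rcases h2 with h2 | ⟨h3, h4, h5⟩
      · subst h2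
        refine ⟨Relation.EqvGen.refl _, ?_⟩
        rcases hp with h | h
        · exact ⟨h, h⟩
        · exact ⟨h, h⟩
      · have hx1 : x1 ∈ W := by
          rcases hp with h | h
          · exact h.1
          · exact h.1
        refine ⟨Relation.EqvGen.rel _ _ (Or.inr ⟨rfl, Or.inr ⟨h3, h4, hWr _ hx1 _ _ h5⟩⟩),
          ⟨hx1, hWc _ hx1 _ hx h3, h3⟩, hx1, hWc _ hx1 _ hy h4, h4⟩
  | refl x =>
    refine ⟨Relation.EqvGen.refl _, ?_⟩
    rcases hp with h | h
    · exact ⟨h, h⟩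
    · exact ⟨h, h⟩
  | symm x y _ ih =>
    obtain ⟨h1, h2, h3⟩ := ih hp.symm
    exact ⟨h1.symm, h3, h2⟩
  | trans x y z _ _ ih1 ih2 =>
    rcases hp with h | h
    · obtain ⟨h1, h2, h3⟩ := ih1 (Or.inl h)
      obtain ⟨h4, h5, h6⟩ := ih2 (Or.inl h3)
      exact ⟨h1.trans _ _ _ h4, h2, h6⟩
    · obtain ⟨h4, h5, h6⟩ := ih2 (Or.inr h)
      obtain ⟨h1, h2, h3⟩ := ih1 (Or.inr h5)
      exact ⟨h1.trans _ _ _ h4, h2, h6⟩

/-- **the local criterion, and vertices with virtually cyclic edge groups** -/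
theorem critW (hC : ClosedE C) (hM : ∀ (G : Type) [Group G], derivedSeries G 2 = ⊥ → C G)
    (hA : AcylF C) (hT : T.IsTree)
    (hact : ∀ (g : G) (u v : V), T.Adj u v → T.Adj (g • u) (g • v))
    {r : V → V → V → Prop} (hr : LR G T r)
    (hV : ∀ v : V, C ↥(MulAction.stabilizer G v))
    (hint : ∀ v a : V, T.Adj v a → Infinite (Es G v a) → ∃ n : ℕ, ∀ b, T.Adj v b →
      Infinite (Es G v b) → ¬ r v a b →
        ∀ F : Finset G, (∀ g ∈ F, g ∈ Es G v a ∧ g ∈ Es G v b) → F.card ≤ n) {W : Set V}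
    (hWc : ∀ v ∈ W, ∀ u, T.Adj v u → Infinite (Es G v u) → u ∈ W)
    (hWr : ∀ v ∈ W, ∀ a b, r v a b → Commensurable (Es G v a) (Es G v b))
    (hBQ : ∀ v ∈ W, ∀ u, T.Adj v u → ∀ z ∈ Es G v u, InfOrd z → BQ C v z)
    (hEW : ∀ v ∈ W, ∀ u, T.Adj v u → Infinite (Es G v u) → ER C G T v u ∨
      ∃ e ∈ Es G v u, (zpowers e).relIndex (Es G v u) ≠ 0 ∧ InfOrd e ∧ Balanced e)
    (hE : ∀ v u : V, v ∉ W → T.Adj v u → Infinite (Es G v u) → EL C G T r v u) : C G := by
  refine main_locr hC hA hT hact hr hV hint fun v0 u0 h0 hinf K hK => ?_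
  have hrq := rq_LR hr
  by_cases hW : v0 ∈ W
  · have hWd0 : Wd G W (dt h0) := ⟨hW, hWc v0 hW u0 h0 hinf, hinf⟩
    have hKf : ∀ g ∈ K, Pres hact (cy (rf G) h0) g := by
      intro g hg
      refine Pres_of hact (rf_LR (T := T)) h0 ?_
      have h1 := hK g hg v0 u0 h0 rfl
      exact Quotient.sound (W_gen hWc hWr (p := dt (hact g v0 u0 h0)) (q := dt h0)
        (Quotient.exact h1) (Or.inr hWd0)).1
    have hcW : ∀ (v u : V) (h : T.Adj v u), cy (rf G) h = cy (rf G) h0 → v ∈ W ∧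
        Infinite (Es G v u) := by
      intro v u h hy
      have h1 : Relation.EqvGen (lk T (rf G)) (dt h) (dt h0) := Quotient.exact hy
      have h2 : Relation.EqvGen (lk T (rq G (fun v a b => Commensurable (Es G v a) (Es G v b))))
          (dt h) (dt h0) := by
        clear hy
        generalize dt h = p at h1 ⊢
        generalize dt h0 = q at h1 ⊢
        induction h1 with
        | rel x y h => exact Relation.EqvGen.rel _ _ h
        | refl x => exact Relation.EqvGen.refl _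
        | symm x y _ ih => exact ih.symm
        | trans x y z _ _ ih1 ih2 => exact ih1.trans _ _ _ ih2
      obtain ⟨-, h3, -⟩ := W_gen hWc (fun _ _ _ _ h => h) h2 (Or.inr hWd0)
      exact ⟨h3.1, h3.2.2⟩
    by_cases h : ∃ (v u : V) (h : T.Adj v u), cy (rf G) h = cy (rf G) h0 ∧
        ∃ e ∈ Es G v u, (zpowers e).relIndex (Es G v u) ≠ 0 ∧ InfOrd e ∧ Balanced e
    · obtain ⟨v, u, hvu, hy, e, he, hei, hinf', hbal⟩ := h
      rw [← hy] at hKf
      exact bal_cylW hC hM hA hT hact hvu he hei hinf' hbal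
        (fun v' u' hvu' hy' z hz hz1 => hBQ v' (hcW v' u' hvu' (hy'.trans hy)).1 u' hvu' z hz hz1)
        K hKf
    · refine cyl_R hC hM hT hact hV h0 hinf K hKf fun v u hvu hy => ?_
      obtain ⟨h1, h2⟩ := hcW v u hvu hy
      rcases hEW v h1 u hvu h2 with h3 | h3
      · exact h3
      · exact absurd ⟨v, u, hvu, hy, h3⟩ h
  refine cyl_sub_R hC hM hT hact hrq _ K hK hV ?_
  intro v u hvu hy
  have hinf' : Infinite (Es G v u) := rq_inf h0 hvu hy.symm hinf
  have hvW : v ∉ W := by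
    intro hvW
    exact hW (W_gen hWc hWr (p := dt hvu) (q := dt h0) (Quotient.exact hy)
      (Or.inl ⟨hvW, hWc v hvW u hvu hinf', hinf'⟩)).2.2.1
  obtain ⟨S, Q, _, π, P, _, f, hQ, hP, h1, h2, h3⟩ := hE v u hvW hvu hinf'
  have h1' : ∀ g : G, g • v = v → rq G r v u (g • u) → g ∈ S := by
    intro g hg h
    refine h1 g hg ?_
    rcases h with h | ⟨_, _, h⟩
    · rw [← h]
      exact hr.refl v u hvu
    · exact h
  have hker : (f.comp (Subgroup.subtype (⊤ : Subgroup G))).ker.map (Subgroup.subtype ⊤) = f.ker := by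
    ext x
    constructor
    · rintro ⟨y, hy, rfl⟩
      exact hy
    · intro hx
      exact ⟨⟨x, Subgroup.mem_top x⟩, hx, rfl⟩
  refine ⟨S, ⊤, Q, _, π, P, _, f.comp (Subgroup.subtype ⊤), hQ, hP, ?_, le_top, ?_, ?_⟩
  · rintro g ⟨hgK, hgv⟩
    have hgv : g • v = v := hgv
    refine h1' g hgv ?_
    have h4 := hK g hgK v u hvu hy
    have h5 : T.Adj v (g • u) := by
      have := hact g _ _ hvu
      rwa [hgv] at this
    refine gl hT hrq hvu h5 ?_
    rw [hy, ← h4]
    exact cy_congr _ _ hgv rfl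
  · intro w hw hyw x _ hxv hxw
    have h4 : rq G r v u w := gl hT hrq hvu hw (hy.trans hyw.symm)
    have h5 : Infinite (Es G v w) := rq_inf hvu hw (hy.trans hyw.symm) hinf'
    refine h2 w hw h5 ?_ x ⟨hxv, hxw⟩
    rcases h4 with h4 | ⟨_, _, h4⟩
    · rw [← h4]
      exact hr.refl v u hvu
    · exact h4
  · intro x hxv hxu hx
    unfold Lk at hx
    rw [hker] at hx
    exact h3 x ⟨hxv, hxu⟩ hx

/-- the virtually cyclic edge groups of a vertex -/
theorem vcv_VC {v : V} (hV : LinV C G T v ∨ TrV C G T v) {u : V} (h : T.Adj v u) :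
    VC (Es G v u) := by
  rcases hV with ⟨_, _, _, _, _, _, h2⟩ | ⟨_, h2⟩
  · rcases h2 u h with h1 | ⟨h1, _⟩ | ⟨e, h1, _⟩
    · exact VC_fin h1
    · exact h1
    · exact VC_cyc h1
  · rcases (h2 u h).2 with h1 | ⟨h1, _⟩ | ⟨e, h1, _⟩
    · exact VC_fin h1
    · exact h1
    · exact VC_cyc h1

theorem vcv_C (hC : ClosedE C) {v : V} (hV : LinV C G T v ∨ TrV C G T v) :
    C ↥(MulAction.stabilizer G v) := by
  rcases hV with ⟨k, _, d, ρ, hk, hρ, _⟩ | ⟨h, _⟩
  · exact hC.base.of_injective _ _ ρ hρ (hk _)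
  · exact h

theorem vcv_BQ (hC : ClosedE C) (hM : ∀ (G : Type) [Group G], derivedSeries G 2 = ⊥ → C G)
    {v : V} (hV : LinV C G T v ∨ TrV C G T v) {u : V} (h : T.Adj v u) {z : G}
    (hz : z ∈ Es G v u) (hzi : InfOrd z) : BQ C v z := by
  rcases hV with ⟨k, _, d, ρ, hk, hρ, _⟩ | ⟨_, h2⟩
  · exact BQ_lin hC hM hk ρ hρ hz.1
  · exact (h2 u h).1 z hz hzi

/-- edge groups which are not balanced -/
theorem vcv_ER (hC : ClosedE C) (hM : ∀ (G : Type) [Group G], derivedSeries G 2 = ⊥ → C G)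
    {v : V} (hV : LinV C G T v ∨ TrV C G T v) {u : V} (huv : T.Adj v u)
    (hinf : Infinite (Es G v u)) (hbal : ¬ ∃ e ∈ Es G v u, InfOrd e ∧ Balanced e) :
    ER C G T v u := by
  have hVC : ∀ u : V, T.Adj v u → VC (Es G v u) := fun u h => vcv_VC hV h
  -- edge groups commensurable with this one are not balanced
  have hnb : ∀ w, T.Adj v w → Commensurable (Es G v w) (Es G v u) → ¬ BalVC (G := G) v w := by
    rintro w hvw hwc ⟨h1, e', he', hei', hb'⟩
    obtain ⟨x, hx, hxi⟩ := (hVC u huv).exists_inf hinf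
    have h2 : Commensurable (zpowers e') (zpowers x) :=
      (h1.comm he' hei').trans (hwc.trans ((hVC u huv).comm hx hxi).symm)
    obtain ⟨m, b, hm, _, hmb⟩ := common_pow hei' h2
    exact hbal ⟨x, hx, hxi, hb'.comm hm hmb⟩
  have hord : ∀ w, Infinite (Es G v w) → ∀ e' : G, Es G v w = zpowers e' →
      ∀ i : ℤ, e' ^ i = 1 → i = 0 := by
    intro w hwinf e' he' i hi
    by_contra h0
    have h2 : IsOfFinOrder e' := by
      rw [isOfFinOrder_iff_zpow_eq_one]
      exact ⟨i, h0, hi⟩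
    have h3 : Finite (zpowers e') := h2.finite_zpowers.to_subtype
    rw [he'] at hwinf
    exact absurd hwinf (not_infinite_iff_finite.2 h3)
  rcases hV with ⟨k, _, d, ρ, hk, hρ, hE⟩ | ⟨_, hE⟩
  · have key : ∀ w, T.Adj v w → Infinite (Es G v w) → Commensurable (Es G v w) (Es G v u) →
        ∃ e' : G, Es G v w = zpowers e' ∧ (∀ i : ℤ, e' ^ i = 1 → i = 0) ∧
          (CharZero k → ∀ h : e' ∈ MulAction.stabilizer G v, OneEig (ρ ⟨e', h⟩)) := by
      intro w hvw hwinf hwc
      rcases hE w hvw with h1 | h1 | ⟨e', he', hone⟩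
      · exact absurd hwinf (not_infinite_iff_finite.2 h1)
      · exact absurd h1 (hnb w hvw hwc)
      · exact ⟨e', he', hord w hwinf e' he', hone⟩
    obtain ⟨e, he, hei, hc⟩ := key u huv hinf (Commensurable.refl _)
    have hev : e ∈ MulAction.stabilizer G v := by
      have h1 : e ∈ Es G v u := by
        rw [he]
        exact mem_zpowers e
      exact h1.1
    by_cases hbig : ∀ M : ℕ, 0 < M →
        ¬ IsNilpotent ((ρ ⟨e, hev⟩ : Matrix (Fin d) (Fin d) k) ^ M - 1)
    · exact ER_big hC hM he hei ρ hev hbig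
    push Not at hbig
    obtain ⟨M, hM0, hx⟩ := hbig
    have hchar : CharZero k := by
      refine char_zero_of (x := ρ ⟨e, hev⟩) ?_ hM0 hx
      intro i hi
      rw [← map_zpow] at hi
      have h5 := hρ (hi.trans (map_one _).symm)
      exact hei i (congrArg Subtype.val h5)
    refine ER_uni hC hk he hei ρ hρ hev hM0 hx (hc hchar hev) ?_
    intro w hvw hwinf hwc
    obtain ⟨e', he', hei', hc'⟩ := key w hvw hwinf hwc
    exact ⟨e', he', hei', hc' hchar⟩
  · rcases (hE u huv).2 with h1 | h1 | ⟨e, he, h1⟩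
    · exact absurd hinf (not_infinite_iff_finite.2 h1)
    · exact absurd h1 (hnb u huv (Commensurable.refl _))
    · exact ER_h1 hC hM he (hord u hinf e he) h1

/-- the vertex `v` has virtually cyclic edge groups: it satisfies `LinV` or `TrV`, and the neighbours `u` of `v`
such that the stabilizer of the edge `{v, u}` is infinite are in `W` -/
def VcV (C : ∀ (G : Type) [Group G], Prop) (G : Type) {V : Type} [Group G] [MulAction G V]
    (T : SimpleGraph V) (W : Set V) (v : V) : Prop :=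
  (LinV C G T v ∨ TrV C G T v) ∧ ∀ u, T.Adj v u → Infinite (Es G v u) → u ∈ W

/-- **vertices of four kinds** -/
theorem quad (hC : ClosedE C) (hM : ∀ (G : Type) [Group G], derivedSeries G 2 = ⊥ → C G)
    (hA : AcylF C) (hT : T.IsTree)
    (hact : ∀ (g : G) (u v : V), T.Adj u v → T.Adj (g • u) (g • v))
    {P Q W : Set V} (hP : ∀ (g : G) (v : V), v ∈ P → g • v ∈ P)
    (hQ : ∀ (g : G) (v : V), v ∈ Q → g • v ∈ Q)
    (hWi : ∀ (g : G) (v : V), v ∈ W → g • v ∈ W) {𝓐 : V → Set (Subgroup G)}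
    (h𝓐 : ∀ (g : G) (v : V), ∀ A ∈ 𝓐 v, cj g A ∈ 𝓐 (g • v))
    (hG : ∀ v ∈ P, ∀ m : ℕ, C (GL (Fin m) ℚ))
    (h1 : ∀ v ∈ P, ComV C G T v) (h2 : ∀ v ∈ Q, CenV C G T v)
    (h4 : ∀ v ∈ W, VcV C G T W v)
    (h3 : ∀ v, v ∉ P → v ∉ Q → v ∉ W → FamV C G T 𝓐 v) : C G := by
  have hr := rmix_LR (T := T) (P := P ∪ W) (fun g v hv => hv.imp (hP g v) (hWi g v)) hQ h𝓐
  have hPW : ∀ v, v ∉ W → v ∈ P ∪ W → v ∈ P := fun v h h' => h'.resolve_right h
  refine critW hC hM hA hT hact hr ?_ ?_ (W := W) (fun v hv => (h4 v hv).2)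
    (fun v hv a b h => h.1 (Or.inr hv)) (fun v hv u hvu z hz hzi => vcv_BQ hC hM (h4 v hv).1 hvu hz hzi)
    ?_ ?_
  · intro v
    by_cases hvW : v ∈ W
    · exact vcv_C hC (h4 v hvW).1
    by_cases hv : v ∈ P
    · exact (h1 v hv).mem hC
    · by_cases hv' : v ∈ Q
      · exact (h2 v hv').1
      · exact (h3 v hv hv' hvW).1
  · intro v a hva hinf
    by_cases hvW : v ∈ W
    · obtain ⟨n, hn⟩ := iso_at (fun u hu => vcv_VC (h4 v hvW).1 hu) hva hinf
      exact ⟨n, fun b hvb _ hab => hn b hvb fun h =>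
        hab ⟨fun _ => h, fun h' => absurd (Or.inr hvW) h', fun h' => absurd (Or.inr hvW) h'⟩⟩
    by_cases hv : v ∈ P
    · obtain ⟨n, hn⟩ := (h1 v hv).iso hva hinf
      exact ⟨n, fun b hvb hinfb hab => hn b hvb hinfb fun h =>
        hab ⟨fun _ => h, fun h' => absurd (Or.inl hv) h', fun h' => absurd (Or.inl hv) h'⟩⟩
    have hvP : v ∉ P ∪ W := fun h => hv (hPW v hvW h)
    by_cases hv' : v ∈ Q
    · obtain ⟨_, _, n, hn⟩ := (h2 v hv').2 a hva hinf
      exact ⟨n, fun b hvb hinfb hab => hn b hvb hinfb fun h =>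
        hab ⟨fun h' => absurd h' hvP, fun _ _ => h, fun _ h' => absurd hv' h'⟩⟩
    · have h4 := h3 v hv hv' hvW
      obtain ⟨A, hAm, hEA, -⟩ := h4.2.2 a hva hinf
      obtain ⟨n, hn⟩ := (h4.2.1 A hAm).2.2
      refine ⟨n, fun b hvb hinfb hab F hF => ?_⟩
      obtain ⟨B, hBm, hEB, -⟩ := h4.2.2 b hvb hinfb
      refine hn B hBm ?_ F fun g hg => ⟨hEA (hF g hg).1, hEB (hF g hg).2⟩
      rintro rfl
      refine hab ⟨fun h => absurd h hvP, fun _ h => absurd h hv', fun _ _ A' hA' =>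
        ⟨fun h => ?_, fun h => ?_⟩⟩
      · rw [fam_uniq h4 hBm hA' hinf hEA h]
        exact hEB
      · rw [fam_uniq h4 hBm hA' hinfb hEB h]
        exact hEA
  · intro v hv u hvu hinf
    by_cases hbal : ∃ e ∈ Es G v u, InfOrd e ∧ Balanced e
    · obtain ⟨e, he, hei, hb⟩ := hbal
      exact Or.inr ⟨e, he, (vcv_VC (h4 v hv).1 hvu).relIndex he hei, hei, hb⟩
    · exact Or.inl (vcv_ER hC hM (h4 v hv).1 hvu hinf hbal)
  · intro v u hvW hvu hinf
    by_cases hv : v ∈ P
    · have h3 : ERL C G T v u := (h1 v hv).erl hC hM (hG v hv) hvu hinf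
      obtain ⟨Q, _, π, hQ, h4, h5⟩ := h3
      refine ⟨Sc G v u, Q, _, π, Multiplicative ℤ, inferInstance, 1, hQ, hC.base.int, ?_, ?_, ?_⟩
      · intro g hg h
        refine ⟨hg, ?_⟩
        show g ∈ commensurator (Es G v u)
        rw [Commensurable.commensurator_mem_iff, ← Es_smul, hg]
        exact (h.1 (Or.inl hv)).symm
      · intro w hvw hwinf h x hx
        exact h4 w hvw hwinf (h.1 (Or.inl hv)).symm x x.2 hx
      · intro x hxE hx
        have h6 : x ∈ Es G v u ⊓ ⁅π.ker.map (Sc G v u).subtype, π.ker.map (Sc G v u).subtype⁆ :=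
          ⟨hxE, Subgroup.commutator_mono inf_le_left inf_le_left hx⟩
        rw [h5] at h6
        exact h6
    have hvP : v ∉ P ∪ W := fun h => hv (hPW v hvW h)
    by_cases hv' : v ∈ Q
    · obtain ⟨hcomm, hnq, -⟩ := (h2 v hv').2 u hvu hinf
      obtain ⟨A, hAd⟩ : ∃ A : Subgroup G, A = Cv v (Cv v (Es G v u)) := ⟨_, rfl⟩
      have hCA : Cv v A = Cv v (Es G v u) := by
        rw [hAd]
        exact CCCv inf_le_left
      have hnq' : NQ C v A := by
        rcases hnq with h | h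
        · refine h.nq hC ?_
          rw [hCA, hAd]
        · rw [hAd]
          exact h
      obtain ⟨Q', _, π, hQ', hπ⟩ := hnq'
      refine ⟨_, Q', _, π, Multiplicative ℤ, inferInstance, 1, hQ', hC.base.int, ?_, ?_, ?_⟩
      · intro g hg h
        refine ⟨hg, mem_nor_of ?_⟩
        have h4 : Es G v (g • u) = cj g (Es G v u) := by
          have h6 := Es_cj g v u
          rwa [hg] at h6
        have h5 := h.2.1 hvP hv'
        rw [h4, Cv_cj hg] at h5
        rw [hAd, ← Cv_cj hg, ← h5]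
      · intro w hvw hwinf h x hx
        rw [hπ]
        have h4 : A = Cv v (Cv v (Es G v w)) := by rw [hAd, h.2.1 hvP hv']
        exact h4.ge (le_CCv inf_le_left hx)
      · intro x hxE hx
        have h4 : ∀ y ∈ π.ker.map (MulAction.stabilizer G v ⊓ normalizer (A : Set G)).subtype ⊓
            (1 : G →* Multiplicative ℤ).ker, y ∈ A := by
          rintro y ⟨⟨z, hz, rfl⟩, -⟩
          exact (hπ z).1 hz
        have h5 : ∀ y ∈ A, ∀ z ∈ A, y * z = z * y := by
          intro y hy z hz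
          have h6 : A ≤ Cv v A := by
            rw [hCA, hAd]
            refine Cv_anti ?_
            intro e he
            rw [mem_Cv]
            exact ⟨he.1, fun e' he' => hcomm e he e' he'⟩
          exact (mem_Cv.1 (h6 hy)).2 z hz
        have h6 : ⁅π.ker.map (MulAction.stabilizer G v ⊓ normalizer (A : Set G)).subtype ⊓
            (1 : G →* Multiplicative ℤ).ker, π.ker.map
            (MulAction.stabilizer G v ⊓ normalizer (A : Set G)).subtype ⊓
            (1 : G →* Multiplicative ℤ).ker⁆ ≤ ⊥ := by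
          rw [Subgroup.commutator_le]
          intro y hy z hz
          rw [mem_bot, commutatorElement_eq_one_iff_mul_comm]
          exact h5 y (h4 y hy) z (h4 z hz)
        exact mem_bot.1 (h6 hx)
    · have h4 := h3 v hv hv' hvW
      obtain ⟨A, hAm, hEA, P', _, f, hP', hf⟩ := h4.2.2 u hvu hinf
      obtain ⟨hAs, ⟨Q', _, π, hQ', hπ⟩, -⟩ := h4.2.1 A hAm
      refine ⟨_, Q', _, π, P', _, f, hQ', hP', ?_, ?_, ?_⟩
      · intro g hg h
        refine ⟨hg, mem_nor_of ?_⟩
        have h5 : Es G v (g • u) ≤ A := (h.2.2 hvP hv' A hAm).1 hEA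
        have h6 : Es G v (g • u) = cj g (Es G v u) := by
          have h6 := Es_cj g v u
          rwa [hg] at h6
        have h7 : cj g A ∈ 𝓐 v := by
          have h7 := h𝓐 g v A hAm
          rwa [hg] at h7
        have h8 : Infinite (Es G v (g • u)) := by
          have h8 := Pool.Agent.N431.CE.inf_smul (g := g) hinf
          rwa [hg] at h8
        exact fam_uniq h4 hAm h7 h8 h5 (by
          rw [h6]
          exact cj_le.2 hEA)
      · intro w hvw hwinf h x hx
        rw [hπ]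
        exact (h.2.2 hvP hv' A hAm).1 hEA hx
      · intro x hxE hx
        refine hf x hxE ?_
        refine Subgroup.commutator_mono ?_ ?_ hx <;>
        · rintro y ⟨⟨z, hz, rfl⟩, hy⟩
          exact ⟨(hπ z).1 hz, hy⟩

end Pool.Agent.J6H95.FJ
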