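import Pool.Agent.J6H95.FJ.Tw
import Pool.Agent.N509.TK.Om

/-!
# Edge groups contained in normal subgroups of the vertex groups
-/

set_option autoImplicit false

namespace Pool.Agent.J6H95.FJ

open SimpleGraph
open scoped commutatorElement
open Pool.Agent.Y110.FJ
open Pool.Agent.N509.TK

variable {C : ∀ (G : Type) [Group G], Prop}

/-- the elements of the kernels of `π` and `f` -/
def Lk {G : Type} [Group G] {S D : Subgroup G} {Q P : Type} [Group Q] [Group P] (π : S →* Q)
    (f : D →* P) : Subgroup G := π.ker.map S.subtype ⊓ f.ker.map D.subtype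

theorem mem_Lk {G : Type} [Group G] {S D : Subgroup G} {Q P : Type} [Group Q] [Group P]
    {π : S →* Q} {f : D →* P} {x : G} :
    x ∈ Lk π f ↔ (∃ h : x ∈ S, π ⟨x, h⟩ = 1) ∧ ∃ h : x ∈ D, f ⟨x, h⟩ = 1 := by
  constructor
  · rintro ⟨⟨⟨y, hy⟩, h1, rfl⟩, ⟨⟨z, hz⟩, h2, h3⟩⟩
    have h4 : z = y := h3
    subst h4
    exact ⟨⟨hy, h1⟩, hz, h2⟩
  · rintro ⟨⟨h1, h2⟩, h3, h4⟩
    exact ⟨⟨⟨x, h1⟩, h2, rfl⟩, ⟨⟨x, h3⟩, h4, rfl⟩⟩

/-- the homomorphism on `G` as a homomorphism on the whole subgroup -/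
theorem redges {G V : Type} [Group G] [MulAction G V] {T : SimpleGraph V} (hC : ClosedE C)
    (hM : ∀ (G : Type) [Group G], derivedSeries G 2 = ⊥ → C G)
    (hT : T.IsTree) (hact : ∀ (g : G) (u v : V), T.Adj u v → T.Adj (g • u) (g • v))
    (hV : ∀ v : V, C ↥(MulAction.stabilizer G v))
    (hE : ∀ v u : V, T.Adj v u → ∃ (Q : Type) (_ : Group Q) (π : MulAction.stabilizer G v →* Q)
      (P : Type) (_ : Group P) (f : G →* P), C Q ∧ C P ∧
      (∀ w, T.Adj v w → ∀ x : MulAction.stabilizer G v, (x : G) • w = w → π x = 1) ∧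
      ∀ x : G, x • v = v → x • u = u →
        x ∈ ⁅π.ker.map (MulAction.stabilizer G v).subtype ⊓ f.ker,
          π.ker.map (MulAction.stabilizer G v).subtype ⊓ f.ker⁆ → x = 1) : C G := by
  refine hedges hC hM hT hact hV fun v u huv => ?_
  obtain ⟨Q, _, π, P, _, f, hQ, hP, h1, h2⟩ := hE v u huv
  obtain ⟨F, hF⟩ := exists_hom hT hact v π h1
  refine ⟨_, inferInstance, F.prod f,
    hC.base.prod _ _ (hC.base.coprod _ _ hQ (Pool.Agent.Y179.SS.t_free C hC.base _)) hP, ?_⟩
  intro x hxv hxu hx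
  refine h2 x hxv hxu ?_
  refine Subgroup.commutator_mono ?_ ?_ hx <;>
  · rintro y ⟨hy1, hy2⟩
    have h3 : F y = 1 := congrArg Prod.fst hy2
    have h4 : f y = 1 := congrArg Prod.snd hy2
    refine ⟨⟨⟨y, hy1⟩, ?_, rfl⟩, h4⟩
    have h5 := hF ⟨y, hy1⟩
    rw [show F ((⟨y, hy1⟩ : MulAction.stabilizer G v) : G) = 1 from h3] at h5
    rw [SetLike.mem_coe, MonoidHom.mem_ker]
    exact Monoid.Coprod.inl_injective (h5.symm.trans (map_one _).symm)

variable {G V : Type} [Group G] [MulAction G V] {T : SimpleGraph V} {r : V → V → V → Prop}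

/-- groups which preserve a cylinder -/
theorem cyl_sub_R (hC : ClosedE C) (hM : ∀ (G : Type) [Group G], derivedSeries G 2 = ⊥ → C G)
    (hT : T.IsTree) (hact : ∀ (g : G) (u v : V), T.Adj u v → T.Adj (g • u) (g • v))
    (hr : LR G T r) (y : Cyl T r) (K : Subgroup G) (hK : ∀ g ∈ K, Pres hact y g)
    (hV : ∀ v : V, C ↥(MulAction.stabilizer G v))
    (hH : ∀ (v u : V) (h : T.Adj v u), cy r h = y →
      ∃ (S D : Subgroup G) (Q : Type) (_ : Group Q) (π : S →* Q) (P : Type) (_ : Group P)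
        (f : D →* P), C Q ∧ C P ∧ K ⊓ MulAction.stabilizer G v ≤ S ∧ K ≤ D ∧
        (∀ w (h' : T.Adj v w), cy r h' = y → ∀ x : S, (x : G) ∈ K → (x : G) • v = v →
          (x : G) • w = w → π x = 1) ∧
        ∀ x : G, x • v = v → x • u = u → x ∈ ⁅Lk π f, Lk π f⁆ → x = 1) : C K := by
  let _ : MulAction K {v : V | Mem y v} :=
    { smul := fun g v => ⟨(g : G) • (v : V), (hK g g.2).mem v.2⟩
      one_smul := fun v => Subtype.ext (one_smul G (v : V))
      mul_smul := fun g h v => Subtype.ext (mul_smul (g : G) (h : G) (v : V)) }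
  have htree : (T.induce {v : V | Mem y v}).IsTree := by
    refine ⟨?_, hT.isAcyclic.induce _⟩
    obtain ⟨⟨⟨o, a⟩, h⟩, hy⟩ := Quotient.exists_rep y
    have : Nonempty {v : V | Mem y v} := ⟨⟨o, a, h, hy⟩⟩
    refine ⟨fun v u => ?_⟩
    obtain ⟨p, hp, -⟩ := hT.existsUnique_path (v : V) (u : V)
    exact ⟨p.induce _ (path_mem hT hr v.2 u.2 p hp)⟩
  refine redges (G := K) (V := {v : V | Mem y v}) (T := T.induce {v : V | Mem y v}) hC hM htree ?_
    ?_ ?_
  · intro g v u h
    exact hact g _ _ h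
  · intro v
    refine hC.base.of_injective _ _ ((K.subtype.comp (Subgroup.subtype
      (MulAction.stabilizer K v))).codRestrict (MulAction.stabilizer G (v : V)) ?_) ?_ (hV v)
    · rintro ⟨z, hz⟩
      exact congrArg Subtype.val hz
    · intro a b hab
      have h1 := congrArg Subtype.val hab
      exact Subtype.ext (Subtype.ext h1)
  · intro v u hvu
    obtain ⟨S, D, Q, _, π, P, _, f, hQ, hP, hS, hD, h1, h2⟩ :=
      hH v u hvu (adj_cy hT hr v.2 u.2 hvu)
    have hSt : ∀ x : MulAction.stabilizer K v, ((x : K) : G) ∈ S := fun x =>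
      hS ⟨x.1.2, congrArg Subtype.val x.2⟩
    obtain ⟨π', hπ'⟩ : ∃ π' : MulAction.stabilizer K v →* Q,
        ∀ x, π' x = π ⟨((x : K) : G), hSt x⟩ :=
      ⟨π.comp ((K.subtype.comp (Subgroup.subtype (MulAction.stabilizer K v))).codRestrict S hSt),
        fun x => rfl⟩
    refine ⟨Q, _, π', P, _, f.comp (Subgroup.inclusion hD), hQ, hP, ?_, ?_⟩
    · intro w hw x hx
      rw [hπ']
      exact h1 w hw (adj_cy hT hr v.2 w.2 hw) _ x.1.2 (congrArg Subtype.val x.2)
        (congrArg Subtype.val hx)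
    · intro x hxv hxu hx
      apply Subtype.ext
      refine h2 x (congrArg Subtype.val hxv) (congrArg Subtype.val hxu) ?_
      have h3 : (π'.ker.map (MulAction.stabilizer K v).subtype ⊓
          (f.comp (Subgroup.inclusion hD)).ker).map K.subtype ≤ Lk π f := by
        rintro _ ⟨z, ⟨⟨a, ha, haz⟩, hz⟩, rfl⟩
        have haz : (a : K) = z := haz
        subst haz
        have ha' : π' a = 1 := ha
        have hz' : f (Subgroup.inclusion hD (a : K)) = 1 := hz
        rw [hπ'] at ha'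
        exact mem_Lk.2 ⟨⟨hSt a, ha'⟩, hD (a : K).2, hz'⟩
      have h4 : (x : G) ∈ (⁅π'.ker.map (MulAction.stabilizer K v).subtype ⊓
          (f.comp (Subgroup.inclusion hD)).ker, π'.ker.map (MulAction.stabilizer K v).subtype ⊓
          (f.comp (Subgroup.inclusion hD)).ker⁆).map K.subtype := ⟨x, hx, rfl⟩
      rw [Subgroup.map_commutator] at h4
      exact Subgroup.commutator_mono h3 h3 h4

end Pool.Agent.J6H95.FJ
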