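import Pool.Agent.J6H95.FJ.Com

/-!
# Abelian edge groups
-/

set_option autoImplicit false

namespace Pool.Agent.J6H95.FJ

open SimpleGraph
open Matrix (GeneralLinearGroup)
open scoped commutatorElement
open Subgroup
open Subgroup.Commensurable (commensurator)
open Pool.Agent.Y110.FJ
open Pool.Agent.N509.TK
open Pool.Agent.N509.TX (AcylF)
open Pool.Agent.N431.CE (Es Es_comm Es_smul mem_Es Cn mem_Cn)

variable {C : ∀ (G : Type) [Group G], Prop}
variable {G V : Type} [Group G] [MulAction G V] {T : SimpleGraph V}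

/-- **abelian edge groups** -/
theorem tri (hC : ClosedE C) (hM : ∀ (G : Type) [Group G], derivedSeries G 2 = ⊥ → C G)
    (hA : AcylF C) (hT : T.IsTree)
    (hact : ∀ (g : G) (u v : V), T.Adj u v → T.Adj (g • u) (g • v))
    {P Q : Set V} (hP : ∀ (g : G) (v : V), v ∈ P → g • v ∈ P)
    (hQ : ∀ (g : G) (v : V), v ∈ Q → g • v ∈ Q) {𝓐 : V → Set (Subgroup G)}
    (h𝓐 : ∀ (g : G) (v : V), ∀ A ∈ 𝓐 v, cj g A ∈ 𝓐 (g • v))
    (hG : ∀ v ∈ P, ∀ m : ℕ, C (GL (Fin m) ℚ))
    (h1 : ∀ v ∈ P, ComV C G T v) (h2 : ∀ v ∈ Q, CenV C G T v)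
    (h3 : ∀ v, v ∉ P → v ∉ Q → FamV C G T 𝓐 v) : C G := by
  have hr := rmix_LR (T := T) hP hQ h𝓐
  refine crit hC hM hA hT hact hr ?_ ?_ ?_
  · intro v
    by_cases hv : v ∈ P
    · exact (h1 v hv).mem hC
    · by_cases hv' : v ∈ Q
      · exact (h2 v hv').1
      · exact (h3 v hv hv').1
  · intro v a hva hinf
    by_cases hv : v ∈ P
    · obtain ⟨n, hn⟩ := (h1 v hv).iso hva hinf
      exact ⟨n, fun b hvb hinfb hab => hn b hvb hinfb fun h =>
        hab ⟨fun _ => h, fun h' => absurd hv h', fun h' => absurd hv h'⟩⟩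
    by_cases hv' : v ∈ Q
    · obtain ⟨_, _, n, hn⟩ := (h2 v hv').2 a hva hinf
      exact ⟨n, fun b hvb hinfb hab => hn b hvb hinfb fun h =>
        hab ⟨fun h' => absurd h' hv, fun _ _ => h, fun _ h' => absurd hv' h'⟩⟩
    · have h4 := h3 v hv hv'
      obtain ⟨A, hAm, hEA, -⟩ := h4.2.2 a hva hinf
      obtain ⟨n, hn⟩ := (h4.2.1 A hAm).2.2
      refine ⟨n, fun b hvb hinfb hab F hF => ?_⟩
      obtain ⟨B, hBm, hEB, -⟩ := h4.2.2 b hvb hinfb
      refine hn B hBm ?_ F fun g hg => ⟨hEA (hF g hg).1, hEB (hF g hg).2⟩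
      rintro rfl
      refine hab ⟨fun h => absurd h hv, fun _ h => absurd h hv', fun _ _ A' hA' =>
        ⟨fun h => ?_, fun h => ?_⟩⟩
      · rw [fam_uniq h4 hBm hA' hinf hEA h]
        exact hEB
      · rw [fam_uniq h4 hBm hA' hinfb hEB h]
        exact hEA
  · intro v u hvu hinf
    by_cases hv : v ∈ P
    · have h3 : ERL C G T v u := (h1 v hv).erl hC hM (hG v hv) hvu hinf
      obtain ⟨Q, _, π, hQ, h4, h5⟩ := h3
      refine ⟨Sc G v u, Q, _, π, Multiplicative ℤ, inferInstance, 1, hQ, hC.base.int, ?_, ?_, ?_⟩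
      · intro g hg h
        refine ⟨hg, ?_⟩
        show g ∈ commensurator (Es G v u)
        rw [Commensurable.commensurator_mem_iff, ← Es_smul, hg]
        exact (h.1 hv).symm
      · intro w hvw hwinf h x hx
        exact h4 w hvw hwinf (h.1 hv).symm x x.2 hx
      · intro x hxE hx
        have h6 : x ∈ Es G v u ⊓ ⁅π.ker.map (Sc G v u).subtype, π.ker.map (Sc G v u).subtype⁆ :=
          ⟨hxE, Subgroup.commutator_mono inf_le_left inf_le_left hx⟩
        rw [h5] at h6
        exact h6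
    by_cases hv' : v ∈ Q
    · obtain ⟨hcomm, hnq, -⟩ := (h2 v hv').2 u hvu hinf
      obtain ⟨A, hAd⟩ : ∃ A : Subgroup G, A = Cv v (Cv v (Es G v u)) := ⟨_, rfl⟩
      have hCA : Cv v A = Cv v (Es G v u) := by
        rw [hAd]
        exact CCCv inf_le_left
      have hnq' : NQ C v A := by
        rcases hnq with h | h
        · refine h.nq hC ?_
          rw [hCA, hAd]
        · rw [hAd]
          exact h
      obtain ⟨Q', _, π, hQ', hπ⟩ := hnq'
      refine ⟨_, Q', _, π, Multiplicative ℤ, inferInstance, 1, hQ', hC.base.int, ?_, ?_, ?_⟩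
      · intro g hg h
        refine ⟨hg, mem_nor_of ?_⟩
        have h4 : Es G v (g • u) = cj g (Es G v u) := by
          have h6 := Es_cj g v u
          rwa [hg] at h6
        have h5 := h.2.1 hv hv'
        rw [h4, Cv_cj hg] at h5
        rw [hAd, ← Cv_cj hg, ← h5]
      · intro w hvw hwinf h x hx
        rw [hπ]
        have h4 : A = Cv v (Cv v (Es G v w)) := by rw [hAd, h.2.1 hv hv']
        exact h4.ge (le_CCv inf_le_left hx)
      · intro x hxE hx
        have h4 : ∀ y ∈ π.ker.map (MulAction.stabilizer G v ⊓ normalizer (A : Set G)).subtype ⊓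
            (1 : G →* Multiplicative ℤ).ker, y ∈ A := by
          rintro y ⟨⟨z, hz, rfl⟩, -⟩
          exact (hπ z).1 hz
        have h5 : ∀ y ∈ A, ∀ z ∈ A, y * z = z * y := by
          intro y hy z hz
          have h6 : A ≤ Cv v A := by
            rw [hCA, hAd]
            refine Cv_anti ?_
            intro e he
            rw [mem_Cv]
            exact ⟨he.1, fun e' he' => hcomm e he e' he'⟩
          exact (mem_Cv.1 (h6 hy)).2 z hz
        have h6 : ⁅π.ker.map (MulAction.stabilizer G v ⊓ normalizer (A : Set G)).subtype ⊓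
            (1 : G →* Multiplicative ℤ).ker, π.ker.map
            (MulAction.stabilizer G v ⊓ normalizer (A : Set G)).subtype ⊓
            (1 : G →* Multiplicative ℤ).ker⁆ ≤ ⊥ := by
          rw [Subgroup.commutator_le]
          intro y hy z hz
          rw [mem_bot, commutatorElement_eq_one_iff_mul_comm]
          exact h5 y (h4 y hy) z (h4 z hz)
        exact mem_bot.1 (h6 hx)
    · have h4 := h3 v hv hv'
      obtain ⟨A, hAm, hEA, P', _, f, hP', hf⟩ := h4.2.2 u hvu hinf
      obtain ⟨hAs, ⟨Q', _, π, hQ', hπ⟩, -⟩ := h4.2.1 A hAm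
      refine ⟨_, Q', _, π, P', _, f, hQ', hP', ?_, ?_, ?_⟩
      · intro g hg h
        refine ⟨hg, mem_nor_of ?_⟩
        have h5 : Es G v (g • u) ≤ A := (h.2.2 hv hv' A hAm).1 hEA
        have h6 : Es G v (g • u) = cj g (Es G v u) := by
          have h6 := Es_cj g v u
          rwa [hg] at h6
        have h7 : cj g A ∈ 𝓐 v := by
          have h7 := h𝓐 g v A hAm
          rwa [hg] at h7
        have h8 : Infinite (Es G v (g • u)) := by
          have h8 := Pool.Agent.N431.CE.inf_smul (g := g) hinf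
          rwa [hg] at h8
        exact fam_uniq h4 hAm h7 h8 h5 (by
          rw [h6]
          exact cj_le.2 hEA)
      · intro w hvw hwinf h x hx
        rw [hπ]
        exact (h.2.2 hv hv' A hAm).1 hEA hx
      · intro x hxE hx
        refine hf x hxE ?_
        refine Subgroup.commutator_mono ?_ ?_ hx <;>
        · rintro y ⟨⟨z, hz, rfl⟩, hy⟩
          exact ⟨(hπ z).1 hz, hy⟩

/-- **uniform centralizers** -/
theorem uniform (hC : ClosedE C) (hM : ∀ (G : Type) [Group G], derivedSeries G 2 = ⊥ → C G)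
    (hA : AcylF C) (hT : T.IsTree)
    (hact : ∀ (g : G) (u v : V), T.Adj u v → T.Adj (g • u) (g • v))
    (hV : ∀ v : V, C ↥(MulAction.stabilizer G v) ∧ ∀ a, T.Adj v a → Infinite (Es G v a) →
      (LinS C (G := G) v ∨ NQ C v (Cv v (Cv v (Es G v a)))) ∧
      ∀ x ∈ Es G v a, x ≠ 1 → ∀ g : G, g • v = v → g * x = x * g →
        ∀ y ∈ Es G v a, g * y = y * g) : C G := by
  have hce : ∀ v a, T.Adj v a → Infinite (Es G v a) → ∀ x ∈ Es G v a, x ≠ 1 → ∀ g : G,
      g • v = v → (g * x = x * g ↔ g ∈ Cv v (Es G v a)) := by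
    intro v a hva hinf x hx hx1 g hg
    constructor
    · intro h
      exact mem_Cv.2 ⟨hg, ((hV v).2 a hva hinf).2 x hx hx1 g hg h⟩
    · intro h
      exact (mem_Cv.1 h).2 x hx
  refine tri (P := ∅) (Q := Set.univ) (𝓐 := fun _ => ∅) hC hM hA hT hact
    (fun _ _ h => absurd h (Set.notMem_empty _)) (fun _ _ _ => Set.mem_univ _)
    (fun _ _ _ h => absurd h (Set.notMem_empty _)) (fun _ h => absurd h (Set.notMem_empty _))
    (fun _ h => absurd h (Set.notMem_empty _)) ?_
    (fun v _ h => absurd (Set.mem_univ v) h)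
  intro v _
  refine ⟨(hV v).1, fun a hva hinf => ⟨?_, ((hV v).2 a hva hinf).1, 1, ?_⟩⟩
  · intro x hx y hy
    by_cases hx1 : x = 1
    · rw [hx1, one_mul, mul_one]
    · exact ((hV v).2 a hva hinf).2 x hx hx1 x hx.1 rfl y hy
  · intro b hvb hinfb hab F hF
    rw [Finset.card_le_one_iff]
    have key : ∀ g ∈ F, g = 1 := by
      intro g hg
      by_contra hg1
      obtain ⟨h1, h2⟩ := hF g hg
      apply hab
      ext z
      constructor
      · intro hz
        have hzv : z • v = v := (mem_Cv.1 hz).1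
        exact (hce v b hvb hinfb g h2 hg1 z hzv).1 ((hce v a hva hinf g h1 hg1 z hzv).2 hz)
      · intro hz
        have hzv : z • v = v := (mem_Cv.1 hz).1
        exact (hce v a hva hinf g h1 hg1 z hzv).1 ((hce v b hvb hinfb g h2 hg1 z hzv).2 hz)
    intro x y hx hy
    rw [key x hx, key y hy]

end Pool.Agent.J6H95.FJ
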