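import Pool.Agent.N509.TK.Hol
import Pool.Agent.Y179.SS.Free

/-!
# Homomorphisms from groups acting on trees to free products

Let `G` act on a tree and let `π` be a homomorphism from the stabilizer of the vertex `v` to `Q` which is
trivial on the stabilizers of the edges at `v`. Then `π` extends to a homomorphism from `G` to the free
product of `Q` and a free group.
-/

set_option autoImplicit false

namespace Pool.Agent.J6H95.FJ

open SimpleGraph
open Pool.Agent.N24.TR (wp wp_nil wp_cons gam gam_eq gam_mul gam_self shift XX kk sy sy_mul)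

section tw

variable {G V M : Type} {T : SimpleGraph V} [Group G] [MulAction G V] [Group M]

theorem wp_tw (hact : ∀ (g : G) (u v : V), T.Adj u v → T.Adj (g • u) (g • v)) (e : V → V → M)
    (c : G → V → M) (g : G)
    (h : ∀ u v, T.Adj u v → e (g • u) (g • v) = c g u * e u v * (c g v)⁻¹) {u v : V}
    (p : T.Walk u v) : wp e (p.map (shift hact g)) = c g u * wp e p * (c g v)⁻¹ := by
  induction p with
  | nil =>
    rw [wp_nil, mul_one, mul_inv_cancel]
    rfl
  | @cons a b d hab p ih =>
    rw [Walk.map_cons, wp_cons, wp_cons, ih]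
    have h1 : e ((shift hact g) a) ((shift hact g) b) = c g a * e a b * (c g b)⁻¹ := h a b hab
    rw [h1]
    group

theorem gam_tw (hT : T.IsTree) (hact : ∀ (g : G) (u v : V), T.Adj u v → T.Adj (g • u) (g • v))
    (e : V → V → M) (he : ∀ u v, T.Adj u v → e u v * e v u = 1) (c : G → V → M) (g : G)
    (h : ∀ u v, T.Adj u v → e (g • u) (g • v) = c g u * e u v * (c g v)⁻¹) (u v : V) :
    gam hT e (g • u) (g • v) = c g u * gam hT e u v * (c g v)⁻¹ := by
  obtain ⟨p⟩ := hT.connected.preconnected u v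
  rw [gam_eq hT e he p, ← wp_tw hact e c g h]
  exact gam_eq hT e he (p.map (shift hact g))

/-- the homomorphism given by twisted labels -/
noncomputable def thom (hT : T.IsTree)
    (hact : ∀ (g : G) (u v : V), T.Adj u v → T.Adj (g • u) (g • v))
    (e : V → V → M) (he : ∀ u v, T.Adj u v → e u v * e v u = 1) (c : G → V → M)
    (hc : ∀ g h u, c (g * h) u = c g (h • u) * c h u)
    (h : ∀ g u v, T.Adj u v → e (g • u) (g • v) = c g u * e u v * (c g v)⁻¹) (o : V) : G →* M :=
  MonoidHom.mk' (fun g => gam hT e o (g • o) * c g o) (by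
    intro g k
    rw [mul_smul, ← gam_mul hT e he o (g • o) (g • k • o), gam_tw hT hact e he c g (h g), hc g k o]
    group)

theorem thom_apply (hT : T.IsTree)
    (hact : ∀ (g : G) (u v : V), T.Adj u v → T.Adj (g • u) (g • v))
    (e : V → V → M) (he : ∀ u v, T.Adj u v → e u v * e v u = 1) (c : G → V → M)
    (hc : ∀ g h u, c (g * h) u = c g (h • u) * c h u)
    (h : ∀ g u v, T.Adj u v → e (g • u) (g • v) = c g u * e u v * (c g v)⁻¹) (o : V) (g : G) :
    thom hT hact e he c hc h o g = gam hT e o (g • o) * c g o := rfl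

end tw

section main

variable {G V Q : Type} {T : SimpleGraph V} [Group G] [MulAction G V] [Group Q]

open Classical in
/-- **the homomorphism to a free product** -/
theorem exists_hom (hT : T.IsTree)
    (hact : ∀ (g : G) (u v : V), T.Adj u v → T.Adj (g • u) (g • v)) (v : V)
    (π : MulAction.stabilizer G v →* Q)
    (hπ : ∀ u, T.Adj v u → ∀ x : MulAction.stabilizer G v, (x : G) • u = u → π x = 1) :
    ∃ f : G →* Monoid.Coprod Q (FreeGroup (XX (⊤ : Subgroup G) V)),
      ∀ x : MulAction.stabilizer G v, f x = Monoid.Coprod.inl (π x) := by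
  -- the homomorphism as a function on `G`
  obtain ⟨p, hp⟩ : ∃ p : G → Q, p = fun x => if h : x • v = v then π ⟨x, h⟩ else 1 := ⟨_, rfl⟩
  have hpe : ∀ x : MulAction.stabilizer G v, p x = π x := by
    intro x
    have hx : (x : G) • v = v := x.2
    rw [hp]
    simp only [hx, dite_true]
  have hpm : ∀ x y : G, x • v = v → y • v = v → p (x * y) = p x * p y := by
    intro x y hx hy
    have h1 := hpe (⟨x, hx⟩ * ⟨y, hy⟩)
    rw [map_mul, ← hpe, ← hpe] at h1
    exact h1
  have hpu : ∀ u, T.Adj v u → ∀ x : G, x • v = v → x • u = u → p x = 1 := by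
    intro u hu x hx hxu
    have h1 := hpe ⟨x, hx⟩
    rw [hπ u hu ⟨x, hx⟩ hxu] at h1
    exact h1
  -- the representatives
  obtain ⟨s, hs, hsv⟩ : ∃ s : V → G, (∀ u, (∃ g : G, g • v = u) → s u • v = u) ∧ s v = 1 := by
    refine ⟨fun u => if h : u = v then 1 else if h : ∃ g : G, g • v = u then h.choose else 1,
      fun u hu => ?_, ?_⟩
    · by_cases h : u = v
      · simp only [h, dite_true]
        exact one_smul G v
      · simp only [h, dite_false, hu, dite_true]
        exact hu.choose_spec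
    · simp
  have horb : ∀ (g : G) (u : V), (∃ k : G, k • v = g • u) ↔ ∃ k : G, k • v = u := by
    intro g u
    constructor
    · rintro ⟨k, hk⟩
      exact ⟨g⁻¹ * k, by rw [mul_smul, hk, inv_smul_smul]⟩
    · rintro ⟨k, hk⟩
      exact ⟨g * k, by rw [mul_smul, hk]⟩
  have hst : ∀ (g : G) (u : V), (∃ k : G, k • v = u) → ((s (g • u))⁻¹ * g * s u) • v = v := by
    intro g u hu
    rw [mul_smul, mul_smul, hs u hu]
    exact inv_smul_eq_iff.2 (hs _ ((horb g u).2 hu)).symm
  -- the cocycle
  obtain ⟨c, hc⟩ : ∃ c : G → V → Monoid.Coprod Q (FreeGroup (XX (⊤ : Subgroup G) V)),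
      c = fun g u => if ∃ k : G, k • v = u then Monoid.Coprod.inl (p ((s (g • u))⁻¹ * g * s u))
        else 1 := ⟨_, rfl⟩
  have hc1 : ∀ g u, (∃ k : G, k • v = u) →
      c g u = Monoid.Coprod.inl (p ((s (g • u))⁻¹ * g * s u)) := by
    intro g u hu
    rw [hc]
    exact if_pos hu
  have hc2 : ∀ g u, (¬ ∃ k : G, k • v = u) → c g u = 1 := by
    intro g u hu
    rw [hc]
    exact if_neg hu
  have hcc : ∀ g h u, c (g * h) u = c g (h • u) * c h u := by
    intro g h u
    by_cases hu : ∃ k : G, k • v = u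
    · rw [hc1 _ _ hu, hc1 _ _ hu, hc1 _ _ ((horb h u).2 hu), ← map_mul,
        ← hpm _ _ (hst g (h • u) ((horb h u).2 hu)) (hst h u hu), mul_smul]
      congr 2
      group
    · rw [hc2 _ _ hu, hc2 _ _ hu, hc2 _ _ (fun h' => hu ((horb h u).1 h')), one_mul]
  -- the coordinates of the edges at `v`
  obtain ⟨t, r, ht⟩ : ∃ (t : V → G) (r : V → V), (∀ w, t w • v = v ∧ t w • r w = w) ∧
      ∀ (k : G) (w : V), k • v = v → r (k • w) = r w := by
    have h1 : ∀ w : V, ∃ k : MulAction.stabilizer G v,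
        k • (Quotient.out (Quotient.mk (MulAction.orbitRel (MulAction.stabilizer G v) V) w)) = w := by
      intro w
      have h2 := Quotient.mk_out (s := MulAction.orbitRel (MulAction.stabilizer G v) V) w
      obtain ⟨k, hk⟩ := (MulAction.orbitRel (MulAction.stabilizer G v) V).symm h2
      exact ⟨k, hk⟩
    choose k hk using h1
    refine ⟨fun w => k w, fun w => Quotient.out
      (Quotient.mk (MulAction.orbitRel (MulAction.stabilizer G v) V) w),
      fun w => ⟨(k w).2, hk w⟩, fun a w ha => ?_⟩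
    have h3 : (Quotient.mk (MulAction.orbitRel (MulAction.stabilizer G v) V) (a • w)) =
        Quotient.mk (MulAction.orbitRel (MulAction.stabilizer G v) V) w :=
      Quotient.sound ⟨⟨a, ha⟩, rfl⟩
    show Quotient.out (Quotient.mk _ (a • w)) = Quotient.out (Quotient.mk _ w)
    rw [h3]
  obtain ⟨ht, hr⟩ := ht
  have htm : ∀ (k : G) (w : V), k • v = v → T.Adj v w → p (t (k • w)) = p k * p (t w) := by
    intro k w hk hw
    have hrw : T.Adj v (r w) := by
      have h1 := hact (t w)⁻¹ v w hw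
      rw [inv_smul_eq_iff.2 (ht w).1.symm, inv_smul_eq_iff.2 (ht w).2.symm] at h1
      exact h1
    have h1 : ((t (k • w))⁻¹ * (k * t w)) • v = v := by
      rw [mul_smul, mul_smul, (ht w).1, hk]
      exact inv_smul_eq_iff.2 (ht _).1.symm
    have h2 : ((t (k • w))⁻¹ * (k * t w)) • r w = r w := by
      rw [mul_smul, mul_smul, (ht w).2]
      refine inv_smul_eq_iff.2 ?_
      have h3 := (ht (k • w)).2
      rw [hr k w hk] at h3
      exact h3.symm
    have h3 := hpu _ hrw _ h1 h2
    have h4 := hpm (t (k • w)) ((t (k • w))⁻¹ * (k * t w)) (ht _).1 h1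
    rw [h3, mul_one, mul_inv_cancel_left, hpm k (t w) hk (ht w).1] at h4
    exact h4.symm
  obtain ⟨a, ha⟩ : ∃ a : V → V → Monoid.Coprod Q (FreeGroup (XX (⊤ : Subgroup G) V)),
      a = fun u w => if ∃ k : G, k • v = u then Monoid.Coprod.inl (p (t ((s u)⁻¹ • w)))
        else 1 := ⟨_, rfl⟩
  have hac : ∀ (g : G) (u w : V), T.Adj u w → a (g • u) (g • w) = c g u * a u w := by
    intro g u w huw
    by_cases hu : ∃ k : G, k • v = u
    · have h1 : a u w = Monoid.Coprod.inl (p (t ((s u)⁻¹ • w))) := by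
        rw [ha]
        exact if_pos hu
      have h2 : a (g • u) (g • w) = Monoid.Coprod.inl (p (t ((s (g • u))⁻¹ • g • w))) := by
        rw [ha]
        exact if_pos ((horb g u).2 hu)
      have h3 : T.Adj v ((s u)⁻¹ • w) := by
        have h4 := hact (s u)⁻¹ u w huw
        rwa [inv_smul_eq_iff.2 (hs u hu).symm] at h4
      rw [h1, h2, hc1 g u hu, ← map_mul, ← htm _ _ (hst g u hu) h3]
      congr 3
      rw [mul_smul, mul_smul, smul_inv_smul]
    · have h1 : a u w = 1 := by
        rw [ha]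
        exact if_neg hu
      have h2 : a (g • u) (g • w) = 1 := by
        rw [ha]
        exact if_neg (fun h' => hu ((horb g u).1 h'))
      rw [h1, h2, hc2 g u hu, one_mul]
  -- the labels
  obtain ⟨e, he⟩ : ∃ e : V → V → Monoid.Coprod Q (FreeGroup (XX (⊤ : Subgroup G) V)),
      e = fun u w => a u w * Monoid.Coprod.inr (sy (kk (⊤ : Subgroup G)) u w) * (a w u)⁻¹ := ⟨_, rfl⟩
  have hee : ∀ u w, T.Adj u w → e u w * e w u = 1 := by
    intro u w _
    rw [he]
    show a u w * Monoid.Coprod.inr (sy (kk (⊤ : Subgroup G)) u w) * (a w u)⁻¹ *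
      (a w u * Monoid.Coprod.inr (sy (kk (⊤ : Subgroup G)) w u) * (a u w)⁻¹) = 1
    have h1 : (Monoid.Coprod.inr (sy (kk (⊤ : Subgroup G)) u w) :
        Monoid.Coprod Q (FreeGroup (XX (⊤ : Subgroup G) V))) *
        Monoid.Coprod.inr (sy (kk (⊤ : Subgroup G)) w u) = 1 := by
      rw [← map_mul, sy_mul, map_one]
    calc _ = a u w * ((Monoid.Coprod.inr (sy (kk (⊤ : Subgroup G)) u w) :
        Monoid.Coprod Q (FreeGroup (XX (⊤ : Subgroup G) V))) *
        Monoid.Coprod.inr (sy (kk (⊤ : Subgroup G)) w u)) * (a u w)⁻¹ := by group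
      _ = 1 := by rw [h1, mul_one, mul_inv_cancel]
  have hkk : ∀ (g : G) (u w : V), kk (⊤ : Subgroup G) (g • u) (g • w) = kk (⊤ : Subgroup G) u w :=
    fun g u w => Quotient.sound ⟨g⁻¹, Subgroup.mem_top _, by
      show (g⁻¹ • g • u, g⁻¹ • g • w) = (u, w)
      rw [inv_smul_smul, inv_smul_smul]⟩
  have hsy : ∀ (g : G) (u w : V), sy (kk (⊤ : Subgroup G)) (g • u) (g • w) =
      sy (kk (⊤ : Subgroup G)) u w := by
    intro g u w
    unfold sy
    rw [hkk, hkk]
  have hec : ∀ g u w, T.Adj u w → e (g • u) (g • w) = c g u * e u w * (c g w)⁻¹ := by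
    intro g u w huw
    rw [he]
    show a (g • u) (g • w) * Monoid.Coprod.inr (sy (kk (⊤ : Subgroup G)) (g • u) (g • w)) *
      (a (g • w) (g • u))⁻¹ = c g u * (a u w * Monoid.Coprod.inr (sy (kk (⊤ : Subgroup G)) u w) *
        (a w u)⁻¹) * (c g w)⁻¹
    rw [hac g u w huw, hac g w u huw.symm, hsy]
    group
  refine ⟨thom hT hact e hee c hcc hec v, fun x => ?_⟩
  have hx : (x : G) • v = v := x.2
  rw [thom_apply, hx, gam_self hT e hee, one_mul, hc1 _ _ ⟨1, one_smul G v⟩, hx, hsv]
  have h1 : (1 : G)⁻¹ * (x : G) * 1 = x := by group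
  rw [h1, hpe]

end main

end Pool.Agent.J6H95.FJ
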